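import Pool.Agent.Mg.F418f02a.G1f92f1

set_option linter.all false

section

/-! Kernels of functions on the sphere: Lipschitz bounds and linearity. -/

open MeasureTheory Set
open scoped ENNReal

namespace Pool.Agent.MP_418f02_an

variable {d : ℕ}

/-- the annulus that carries the unit scale kernel -/
def ann (d : ℕ) : Set (E d) := {y | 1 ≤ ‖y‖ ∧ ‖y‖ ≤ 2}

theorem ann_meas : MeasurableSet (ann d) :=
  (measurableSet_le measurable_const measurable_norm).inter
    (measurableSet_le measurable_norm measurable_const)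

theorem ann_unit {y : E d} (h : y ∈ ann d) : ‖‖y‖⁻¹ • y‖ = 1 := by
  have h0 : 0 < ‖y‖ := one_pos.trans_le h.1
  rw [norm_smul, norm_inv, norm_norm, inv_mul_cancel₀ h0.ne']

theorem term_ii {k : E d → ℝ} (h : IsKer k) {l : ℝ} (hl : 0 < l) (y : E d) :
    IntervalIntegrable (fun s : ℝ => ((l * s) ^ d)⁻¹ * k ((l * s)⁻¹ • y) / s) volume 1 2 := by
  rw [intervalIntegrable_iff_integrableOn_Ioc_of_le one_le_two]
  refine Measure.integrableOn_of_bounded (M := (l ^ d)⁻¹) (by simp)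
    ((ker_term_meas h.meas l).of_uncurry_left (x := y)).aestronglyMeasurable ?_
  filter_upwards [ae_restrict_mem measurableSet_Ioc] with s hs
  exact ker_term_le h hl hs.1.le y

theorem ind_ii (α β : ℝ) : IntervalIntegrable ((uIcc α β).indicator fun _ => (1 : ℝ)) volume 1 2 :=
  ((integrable_indicator_iff measurableSet_uIcc).2
    (integrableOn_const (by rw [Real.volume_interval]; simp))).intervalIntegrable

theorem ind_int (α β : ℝ) :
    ∫ s in (1 : ℝ)..2, (uIcc α β).indicator (fun _ => (1 : ℝ)) s ≤ |β - α| := by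
  rw [intervalIntegral.integral_of_le one_le_two]
  refine (setIntegral_le_integral ((integrable_indicator_iff measurableSet_uIcc).2
    (integrableOn_const (by rw [Real.volume_interval]; simp)))
    (Filter.Eventually.of_forall fun s => indicator_nonneg (fun _ _ => zero_le_one) s)).trans ?_
  rw [integral_indicator measurableSet_uIcc, setIntegral_const, Real.volume_real_interval]
  simp

theorem lipK_ann {k : E d → ℝ} (h : IsKer k) {Λ : ℝ} (hΛ : 0 ≤ Λ) (h0 : ∀ y, y ∉ ann d → k y = 0)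
    (h1 : ∀ y ∈ ann d, ∀ y' ∈ ann d, |k y - k y'| ≤ Λ * ‖y - y'‖) : LipK k (Λ + 2) := by
  intro y y'
  set M : ℝ → ℝ := fun s => Λ * ‖y - y'‖ + (uIcc ‖y‖ ‖y'‖).indicator (fun _ => (1 : ℝ)) s +
    (uIcc (‖y‖ / 2) (‖y'‖ / 2)).indicator (fun _ => (1 : ℝ)) s with hM
  have i1 : ∀ (α β s : ℝ), 0 ≤ (uIcc α β).indicator (fun _ => (1 : ℝ)) s := fun α β s =>
    indicator_nonneg (fun _ _ => zero_le_one) s
  have hδ : 0 ≤ Λ * ‖y - y'‖ := by positivity
  have hmem : ∀ s : ℝ, 1 ≤ s → ∀ z : E d, (s⁻¹ • z ∈ ann d ↔ s ≤ ‖z‖ ∧ ‖z‖ / 2 ≤ s) :=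
    fun s hs z => by
      have hs0 : 0 < s := one_pos.trans_le hs
      simp only [ann, mem_ofPred_eq, norm_smul, norm_inv, Real.norm_of_nonneg hs0.le]
      rw [le_inv_mul_iff₀ hs0, inv_mul_le_iff₀ hs0]
      constructor <;> rintro ⟨a, b⟩ <;> constructor <;> linarith
  have mixed : ∀ s : ℝ, 1 ≤ s → ¬ (s⁻¹ • y ∈ ann d ↔ s⁻¹ • y' ∈ ann d) → 1 ≤ M s :=
    fun s hs hn => by
      rw [hmem s hs, hmem s hs] at hn
      have : s ∈ uIcc ‖y‖ ‖y'‖ ∨ s ∈ uIcc (‖y‖ / 2) (‖y'‖ / 2) := by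
        simp only [mem_uIcc]
        by_contra hc
        push Not at hc
        obtain ⟨⟨a, b⟩, c, e⟩ := hc
        refine hn ⟨fun ⟨u, v⟩ => ⟨?_, ?_⟩, fun ⟨u, v⟩ => ⟨?_, ?_⟩⟩
        · by_contra hh
          linarith [b (not_le.1 hh).le]
        · by_contra hh
          linarith [c v, not_le.1 hh]
        · by_contra hh
          linarith [a (not_le.1 hh).le]
        · by_contra hh
          linarith [e v, not_le.1 hh]
      rcases this with h2 | h2
      · have := i1 (‖y‖ / 2) (‖y'‖ / 2) s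
        simp only [hM, indicator_of_mem h2]
        linarith
      · have := i1 ‖y‖ ‖y'‖ s
        simp only [hM, indicator_of_mem h2]
        linarith
  have key : ∀ s : ℝ, 1 ≤ s → |k (s⁻¹ • y) - k (s⁻¹ • y')| ≤ M s := fun s hs => by
    have hs0 : 0 < s := one_pos.trans_le hs
    have m0 : Λ * ‖y - y'‖ ≤ M s := by
      have := i1 (‖y‖ / 2) (‖y'‖ / 2) s
      have := i1 ‖y‖ ‖y'‖ s
      simp only [hM]
      linarith
    by_cases a : s⁻¹ • y ∈ ann d <;> by_cases b : s⁻¹ • y' ∈ ann d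
    · refine (h1 _ a _ b).trans (le_trans ?_ m0)
      rw [← smul_sub, norm_smul, norm_inv, Real.norm_of_nonneg hs0.le]
      exact mul_le_mul_of_nonneg_left
        (mul_le_of_le_one_left (norm_nonneg _) (inv_le_one_of_one_le₀ hs)) hΛ
    · rw [h0 _ b, sub_zero]
      exact (h.bdd _).trans (mixed s hs fun e => b (e.1 a))
    · rw [h0 _ a, zero_sub, abs_neg]
      exact (h.bdd _).trans (mixed s hs fun e => a (e.2 b))
    · rw [h0 _ a, h0 _ b, sub_zero, abs_zero]
      exact hδ.trans m0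
  have hc : IntervalIntegrable (fun _ : ℝ => Λ * ‖y - y'‖) volume 1 2 := intervalIntegrable_const
  unfold KK
  rw [← intervalIntegral.integral_sub (term_ii h one_pos y) (term_ii h one_pos y'),
    ← Real.norm_eq_abs]
  refine (intervalIntegral.norm_integral_le_of_norm_le (g := M) one_le_two
    (Filter.Eventually.of_forall fun s hs => ?_)
    ((hc.add (ind_ii _ _)).add (ind_ii _ _))).trans ?_
  · have hs1 : 1 ≤ s := hs.1.le
    have hs0 : 0 < s := one_pos.trans_le hs1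
    rw [Real.norm_eq_abs, one_mul, ← sub_div, ← mul_sub, abs_div, abs_mul, abs_of_pos hs0,
      abs_of_pos (by positivity : 0 < (s ^ d)⁻¹)]
    refine (div_le_self (by positivity) hs1).trans (le_trans ?_ (key s hs1))
    exact mul_le_of_le_one_left (abs_nonneg _) (inv_le_one_of_one_le₀ (one_le_pow₀ hs1))
  · simp only [hM]
    rw [intervalIntegral.integral_add (hc.add (ind_ii _ _)) (ind_ii _ _),
      intervalIntegral.integral_add hc (ind_ii _ _), intervalIntegral.integral_const]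
    have a := ind_int ‖y‖ ‖y'‖
    have b := ind_int (‖y‖ / 2) (‖y'‖ / 2)
    have c := abs_norm_sub_norm_le y' y
    rw [norm_sub_rev] at c
    rw [← sub_div, abs_div, abs_two] at b
    have := norm_nonneg (y - y')
    norm_num
    linarith

theorem unit_lip {u v : E d} (hu : u ∈ ann d) (hv : v ∈ ann d) :
    ‖‖u‖⁻¹ • u - ‖v‖⁻¹ • v‖ ≤ 2 * ‖u - v‖ := by
  have h0 : 0 < ‖u‖ := one_pos.trans_le hu.1
  have h1 : 0 < ‖v‖ := one_pos.trans_le hv.1
  have h2 : ‖u‖⁻¹ ≤ 1 := inv_le_one_of_one_le₀ hu.1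
  have e : ‖u‖⁻¹ • u - ‖v‖⁻¹ • v = ‖u‖⁻¹ • (u - v) + (‖u‖⁻¹ * ((‖v‖ - ‖u‖) * ‖v‖⁻¹)) • v := by
    rw [show ‖u‖⁻¹ * ((‖v‖ - ‖u‖) * ‖v‖⁻¹) = ‖u‖⁻¹ - ‖v‖⁻¹ by field_simp, smul_sub, sub_smul]
    abel
  have c := abs_norm_sub_norm_le v u
  rw [norm_sub_rev] at c
  rw [e]
  refine (norm_add_le _ _).trans ?_
  rw [norm_smul, norm_smul, norm_inv, norm_norm, norm_mul, norm_mul, norm_inv, norm_inv, norm_norm,
    norm_norm, Real.norm_eq_abs, mul_assoc, mul_assoc, inv_mul_cancel₀ h1.ne', mul_one]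
  have a := mul_le_of_le_one_left (norm_nonneg (u - v)) h2
  have b := mul_le_of_le_one_left (abs_nonneg (‖v‖ - ‖u‖)) h2
  linarith

theorem isKer_kO' {F : E d → ℝ} {c : ℝ} (hF : Measurable F) (hc : 0 < c)
    (hb : ∀ u, ‖u‖ = 1 → |F u| ≤ c) (h0 : ∫ y in ann d, F (‖y‖⁻¹ • y) = 0) : IsKer (kO F c) := by
  refine ⟨((lim_meas hF).div_const c).indicator ann_meas, fun y => ?_, fun y hy => ?_, ?_⟩
  · by_cases hy : y ∈ ann d
    · rw [kO, indicator_of_mem (by exact hy), abs_div, abs_of_pos hc, div_le_one hc]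
      exact hb _ (ann_unit hy)
    · rw [kO, indicator_of_notMem (by exact hy)]; simp
  · exact indicator_of_notMem (fun h => absurd h.2 (not_le.2 hy)) _
  · have := integral_indicator (f := fun y : E d => F (‖y‖⁻¹ • y) / c) (μ := volume)
      (ann_meas (d := d))
    rw [integral_div, h0, zero_div] at this
    exact this

theorem lipK_kO {F : E d → ℝ} {c Λ : ℝ} (hk : IsKer (kO F c)) (hc : 0 < c) (hΛ : 0 ≤ Λ)
    (hl : ∀ u v, |F u - F v| ≤ Λ * ‖u - v‖) : LipK (kO F c) (2 * Λ / c + 2) := by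
  refine lipK_ann hk (by positivity) (fun y hy => indicator_of_notMem (by exact hy) _)
    fun y hy y' hy' => ?_
  rw [kO, indicator_of_mem (by exact hy), indicator_of_mem (by exact hy'), ← sub_div, abs_div,
    abs_of_pos hc, div_mul_eq_mul_div]
  refine div_le_div_of_nonneg_right ((hl _ _).trans ?_) hc.le
  rw [mul_comm 2, mul_assoc]
  exact mul_le_mul_of_nonneg_left (unit_lip hy hy') hΛ

theorem LipK.mono {k : E d → ℝ} {Λ Λ' : ℝ} (h : LipK k Λ) (h' : Λ ≤ Λ') : LipK k Λ' :=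
  fun y y' => (h y y').trans (mul_le_mul_of_nonneg_right h' (norm_nonneg _))

theorem TT_ker_sum {ι : Type} {s : Finset ι} {k : E d → ℝ} {κ : ι → E d → ℝ} {c : ι → ℝ}
    (hκ : ∀ i ∈ s, IsKer (κ i)) (e : ∀ y, k y = ∑ i ∈ s, c i * κ i y) {f : E d → ℝ}
    (hf : Nice f) (a b : ℤ) (x : E d) : TT k a b f x = ∑ i ∈ s, c i * TT (κ i) a b f x := by
  have e1 : ∀ l, 0 < l → ∀ y, KK k l y = ∑ i ∈ s, c i * KK (κ i) l y := fun l hl y => by
    unfold KK
    simp only [← intervalIntegral.integral_const_mul]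
    rw [← intervalIntegral.integral_finsetSum fun i hi => (term_ii (hκ i hi) hl y).const_mul _]
    congr 1
    funext t
    rw [e, Finset.mul_sum, Finset.sum_div]
    exact Finset.sum_congr rfl fun i _ => by ring
  simp only [TT, ps, Finset.mul_sum]
  rw [Finset.sum_comm]
  refine Finset.sum_congr rfl fun j _ => ?_
  unfold cv
  simp only [← integral_const_mul]
  rw [← integral_finsetSum _ fun i hi =>
    (cv_int (KK_nice (hκ i hi) (cv_pos j)) hf x).const_mul _]
  congr 1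
  funext y
  rw [e1 _ (cv_pos j), Finset.sum_mul]
  exact Finset.sum_congr rfl fun i _ => by ring

theorem kb_sum {ι : Type} {s : Finset ι} {k : E d → ℝ} {κ : ι → E d → ℝ} {c B : ι → ℝ} {p : ℝ}
    (hp : 1 ≤ p) (hκ : ∀ i ∈ s, IsKer (κ i)) (e : ∀ y, k y = ∑ i ∈ s, c i * κ i y)
    (hc : ∀ i ∈ s, 0 ≤ c i) (hB : ∀ i ∈ s, 0 ≤ B i) (h : ∀ i ∈ s, KB (κ i) p (B i)) :
    KB k p (∑ i ∈ s, c i * B i) := fun w f A a b hw hf => by
  have hA : 0 < A := zero_lt_one.trans_le hw.one_le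
  have e1 : TT k a b f = ∑ i ∈ s, c i • TT (κ i) a b f := by
    funext x
    rw [TT_ker_sum hκ e hf, Finset.sum_apply]
    rfl
  rw [e1, Finset.sum_mul, ENNReal.ofReal_sum_of_nonneg fun i hi =>
    mul_nonneg (mul_nonneg (hc i hi) (hB i hi)) hA.le, Finset.sum_mul]
  refine (eLpNorm_sum_le (fun i hi =>
    ((TT_nice (hκ i hi) hf a b).meas.const_smul (c i)).aestronglyMeasurable)
    (by simpa using hp)).trans (Finset.sum_le_sum fun i hi => ?_)
  rw [eLpNorm_const_smul, Real.enorm_eq_ofReal (hc i hi), mul_assoc (c i),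
    ENNReal.ofReal_mul (hc i hi), mul_assoc]
  exact mul_le_mul_right (h i hi w f A a b hw hf) _

end Pool.Agent.MP_418f02_an

end

section

/-! Decomposition of a function on the sphere into Lipschitz pieces. -/

open MeasureTheory Set
open scoped ENNReal

namespace Pool.Agent.MP_418f02_an

variable {d : ℕ}

theorem sph_ne (hd : 1 ≤ d) : Nonempty {v : E d // ‖v‖ = 1} :=
  ⟨⟨EuclideanSpace.single ⟨0, hd⟩ 1, by simp⟩⟩

theorem ann_fin : volume (ann d) ≠ ∞ :=
  ((measure_mono fun _ hy => hy.2).trans_lt (ker_ball_lt 2)).ne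

theorem ann_pos (hd : 1 ≤ d) : 0 < volume.real (ann d) := by
  obtain ⟨v, hv⟩ := sph_ne hd
  have ho : IsOpen {y : E d | 1 < ‖y‖ ∧ ‖y‖ < 2} :=
    (isOpen_lt continuous_const continuous_norm).inter (isOpen_lt continuous_norm continuous_const)
  have h := ho.measure_pos volume ⟨(3 / 2 : ℝ) • v, by
    simp only [mem_ofPred_eq, norm_smul, hv]
    norm_num⟩
  exact ENNReal.toReal_pos (h.trans_le (measure_mono fun y hy =>
    show y ∈ ann d from ⟨hy.1.le, hy.2.le⟩)).ne' ann_fin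

/-- the mean over the sphere -/
noncomputable def mn (F : E d → ℝ) : ℝ := (∫ y in ann d, F (‖y‖⁻¹ • y)) / volume.real (ann d)

theorem sph_int {F : E d → ℝ} {c : ℝ} (hF : Measurable F) (hb : ∀ u, ‖u‖ = 1 → |F u| ≤ c) :
    IntegrableOn (fun y : E d => F (‖y‖⁻¹ • y)) (ann d) := by
  refine Measure.integrableOn_of_bounded (M := c) ann_fin (lim_meas hF).aestronglyMeasurable ?_
  filter_upwards [ae_restrict_mem ann_meas] with y hy
  exact hb _ (ann_unit hy)

theorem mn_le (hd : 1 ≤ d) {F : E d → ℝ} {c : ℝ} (hb : ∀ u, ‖u‖ = 1 → |F u| ≤ c) :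
    |mn F| ≤ c := by
  have h := ann_pos hd
  rw [mn, abs_div, abs_of_pos h, div_le_iff₀ h]
  exact norm_setIntegral_le_of_norm_le_const (f := fun y : E d => F (‖y‖⁻¹ • y)) ann_fin.lt_top
    fun y hy => hb _ (ann_unit hy)

theorem isKer_ctr (hd : 1 ≤ d) {F : E d → ℝ} {c : ℝ} (hF : Measurable F) (hc : 0 < c)
    (hb : ∀ u, ‖u‖ = 1 → |F u| ≤ c) : IsKer (kO (fun u => F u - mn F) (2 * c)) := by
  refine isKer_kO' (hF.sub_const _) (by positivity) (fun u hu => ?_) ?_
  · have := abs_sub (F u) (mn F)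
    linarith [hb u hu, mn_le hd hb]
  · rw [integral_sub (sph_int hF hb) (integrableOn_const ann_fin), setIntegral_const, smul_eq_mul,
      mn, mul_div_cancel₀ _ (ann_pos hd).ne', sub_self]

/-- Lipschitz approximation from below -/
noncomputable def app (Ω : E d → ℝ) (Λ : ℝ) (u : E d) : ℝ :=
  ⨅ v : {v : E d // ‖v‖ = 1}, (Ω v + Λ * ‖u - v‖)

theorem app_le {Ω : E d → ℝ} {M Λ : ℝ} (hM : ∀ x, |Ω x| ≤ M) (hΛ : 0 ≤ Λ) (u : E d)
    (v : {v : E d // ‖v‖ = 1}) : app Ω Λ u ≤ Ω v + Λ * ‖u - v‖ := by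
  refine ciInf_le ⟨-M, ?_⟩ v
  rintro _ ⟨z, rfl⟩
  have : 0 ≤ Λ * ‖u - z‖ := by positivity
  linarith [(abs_le.1 (hM z)).1]

theorem app_lip (hd : 1 ≤ d) {Ω : E d → ℝ} {M Λ : ℝ} (hM : ∀ x, |Ω x| ≤ M) (hΛ : 0 ≤ Λ)
    (u u' : E d) : |app Ω Λ u - app Ω Λ u'| ≤ Λ * ‖u - u'‖ := by
  have := sph_ne hd
  have key : ∀ a b : E d, app Ω Λ a - Λ * ‖a - b‖ ≤ app Ω Λ b := fun a b => le_ciInf fun v => by
    have h1 := app_le hM hΛ a v
    have h2 := mul_le_mul_of_nonneg_left (norm_sub_le_norm_sub_add_norm_sub a b v) hΛ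
    linarith
  have h1 := key u u'
  have h2 := key u' u
  rw [norm_sub_rev] at h2
  exact abs_le.2 ⟨by linarith, by linarith⟩

theorem app_err (hd : 1 ≤ d) {Ω : E d → ℝ} {M t ω : ℝ} (hM : ∀ x, |Ω x| ≤ M)
    (h : ∀ u v, ‖u‖ = 1 → ‖v‖ = 1 → ‖u - v‖ ≤ Real.exp (-t) → |Ω u - Ω v| ≤ ω) {u : E d}
    (hu : ‖u‖ = 1) : |Ω u - app Ω (2 * M * Real.exp t) u| ≤ ω := by
  have := sph_ne hd
  have hM0 : 0 ≤ M := (abs_nonneg _).trans (hM 0)
  have hω : 0 ≤ ω := (abs_nonneg _).trans (h u u hu hu (by simpa using (Real.exp_pos _).le))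
  have h1 := app_le hM (show 0 ≤ 2 * M * Real.exp t by positivity) u ⟨u, hu⟩
  have h2 : Ω u - ω ≤ app Ω (2 * M * Real.exp t) u := le_ciInf fun v => by
    rcases le_total ‖u - v‖ (Real.exp (-t)) with h3 | h3
    · have : 0 ≤ 2 * M * Real.exp t * ‖u - v‖ := by positivity
      linarith [(abs_le.1 (h u v hu v.2 h3)).2]
    · have h4 : 2 * M * Real.exp t * Real.exp (-t) ≤ 2 * M * Real.exp t * ‖u - v‖ := by gcongr
      rw [mul_assoc, ← Real.exp_add, add_neg_cancel, Real.exp_zero] at h4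
      linarith [(abs_le.1 (hM v)).1, (abs_le.1 (hM u)).2]
  simp only [sub_self, norm_zero, mul_zero, add_zero] at h1
  exact abs_le.2 ⟨by linarith, by linarith⟩

theorem dec_exp {M c x : ℝ} (hM : 0 < M) (hx : 1 ≤ x) (hc : M / x ^ 2 ≤ c) :
    2 * (4 * M * Real.exp x) / (2 * c) + 2 ≤ Real.exp ((3 * √x) ^ 2) := by
  have hc0 : 0 < c := lt_of_lt_of_le (by positivity) hc
  have h1 : x ≤ Real.exp x := by linarith [Real.add_one_le_exp x]
  have h2 : 1 ≤ Real.exp x := hx.trans h1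
  have h3 : 2 * (4 * M * Real.exp x) / (2 * c) ≤ 4 * Real.exp x ^ 3 := by
    rw [div_le_iff₀ (by positivity)] at hc ⊢
    have h4 : c * x ^ 2 ≤ c * Real.exp x ^ 2 := by gcongr
    nlinarith
  have h5 : 2 ≤ Real.exp x := by linarith [Real.add_one_le_exp x]
  have h6 : Real.exp ((3 * √x) ^ 2) = Real.exp x ^ 3 * Real.exp x ^ 6 := by
    rw [mul_pow, Real.sq_sqrt (by linarith), ← pow_add, ← Real.exp_nat_mul]
    norm_num
  have h7 : 1 ≤ Real.exp x ^ 3 := one_le_pow₀ h2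
  have h8 : (2 : ℝ) ^ 6 ≤ Real.exp x ^ 6 := by gcongr
  rw [h6]
  nlinarith

theorem kb_mod (hd : 1 ≤ d) : ∃ C : ℝ, 0 < C ∧ ∀ (Ω : E d → ℝ) (M : ℝ), Measurable Ω → 0 < M →
    (∀ x, |Ω x| ≤ M) → ∫ y in ann d, Ω (‖y‖⁻¹ • y) = 0 → ∀ ω : ℕ → ℝ,
    (∀ (i : ℕ) u v, ‖u‖ = 1 → ‖v‖ = 1 → ‖u - v‖ ≤ Real.exp (-2 ^ i) → |Ω u - Ω v| ≤ ω i) →
    ∀ p : ℝ, 1 < p → ∀ I : ℕ, (p / (p - 1)) ^ 2 ≤ 2 ^ I → KB (kO Ω M) p
      (C * p * (p / (p - 1)) * (M + ∑ i ∈ Finset.range (I + 1), √(2 ^ i) * ω i) / M) := by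
  obtain ⟨C, hC, H⟩ := kb_main hd
  refine ⟨18 * C, by positivity, fun Ω M hΩ hM hb h0 ω hω p hp I hI => ?_⟩
  obtain ⟨v₀, hv₀⟩ := sph_ne hd
  have hω0 : ∀ i, 0 ≤ ω i := fun i =>
    (abs_nonneg _).trans (hω i v₀ v₀ hv₀ hv₀ (by simpa using (Real.exp_pos _).le))
  set q := p / (p - 1) with hq
  have hq0 : 0 < q := div_pos (by linarith) (by linarith)
  set A : ℕ → E d → ℝ := fun i => Nat.casesOn i (fun _ => 0) fun j =>
    if j ≤ I then app Ω (2 * M * Real.exp (2 ^ j)) else Ω with hA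
  set e : ℕ → ℝ := fun i => Nat.casesOn i M fun j => if j ≤ I then ω j else 0 with he
  have he0 : ∀ i, 0 ≤ e i := fun i => by
    rcases i with _ | j
    · exact hM.le
    · simp only [he]
      split_ifs
      exacts [hω0 j, le_rfl]
  have hAl : ∀ i j : ℕ, i ≤ j + 1 → j ≤ I → ∀ u v,
      |A i u - A i v| ≤ 2 * M * Real.exp (2 ^ j) * ‖u - v‖ := fun i j h1 h2 u v => by
    rcases i with _ | i
    · simp only [hA, Nat.rec_zero, sub_self, abs_zero]
      positivity
    · simp only [hA, if_pos (show i ≤ I by omega)]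
      refine (app_lip hd hb (by positivity) u v).trans ?_
      gcongr
      exacts [one_le_two, by omega]
  have hAm : ∀ i, Measurable (A i) := fun i => by
    rcases i with _ | j
    · exact measurable_const
    · by_cases hj : j ≤ I
      · refine (LipschitzWith.of_dist_le' (K := 2 * M * Real.exp (2 ^ j)) fun u v => ?_
          ).continuous.measurable
        rw [Real.dist_eq, dist_eq_norm]
        exact hAl _ j le_rfl hj u v
      · simpa only [hA, if_neg hj] using hΩ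
  have hAe : ∀ i u, ‖u‖ = 1 → |Ω u - A i u| ≤ e i := fun i u hu => by
    rcases i with _ | j
    · simpa [hA, he] using hb u
    · by_cases hj : j ≤ I
      · simp only [hA, he, if_pos hj]
        exact app_err hd hb (hω j) hu
      · simp [hA, he, hj]
  set F : ℕ → E d → ℝ := fun i u => A (i + 1) u - A i u with hF
  set c : ℕ → ℝ := fun i => e i + e (i + 1) + M / (2 ^ i) ^ 2 with hc
  have hc1 : ∀ i, M / (2 ^ i) ^ 2 ≤ c i := fun i => by
    simp only [hc]
    linarith [he0 i, he0 (i + 1)]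
  have hc0 : ∀ i, 0 < c i := fun i => lt_of_lt_of_le (by positivity) (hc1 i)
  have hFm : ∀ i, Measurable (F i) := fun i => (hAm (i + 1)).fun_sub (hAm i)
  have hFb : ∀ i u, ‖u‖ = 1 → |F i u| ≤ c i := fun i u hu => by
    have h1 := abs_sub (Ω u - A i u) (Ω u - A (i + 1) u)
    have h2 : 0 ≤ M / (2 ^ i) ^ 2 := by positivity
    rw [sub_sub_sub_cancel_left] at h1
    simp only [hF, hc]
    linarith [hAe i u hu, hAe (i + 1) u hu]
  have hFs : ∀ u, ∑ i ∈ Finset.range (I + 2), F i u = Ω u := fun u => by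
    rw [Finset.sum_range_sub (fun i => A i u)]
    simp [hA]
  have hmn : ∑ i ∈ Finset.range (I + 2), mn (F i) = 0 := by
    simp only [mn]
    rw [← Finset.sum_div, ← integral_finsetSum _ fun i _ => sph_int (hFm i) (hFb i)]
    simp only [hFs, h0, zero_div]
  have hk := fun i => isKer_ctr hd (hFm i) (hc0 i) (hFb i)
  have hx1 : ∀ i : ℕ, (1 : ℝ) ≤ 2 ^ i := fun i => one_le_pow₀ one_le_two
  have hr1 : ∀ i : ℕ, (1 : ℝ) ≤ √(2 ^ i) := fun i => Real.one_le_sqrt.2 (hx1 i)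
  have main := kb_sum (s := Finset.range (I + 2)) (k := kO Ω M) (c := fun i => 2 * c i / M)
    (B := fun i => C * p * q * (3 * √(2 ^ i))) hp.le (fun i _ => hk i) (fun y => by
      by_cases hy : y ∈ ann d
      · simp only [kO, indicator_of_mem (show y ∈ {y : E d | 1 ≤ ‖y‖ ∧ ‖y‖ ≤ 2} from hy)]
        rw [← hFs, ← sub_zero (∑ i ∈ _, F i _), ← hmn, ← Finset.sum_sub_distrib, Finset.sum_div]
        refine Finset.sum_congr rfl fun i _ => ?_
        have := (hc0 i).ne'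
        field_simp
      · simp [kO, indicator_of_notMem (show y ∉ {y : E d | 1 ≤ ‖y‖ ∧ ‖y‖ ≤ 2} from hy)])
    (fun i _ => by have := hc0 i; positivity) (fun i _ => by positivity) fun i hi => by
      refine H _ p _ (hk i) hp (by linarith [hr1 i]) ?_
      by_cases hi' : i ≤ I
      · refine Or.inr ((lipK_kO (Λ := 4 * M * Real.exp (2 ^ i)) (hk i) (by linarith [hc0 i])
          (by positivity) fun u v => ?_).mono (dec_exp hM (hx1 i) (hc1 i)))
        have h1 := abs_sub (A (i + 1) u - A (i + 1) v) (A i u - A i v)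
        have h2 := hAl (i + 1) i le_rfl hi' u v
        have h3 := hAl i i (by omega) hi' u v
        rw [sub_sub_sub_cancel_right, show F i u - F i v =
          A (i + 1) u - A (i + 1) v - (A i u - A i v) by simp only [hF]; ring]
        linarith
      · have h1 : q ≤ √(2 ^ i) := Real.le_sqrt_of_sq_le
          (hI.trans (pow_le_pow_right₀ one_le_two (by omega)))
        exact Or.inl (by linarith [hr1 i])
  set S := ∑ i ∈ Finset.range (I + 1), √(2 ^ i) * ω i with hS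
  have s1 : ∑ i ∈ Finset.range (I + 2), √(2 ^ i) * e i ≤ M + 2 * S := by
    rw [Finset.sum_range_succ', hS, Finset.mul_sum, add_comm]
    refine add_le_add (by simp [he]) (Finset.sum_le_sum fun i hi => ?_)
    simp only [he, if_pos (Nat.lt_succ_iff.1 (Finset.mem_range.1 hi))]
    rw [← mul_assoc]
    refine mul_le_mul_of_nonneg_right (Real.sqrt_le_iff.2 ⟨by positivity, ?_⟩) (hω0 i)
    rw [mul_pow, Real.sq_sqrt (by positivity), pow_succ]
    linarith [hx1 i]
  have s2 : ∑ i ∈ Finset.range (I + 2), √(2 ^ i) * e (i + 1) = S := by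
    rw [Finset.sum_range_succ, hS]
    simp only [he, if_neg (show ¬ I + 1 ≤ I by omega), mul_zero, add_zero]
    exact Finset.sum_congr rfl fun i hi => by
      rw [if_pos (Nat.lt_succ_iff.1 (Finset.mem_range.1 hi))]
  have s3 : ∑ i ∈ Finset.range (I + 2), √(2 ^ i) * (M / (2 ^ i) ^ 2) ≤ M * 2 := by
    refine le_trans (Finset.sum_le_sum fun i _ => ?_)
      ((Finset.mul_sum ..).ge.trans (mul_le_mul_of_nonneg_left (sum_geometric_two_le _) hM.le))
    have h1 : √((2 : ℝ) ^ i) ≤ 2 ^ i := Real.sqrt_le_self_iff.2 (Or.inr (hx1 i))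
    calc _ ≤ 2 ^ i * (M / (2 ^ i) ^ 2) := by gcongr
      _ = _ := by rw [one_div, inv_pow]; field_simp
  have hS0 : 0 ≤ S := Finset.sum_nonneg fun i _ => mul_nonneg (Real.sqrt_nonneg _) (hω0 i)
  intro w f A' a b hw hf
  refine (main w f A' a b hw hf).trans (mul_le_mul_left (ENNReal.ofReal_le_ofReal
    (mul_le_mul_of_nonneg_right ?_ (zero_le_one.trans hw.one_le))) _)
  have e1 : ∑ i ∈ Finset.range (I + 2), 2 * c i / M * (C * p * q * (3 * √(2 ^ i))) =
      6 * C * p * q / M * (∑ i ∈ Finset.range (I + 2), √(2 ^ i) * e i +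
        ∑ i ∈ Finset.range (I + 2), √(2 ^ i) * e (i + 1) +
        ∑ i ∈ Finset.range (I + 2), √(2 ^ i) * (M / (2 ^ i) ^ 2)) := by
    rw [← Finset.sum_add_distrib, ← Finset.sum_add_distrib, Finset.mul_sum]
    exact Finset.sum_congr rfl fun i _ => by simp only [hc]; ring
  have hp0 : 0 < p := by linarith
  rw [e1, s2]
  calc _ ≤ 6 * C * p * q / M * (3 * (M + S)) := by gcongr; linarith
    _ = _ := by ring

end Pool.Agent.MP_418f02_an

end
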