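import Pool.Agent.Mg.F418f02a.G5072f6
import Pool.Agent.Mg.F418f02a.G77f574

set_option linter.all false

section

/-! Moments of the small and of the large increments. -/

open MeasureTheory Set Metric
open scoped ENNReal

namespace Pool.Agent.MP_418f02_an

variable {d : ℕ} {k : E d → ℝ} {P : Finset (Cb d)} {b : Cb d → E d → ℝ} {n r : ℕ}

theorem poly_geo (e : ℕ) {θ : ℝ} (h0 : 0 < θ) (h1 : θ < 1) :
    ∃ A : ℝ, 0 < A ∧ ∀ s : Finset ℕ, ∑ t ∈ s, ((t : ℝ) + 2) ^ e * θ ^ t ≤ A := by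
  have h2 : Summable fun t : ℕ => (t : ℝ) ^ e * θ ^ t :=
    summable_pow_mul_geometric_of_norm_lt_one e (by rwa [Real.norm_of_nonneg h0.le])
  have h3 := ((summable_nat_add_iff (f := fun t : ℕ => (t : ℝ) ^ e * θ ^ t) 2).2 h2).mul_left
    (θ ^ 2)⁻¹
  have h : Summable fun t : ℕ => ((t : ℝ) + 2) ^ e * θ ^ t := by
    refine h3.congr fun t => ?_
    have := h0.ne'
    simp only [Nat.cast_add, Nat.cast_ofNat, pow_add]
    field_simp
  refine ⟨∑' t : ℕ, ((t : ℝ) + 2) ^ e * θ ^ t + 1, add_pos_of_nonneg_of_pos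
    (tsum_nonneg fun t => by positivity) one_pos, fun s => ?_⟩
  linarith [h.sum_le_tsum s fun t _ => by positivity]

theorem run_meas (P : Finset (Cb d)) (b : Cb d → E d → ℝ) (s : ℕ) (a e : ℤ) :
    Measurable (ps (run2f P b s) a e) := by
  unfold ps
  exact Finset.measurable_sum _ fun j _ => measurable_of_ix fun _ _ h => run2f_congr P b s h

theorem run_nonneg (P : Finset (Cb d)) (b : Cb d → E d → ℝ) (s : ℕ) (a e : ℤ) (x : E d) :
    0 ≤ ps (run2f P b s) a e x := Finset.sum_nonneg fun j _ => run2f_nonneg P b s j x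

theorem mom_run (hP : Atoms P b 1) (s : ℕ) (W : Cb d) (a : ℤ) {m : ℝ} (hm : 1 ≤ m) :
    Mom (ps (run2f P b s) a W.1) W m (96 * 36 ^ d * (s + 1) * m) := by
  have h1 := jn_mom (φ := run2f P b s) (j₀ := a) (L := 1) (A := 3 * 36 ^ d * (s + 1)) (l := 1)
    (C₀ := 12 ^ d) (m := m) (Q := W) le_rfl (by positivity) le_rfl (by positivity) hm
    (fun j _ _ x _ => by
      rw [abs_of_nonneg (run2f_nonneg P b s j x)]
      exact run2f_le hP s j x)
    (run2_step hP s a W) (Y := ps (run2f P b s) a W.1) fun x _ => ⟨a, le_rfl, le_rfl⟩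
  refine h1.mono (by linarith) (by positivity) ?_ fun _ _ => le_rfl
  have h2 : (0 : ℝ) ≤ s := Nat.cast_nonneg s
  have h3 : (12 : ℝ) ^ d ≤ 36 ^ d * (s + 1) := (pow_le_pow_left₀ (by norm_num) (by norm_num) d).trans
    (le_mul_of_one_le_right (by positivity) (by linarith))
  calc _ ≤ 12 * (4 * (36 ^ d * (s + 1))) * (2 * m) := by
        gcongr
        · push_cast
          linarith
        · linarith
    _ = _ := by ring

theorem mom_wt (hP : Atoms P b 1) (s : Finset ℕ) {w : ℕ → ℝ} (hw : ∀ t, 0 ≤ w t) (W : Cb d) (a : ℤ)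
    {m A : ℝ} (hm : 1 ≤ m) (hA : ∑ t ∈ s, w t * (t + 2) ≤ A) :
    Mom (fun x => ∑ t ∈ s, w t * ps (run2f P b (t + 1)) a W.1 x) W m (96 * 36 ^ d * A * m) := by
  refine (mom_sum (fun t _ => (mom_run hP (t + 1) W a hm).const_mul (by linarith) (by positivity)
    (hw t)) (fun t _ => (run_meas P b _ _ _).const_mul _) hm fun t _ => by
      have := hw t; positivity).mono (by linarith) (Finset.sum_nonneg fun t _ => by
      have := hw t; positivity) ?_ fun _ _ => le_rfl
  refine le_trans (le_of_eq ?_) (mul_le_mul_of_nonneg_right (mul_le_mul_of_nonneg_left hA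
    (by positivity)) (by linarith))
  rw [Finset.mul_sum, Finset.sum_mul]
  refine Finset.sum_congr rfl fun t _ => ?_
  push_cast
  ring

/-- the small increments -/
noncomputable def qS (k : E d → ℝ) (P : Finset (Cb d)) (b : Cb d → E d → ℝ) (n r : ℕ) (τ : ℝ)
    (j : ℤ) (t : ℕ) (x : E d) : ℝ := if |qD k P b n r j t x| ≤ τ then qD k P b n r j t x else 0

theorem qS_lc (τ : ℝ) (j : ℤ) (t : ℕ) : Lc (j - (n + r + (t + 1) : ℕ)) (qS k P b n r τ j t) :=
  fun x y e => by simp only [qS, qD_lc j t x y e]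

theorem q_small (hk : IsKer k) (hP : Atoms P b 1) {t L : ℕ} {τ v m : ℝ} (hτ : 0 < τ) (hv : 0 ≤ v)
    (hm : 1 ≤ m) (hL : n + r + (t + 1) ≤ L + alv n (t + 1)) (h : ∀ (j : ℤ) (c : Cb d),
      c.1 = j - alv n (t + 1) → ∀ z ∈ cube c, ∫ x in cube c, qD k P b n r j t x ^ 2 ≤
        v * run2f P b (t + 1) j z * τ ^ 2 * sz d c.1) {G : ℤ → Set (E d)} (hG : Stop G)
    (W : Cb d) (a : ℤ) : Mom (ps (fun j => (G j).indicator (qS k P b n r τ j t)) a W.1) W m
      (L * (τ * (4 * m + 2 * v * (96 * 36 ^ d * (t + 2) * m)))) := by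
  have hal := alv_le n (t + 1)
  have hL0 : (0 : ℤ) < L := by omega
  have hlc : ∀ j, Lc (j - (n + r + (t + 1) : ℕ)) ((G j).indicator (qS k P b n r τ j t)) :=
    fun j => (qS_lc τ j t).ind ((hG.lm j).mono (by omega))
  have key : ∀ ρ : ℤ, Mom (fun x => ∑ j ∈ Finset.Icc a W.1 with j % L = ρ,
      (G j).indicator (qS k P b n r τ j t) x) W m
      (τ * (4 * m + 2 * v * (96 * 36 ^ d * (t + 2) * m))) := fun ρ => by
    set J := (Finset.Icc a W.1).filter fun j => j % L = ρ with hJ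
    have hγ : ∀ j, Lc j fun x => 2 * (v * run2f P b (t + 1) j x) := fun j x y e => by
      simp only [run2f_congr P b _ e]
    have h1 : ∀ σ : ℝ, |σ| ≤ 1 → ∫⁻ x in cube W, ENNReal.ofReal (Real.exp
        (σ * ((∑ j ∈ J, (G j).indicator (qS k P b n r τ j t) x) / τ) -
          ∑ j ∈ J, 2 * (v * run2f P b (t + 1) j x))) ≤ ENNReal.ofReal (sz d W.1) := fun σ hσ => by
      have := mart_exp (a := fun j => j - alv n (t + 1)) (b := fun j => j - (n + r + (t + 1) : ℕ))
        (X := fun j x => σ * (G j).indicator (qS k P b n r τ j t) x / τ)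
        (γ := fun j x => 2 * (v * run2f P b (t + 1) j x)) J (fun j => by omega)
        (fun j x y e => by simp only [hlc j x y e]) (fun j => (hγ j).mono (by omega))
        (fun i hi j hj hij => ?_) (fun j _ R hR z hz => ?_) W fun j hj => by
          have := (Finset.mem_Icc.1 (Finset.mem_filter.1 hj).1).2
          omega
      · simpa only [Finset.sum_sub_distrib, Finset.sum_div, Finset.mul_sum, mul_div_assoc]
          using this
      · have e := ((Finset.mem_filter.1 hj).2).trans (Finset.mem_filter.1 hi).2.symm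
        have := Int.le_of_dvd (by omega) (Int.dvd_of_emod_eq_zero
          (Int.emod_eq_emod_iff_emod_sub_eq_zero.1 e))
        omega
      · refine le_trans (le_of_eq (setLIntegral_congr_fun (measurableSet_cube R) fun x hx => ?_))
          (small_exp (σ := σ * (G j).indicator (fun _ => 1) z) hτ ?_ (qD_lc j t).meas
            (bdd_on (qD_lc j t).meas (qD_le hk hP t j) (cube_fin R))
            (sq_on (qD_lc j t).meas (qD_le hk hP t j) R) (qD_int hk hP hR) (h j R hR z hz))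
        · have e : ix j x = ix j z := sub_cb (show R.1 ≤ j by omega) hz hx
          by_cases hx' : x ∈ G j
          · simp [hx', hG.lm j x z e hx', qS]
          · simp [hx', show z ∉ G j from fun h => hx' (hG.lm j z x e.symm h)]
        · by_cases hz' : z ∈ G j <;> simp [hz', hσ]
    have m1 : Measurable fun x => (∑ j ∈ J, (G j).indicator (qS k P b n r τ j t) x) / τ :=
      (Finset.measurable_sum _ fun j _ => (hlc j).meas).div_const τ
    have h2 := ((mom_run hP (t + 1) W a hm).const_mul (by linarith) (by positivity)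
      (c := 2 * v) (by positivity)).mono (Z := fun x => ∑ j ∈ J, 2 * (v * run2f P b (t + 1) j x))
      (by linarith) (by positivity) le_rfl fun x _ => by
        have p := fun j => run2f_nonneg P b (t + 1) j x
        rw [abs_of_nonneg (Finset.sum_nonneg fun j _ => by have := p j; positivity), ps,
          Finset.mul_sum]
        refine le_trans ?_ (le_abs_self _)
        simp only [mul_assoc]
        exact Finset.sum_le_sum_of_subset_of_nonneg (Finset.filter_subset _ _)
          fun j _ _ => by have := p j; positivity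
    refine ((mom_comp hm (by positivity) m1 (Finset.measurable_sum _ fun j _ => (hγ j).meas) h2
      (by simpa only [one_mul] using h1 1 (by simp))
      (by simpa only [neg_one_mul] using h1 (-1) (by simp))).const_mul (by linarith)
      (by positivity) hτ.le).mono (by linarith) (by positivity) (le_of_eq ?_) fun x _ => ?_
    · push_cast
      ring
    · rw [mul_div_cancel₀ _ hτ.ne']
  refine (mom_sum (s := Finset.Ico (0 : ℤ) L) (fun ρ _ => key ρ) (fun ρ _ =>
    Finset.measurable_sum _ fun j _ => (hlc j).meas) hm fun _ _ => by positivity).mono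
    (by linarith) (by positivity) (le_of_eq (by simp)) fun x _ => le_of_eq ?_
  rw [Finset.sum_fiberwise_of_maps_to fun j _ => Finset.mem_Ico.2
    ⟨Int.emod_nonneg j hL0.ne', Int.emod_lt_of_pos j hL0⟩, ps]

theorem cheb {D : E d → ℝ} {c : Cb d} {τ : ℝ} (hτ : 0 < τ) (hm : Measurable D)
    (hD : IntegrableOn (fun x => D x ^ 2) (cube c)) :
    volume ({x | τ < |D x|} ∩ cube c) ≤ ENNReal.ofReal ((∫ x in cube c, D x ^ 2) / τ ^ 2) := by
  have hV : MeasurableSet {x | τ < |D x|} := measurableSet_lt measurable_const hm.abs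
  rw [← integral_div, ofReal_integral_eq_lintegral_ofReal (hD.div_const _)
    (Filter.Eventually.of_forall fun _ => by positivity), ← Measure.restrict_apply hV,
    ← lintegral_indicator_one hV]
  refine lintegral_mono fun x => ?_
  by_cases hx : x ∈ {x | τ < |D x|}
  · rw [indicator_of_mem hx, Pi.one_apply, ENNReal.one_le_ofReal, one_le_div (by positivity),
      ← sq_abs (D x)]
    exact pow_le_pow_left₀ hτ.le (le_of_lt hx) 2
  · rw [indicator_of_notMem hx]
    exact bot_le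

theorem q_big (hk : IsKer k) (hP : Atoms P b 1) {s : Finset ℕ} {τ v g : ℕ → ℝ} {L : ℕ → ℕ}
    {l m A : ℝ} (hτ : ∀ t, 0 < τ t) (hg : ∀ t, 0 ≤ g t) (hl : 0 < l) (hm : 1 ≤ m)
    (hL : ∀ t ∈ s, n + r + (t + 1) ≤ L t + alv n (t + 1))
    (hv : ∀ t ∈ s, Real.exp (l * (4 * L t)) * v t ≤ g t) (hA : ∑ t ∈ s, g t * (t + 2) ≤ A)
    (h : ∀ t ∈ s, ∀ (j : ℤ) (c : Cb d), c.1 = j - alv n (t + 1) → ∀ z ∈ cube c,
      ∫ x in cube c, qD k P b n r j t x ^ 2 ≤ v t * run2f P b (t + 1) j z * τ t ^ 2 * sz d c.1)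
    (W : Cb d) (a : ℤ) : Mom (ps (fun j => (⋃ t ∈ s, {x | τ t < |qD k P b n r j t x|}).indicator
      fun _ => (1 : ℝ)) a W.1) W m (l⁻¹ * (4 * m + 96 * 36 ^ d * A * m)) := by
  have hA0 : 0 ≤ A := (Finset.sum_nonneg fun t _ => by have := hg t; positivity).trans hA
  set V : ℤ × ℕ → Set (E d) := fun e => {x | τ e.2 < |qD k P b n r e.1 e.2 x|} with hV
  set γ : ℤ × ℕ → E d → ℝ := fun e x => g e.2 * run2f P b (e.2 + 1) e.1 x with hγ
  have hVl : ∀ e : ℤ × ℕ, LM (e.1 - (n + r + (e.2 + 1) : ℕ)) (V e) := fun e x y h hx => by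
    simp only [hV, mem_ofPred_eq] at hx ⊢
    rwa [← qD_lc e.1 e.2 x y h]
  have hγl : ∀ e : ℤ × ℕ, Lc e.1 (γ e) := fun e x y h => by simp only [hγ, run2f_congr P b _ h]
  have hγ0 : ∀ e x, 0 ≤ γ e x := fun e x => mul_nonneg (hg _) (run2f_nonneg _ _ _ _ _)
  have h1 := nq_exp (Finset.Icc a W.1 ×ˢ s) ((Finset.Icc a W.1).image fun j => j - n)
    (ctr := fun e => e.1 - n) (a := fun e => e.1 - alv n (e.2 + 1))
    (b := fun e => e.1 - (n + r + (e.2 + 1) : ℕ)) (fun e => by have := alv_le n (e.2 + 1); omega)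
    (fun e => by have := alv_le n (e.2 + 1); omega) hVl (fun e => (hγl e).mono (by omega)) hγ0 hl.le
    (fun e he R hR z hz => ?_) W
  swap
  · have ht := (Finset.mem_product.1 he).2
    have p1 := hτ e.2
    have p2 := run2f_nonneg P b (e.2 + 1) e.1 z
    have p3 := sz_pos (d := d) R.1
    refine (mul_le_mul_right (cheb p1 (qD_lc e.1 e.2).meas
      (sq_on (qD_lc e.1 e.2).meas (qD_le hk hP _ _) R)) _).trans ?_
    rw [← ENNReal.ofReal_mul (Real.exp_pos _).le]
    refine ENNReal.ofReal_le_ofReal ?_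
    have p4 : ((e.1 - alv n (e.2 + 1) - (e.1 - (n + r + (e.2 + 1) : ℕ)) : ℤ) : ℝ) ≤ L e.2 := by
      have := hL _ ht
      exact_mod_cast (by omega : e.1 - alv n (e.2 + 1) - (e.1 - (n + r + (e.2 + 1) : ℕ)) ≤ L e.2)
    have p5 := (div_le_iff₀ (pow_pos p1 2)).2 ((h _ ht _ R hR z hz).trans_eq
      (by ring : _ = v e.2 * (run2f P b (e.2 + 1) e.1 z * sz d R.1) * τ e.2 ^ 2))
    have p6 : 0 ≤ (∫ x in cube R, qD k P b n r e.1 e.2 x ^ 2) / τ e.2 ^ 2 :=
      div_nonneg (integral_nonneg fun _ => sq_nonneg _) (sq_nonneg _)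
    calc _ ≤ Real.exp (l * (4 * L e.2)) * (v e.2 * (run2f P b (e.2 + 1) e.1 z * sz d R.1)) := by
          gcongr
      _ ≤ _ := by
          rw [← mul_assoc, hγ, mul_assoc (g _)]
          exact mul_le_mul_of_nonneg_right (hv _ ht) (by positivity)
  have h2 := (mom_wt hP s hg W a hm hA).mono (Z := fun x => ∑ e ∈ Finset.Icc a W.1 ×ˢ s with
      e.1 - alv n (e.2 + 1) ≤ W.1, γ e x) (by linarith) (by positivity) le_rfl fun x _ => by
    rw [abs_of_nonneg (Finset.sum_nonneg fun e _ => hγ0 e x)]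
    refine le_trans ((Finset.sum_le_sum_of_subset_of_nonneg (Finset.filter_subset _ _)
      fun e _ _ => hγ0 e x).trans_eq ?_) (le_abs_self _)
    simp only [Finset.sum_product_right, ps, Finset.mul_sum, hγ]
  refine ((mom_comp hm (by positivity) ((nq_meas _ _ _ _ (fun e => (hVl e).meas) _).const_mul l)
    (Finset.measurable_sum _ fun e _ => (hγl e).meas) h2 h1 ?_).const_mul (by linarith)
    (by positivity) (inv_pos.2 hl).le).mono (by linarith) (by positivity) le_rfl fun x _ => ?_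
  · rw [← lint_one]
    refine lintegral_mono fun x => ENNReal.ofReal_le_one.2 (Real.exp_le_one_iff.2 ?_)
    exact sub_nonpos.2 ((neg_nonpos.2 (mul_nonneg hl.le (nq_nonneg _ _ _ _ _ _ _))).trans
      (Finset.sum_nonneg fun e _ => hγ0 e x))
  · rw [inv_mul_cancel_left₀ hl.ne', ps, abs_of_nonneg (Finset.sum_nonneg fun j _ =>
      indicator_nonneg (fun _ _ => zero_le_one) x), nq,
      Finset.sum_image fun i _ j _ e => by simpa using e]
    refine le_trans (Finset.sum_le_sum fun j hj => indicator_le_indicator_of_subset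
      (fun y hy => ?_) (fun _ => zero_le_one) x) (le_abs_self _)
    obtain ⟨t, ht, hy⟩ := mem_iUnion₂.1 hy
    have := (Finset.mem_Icc.1 hj).2
    exact mem_iUnion₂.2 ⟨(j, t), Finset.mem_filter.2 ⟨Finset.mem_product.2 ⟨hj, ht⟩, rfl,
      by simp only; omega⟩, hy⟩

end Pool.Agent.MP_418f02_an

end

section

/-! Linear growth of the moments for kernels that oscillate in a band of scales. -/

open MeasureTheory Set Metric
open scoped ENNReal

namespace Pool.Agent.MP_418f02_an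

variable {d : ℕ} {k : E d → ℝ} {P : Finset (Cb d)} {b : Cb d → E d → ℝ} {n r : ℕ}

theorem top_sum (hd : 1 ≤ d) (hk : IsKer k) (hP : Atoms P b 1) (j : ℤ) (x : E d) (T : ℕ) :
    |ce j (pv k P b j T) x| ≤
      ∑ t ∈ Finset.range T, 2 * d ^ 2 * (1 / 2) ^ t * run2f P b (t + 1) j x := by
  induction T with
  | zero =>
    have : pv k P b j 0 = fun _ => 0 := funext fun y => by
      rw [pv, cv_Bw hk hP j (by omega)]
      simp
    simp [this, ce]
  | succ T ih =>
    rw [pv_succ hk hP, ce_add (F := pv k P b j T) (G := pu k P b j T)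
      (cv_nice hk (hP.nice_Bw _ _) j) (cv_nice hk (hP.nice_Bw _ _) j), Finset.sum_range_succ]
    exact (abs_add_le _ _).trans (add_le_add ih (top_le hd hk hP T j x))

theorem err_mom (hd : 1 ≤ d) {Λ ϑ m : ℝ} (hk : IsKer k) (h : BL k n r Λ ϑ) (hΛ : 0 ≤ Λ)
    (h0 : 0 < ϑ) (h1 : ϑ < 1) (hP : Atoms P b 1) (hm : 1 ≤ m) (W : Cb d) (a : ℤ) (S : ℕ) :
    ∃ T, S ≤ T ∧ Mom (ps (fun j x => |pv k P b j T x -
      ce (j - (n + r + T : ℕ)) (pv k P b j T) x|) a W.1) W m 1 := by
  have hv := vb_pos (d := d)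
  set N : ℝ := ((Finset.Icc a W.1).card : ℝ) with hN
  set C : ℝ := (2 * d) ^ d * vb d * (2 * d) ^ d * Λ * 12 ^ d with hC
  have hC0 : 0 ≤ C := by positivity
  set β : ℝ := N * (2 * 12 ^ d) + 1 with hβ
  have hβ1 : 1 ≤ β := le_add_of_nonneg_left (by positivity)
  obtain ⟨u, hu⟩ := exists_pow_lt_of_lt_one (show 0 < β⁻¹ ^ (2 * m) / (N * C + 1) by positivity) h1
  refine ⟨S + u, Nat.le_add_right _ _, ?_⟩
  have hT : N * (C * ϑ ^ (S + u)) ≤ β⁻¹ ^ (2 * m) := by
    rw [lt_div_iff₀ (by positivity)] at hu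
    have p1 : ϑ ^ (S + u) ≤ ϑ ^ u := pow_le_pow_of_le_one h0.le h1.le (Nat.le_add_left _ _)
    have p2 : 0 < ϑ ^ u := by positivity
    nlinarith [mul_le_mul_of_nonneg_left p1 (show 0 ≤ N * C by positivity)]
  generalize S + u = T at *
  set F : ℤ → E d → ℝ := fun j x => |pv k P b j T x - ce (j - (n + r + T : ℕ)) (pv k P b j T) x|
    with hF
  have hFm : ∀ j, Measurable (F j) := fun j =>
    ((cv_nice hk (hP.nice_Bw _ _) j).meas.sub (ce_meas _ _)).abs
  have hFb : ∀ j x, |F j x| ≤ 2 * 12 ^ d := fun j x => (abs_abs _).trans_le ((abs_sub _ _).trans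
    (by linarith [pv_le hk hP j T x, ce_le (l := j - (n + r + T : ℕ)) (pv_le hk hP j T) x]))
  have a1 : Mom (ps F a W.1) W 1 (N * (C * ϑ ^ T)) := by
    refine (mom_sum (s := Finset.Icc a W.1) (B := fun _ => C * ϑ ^ T) (fun j hj => ?_)
      (fun j _ => hFm j) le_rfl fun _ _ => by positivity).mono zero_le_one (by positivity)
      (le_of_eq (by simp [hN])) fun _ _ => le_rfl
    have i := bdd_on (hFm j) (hFb j) (cube_fin W)
    have p := lm_real ((lm_cube W).mono (Finset.mem_Icc.1 hj).2) i (G := fun _ => C * ϑ ^ T)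
      (integrableOn_const (cube_fin W)) (fun _ => abs_nonneg _) (fun _ => by positivity)
      fun Q hQ _ => by
        obtain ⟨z, hz⟩ := cube_nonempty Q
        have := sz_pos (d := d) Q.1
        rw [setIntegral_const, bdry_real, smul_eq_mul]
        refine (pv_err hd hk h hΛ h0.le hP le_rfl (by omega) hQ.le le_rfl hz).trans ?_
        calc _ ≤ (2 * d) ^ d * vb d * (2 * d) ^ d * Λ * ϑ ^ T * 12 ^ d * sz d Q.1 := by
              gcongr
              exact run2f_le hP _ _ _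
          _ = _ := by rw [hC]; ring
    rw [setIntegral_const, bdry_real, smul_eq_mul, mul_comm] at p
    simp only [Mom, ENNReal.rpow_one, Real.rpow_one]
    rw [← ofReal_integral_eq_lintegral_ofReal i.abs (Filter.Eventually.of_forall fun _ =>
      abs_nonneg _)]
    simpa only [hF, abs_abs] using ENNReal.ofReal_le_ofReal p
  have a2 : Mom (ps F a W.1) W (2 * m - 1) β := mom_bdd (by linarith) (by linarith) fun x => by
    refine le_add_of_le_of_nonneg ((Finset.abs_sum_le_sum_abs _ _).trans ?_) zero_le_one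
    rw [hN, ← nsmul_eq_mul]
    exact Finset.sum_le_card_nsmul _ _ _ fun j _ => hFb j x
  refine (mom_interp (Finset.measurable_sum _ fun j _ => hFm j) hm (by positivity) hβ1 a1 a2).mono
    (by linarith) (by positivity) ?_ fun x _ => le_rfl
  refine (mul_le_mul_of_nonneg_right (Real.rpow_le_rpow (by positivity) hT (by positivity))
    (by linarith)).trans (le_of_eq ?_)
  rw [one_div, Real.rpow_rpow_inv (by positivity) (by positivity), inv_mul_cancel₀ (by positivity)]

theorem win_le {t₀ t : ℕ} (hr : r ≤ t₀ ^ 2) (ht : t₀ ≤ t) :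
    n + r + (t + 1) ≤ (t₀ + 4) * (t + 1) + alv n (t + 1) := by
  have : r ≤ t₀ * (t + 1) := hr.trans (by nlinarith)
  unfold alv
  rw [add_mul]
  split_ifs <;> omega

theorem run7 (hd : 1 ≤ d) {Λ θ : ℝ} (hΛ : 0 ≤ Λ) (h0 : 0 < θ) (h1 : θ < 1)
    (hθ : 6 / 7 ≤ (θ ^ 4) ^ 2) : ∃ C : ℝ, 0 < C ∧ ∀ (k : E d → ℝ) (n r t₀ : ℕ), IsKer k →
    BL k n r Λ ((θ ^ 4) ^ 2) → r ≤ t₀ ^ 2 → ∀ m : ℝ, 1 ≤ m → AtB k m (C * (t₀ + 1) * m) := by
  obtain ⟨C₁, hC₁, hvar⟩ := qD_var hd hΛ
  obtain ⟨A, hA, hpg⟩ := poly_geo 6 h0 h1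
  obtain ⟨A', hA', hpg'⟩ := poly_geo 1 (θ := 1 / 2) (by norm_num) (by norm_num)
  set c : ℝ := 96 * 36 ^ d with hc
  have hc0 : 0 < c := by positivity
  set g : ℝ := -Real.log θ with hg
  have hg0 : 0 < g := neg_pos.2 (Real.log_neg h0 h1)
  refine ⟨4 * (4 + 2 * C₁ * c) * A + 2 * c + (4 * 12 ^ d + A) * (16 / g * (4 + c * (C₁ / θ * A))) +
    c * (2 * d ^ 2 * A') + 1, by positivity, fun k n r t₀ hk h hr m hm P b hP G hG W j₀ H => ?_⟩
  obtain ⟨S, hS⟩ : ∃ S : ℕ, ∀ Q ∈ P, W.1 - S ≤ Q.1 := by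
    obtain ⟨l, hl⟩ := (P.image fun Q => Q.1).bddBelow
    refine ⟨(W.1 - l).toNat, fun Q hQ => ?_⟩
    have := hl (Finset.mem_coe.2 (Finset.mem_image_of_mem (fun Q : Cb d => Q.1) hQ))
    omega
  have h8 : (θ ^ 4) ^ 2 < 1 := pow_lt_one₀ (by positivity) (pow_lt_one₀ h0.le h1 (by norm_num))
    (by norm_num)
  obtain ⟨T, hT, m5⟩ := err_mom hd hk h hΛ (by positivity) h8 hP hm W j₀ (S + t₀ + n)
  have one : ∀ t : ℕ, (1 : ℝ) ≤ t + 2 := fun t => by linarith [Nat.cast_nonneg (α := ℝ) t]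
  have pw : ∀ (t e : ℕ), e ≤ 6 → ((t : ℝ) + 2) ^ e * θ ^ t ≤ (t + 2) ^ 6 * θ ^ t := fun t e he =>
    mul_le_mul_of_nonneg_right (pow_le_pow_right₀ (one t) he) (by positivity)
  have hv : ∀ t ∈ Finset.Ico t₀ T, ∀ (j : ℤ) (c : Cb d), c.1 = j - alv n (t + 1) → ∀ z ∈ cube c,
      ∫ x in cube c, qD k P b n r j t x ^ 2 ≤ C₁ * (t + 2) ^ 4 * (θ ^ t) ^ 2 *
        run2f P b (t + 1) j z * (θ ^ t) ^ 2 * sz d c.1 := fun t ht j c hc z hz => by
    refine (hvar k n r _ hk h hθ (by positivity) (pow_le_one₀ h0.le h1.le) P b hP t j c hc z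
      hz).trans ?_
    have p1 : (r : ℝ) + 2 ≤ (t + 2) ^ 2 := by
      have : r + 2 ≤ (t + 2) ^ 2 := by nlinarith [(Finset.mem_Ico.1 ht).1]
      exact_mod_cast this
    have := run2f_nonneg P b (t + 1) j z
    have := sz_pos (d := d) c.1
    calc _ ≤ C₁ * ((t + 2) ^ 2) ^ 2 * (θ ^ 4) ^ t * run2f P b (t + 1) j z * sz d c.1 := by gcongr
      _ = _ := by ring
  have hw : ∀ t ∈ Finset.Ico t₀ T, _ := fun t ht => win_le (n := n) hr (Finset.mem_Ico.1 ht).1
  have hsm : ∀ t, Measurable (ps (fun j => (G j).indicator (qS k P b n r (θ ^ t) j t)) j₀ W.1) :=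
    fun t => Finset.measurable_sum _ fun j _ => (qS_lc _ j t).meas.indicator (hG.lm j).meas
  have m1 := (mom_sum (fun t ht => q_small hk hP (pow_pos h0 t) (by positivity) hm (hw t ht)
    (hv t ht) hG W j₀) (fun t _ => hsm t) hm fun t _ => by positivity).mono
    (B' := 4 * (4 + 2 * C₁ * c) * A * (t₀ + 1) * m) (by linarith)
    (Finset.sum_nonneg fun t _ => by positivity) ?_ fun x _ => (abs_abs _).le
  swap
  · refine (Finset.sum_le_sum (g := fun t : ℕ => 4 * (4 + 2 * C₁ * c) * (t₀ + 1) * m *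
      (((t : ℝ) + 2) ^ 6 * θ ^ t)) fun t _ => ?_).trans ?_
    · have p1 : (θ ^ t) ^ 2 ≤ 1 := pow_le_one₀ (by positivity) (pow_le_one₀ h0.le h1.le)
      have p2 : (1 : ℝ) ≤ (t + 2) ^ 5 := one_le_pow₀ (one t)
      have p3 : (((t₀ + 4) * (t + 1) : ℕ) : ℝ) ≤ 4 * (t₀ + 1) * (t + 2) := by
        exact_mod_cast (by nlinarith : (t₀ + 4) * (t + 1) ≤ 4 * (t₀ + 1) * (t + 2))
      calc _ ≤ 4 * (t₀ + 1) * (t + 2) * (θ ^ t * (4 * m * (t + 2) ^ 5 +
            2 * (C₁ * (t + 2) ^ 4 * 1) * (c * (t + 2) * m))) := by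
            have p4 := le_mul_of_one_le_right (show 0 ≤ 4 * m by positivity) p2
            gcongr ?_ * (_ * (?_ + 2 * (_ * ?_) * _))
        _ = _ := by ring
    · rw [← Finset.mul_sum]
      exact (mul_le_mul_of_nonneg_left (hpg _) (by positivity)).trans_eq (by ring)
  have m2 := (mom_run hP t₀ W j₀ hm).const_mul (by linarith) (by positivity) zero_le_two
  have m3 := (q_big hk hP (s := Finset.Ico t₀ T) (L := fun t => (t₀ + 4) * (t + 1))
    (g := fun t => C₁ / θ * ((t + 2) ^ 4 * θ ^ t)) (l := g / (4 * (t₀ + 4))) (A := C₁ / θ * A)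
    (fun t => pow_pos h0 t) (fun t => by positivity) (by positivity) hm hw (fun t _ => ?_) ?_ hv W
    j₀).const_mul (by linarith) (by positivity) (c := 4 * 12 ^ d + A) (by positivity)
  rotate_left
  · have e : Real.exp (g / (4 * (t₀ + 4)) * (4 * ((t₀ + 4) * (t + 1) : ℕ))) = θ⁻¹ ^ (t + 1) := by
      rw [← Real.exp_log (inv_pos.2 h0), ← Real.exp_nat_mul, Real.log_inv, ← hg]
      congr 1
      push_cast
      field_simp
    rw [e, inv_pow]
    apply le_of_eq
    field_simp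
    ring
  · refine le_trans ?_ (mul_le_mul_of_nonneg_left (hpg (Finset.Ico t₀ T)) (by positivity))
    rw [Finset.mul_sum]
    exact Finset.sum_le_sum fun t _ => le_trans (le_of_eq (by ring))
      (mul_le_mul_of_nonneg_left (pw t 5 (by norm_num)) (by positivity))
  have m4 := mom_wt hP (Finset.range T) (w := fun t => 2 * d ^ 2 * (1 / 2) ^ t)
    (fun t => by positivity) W j₀ hm (A := 2 * d ^ 2 * A') (by
      refine le_trans (le_of_eq ?_) (mul_le_mul_of_nonneg_left (hpg' (Finset.range T))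
        (by positivity))
      rw [Finset.mul_sum]
      exact Finset.sum_congr rfl fun t _ => by ring)
  set U : ℤ → Set (E d) := fun j => ⋃ t ∈ Finset.Ico t₀ T, {x | θ ^ t < |qD k P b n r j t x|}
    with hU
  have s1 := (Finset.measurable_sum (Finset.Ico t₀ T) fun t _ => hsm t).abs
  have s2 := (run_meas P b t₀ j₀ W.1).const_mul 2
  have s3 : Measurable fun x => (4 * 12 ^ d + A) *
      ps (fun j => (U j).indicator fun _ => (1 : ℝ)) j₀ W.1 x :=
    (Finset.measurable_sum _ fun j _ => measurable_const.indicator (Finset.measurableSet_biUnion _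
      fun t _ => measurableSet_lt measurable_const (qD_lc j t).meas.abs)).const_mul _
  have s4 := Finset.measurable_sum (Finset.range T) fun t _ =>
    (run_meas P b (t + 1) j₀ W.1).const_mul (2 * d ^ 2 * (1 / 2) ^ t)
  refine ((((m1.add m2 s1 s2 hm (by positivity) (by positivity)).add m3 (s1.add s2) s3 hm
    (by positivity) (by positivity)).add m4 ((s1.add s2).add s3) s4 hm (by positivity)
    (by positivity)).add m5 (((s1.add s2).add s3).add s4) (Finset.measurable_sum _ fun j _ =>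
      ((cv_nice hk (hP.nice_Bw _ _) j).meas.sub (ce_meas _ _)).abs) hm (by positivity)
    zero_le_one).mono (by linarith) (by positivity) ?_ fun x hx => le_trans ?_ (le_abs_self _)
  · have p0 : (1 : ℝ) ≤ t₀ + 1 := by linarith [Nat.cast_nonneg (α := ℝ) t₀]
    have p1 : 1 ≤ (t₀ + 1) * m := one_le_mul_of_one_le_of_one_le p0 hm
    have p2 : c * (2 * d ^ 2 * A') * m ≤ c * (2 * d ^ 2 * A') * ((t₀ + 1) * m) := by
      gcongr
      exact le_mul_of_one_le_left (by linarith) p0
    have p3 : (4 * 12 ^ d + A) * ((g / (4 * (t₀ + 4)))⁻¹ * (4 * m + c * (C₁ / θ * A) * m)) ≤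
        (4 * 12 ^ d + A) * (16 * (t₀ + 1) / g * (4 * m + c * (C₁ / θ * A) * m)) := by
      rw [inv_div]
      gcongr _ * (?_ / _ * _)
      linarith
    refine le_trans (by linarith : _ ≤ 4 * (4 + 2 * C₁ * c) * A * (t₀ + 1) * m +
      2 * (c * (t₀ + 1) * m) + (4 * 12 ^ d + A) * (16 * (t₀ + 1) / g *
        (4 * m + c * (C₁ / θ * A) * m)) + c * (2 * d ^ 2 * A') * ((t₀ + 1) * m) + (t₀ + 1) * m)
      (le_of_eq (by ring))
  have hj : ∀ j ∈ Finset.Icc j₀ W.1, |(G j).indicator (cv k j fun x => ∑ Q ∈ P, b Q x) x -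
      ∑ t ∈ Finset.Ico t₀ T, (G j).indicator (qS k P b n r (θ ^ t) j t) x| ≤
      2 * run2f P b t₀ j x + (4 * 12 ^ d + A) * (U j).indicator (fun _ => (1 : ℝ)) x +
      ∑ t ∈ Finset.range T, 2 * d ^ 2 * (1 / 2) ^ t * run2f P b (t + 1) j x +
      |pv k P b j T x - ce (j - (n + r + T : ℕ)) (pv k P b j T) x| := by
    intro j hj
    obtain ⟨hj1, hj2⟩ := Finset.mem_Icc.1 hj
    have p1 := qc_le (n := n) (r := r) hk hP (le_refl t₀) j x
    have p2 := top_sum hd hk hP j x T
    have p3 : |∑ t ∈ Finset.Ico t₀ T, qD k P b n r j t x - ∑ t ∈ Finset.Ico t₀ T,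
        qS k P b n r (θ ^ t) j t x| ≤ (4 * 12 ^ d + A) * (U j).indicator (fun _ => (1 : ℝ)) x := by
      by_cases hx : x ∈ U j
      · rw [indicator_of_mem hx, mul_one]
        refine (abs_sub _ _).trans (add_le_add ?_ ((Finset.abs_sum_le_sum_abs _ _).trans
          ((Finset.sum_le_sum fun t _ => le_trans ?_ (pw t 0 (by norm_num))).trans (hpg _))))
        · unfold qD
          rw [Finset.sum_Ico_sub (fun t => qc k P b n r j t x) (by omega)]
          linarith [abs_sub (qc k P b n r j T x) (qc k P b n r j t₀ x), run2f_le hP t₀ j x,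
            qc_le (n := n) (r := r) hk hP (le_refl T) j x, run2f_le hP T j x]
        · rw [pow_zero, one_mul, qS]
          split_ifs with h
          · exact h
          · simpa using (pow_pos h0 t).le
      · simp only [qS]
        rw [indicator_of_notMem hx, mul_zero, Finset.sum_congr rfl fun t ht =>
          if_pos (not_lt.1 fun h => hx (mem_iUnion₂.2 ⟨t, ht, h⟩)), sub_self, abs_zero]
    by_cases hxG : x ∈ G j
    swap
    · simp only [indicator_of_notMem hxG, Finset.sum_const_zero, sub_zero, abs_zero]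
      exact add_nonneg (add_nonneg (add_nonneg ((abs_nonneg _).trans p1) ((abs_nonneg _).trans p3))
        ((abs_nonneg _).trans p2)) (abs_nonneg _)
    have e0 : Bl P b (j - T) = fun _ => 0 := funext fun y => Finset.sum_eq_zero fun Q hQ => by
      rw [Finset.mem_filter] at hQ
      have := hS Q hQ.1
      omega
    have e1 : cv k j (fun x => ∑ Q ∈ P, b Q x) x = pv k P b j T x := by
      rw [hP.cv_eq_Bl hk (H j hj1 hj2 x hx hxG), pv, cv_Bw hk hP j (by omega), e0]
      simp [cv]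
    have e2 : ∑ t ∈ Finset.Ico t₀ T, qD k P b n r j t x = ce (j - (n + r + T : ℕ)) (pv k P b j T) x -
        ce j (pv k P b j T) x - qc k P b n r j t₀ x := by
      unfold qD
      rw [Finset.sum_Ico_sub (fun t => qc k P b n r j t x) (by omega), qc,
        show alv n T = 0 from if_neg (by omega), Nat.cast_zero, sub_zero]
    simp only [indicator_of_mem hxG, e1]
    rw [e2] at p3
    have p4 := le_abs_self (pv k P b j T x - ce (j - (n + r + T : ℕ)) (pv k P b j T) x)
    have p5 := neg_abs_le (pv k P b j T x - ce (j - (n + r + T : ℕ)) (pv k P b j T) x)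
    rw [abs_le] at p1 p2 p3 ⊢
    constructor <;> linarith [p1.1, p1.2, p2.1, p2.2, p3.1, p3.2]
  have h5 := (Finset.abs_sum_le_sum_abs _ _).trans (Finset.sum_le_sum hj)
  rw [Finset.sum_sub_distrib, Finset.sum_add_distrib, Finset.sum_add_distrib,
    Finset.sum_add_distrib, ← Finset.mul_sum, ← Finset.mul_sum, Finset.sum_comm,
    Finset.sum_comm (t := Finset.range T)] at h5
  simp only [← Finset.mul_sum] at h5
  simp only [TG, ps]
  linarith [abs_sub_abs_le_abs_sub (∑ j ∈ Finset.Icc j₀ W.1,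
    (G j).indicator (cv k j fun x => ∑ Q ∈ P, b Q x) x) (∑ t ∈ Finset.Ico t₀ T,
      ∑ j ∈ Finset.Icc j₀ W.1, (G j).indicator (qS k P b n r (θ ^ t) j t) x)]

end Pool.Agent.MP_418f02_an

end

section

/-! Homogeneous kernels whose angular part oscillates in a band of scales. -/

open MeasureTheory Set Metric
open scoped ENNReal

namespace Pool.Agent.MP_418f02_an

variable {d : ℕ}

theorem unit_smul {s : ℝ} (hs : 0 < s) (y : E d) : ‖s • y‖⁻¹ • s • y = ‖y‖⁻¹ • y := by
  rw [norm_smul, Real.norm_of_nonneg hs.le, smul_smul, mul_inv, mul_right_comm,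
    inv_mul_cancel₀ hs.ne', one_mul]

theorem rad (hd : 1 ≤ d) : ∃ P : ℝ → ℝ, Measurable P ∧ (∀ ρ, |P ρ| ≤ 1) ∧
    (∀ y : E d, P ‖y‖ ≠ 0 → 1 ≤ ‖y‖ ∧ ‖y‖ ≤ 4) ∧ (∀ y z : E d, |P ‖y‖ - P ‖z‖| ≤ 4 * ‖y - z‖) ∧
    ∀ (F : E d → ℝ) (M : ℝ) (y : E d), KK (kO F M) 1 y = F (‖y‖⁻¹ • y) / M * P ‖y‖ := by
  set i : Fin d := ⟨0, hd⟩ with hi
  set e : E d := EuclideanSpace.single i 1 with he
  have he1 : ‖e‖ = 1 := by simp [he]
  set Q : ℝ → ℝ := fun ρ => ∫ s in (1 : ℝ)..2,
    ((1 * s) ^ d)⁻¹ * (if 1 ≤ ρ / s ∧ ρ / s ≤ 2 then 1 else 0) / s with hQ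
  have hK : ∀ (F : E d → ℝ) (M : ℝ) (y : E d), KK (kO F M) 1 y = F (‖y‖⁻¹ • y) / M * Q ‖y‖ :=
    fun F M y => by
      rw [KK, hQ, ← intervalIntegral.integral_const_mul]
      refine intervalIntegral.integral_congr fun s hs => ?_
      rw [uIcc_of_le one_le_two] at hs
      have h0 : 0 < s := one_pos.trans_le hs.1
      have e1 : ‖s⁻¹ • y‖ = ‖y‖ / s := by
        rw [norm_smul, norm_inv, Real.norm_of_nonneg h0.le, div_eq_inv_mul]
      simp only [kO, indicator, mem_ofPred_eq, one_mul, unit_smul (inv_pos.2 h0)]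
      rw [e1]
      split_ifs <;> ring
  have hQ0 : ∀ ρ < 1, Q ρ = 0 := fun ρ hρ => ker_int_zero fun s h1 _ => by
    rw [if_neg fun h => by linarith [(one_le_div (one_pos.trans_le h1)).1 h.1], mul_zero, zero_div]
  have hk : IsKer (kO (fun u : E d => u i) 1) := by
    refine isKer_kO' (by fun_prop) one_pos (fun u hu => hu ▸ PiLp.norm_apply_le u i) ?_
    rw [← integral_indicator ann_meas]
    refine self_eq_neg.1 ?_
    rw [← integral_neg, ← integral_neg_eq_self]
    congr 1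
    funext y
    simp only [indicator, ann, mem_ofPred_eq, norm_neg]
    split_ifs <;> simp
  have hP : ∀ y : E d, KK (kO (fun u : E d => u i) 1) 1 (‖y‖ • e) = Q ‖y‖ := fun y => by
    rw [hK]
    rcases (norm_nonneg y).eq_or_lt with h | h
    · rw [← h, zero_smul, norm_zero, hQ0 0 one_pos, mul_zero]
    · rw [unit_smul h, norm_smul, he1]
      simp [he]
  refine ⟨fun ρ => KK (kO (fun u : E d => u i) 1) 1 (ρ • e),
    (KK_nice hk one_pos).meas.comp (by fun_prop), fun ρ => by simpa using KK_le hk one_pos _,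
    fun y h => ⟨not_lt.1 fun h' => h ((hP y).trans (hQ0 _ h')), not_lt.1 fun h' =>
      h (KK_supp hk one_pos (by simpa [norm_smul, he1] using h'))⟩, fun y z => ?_,
    fun F M y => by rw [hK, ← hP]⟩
  refine (lipK_kO (Λ := 1) hk one_pos zero_le_one (fun u v => by
    simpa using PiLp.norm_apply_le (u - v) i) _ _).trans ?_
  rw [← sub_smul, norm_smul, he1, mul_one]
  linarith [show ‖‖y‖ - ‖z‖‖ ≤ ‖y - z‖ from abs_norm_sub_norm_le y z]

theorem ball_cover {G : E d → ℝ} {M β η r : ℝ} (hG : Measurable G) (hM : ∀ x, |G x| ≤ M)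
    (h0 : ∀ x, 0 ≤ G x) (hη : 0 < η) (hr : 0 < r) (h : ∀ x, ∫ y in ball x η, G y ≤ β * η ^ d)
    (hle : η ≤ r) (z : E d) : ∫ y in ball z r, G y ≤ β * 2 ^ d * r ^ d := by
  have hv := vb_pos (d := d)
  have hf : ∀ (z : E d) (r : ℝ), volume (ball z r) ≠ ∞ := fun _ _ => measure_ball_lt_top.ne
  have hm : Measurable (Function.uncurry fun u x : E d => G (u + x)) := hG.comp (by fun_prop)
  have h1 : ∫ _ in ball (0 : E d) η, ∫ y in ball z r, G y ≤
      ∫ u in ball (0 : E d) η, ∫ x in ball z (2 * r), G (u + x) :=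
    setIntegral_mono_on (integrableOn_const (hf _ _)) (bdd_on (par_meas hm _)
      (fun _ => par_le (hf _ _) fun _ _ => hM _) (hf _ _)) measurableSet_ball fun u hu => by
      simp only [add_comm u, ball_shift]
      refine setIntegral_mono_set (bdd_on hG hM (hf _ _)) (Filter.Eventually.of_forall h0)
        (ball_subset_ball' ?_).eventuallyLE
      rw [dist_self_add_right]
      linarith [mem_ball_zero_iff.1 hu]
  rw [bdd_swap hm (fun _ _ => hM _) (hf _ _) (hf _ _), setIntegral_const, ball_real _ hη,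
    smul_eq_mul] at h1
  have h2 := (le_abs_self _).trans (par_le (F := fun x => ∫ u in ball (0 : E d) η, G (u + x))
    (M := β * η ^ d) (hf z (2 * r)) fun x _ => by
      rw [abs_of_nonneg (integral_nonneg fun _ => h0 _), ball_shift, zero_add]
      exact h x)
  rw [ball_real _ (by positivity), mul_pow] at h2
  refine le_of_mul_le_mul_left (h1.trans (h2.trans_eq (by ring))) (by positivity)

theorem bk_kO (hd : 1 ≤ d) {F : E d → ℝ} {M α δ δ' D D' : ℝ} (hF : Measurable F) (hM : 0 < M)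
    (hb : ∀ x, |F x| ≤ M) (hk : IsKer (kO F M)) (hα : 0 < α) (hα1 : α ≤ 1) (h0 : 0 < δ')
    (h1 : δ' ≤ δ) (h2 : δ ≤ 1 / 2) (hD : δ ≤ D) (hD' : 16 * d * D' ≤ δ')
    (H1 : ∀ u : E d, ‖u‖ = 1 → ∀ h : E d, ‖h‖ ≤ δ' → ∫ y in ball u δ,
      |F (‖y + h‖⁻¹ • (y + h)) - F (‖y‖⁻¹ • y)| ≤ M * (‖h‖ / δ') ^ α * δ ^ d)
    (H2 : ∀ u : E d, ‖u‖ = 1 → ∀ r, δ ≤ r → r ≤ 1 / 2 →
      |∫ y in ball u r, F (‖y‖⁻¹ • y)| ≤ M * (δ / r) ^ α * r ^ d) :
    BK (KK (kO F M) 1) 1 D D D' 1 (18 ^ d + vb d + 4 / vb d + 16) ((6 / 7) ^ α) := by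
  obtain ⟨P, mP, bP, sP, lP, e⟩ := rad hd
  have hv := vb_pos (d := d)
  have hδ := h0.trans_le h1
  have hf : ∀ (z : E d) (r : ℝ), volume (ball z r) ≠ ∞ := fun _ _ => measure_ball_lt_top.ne
  have hK : ∀ y, |KK (kO F M) 1 y| ≤ 1 := fun y => by simpa using KK_le hk one_pos y
  have mU := (lim_meas hF).div_const M
  have bU : ∀ y : E d, |F (‖y‖⁻¹ • y) / M| ≤ 1 := fun y => by
    rw [abs_div, abs_of_pos hM, div_le_one hM]
    exact hb _
  have pw : ∀ t : ℕ, ((6 / 7 : ℝ) ^ t) ^ α = ((6 / 7) ^ α) ^ t := fun t =>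
    (Real.rpow_pow_comm (by norm_num) α t).symm
  have pw1 : ∀ t : ℕ, (6 / 7 : ℝ) ^ t ≤ 1 := fun t => pow_le_one₀ (by norm_num) (by norm_num)
  have pw2 : ∀ t : ℕ, (6 / 7 : ℝ) ^ t ≤ ((6 / 7) ^ α) ^ t := fun t => by
    rw [← pw]
    exact Real.self_le_rpow_of_le_one (by positivity) (pw1 t) hα1
  refine ⟨KK_nice hk one_pos, hK, fun t z r v p1 p2 => ?_, fun t z r p1 p2 => ?_,
    fun σ z p1 _ => ?_⟩
  · have hr : 0 < r := hδ.trans_le (hD.trans p1)
    have q0 : (0 : ℝ) < (6 / 7) ^ t := by positivity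
    have q1 : 2 * ‖v‖ ≤ δ' * (6 / 7) ^ t := by nlinarith
    have q2 : 2 * ‖v‖ ≤ δ' := q1.trans (mul_le_of_le_one_right h0.le (pw1 t))
    set V : E d → E d → ℝ := fun h y => |F (‖y + h‖⁻¹ • (y + h)) - F (‖y‖⁻¹ • y)| with hV
    have mV : Measurable (V v) :=
      (((lim_meas hF).comp (measurable_add_const v)).sub (lim_meas hF)).abs
    have bV : ∀ y, |V v y| ≤ M + M := fun y =>
      (abs_abs _).trans_le ((abs_sub _ _).trans (add_le_add (hb _) (hb _)))
    have bG : ∀ y, |V v y * (|P ‖y + v‖|)| ≤ V v y := fun y => by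
      rw [abs_mul, abs_abs, abs_abs]
      exact mul_le_of_le_one_right (abs_nonneg _) (bP _)
    have mG : Measurable fun y => V v y * |P ‖y + v‖| := mV.mul (mP.comp (by fun_prop)).abs
    have bG' := fun y => (bG y).trans ((le_abs_self _).trans (bV y))
    have q3 := ball_cover mG bG' (fun y => mul_nonneg (abs_nonneg _) (abs_nonneg _))
      (β := 9 ^ d * (M * ((6 / 7) ^ α) ^ t)) (half_pos hδ) hr (fun x => ?_) (by linarith) z
    · have i1 := (bdd_on mG bG' (hf z r)).div_const M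
      have i2 : IntegrableOn (fun _ : E d => ((6 / 7 : ℝ) ^ α) ^ t) (ball z r) :=
        integrableOn_const (hf _ _)
      refine (integral_mono_of_nonneg (Filter.Eventually.of_forall fun _ => abs_nonneg _)
        (i1.add i2) (Filter.Eventually.of_forall fun y => ?_)).trans ?_
      · simp only [e, Pi.add_apply, hV]
        rw [show ∀ a b p q : ℝ, a / M * p - b / M * q = (a - b) * p / M + b / M * (p - q) from
          fun a b p q => by ring]
        refine (abs_add_le _ _).trans (add_le_add (le_of_eq ?_) ?_)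
        · rw [abs_div, abs_mul, abs_of_pos hM]
        · have := lP (y + v) y
          rw [add_sub_cancel_left] at this
          rw [abs_mul]
          refine (mul_le_of_le_one_left (abs_nonneg _) (bU y)).trans (this.trans ?_)
          nlinarith [pw2 t]
      · rw [integral_add' i1 i2, integral_div, setIntegral_const, ball_real _ hr, smul_eq_mul]
        rw [← div_le_div_iff_of_pos_right hM] at q3
        have : 0 ≤ (4 / vb d + 16) * ((6 / 7 : ℝ) ^ α) ^ t * r ^ d := by positivity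
        refine (add_le_add_left q3 _).trans ?_
        rw [show (18 : ℝ) = 9 * 2 by norm_num, mul_pow, show 9 ^ d * (M * ((6 / 7 : ℝ) ^ α) ^ t) *
          2 ^ d * r ^ d / M = 9 ^ d * 2 ^ d * ((6 / 7 : ℝ) ^ α) ^ t * r ^ d by field_simp]
        linarith
    · by_cases hx : ∀ y ∈ ball x (δ / 2), P ‖y + v‖ = 0
      · rw [setIntegral_eq_zero_of_forall_eq_zero fun y hy => by simp [hx y hy]]
        positivity
      push Not at hx
      obtain ⟨y, hy, hy'⟩ := hx
      have q4 := sP _ hy'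
      have q5 := abs_le.1 ((abs_norm_sub_norm_le (y + v) x).trans
        ((add_sub_right_comm y v x) ▸ norm_add_le (y - x) v))
      have q6 := mem_ball_iff_norm.1 hy
      have s1 : 1 / 2 ≤ ‖x‖ := by linarith [q5.2]
      have s2 : ‖x‖ ≤ 9 / 2 := by linarith [q5.1]
      have s0 : 0 < ‖x‖ := by linarith
      have q7 := ball_smul (V v) s0.ne' (‖x‖⁻¹ • x) δ
      rw [smul_inv_smul₀ s0.ne', abs_norm, eq_inv_mul_iff_mul_eq₀ (by positivity)] at q7
      have q8 : ‖‖x‖⁻¹ • v‖ ≤ 2 * ‖v‖ := by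
        rw [norm_smul, norm_inv, norm_norm]
        exact mul_le_mul_of_nonneg_right (by rwa [inv_le_comm₀ s0 two_pos, ← one_div])
          (norm_nonneg _)
      have q9 := H1 (‖x‖⁻¹ • x) (norm_smul_inv_norm (norm_pos_iff.1 s0)) _ (q8.trans q2)
      have q10 : ∀ y, V v (‖x‖ • y) = V (‖x‖⁻¹ • v) y := fun y => by
        simp only [hV]
        rw [show ‖x‖ • y + v = ‖x‖ • (y + ‖x‖⁻¹ • v) by rw [smul_add, smul_inv_smul₀ s0.ne'],
          unit_smul s0, unit_smul s0]
      calc _ ≤ ∫ y in ball x (δ / 2), V v y := setIntegral_mono (bdd_on mG bG' (hf _ _))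
            (bdd_on mV bV (hf _ _)) fun y => (le_abs_self _).trans (bG y)
        _ ≤ ∫ y in ball x (‖x‖ * δ), V v y := setIntegral_mono_set (bdd_on mV bV (hf _ _))
            (Filter.Eventually.of_forall fun _ => abs_nonneg _)
            (ball_subset_ball (by nlinarith)).eventuallyLE
        _ ≤ (9 / 2) ^ d * (M * ((6 / 7) ^ t) ^ α * δ ^ d) := by
            simp only [← q7, q10]
            refine mul_le_mul (by gcongr) (q9.trans ?_) (integral_nonneg fun _ => abs_nonneg _)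
              (by positivity)
            gcongr
            rw [div_le_iff₀' h0]
            exact q8.trans q1
        _ = _ := by
            rw [pw, div_pow, div_pow]
            ring
  · have q0 : (0 : ℝ) < (6 / 7) ^ t := by positivity
    have hr : 0 < r := (mul_pos_iff_of_pos_right q0).1 (hδ.trans_le (hD.trans p1))
    have q1 := pw2 t
    have hV : 0 < r ^ d * vb d := by positivity
    rcases le_total (1 / 4 : ℝ) ((6 / 7) ^ t) with q2 | q2
    · refine (par_le (hf _ _) fun y _ => hK y).trans ?_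
      rw [ball_real _ hr]
      refine mul_le_mul_of_nonneg_right ?_ hV.le
      have : 0 ≤ (18 ^ d + vb d + 4 / vb d) * ((6 / 7 : ℝ) ^ α) ^ t := by positivity
      linarith
    have i1 := bdd_on mU bU (hf z r)
    have q3 : |(∫ y in ball z r, KK (kO F M) 1 y) - P ‖z‖ * ∫ y in ball z r, F (‖y‖⁻¹ • y) / M| ≤
        4 * ((6 / 7) ^ α) ^ t * (r ^ d * vb d) := by
      rw [← integral_const_mul, ← integral_sub (KK_nice hk one_pos).integrable.integrableOn
        (i1.const_mul _), ← ball_real z hr]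
      refine par_le (hf _ _) fun y hy => ?_
      rw [e, mul_comm (P ‖z‖), ← mul_sub, abs_mul]
      refine (mul_le_of_le_one_left (abs_nonneg _) (bU y)).trans ((lP y z).trans ?_)
      linarith [mem_ball_iff_norm.1 hy]
    have q4 : |P ‖z‖ * ∫ y in ball z r, F (‖y‖⁻¹ • y) / M| ≤
        4 / vb d * ((6 / 7) ^ α) ^ t * (r ^ d * vb d) := by
      by_cases hz : P ‖z‖ = 0
      · rw [hz, zero_mul, abs_zero]
        positivity
      obtain ⟨s1, s2⟩ := sP z hz
      have s0 : 0 < ‖z‖ := by linarith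
      have q5 := ball_smul (fun y => F (‖y‖⁻¹ • y)) s0.ne' (‖z‖⁻¹ • z) (r / ‖z‖)
      simp only [unit_smul s0] at q5
      rw [smul_inv_smul₀ s0.ne', abs_norm, mul_div_cancel₀ _ s0.ne',
        eq_inv_mul_iff_mul_eq₀ (by positivity)] at q5
      have q6 := H2 (‖z‖⁻¹ • z) (norm_smul_inv_norm (norm_pos_iff.1 s0)) (r / ‖z‖)
        (by rw [le_div_iff₀ s0]; nlinarith) ((div_le_self hr.le s1).trans (by linarith))
      have q7 : (δ / (r / ‖z‖)) ^ α ≤ 4 * ((6 / 7) ^ α) ^ t := by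
        rw [← pw]
        refine le_trans ?_ (mul_le_mul_of_nonneg_right (Real.rpow_le_self_of_one_le
          (by norm_num : (1 : ℝ) ≤ 4) hα1) (by positivity))
        rw [← Real.mul_rpow (by norm_num) q0.le]
        gcongr
        rw [div_div_eq_mul_div, div_le_iff₀ hr]
        nlinarith
      rw [abs_mul, integral_div, ← q5, abs_div, abs_mul, abs_of_pos hM,
        abs_of_pos (pow_pos s0 d)]
      refine (mul_le_of_le_one_left (by positivity) (bP _)).trans ?_
      rw [div_le_iff₀ hM]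
      calc _ ≤ ‖z‖ ^ d * (M * (4 * ((6 / 7) ^ α) ^ t) * (r / ‖z‖) ^ d) := by
            gcongr
            exact q6.trans (by gcongr)
        _ = _ := by
            rw [div_pow]
            field_simp
    have : 0 ≤ (18 ^ d + vb d + 12) * ((6 / 7 : ℝ) ^ α) ^ t * (r ^ d * vb d) := by positivity
    linarith [abs_sub_abs_le_abs_sub (∫ y in ball z r, KK (kO F M) 1 y)
      (P ‖z‖ * ∫ y in ball z r, F (‖y‖⁻¹ • y) / M)]
  · have : 0 ≤ (18 ^ d + vb d + 4 / vb d) * σ := by positivity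
    rcases le_or_gt ‖z‖ 4 with h | h
    · have q := lP ((1 + σ) • z) z
      rw [add_smul, one_smul, add_sub_cancel_left, norm_smul, Real.norm_of_nonneg p1] at q
      rw [e, e, unit_smul (by linarith), ← mul_sub, abs_mul, add_smul, one_smul]
      refine (mul_le_of_le_one_left (abs_nonneg _) (bU z)).trans (q.trans ?_)
      nlinarith
    · rw [KK_supp hk one_pos (y := z) (by linarith), KK_supp hk one_pos (by
        rw [norm_smul, Real.norm_of_nonneg (by linarith)]
        nlinarith), sub_zero, abs_zero]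
      linarith

theorem KB.mono {k : E d → ℝ} {p B B' : ℝ} (h : KB k p B) (hB : B ≤ B') : KB k p B' :=
  fun w f A a b hw hf => (h w f A a b hw hf).trans (mul_le_mul_left (ENNReal.ofReal_le_ofReal
    (mul_le_mul_of_nonneg_right hB (zero_le_one.trans hw.one_le))) _)

theorem kb_band (hd : 1 ≤ d) {α : ℝ} (hα : 0 < α) : ∃ C : ℝ, 0 < C ∧
    ∀ (F : E d → ℝ) (M δ δ' t p : ℝ), Measurable F → 0 < M → (∀ x, |F x| ≤ M) → IsKer (kO F M) →
    0 < δ' → δ' ≤ δ → δ ≤ 1 / 2 →
    (∀ u : E d, ‖u‖ = 1 → ∀ h : E d, ‖h‖ ≤ δ' → ∫ y in ball u δ,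
      |F (‖y + h‖⁻¹ • (y + h)) - F (‖y‖⁻¹ • y)| ≤ M * (‖h‖ / δ') ^ α * δ ^ d) →
    (∀ u : E d, ‖u‖ = 1 → ∀ r, δ ≤ r → r ≤ 1 / 2 →
      |∫ y in ball u r, F (‖y‖⁻¹ • y)| ≤ M * (δ / r) ^ α * r ^ d) →
    1 ≤ t → Real.log (δ / δ') ≤ t ^ 2 → 1 < p → KB (kO F M) p (C * p * (p / (p - 1)) * t) := by
  have hv := vb_pos (d := d)
  have hd1 : (1 : ℝ) ≤ d := by exact_mod_cast hd
  have hβ : 0 < min α 1 := lt_min hα one_pos
  set ϑ : ℝ := (6 / 7) ^ min α 1 with hϑ
  have hϑ0 : 0 < ϑ := by positivity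
  have e8 : ((ϑ ^ ((8 : ℕ) : ℝ)⁻¹) ^ 4) ^ 2 = ϑ := by
    rw [← pow_mul]
    exact Real.rpow_inv_natCast_pow hϑ0.le (by norm_num)
  obtain ⟨C₁, hC₁, h1⟩ := kb_of_atb hd
  obtain ⟨C₂, hC₂, h2⟩ := run7 hd (Λ := 18 ^ d + vb d + 4 / vb d + 16) (θ := ϑ ^ ((8 : ℕ) : ℝ)⁻¹)
    (by positivity) (by positivity) (Real.rpow_lt_one hϑ0.le (Real.rpow_lt_one (by norm_num)
      (by norm_num) hβ) (by norm_num)) (by
      rw [e8]
      exact Real.self_le_rpow_of_le_one (by norm_num) (by norm_num) (min_le_right _ _))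
  refine ⟨C₁ * (1 + 2 * C₂ * (64 * d + 4)), by positivity,
    fun F M δ δ' t p hF hM hb hk h0 h3 h4 H1 H2 ht hl hp => ?_⟩
  have hδ := h0.trans_le h3
  obtain ⟨n, hn1, hn2⟩ := exists_nat_pow_near_of_lt_one hδ (by linarith) (show (0 : ℝ) < 1 / 2 by
    norm_num) (by norm_num)
  set t₀ := ⌈(64 * d + 2) * t⌉₊ with ht₀
  have p1 : (64 * d + 2) * t ≤ t₀ := Nat.le_ceil _
  have p2 : (t₀ : ℝ) + 1 ≤ (64 * d + 4) * t := by
    linarith [Nat.ceil_lt_add_one (show 0 ≤ (64 * d + 2) * t by positivity)]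
  have p3 : 32 * d * (δ / δ') ≤ 2 ^ t₀ ^ 2 := by
    rw [← Real.log_le_log_iff (by positivity) (by positivity), Real.log_mul (by positivity)
      (by positivity), Real.log_pow]
    have q1 := Real.log_le_self (show (0 : ℝ) ≤ 32 * d by positivity)
    have q2 : ((64 * d + 2) * t) ^ 2 ≤ (t₀ ^ 2 : ℕ) := by
      push_cast
      gcongr
    have q3 : (64 * d + 2) * t ^ 2 ≤ ((64 * d + 2) * t) ^ 2 := by
      rw [mul_pow]
      gcongr
      nlinarith
    have q4 : 1 ≤ t ^ 2 := one_le_pow₀ ht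
    nlinarith [Real.log_two_gt_d9]
  have hB := bk_kO hd hF hM hb hk hβ (min_le_right _ _) h0 h3 h4 (D' := (1 / 2) ^ n / 2 ^ t₀ ^ 2) hn2
    (by
      rw [← mul_div_assoc, div_le_iff₀' (by positivity)]
      rw [← mul_div_assoc, div_le_iff₀ h0] at p3
      rw [pow_succ] at hn1
      nlinarith)
    (fun u hu h hh => (H1 u hu h hh).trans (by
      gcongr _ * ?_ * _
      exact Real.rpow_le_rpow_of_exponent_ge' (by positivity) ((div_le_one h0).2 hh) hβ.le
        (min_le_left _ _)))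
    fun u hu r p q => (H2 u hu r p q).trans (by
      have := hδ.trans_le p
      gcongr _ * ?_ * _
      exact Real.rpow_le_rpow_of_exponent_ge' (by positivity) ((div_le_one this).2 p) hβ.le
        (min_le_left _ _))
  have hq : 1 ≤ p / (p - 1) := (one_le_div (by linarith)).2 (by linarith)
  refine (h1 _ p _ hk hp (by positivity) (h2 _ n (t₀ ^ 2) t₀ hk.rf (fun j => ?_) le_rfl _
    (by linarith))).mono ?_
  · have hl := cv_pos j
    rw [e8]
    rw [one_div_pow] at hB
    convert hB.scale (KK_nice hk.rf hl) (c := ((2 ^ (j - 2)) ^ d)⁻¹) (t := -(2 ^ (j - 2))⁻¹)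
      (by positivity) (neg_ne_zero.2 (inv_pos.2 hl).ne') fun y => ?_ using 1
    · rw [mul_one]
    all_goals try
      rw [abs_neg, abs_of_pos (inv_pos.2 hl)]
      field_simp
    rw [KK_rf, ← KK_scale _ hl, mul_one, neg_smul, smul_neg, smul_inv_smul₀ hl.ne']
  · calc _ ≤ C₁ * p * (p / (p - 1) * t + C₂ * ((64 * d + 4) * t) * (2 * (p / (p - 1)))) := by
          gcongr
          exact le_mul_of_one_le_right (by linarith) ht
      _ = _ := by ring

theorem kb_fin {ι : Type} {s : Finset ι} {Ω : E d → ℝ} {F : ι → E d → ℝ} {M B : ι → ℝ} {N p : ℝ}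
    (hp : 1 ≤ p) (hN : 0 < N) (e : ∀ y, Ω y = ∑ i ∈ s, F i y) (hb : ∀ i x, |F i x| ≤ M i)
    (hB : ∀ i, 0 ≤ B i) (h : ∀ i, 0 < M i → IsKer (kO (F i) (M i)) ∧ KB (kO (F i) (M i)) p (B i)) :
    KB (kO Ω N) p ((∑ i ∈ s, M i * B i) / N) := by
  classical
  have h0 : ∀ i, 0 ≤ M i := fun i => (abs_nonneg _).trans (hb i 0)
  refine (kb_sum (s := s.filter fun i => 0 < M i) (c := fun i => M i / N) hp
    (fun i hi => (h i (Finset.mem_filter.1 hi).2).1) (fun y => ?_) (fun i _ => div_nonneg (h0 i) hN.le)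
    (fun i _ => hB i) fun i hi => (h i (Finset.mem_filter.1 hi).2).2).mono ?_
  · by_cases hy : y ∈ ann d
    · rw [kO, indicator_of_mem (by exact hy), e, Finset.sum_div, Finset.sum_filter]
      refine Finset.sum_congr rfl fun i _ => ?_
      split_ifs with hi
      · rw [kO, indicator_of_mem (by exact hy)]
        field_simp
      · rw [abs_nonpos_iff.1 ((hb i _).trans (not_lt.1 hi)), zero_div]
    · rw [kO, indicator_of_notMem (by exact hy)]
      exact (Finset.sum_eq_zero fun i _ => by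
        rw [kO, indicator_of_notMem (by exact hy), mul_zero]).symm
  · simp only [Finset.sum_div, div_mul_eq_mul_div]
    exact Finset.sum_le_sum_of_subset_of_nonneg (Finset.filter_subset _ _) fun i _ _ =>
      div_nonneg (mul_nonneg (h0 i) (hB i)) hN.le

theorem kb_ser (hd : 1 ≤ d) : ∃ C₀ : ℝ, 0 < C₀ ∧ ∀ (Ω : E d → ℝ) (F : ℕ → E d → ℝ) (M t : ℕ → ℝ)
    (S p C : ℝ), 1 < p → 0 < C →
    (∀ y, HasSum (fun n => F n y) (Ω y)) → HasSum (fun n => M n * t n) S → (∀ n, 1 ≤ t n) →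
    (∀ n, Measurable (F n)) → (∀ n x, |F n x| ≤ M n) → (∀ n, ∫ y in ann d, F n (‖y‖⁻¹ • y) = 0) →
    (∀ n, 0 < M n → KB (kO (F n) (M n)) p (C * p * (p / (p - 1)) * t n)) →
    Measurable Ω ∧ (∀ x, |Ω x| ≤ S) ∧ ∫ y in ann d, Ω (‖y‖⁻¹ • y) = 0 ∧
      (0 < S → KB (kO Ω S) p ((C + C₀) * (p * (p / (p - 1))))) := by
  obtain ⟨C₀, hC₀, h0⟩ := kb_main hd
  refine ⟨C₀, hC₀, fun Ω F M t S p C hp hC hF hM ht mF bF zF h => ?_⟩
  have hq : 1 ≤ p / (p - 1) := (one_le_div (by linarith)).2 (by linarith)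
  set q := p / (p - 1) with hqd
  have M0 : ∀ n, 0 ≤ M n := fun n => (abs_nonneg _).trans (bF n 0)
  have bt : ∀ n x, |F n x| ≤ M n * t n := fun n x =>
    (bF n x).trans (le_mul_of_one_le_right (M0 n) (ht n))
  have tail : ∀ N x, |Ω x - ∑ n ∈ Finset.range N, F n x| ≤ S - ∑ n ∈ Finset.range N, M n * t n :=
    fun N x => ((hasSum_nat_add_iff' N).2 (hF x)).norm_le_of_bounded
      ((hasSum_nat_add_iff' N).2 hM) fun n => bt _ x
  have hΩ : Measurable Ω := measurable_of_tendsto_metrizable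
    (fun N => Finset.measurable_sum (Finset.range N) fun n _ => mF n)
    (tendsto_pi_nhds.2 fun x => (hF x).tendsto_sum_nat)
  have i := fun n => sph_int (mF n) fun u _ => bF n u
  have hz : ∫ y in ann d, Ω (‖y‖⁻¹ • y) = 0 := by
    have := integral_tsum_of_summable_integral_norm i (.of_nonneg_of_le
      (fun n => integral_nonneg fun _ => norm_nonneg _) (fun n => (le_abs_self _).trans
        (par_le ann_fin fun y _ => (abs_abs _).trans_le (bt n _))) (hM.summable.mul_right _))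
    simpa only [zF, tsum_zero, fun y => (hF y).tsum_eq] using this.symm
  refine ⟨hΩ, fun x => by simpa using tail 0 x, hz, fun hS => ?_⟩
  obtain ⟨N, hN⟩ := ((hM.tendsto_sum_nat.const_sub S).eventually
    (gt_mem_nhds (show S - S < S / q by rw [sub_self]; positivity))).exists
  have zR : ∫ y in ann d, (Ω (‖y‖⁻¹ • y) - ∑ n ∈ Finset.range N, F n (‖y‖⁻¹ • y)) = 0 := by
    rw [integral_sub (sph_int hΩ fun u _ => by simpa using tail 0 u)
      (integrable_finsetSum _ fun n _ => i n), integral_finsetSum _ fun n _ => i n, hz]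
    simp [zF]
  refine (kb_fin (s := Finset.insertNone (Finset.range N))
    (F := fun o => o.elim (fun x => Ω x - ∑ n ∈ Finset.range N, F n x) F)
    (M := fun o => o.elim (S / q) M) (B := fun o => o.elim (C₀ * p * q * q) fun n => C * p * q * t n)
    hp.le hS (fun y => by simp) ?_ ?_ ?_).mono ?_
  · rintro (_ | n) x
    exacts [(tail N x).trans hN.le, bF n x]
  · rintro (_ | n)
    · exact (by positivity : 0 ≤ C₀ * p * q * q)
    · exact (by have := ht n; positivity : 0 ≤ C * p * q * t n)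
  · rintro (_ | n) hn
    · have hk := isKer_kO (hΩ.sub (Finset.measurable_sum _ fun n _ => mF n)) hn
        (fun x => (tail N x).trans hN.le) zR
      exact ⟨hk, h0 _ p q hk hp hq (Or.inl le_rfl)⟩
    · exact ⟨isKer_kO (mF n) hn (bF n) (zF n), h n hn⟩
  · have p1 := sum_le_hasSum (Finset.range N) (fun n _ => mul_nonneg (M0 n)
      (zero_le_one.trans (ht n))) hM
    simp only [Finset.sum_insertNone, Option.elim]
    rw [div_le_iff₀ hS, Finset.sum_congr rfl fun n _ => (by ring :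
      M n * (C * p * q * t n) = C * p * q * (M n * t n)), ← Finset.mul_sum]
    have p2 := mul_le_mul_of_nonneg_left p1 (show 0 ≤ C * p * q by positivity)
    have p3 : S / q * (C₀ * p * q * q) = C₀ * (p * q) * S := by field_simp
    linarith

end Pool.Agent.MP_418f02_an

end
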