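import Pool.Agent.Mg.F418f02.Gcc7537

set_option linter.all false

section

/-! Moments of order `m` of a rough singular integral of atoms are at most `C m ^ 2`. -/

open MeasureTheory Set
open scoped ENNReal

namespace Pool.Agent.MP_418f02_an

variable {d : ℕ}

/-- `L¹` form of `far_sum` -/
theorem far_abs (hd : 1 ≤ d) : ∃ C : ℝ, 0 < C ∧ ∀ k : E d → ℝ, IsKer k →
    ∀ (P : Finset (Cb d)) (b : Cb d → E d → ℝ), Atoms P b 1 → ∀ (s : ℕ) (c : Cb d) (j₀ : ℤ),
    ∫⁻ x in cube c, ENNReal.ofReal |ps (fun j => cv k j (Bl P b (j - s))) j₀ c.1 x| ≤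
      ENNReal.ofReal (C * (9 / 10) ^ s * sz d c.1) := by
  obtain ⟨C, hC, h⟩ := far_sum hd
  refine ⟨C, hC, fun k hk P b hP s c j₀ => ?_⟩
  set Y := ps (fun j => cv k j (Bl P b (j - s))) j₀ c.1 with hY
  have hYn : Nice Y := ps_nice (fun j => cv_nice hk (hP.nice_Bl _) j) _ _
  have hb := bdry_bounded c
  have m1 : MeasurableSet (cube c ∩ {x | 0 ≤ Y x}) :=
    (measurableSet_cube c).inter (measurableSet_le measurable_const hYn.meas)
  have m2 : MeasurableSet (cube c ∩ {x | Y x < 0}) :=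
    (measurableSet_cube c).inter (measurableSet_lt hYn.meas measurable_const)
  set ψ : E d → ℝ := fun x => (cube c ∩ {x | 0 ≤ Y x}).indicator (fun _ => (1 : ℝ)) x -
    (cube c ∩ {x | Y x < 0}).indicator (fun _ => (1 : ℝ)) x with hψ
  have hψn : Nice ψ := (nice_indicator m1 (hb.subset inter_subset_left) 1).sub
    (nice_indicator m2 (hb.subset inter_subset_left) 1)
  have e : ∀ x, |ψ x| ≤ 1 ∧ (x ∉ cube c → ψ x = 0) ∧
      ψ x * Y x = (cube c).indicator (fun x => |Y x|) x := fun x => by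
    by_cases hx : x ∈ cube c
    · rcases le_or_gt 0 (Y x) with h0 | h0
      · simp [hψ, hx, h0, h0.not_gt, abs_of_nonneg h0]
      · simp [hψ, hx, h0, h0.not_ge, abs_of_neg h0]
    · simp [hψ, hx]
  have h1 := h k hk P b hP s c j₀ ψ hψn (fun x => (e x).1) fun x => (e x).2.1
  rw [← hY] at h1
  simp only [fun x => (e x).2.2] at h1
  rw [integral_indicator (measurableSet_cube c)] at h1
  rw [← ofReal_integral_eq_lintegral_ofReal hYn.abs.integrable.integrableOn
    (Filter.Eventually.of_forall fun x => abs_nonneg _)]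
  exact ENNReal.ofReal_le_ofReal ((le_abs_self _).trans h1)

/-- the truncated sum over the atoms that are at least `s` levels below the kernel -/
noncomputable def farT (k : E d → ℝ) (G : ℤ → Set (E d)) (P : Finset (Cb d))
    (b : Cb d → E d → ℝ) (s : ℕ) (a e : ℤ) : E d → ℝ :=
  ps (fun j => (G j).indicator (cv k j (Bl P b (j - s)))) a e

theorem farT_nice {k : E d → ℝ} (hk : IsKer k) {G : ℤ → Set (E d)} (hG : Stop G)
    {P : Finset (Cb d)} {b : Cb d → E d → ℝ} (hP : Atoms P b 1) (s : ℕ) (a e : ℤ) :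
    Nice (farT k G P b s a e) :=
  ps_nice (fun j => (cv_nice hk (hP.nice_Bl _) j).indicator (hG.lm j).meas) _ _

theorem ps_stop (φ : ℤ → E d → ℝ) {G : ℤ → Set (E d)} (hG : Stop G) (a e : ℤ) (x : E d) :
    ps (fun j => (G j).indicator (φ j)) a e x = ps φ a e x ∨ ∃ κ ∈ Finset.Icc a e, x ∉ G κ ∧
      (κ < e → x ∈ G (κ + 1)) ∧
      ps (fun j => (G j).indicator (φ j)) a e x = ps φ a e x - ps φ a κ x := by
  classical
  by_cases h : ((Finset.Icc a e).filter fun j => x ∉ G j).Nonempty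
  · right
    obtain ⟨κ, hκ, hmax⟩ := Finset.exists_max_image _ id h
    rw [Finset.mem_filter] at hκ
    have hκ' := Finset.mem_Icc.1 hκ.1
    have hup : ∀ j, κ < j → j ≤ e → x ∈ G j := fun j h1 h2 => by
      by_contra hx
      have := hmax j (Finset.mem_filter.2 ⟨Finset.mem_Icc.2 ⟨by omega, h2⟩, hx⟩)
      simp only [id] at this
      omega
    refine ⟨κ, hκ.1, hκ.2, fun h1 => hup _ (by omega) (by omega), ?_⟩
    have e1 : Finset.Icc a κ = (Finset.Icc a e).filter fun j => j ≤ κ := by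
      ext j
      simp only [Finset.mem_filter, Finset.mem_Icc]
      omega
    unfold ps
    rw [e1, Finset.sum_filter, ← Finset.sum_sub_distrib]
    refine Finset.sum_congr rfl fun j hj => ?_
    by_cases hj' : j ≤ κ
    · rw [if_pos hj', sub_self]
      exact indicator_of_notMem (fun hx => hκ.2 (hG.mono _ _ hj' hx)) _
    · rw [if_neg hj', sub_zero]
      exact indicator_of_mem (hup j (by omega) (Finset.mem_Icc.1 hj).2) _
  · left
    refine Finset.sum_congr rfl fun j hj => indicator_of_mem ?_ _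
    by_contra hx
    exact h ⟨j, Finset.mem_filter.2 ⟨hj, hx⟩⟩

theorem lint_const (c : Cb d) {ε : ℝ} (hε : 0 ≤ ε) :
    ∫⁻ _ in cube c, ENNReal.ofReal ε = ENNReal.ofReal (ε * sz d c.1) := by
  rw [setLIntegral_const, volume_cube, ENNReal.ofReal_mul hε]

theorem farT_l1 (hd : 1 ≤ d) : ∃ C : ℝ, 0 < C ∧ ∀ k : E d → ℝ, IsKer k →
    ∀ (P : Finset (Cb d)) (b : Cb d → E d → ℝ), Atoms P b 1 → ∀ G : ℤ → Set (E d), Stop G →
    ∀ (s : ℕ) (W : Cb d) (j₀ : ℤ), Mom (farT k G P b s j₀ W.1) W 1 (C * (9 / 10) ^ s) := by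
  obtain ⟨C, hC, h⟩ := far_abs hd
  refine ⟨2 * C, by positivity, fun k hk P b hP G hG s W j₀ => ?_⟩
  set φ : ℤ → E d → ℝ := fun j => cv k j (Bl P b (j - s)) with hφ
  have hφn : ∀ e, Measurable fun x => ENNReal.ofReal |ps φ j₀ e x| := fun e =>
    (ps_nice (fun j => cv_nice hk (hP.nice_Bl _) j) _ _).meas.abs.ennreal_ofReal
  set ε : ℝ := C * (9 / 10) ^ s with hε
  have hε0 : 0 ≤ ε := by positivity
  set S : ℤ → Set (E d) := fun κ => {x | x ∈ cube W ∧ x ∉ G κ ∧ (κ < W.1 → x ∈ G (κ + 1))}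
    with hS
  have hlm : ∀ κ ∈ Finset.Icc j₀ W.1, LM κ (S κ) := fun κ hκ x y e hx =>
    ⟨(lm_cube W).mono (Finset.mem_Icc.1 hκ).2 x y e hx.1,
      fun hy => hx.2.1 (hG.lm κ y x e.symm hy),
      fun h1 => (hG.lm (κ + 1)).mono (by omega) x y e (hx.2.2 h1)⟩
  have hdj : (Finset.Icc j₀ W.1 : Set ℤ).PairwiseDisjoint S := by
    have key : ∀ i j, j ≤ W.1 → i < j → Disjoint (S i) (S j) := fun i j hj hij =>
      Set.disjoint_left.2 fun x hi hj' =>
        hj'.2.1 (hG.mono _ _ (by omega) (hi.2.2 (by omega)))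
    intro i hi j hj hne
    rcases lt_or_gt_of_ne hne with h1 | h1
    · exact key i j (Finset.mem_Icc.1 hj).2 h1
    · exact (key j i (Finset.mem_Icc.1 hi).2 h1).symm
  have hpt : ∀ x ∈ cube W, ENNReal.ofReal |farT k G P b s j₀ W.1 x| ^ (1 : ℝ) ≤
      ENNReal.ofReal |ps φ j₀ W.1 x| + ∑ κ ∈ Finset.Icc j₀ W.1,
        (S κ).indicator (fun x => ENNReal.ofReal |ps φ j₀ κ x|) x := fun x hx => by
    rw [ENNReal.rpow_one]
    rcases ps_stop φ hG j₀ W.1 x with h1 | ⟨κ, hκ, h1, h2, h3⟩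
    · exact le_add_right (le_of_eq (congrArg (fun t => ENNReal.ofReal |t|) h1))
    · have h4 : ENNReal.ofReal |ps φ j₀ κ x| ≤ ∑ κ ∈ Finset.Icc j₀ W.1,
          (S κ).indicator (fun x => ENNReal.ofReal |ps φ j₀ κ x|) x := by
        refine le_trans (le_of_eq ?_) (Finset.single_le_sum (f := fun κ =>
          (S κ).indicator (fun x => ENNReal.ofReal |ps φ j₀ κ x|) x) (fun _ _ => bot_le) hκ)
        exact (indicator_of_mem (show x ∈ S κ from ⟨hx, h1, h2⟩)
          fun x => ENNReal.ofReal |ps φ j₀ κ x|).symm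
      refine le_trans ?_ (add_le_add_right h4 _)
      rw [← ENNReal.ofReal_add (abs_nonneg _) (abs_nonneg _)]
      exact ENNReal.ofReal_le_ofReal ((le_of_eq (congrArg abs h3)).trans (abs_sub _ _))
  have hone : ∀ κ ∈ Finset.Icc j₀ W.1, ∫⁻ x in cube W,
      (S κ).indicator (fun x => ENNReal.ofReal |ps φ j₀ κ x|) x ≤
      ∫⁻ _ in S κ, ENNReal.ofReal ε := fun κ hκ => by
    refine (setLIntegral_le_lintegral _ _).trans ?_
    rw [lintegral_indicator (hlm κ hκ).meas]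
    refine (hlm κ hκ).lintegral_le fun c hc _ => ?_
    subst hc
    rw [lint_const c hε0]
    exact h k hk P b hP s c j₀
  have hz := sz_pos (d := d) W.1
  unfold Mom
  calc _ ≤ ∫⁻ x in cube W, (ENNReal.ofReal |ps φ j₀ W.1 x| + ∑ κ ∈ Finset.Icc j₀ W.1,
        (S κ).indicator (fun x => ENNReal.ofReal |ps φ j₀ κ x|) x) :=
        setLIntegral_mono' (measurableSet_cube W) hpt
    _ = (∫⁻ x in cube W, ENNReal.ofReal |ps φ j₀ W.1 x|) + ∑ κ ∈ Finset.Icc j₀ W.1,
        ∫⁻ x in cube W, (S κ).indicator (fun x => ENNReal.ofReal |ps φ j₀ κ x|) x := by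
        rw [lintegral_add_left (hφn _), lintegral_finsetSum _ fun κ hκ =>
          (hφn κ).indicator (hlm κ hκ).meas]
    _ ≤ ENNReal.ofReal (ε * sz d W.1) + ∫⁻ _ in cube W, ENNReal.ofReal ε := by
        refine add_le_add (h k hk P b hP s W j₀) ((Finset.sum_le_sum hone).trans ?_)
        rw [← lintegral_biUnion_finset hdj fun κ hκ => (hlm κ hκ).meas]
        exact lintegral_mono_set (iUnion₂_subset fun κ _ x hx => hx.1)
    _ = _ := by
        rw [lint_const W hε0, ← ENNReal.ofReal_add (by positivity) (by positivity), Real.rpow_one]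
        congr 1
        rw [hε]
        ring

theorem Mom.sub {Y Z : E d → ℝ} {Q : Cb d} {m B B' : ℝ} (h : Mom Y Q m B) (h' : Mom Z Q m B')
    (hY : Measurable Y) (hZ : Measurable Z) (hm : 1 ≤ m) (hB : 0 ≤ B) (hB' : 0 ≤ B') :
    Mom (fun x => Y x - Z x) Q m (B + B') := by
  have := h.add (Z := fun x => -Z x) (h'.mono (by linarith) hB' le_rfl fun x _ => (abs_neg _).le)
    hY hZ.neg hm hB hB'
  simpa only [sub_eq_add_neg] using this

theorem mom_interp {Y : E d → ℝ} {Q : Cb d} {m ε β : ℝ} (hY : Measurable Y) (hm : 1 ≤ m)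
    (hε : 0 ≤ ε) (hβ : 1 ≤ β) (h1 : Mom Y Q 1 ε) (h2 : Mom Y Q (2 * m - 1) β) :
    Mom Y Q m (ε ^ (1 / (2 * m)) * β) := by
  have hz := sz_pos (d := d) Q.1
  have hYm : Measurable fun x => ENNReal.ofReal |Y x| := hY.abs.ennreal_ofReal
  have h3 := ENNReal.lintegral_mul_le_Lp_mul_Lq (volume.restrict (cube Q))
    Real.HolderConjugate.two_two (hYm.pow_const (1 / 2 : ℝ)).aemeasurable
    (hYm.pow_const ((2 * m - 1) / 2)).aemeasurable
  have e1 : ∀ u : ℝ≥0∞, u ^ (1 / 2 : ℝ) * u ^ ((2 * m - 1) / 2) = u ^ m := fun u => by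
    rw [← ENNReal.rpow_add_of_nonneg _ _ (by norm_num) (by linarith)]
    congr 1
    ring
  have e2 : ∀ u : ℝ≥0∞, (u ^ (1 / 2 : ℝ)) ^ (2 : ℝ) = u ^ (1 : ℝ) := fun u => by
    rw [← ENNReal.rpow_mul]
    norm_num
  have e3 : ∀ u : ℝ≥0∞, (u ^ ((2 * m - 1) / 2)) ^ (2 : ℝ) = u ^ (2 * m - 1) := fun u => by
    rw [← ENNReal.rpow_mul]
    congr 1
    ring
  simp only [Pi.mul_apply, e1, e2, e3] at h3
  unfold Mom at h1 h2 ⊢
  refine h3.trans ((mul_le_mul' (ENNReal.rpow_le_rpow h1 (by norm_num))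
    (ENNReal.rpow_le_rpow h2 (by norm_num))).trans ?_)
  have hβ0 : 0 < β := by linarith
  rw [← ENNReal.mul_rpow_of_nonneg _ _ (by norm_num), ← ENNReal.ofReal_mul (by positivity),
    ENNReal.ofReal_rpow_of_nonneg (by positivity) (by norm_num)]
  refine ENNReal.ofReal_le_ofReal ?_
  rw [← Real.sqrt_eq_rpow, Real.sqrt_le_left (by positivity), Real.rpow_one, mul_pow,
    ← Real.rpow_natCast ((ε ^ (1 / (2 * m)) * β) ^ m), ← Real.rpow_mul (by positivity),
    Real.mul_rpow (by positivity) hβ0.le, ← Real.rpow_mul hε,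
    show 1 / (2 * m) * (m * ((2 : ℕ) : ℝ)) = 1 by push_cast; field_simp, Real.rpow_one]
  have h4 : β ^ (2 * m - 1) ≤ β ^ (m * ((2 : ℕ) : ℝ)) :=
    Real.rpow_le_rpow_of_exponent_le hβ (by push_cast; linarith)
  calc _ = ε * β ^ (2 * m - 1) * sz d Q.1 ^ 2 := by ring
    _ ≤ _ := by gcongr

theorem m2_geom (S : ℕ) : ∑ i ∈ Finset.range S, ((i : ℝ) + 2) * (9 / 10) ^ i ≤ 110 := by
  have h : ∑ i ∈ Finset.range S, ((i : ℝ) + 2) * (9 / 10) ^ i =
      110 - (10 * S + 110) * (9 / 10) ^ S := by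
    induction S with
    | zero => simp
    | succ n ih => rw [Finset.sum_range_succ, ih]; push_cast; ring
  rw [h]
  have : 0 ≤ (10 * (S : ℝ) + 110) * (9 / 10) ^ S := by positivity
  linarith

/-- moment bound of order `m` for all families of atoms -/
def AtB (k : E d → ℝ) (m β : ℝ) : Prop :=
  ∀ (P : Finset (Cb d)) (b : Cb d → E d → ℝ), Atoms P b 1 → ∀ G : ℤ → Set (E d), Stop G →
    ∀ (W : Cb d) (j₀ : ℤ), (∀ j, j₀ ≤ j → j ≤ W.1 → ∀ x ∈ cube W, x ∈ G j → ∀ Q ∈ P,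
      (cube Q ∩ big (cb j x)).Nonempty → Q.1 < j) →
    Mom (TG k G j₀ W.1 fun x => ∑ Q ∈ P, b Q x) W m β

theorem run4 (hd : 1 ≤ d) : ∃ C : ℝ, 0 < C ∧ ∀ k : E d → ℝ, IsKer k → ∀ m : ℝ, 1 ≤ m →
    AtB k m (C * m ^ 2) := by
  obtain ⟨C₁, hC₁, h1⟩ := farT_l1 hd
  obtain ⟨C₂, hC₂, h2⟩ := run2 (d := d)
  refine ⟨(2 * C₁ + 1) * (2 * C₂ + 1) * 6 * 110, by positivity,
    fun k hk m hm P b hP G hG W j₀ H => ?_⟩
  set F : ℕ → E d → ℝ := fun s => farT k G P b s j₀ W.1 with hF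
  have hFm : ∀ s, Measurable (F s) := fun s => (farT_nice hk hG hP s _ _).meas
  set n := ⌈2 * m⌉₊ with hn
  have hn1 : 2 * m ≤ n := Nat.le_ceil _
  have hn2 : (n : ℝ) ≤ 3 * m := by
    have := Nat.ceil_lt_add_one (show (0 : ℝ) ≤ 2 * m by linarith)
    linarith
  have hn3 : 1 ≤ n := Nat.one_le_ceil_iff.2 (by linarith)
  have hm' : 1 ≤ 2 * m - 1 := by linarith
  have near : ∀ s : ℕ, Mom (fun x => F 0 x - F s x) W (2 * m - 1)
      (C₂ * (s + 1) * (2 * m - 1)) := fun s => by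
    refine (h2 k hk P b hP s W j₀ _ hm').mono (by linarith) (by positivity) le_rfl fun x _ => ?_
    refine le_trans ?_ (le_abs_self _)
    simp only [hF, farT, ps]
    rw [← Finset.sum_sub_distrib]
    refine (Finset.abs_sum_le_sum_abs _ _).trans (Finset.sum_le_sum fun j _ => ?_)
    by_cases hx : x ∈ G j
    · rw [indicator_of_mem hx, indicator_of_mem hx]
      have e : Bl P b (j - (0 : ℕ)) = fun y => Bw P b (j - s) j y + Bl P b (j - s) y := by
        funext y
        rw [Nat.cast_zero, sub_zero]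
        exact Bl_split P b (by simp) y
      rw [e, cv_add hk (hP.nice_Bw _ _) (hP.nice_Bl _), add_sub_cancel_right]
    · rw [indicator_of_notMem hx, indicator_of_notMem hx, sub_zero, abs_zero]
      exact abs_nonneg _
  have piece : ∀ i : ℕ, Mom (fun x => F (i * n) x - F ((i + 1) * n) x) W m
      ((2 * C₁ + 1) * (2 * C₂ + 1) * 6 * m ^ 2 * (((i : ℝ) + 2) * (9 / 10) ^ i)) := fun i => by
    have hi : (0 : ℝ) ≤ i := Nat.cast_nonneg i
    have hn4 : (1 : ℝ) ≤ n := by exact_mod_cast hn3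
    have a1 := (h1 k hk P b hP G hG (i * n) W j₀).sub (h1 k hk P b hP G hG ((i + 1) * n) W j₀)
      (hFm _) (hFm _) le_rfl (by positivity) (by positivity)
    have a2 := (near ((i + 1) * n)).sub (near (i * n)) ((hFm _).sub (hFm _))
      ((hFm _).sub (hFm _)) hm' (by positivity) (by positivity)
    have p1 : (9 / 10 : ℝ) ^ ((i + 1) * n) ≤ (9 / 10) ^ (i * n) :=
      pow_le_pow_of_le_one (by norm_num) (by norm_num) (by nlinarith)
    have b1 : Mom (fun x => F (i * n) x - F ((i + 1) * n) x) W 1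
        ((2 * C₁ + 1) * (9 / 10) ^ (i * n)) := by
      refine a1.mono zero_le_one (by positivity) ?_ fun x _ => le_rfl
      have : (0 : ℝ) ≤ (9 / 10) ^ (i * n) := by positivity
      nlinarith
    have q0 : 1 ≤ ((i : ℝ) + 2) * n * (2 * m - 1) :=
      one_le_mul_of_one_le_of_one_le (one_le_mul_of_one_le_of_one_le (by linarith) hn4) hm'
    have b2 : Mom (fun x => F (i * n) x - F ((i + 1) * n) x) W (2 * m - 1)
        ((2 * C₂ + 1) * (((i : ℝ) + 2) * n * (2 * m - 1))) := by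
      refine a2.mono (by linarith) (by positivity) ?_ fun x _ => le_of_eq (by congr 1; ring)
      push_cast
      have q1 : ((i : ℝ) + 1) * n + 1 ≤ (i + 2) * n := by nlinarith
      have q2 : (i : ℝ) * n + 1 ≤ (i + 2) * n := by nlinarith
      calc _ ≤ C₂ * ((i + 2) * n) * (2 * m - 1) + C₂ * ((i + 2) * n) * (2 * m - 1) := by gcongr
        _ ≤ _ := by nlinarith
    refine (mom_interp ((hFm _).sub (hFm _)) hm (by positivity)
      (one_le_mul_of_one_le_of_one_le (by linarith) q0) b1 b2).mono (by linarith)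
      (by positivity) ?_ fun x _ => le_rfl
    have r1 : ((2 * C₁ + 1) * (9 / 10 : ℝ) ^ (i * n)) ^ (1 / (2 * m)) ≤
        (2 * C₁ + 1) * (9 / 10) ^ i := by
      rw [Real.mul_rpow (by positivity) (by positivity)]
      refine mul_le_mul (Real.rpow_le_self_of_one_le (by linarith) ?_) ?_ (by positivity)
        (by positivity)
      · rw [div_le_one (by linarith)]
        linarith
      · rw [← Real.rpow_natCast, ← Real.rpow_mul (by norm_num), ← Real.rpow_natCast]
        refine Real.rpow_le_rpow_of_exponent_ge (by norm_num) (by norm_num) ?_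
        push_cast
        rw [mul_one_div, le_div_iff₀ (by linarith)]
        exact mul_le_mul_of_nonneg_left hn1 hi
    have r2 : ((i : ℝ) + 2) * n * (2 * m - 1) ≤ (i + 2) * (3 * m) * (2 * m) := by
      gcongr
      linarith
    calc _ ≤ (2 * C₁ + 1) * (9 / 10) ^ i * ((2 * C₂ + 1) * ((i + 2) * (3 * m) * (2 * m))) := by
          gcongr
      _ = _ := by ring
  obtain ⟨S, hS⟩ : ∃ S : ℕ, ∀ Q ∈ P, W.1 - S ≤ Q.1 := by
    obtain ⟨l, hl⟩ := (P.image fun Q => Q.1).bddBelow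
    refine ⟨(W.1 - l).toNat, fun Q hQ => ?_⟩
    have := hl (Finset.mem_coe.2 (Finset.mem_image_of_mem (fun Q : Cb d => Q.1) hQ))
    omega
  have hall := mom_sum (s := Finset.range S) (fun i _ => piece i)
    (fun i _ => (hFm _).sub (hFm _)) hm fun i _ => by positivity
  refine hall.mono (by linarith) (Finset.sum_nonneg fun i _ => by positivity) ?_
    fun x hx => le_of_eq ?_
  · rw [← Finset.mul_sum]
    calc _ ≤ (2 * C₁ + 1) * (2 * C₂ + 1) * 6 * m ^ 2 * 110 :=
          mul_le_mul_of_nonneg_left (m2_geom S) (by positivity)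
      _ = _ := by ring
  · have hz : F (S * n) x = 0 := by
      simp only [hF, farT, ps]
      refine Finset.sum_eq_zero fun j hj => ?_
      have e : Bl P b (j - (S * n : ℕ)) = fun _ => 0 := by
        funext y
        refine Finset.sum_eq_zero fun Q hQ => ?_
        rw [Finset.mem_filter] at hQ
        have h3 := hS Q hQ.1
        have h4 := (Finset.mem_Icc.1 hj).2
        have h5 : S ≤ S * n := Nat.le_mul_of_pos_right _ hn3
        omega
      rw [e, Set.indicator_apply_eq_zero]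
      exact fun _ => by simp [cv]
    rw [Finset.sum_range_sub' (fun i => F (i * n) x) S, hz, sub_zero, zero_mul]
    congr 1
    simp only [hF, farT, TG, ps]
    refine Finset.sum_congr rfl fun j hj => ?_
    obtain ⟨hj1, hj2⟩ := Finset.mem_Icc.1 hj
    by_cases hxG : x ∈ G j
    · rw [indicator_of_mem hxG, indicator_of_mem hxG, hP.cv_eq_Bl hk (H j hj1 hj2 x hx hxG),
        Nat.cast_zero, sub_zero]
    · rw [indicator_of_notMem hxG, indicator_of_notMem hxG]

end Pool.Agent.MP_418f02_an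

end

section

/-! Kernels with Lipschitz constant `exp D`: moments of order `m` are at most `C m √D`. -/

open MeasureTheory Set
open scoped ENNReal

namespace Pool.Agent.MP_418f02_an

variable {d : ℕ}

/-- the averaged kernel is Lipschitz -/
def LipK (k : E d → ℝ) (Λ : ℝ) : Prop := ∀ y y', |KK k 1 y - KK k 1 y'| ≤ Λ * ‖y - y'‖

theorem LipK.rf {k : E d → ℝ} {Λ : ℝ} (h : LipK k Λ) : LipK (rf k) Λ := fun y y' => by
  rw [KK_rf, KK_rf, ← norm_neg (y - y'), show -(y - y') = -y - -y' by abel]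
  exact h _ _

theorem LipK.scale {k : E d → ℝ} {Λ : ℝ} (h : LipK k Λ) {l : ℝ} (hl : 0 < l) (y y' : E d) :
    |KK k l y - KK k l y'| ≤ (l ^ d)⁻¹ * (Λ * (l⁻¹ * ‖y - y'‖)) := by
  have e : ∀ z : E d, KK k l z = (l ^ d)⁻¹ * KK k 1 (l⁻¹ • z) := fun z => by
    rw [← KK_scale k hl 1, mul_one, smul_inv_smul₀ hl.ne']
  rw [e, e, ← mul_sub, abs_mul, abs_of_pos (by positivity : 0 < (l ^ d)⁻¹)]
  refine mul_le_mul_of_nonneg_left ((h _ _).trans_eq ?_) (by positivity)
  rw [← smul_sub, norm_smul, Real.norm_of_nonneg (by positivity)]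

theorem cv_lip {k H : E d → ℝ} {Λ : ℝ} (hk : IsKer k) (h : LipK k Λ) (hH : Nice H)
    {j : ℤ} {x y : E d} (e : ix j x = ix j y) : |cv k j H x - cv k j H y| ≤
      4 ^ d / sz d j * (Λ * ((2 ^ (j - 2))⁻¹ * ‖x - y‖)) * ∫ z in big (cb j x), |H z| := by
  have hK := KK_nice hk (cv_pos j)
  have hc : cb j y = cb j x := by rw [cb, cb, e]
  unfold cv
  rw [← integral_sub (cv_int hK hH x) (cv_int hK hH y), ← integral_const_mul,
    ← integral_indicator (measurableSet_big _)]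
  refine (abs_integral_le_integral_abs).trans (integral_mono_of_nonneg
    (Filter.Eventually.of_forall fun z => abs_nonneg _)
    ((hH.abs.const_mul _).indicator (measurableSet_big _)).integrable
    (Filter.Eventually.of_forall fun z => ?_))
  by_cases hz : z ∈ big (cb j x)
  · simp only [indicator_of_mem hz]
    rw [← sub_mul, abs_mul, ← cv_size]
    refine mul_le_mul_of_nonneg_right ((h.scale (cv_pos j) _ _).trans_eq ?_) (abs_nonneg _)
    rw [sub_sub_sub_cancel_right]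
  · simp only [indicator_of_notMem hz]
    rw [cv_off hk hz, cv_off hk (hc ▸ hz)]
    simp

theorem lip_geom (a b : ℤ) : ∑ j ∈ Finset.Icc a b, (2 : ℝ) ^ (a - j) ≤ 2 := by
  have h := l2_tel (fun j => min 2 (2 * (2 : ℝ) ^ (a - j))) (M := 2) (fun j => by positivity)
    (fun j => min_le_left _ _) a b
  refine le_trans (le_of_eq (Finset.sum_congr rfl fun j hj => ?_)) h
  have hj1 := (Finset.mem_Icc.1 hj).1
  have h1 : (2 : ℝ) ^ (a - j) ≤ 1 := zpow_le_one_of_nonpos₀ one_le_two (by omega)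
  have h2 : (2 : ℝ) ^ (a - j) = 2 * 2 ^ (a - (j + 1)) := by
    rw [mul_comm, ← zpow_add_one₀ two_ne_zero]
    congr 1
    ring
  rw [min_eq_right (by linarith), min_eq_right (by linarith), ← h2]
  ring

/-- oscillation of the delayed sum on a cube -/
theorem lip_osc {k : E d → ℝ} {D : ℝ} (hk : IsKer k) (h : LipK k (Real.exp D))
    {P : Finset (Cb d)} {b : Cb d → E d → ℝ} (hP : Atoms P b 1) {L : ℕ} (hL : 20 * D ≤ L)
    {R : Cb d} {x y : E d} (hx : x ∈ cube R) (hy : y ∈ cube R) (e : ℤ) :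
    |ps (fun j => cv k j (Bl P b j)) (R.1 + L) e x -
      ps (fun j => cv k j (Bl P b j)) (R.1 + L) e y| ≤ 8 * d * 12 ^ d := by
  have hp : Real.exp D * (2 : ℝ) ^ (-(L : ℤ)) ≤ 1 := by
    have h1 : (2 : ℝ) ^ (-(L : ℤ)) ≤ (9 / 10) ^ L := by
      rw [zpow_neg, zpow_natCast, ← inv_pow]
      exact pow_le_pow_left₀ (by norm_num) (by norm_num) _
    by_cases hD : 0 ≤ D
    · have h2 := run3_pow L (t := D) (by linarith)
      calc _ ≤ Real.exp D * Real.exp (-D) := by gcongr; exact h1.trans h2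
        _ = 1 := by rw [← Real.exp_add]; simp
    · exact mul_le_one₀ (Real.exp_le_one_iff.2 (by linarith)) (by positivity)
        (h1.trans (pow_le_one₀ (by norm_num) (by norm_num)))
  unfold ps
  rw [← Finset.sum_sub_distrib]
  refine (Finset.abs_sum_le_sum_abs _ _).trans ?_
  have key : ∀ j ∈ Finset.Icc (R.1 + L) e, |cv k j (Bl P b j) x - cv k j (Bl P b j) y| ≤
      4 * d * 12 ^ d * (2 : ℝ) ^ (R.1 + L - j) := fun j hj => by
    have hj1 := (Finset.mem_Icc.1 hj).1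
    have hz := sz_pos (d := d) j
    have h1 := atom_mass hP zero_le_one (S := big (cb j x)) (e := j) (j := j) (lm_big (cb j x))
      le_rfl (v := 3 ^ d * sz d j) (by positivity) (volume_big _).le
    have h2 := norm_sub_le_of_cube hx hy
    have h3 : ((2 : ℝ) ^ (j - 2))⁻¹ * 2 ^ R.1 = 4 * 2 ^ (-(L : ℤ)) * 2 ^ (R.1 + L - j) := by
      rw [← zpow_neg, ← zpow_add₀ two_ne_zero, mul_assoc, ← zpow_add₀ two_ne_zero,
        show (4 : ℝ) = 2 ^ (2 : ℤ) by norm_num, ← zpow_add₀ two_ne_zero]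
      congr 1
      ring
    have h4 := cv_pos j
    refine (cv_lip hk h (hP.nice_Bl j) (ix_mono (by omega) (hx.trans hy.symm))).trans ?_
    calc _ ≤ 4 ^ d / sz d j * (Real.exp D * ((2 ^ (j - 2))⁻¹ * (d * 2 ^ R.1))) *
          (1 * (3 ^ d * sz d j)) := by gcongr
      _ = d * (4 ^ d * 3 ^ d) * Real.exp D * (((2 : ℝ) ^ (j - 2))⁻¹ * 2 ^ R.1) := by
          field_simp
      _ = 4 * d * 12 ^ d * (2 : ℝ) ^ (R.1 + L - j) * (Real.exp D * 2 ^ (-(L : ℤ))) := by
          rw [h3, ← mul_pow]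
          norm_num
          ring
      _ ≤ _ := mul_le_of_le_one_right (by positivity) hp
  refine (Finset.sum_le_sum key).trans ?_
  rw [← Finset.mul_sum]
  exact (mul_le_mul_of_nonneg_left (lip_geom _ _) (by positivity)).trans_eq (by ring)

theorem lip_sign {T : E d → ℝ} (hT : Nice T) {R : Cb d} {A c : ℝ} {y : E d} (hA : A < |T y|)
    (h : ∀ x ∈ cube R, |T x - T y| ≤ c) :
    ∃ σ : ℝ, |σ| ≤ 1 ∧ (A - c) * sz d R.1 ≤ σ * ∫ x in cube R, T x := by
  have key : ∀ σ : ℝ, |σ| = 1 → σ * T y = |T y| → (A - c) * sz d R.1 ≤ σ * ∫ x in cube R, T x :=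
    fun σ h1 h2 => by
      rw [← integral_const_mul, ← bdry_real, mul_comm, ← smul_eq_mul, ← setIntegral_const]
      refine setIntegral_mono_on (integrableOn_const (by rw [volume_cube]; simp))
        (hT.const_mul σ).integrable.integrableOn (measurableSet_cube R) fun x hx => ?_
      have h3 : |σ * (T x - T y)| ≤ c := by rw [abs_mul, h1, one_mul]; exact h x hx
      have h4 := (abs_le.1 h3).1
      linarith
  rcases le_total 0 (T y) with h0 | h0
  · exact ⟨1, by simp, key 1 (by simp) (by rw [one_mul, abs_of_nonneg h0])⟩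
  · exact ⟨-1, by simp, key (-1) (by simp) (by rw [neg_one_mul, abs_of_nonpos h0])⟩

theorem run5_step (hd : 1 ≤ d) : ∃ C : ℝ, 0 < C ∧ ∀ k : E d → ℝ, IsKer k →
    ∀ (P : Finset (Cb d)) (b : Cb d → E d → ℝ), Atoms P b 1 → ∀ D : ℝ, 1 ≤ D →
    LipK k (Real.exp D) → ∀ G : ℤ → Set (E d), Stop G →
    ∀ (W : Cb d) (j₀ : ℤ), (∀ j, j₀ ≤ j → j ≤ W.1 → ∀ x ∈ cube W, x ∈ G j → ∀ Q ∈ P,
      (cube Q ∩ big (cb j x)).Nonempty → Q.1 < j) →
    OneStep (fun j => (G j).indicator (cv k j fun x => ∑ Q ∈ P, b Q x)) j₀ ⌈20 * D⌉₊ (C * D)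
      (Real.exp (-√D)) W := by
  obtain ⟨C₂, hC₂, h2⟩ := run3_near (d := d)
  obtain ⟨C₃, hC₃, h3⟩ := run3_far hd
  set C₁ : ℝ := 8 * d * 12 ^ d with hC₁
  have hC₁0 : 0 ≤ C₁ := by positivity
  refine ⟨C₁ + 12 * C₂ + 23 * C₃ + 1, by positivity, ?_⟩
  intro k hk P b hP D hD hlip G hG W j₀ H c₀ hc₀ hcW F hF
  by_contra hv
  push Not at hv
  set L := ⌈20 * D⌉₊ with hL
  set s₀ := ⌈10 * √D⌉₊ with hs₀
  set B : E d → ℝ := fun x => ∑ Q ∈ P, b Q x with hB
  have hz := sz_pos (d := d) c₀.1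
  have hr1 : 1 ≤ √D := Real.one_le_sqrt.2 hD
  have hr2 : √D * √D = D := Real.mul_self_sqrt (by linarith)
  have hG' : ∀ R ∈ F, ∀ j, R.1 + L ≤ j → cube R ⊆ G j := fun R hR j hj => by
    obtain ⟨y, hy, hy'⟩ := hF.ne R hR
    have hy2 : y ∈ G (R.1 + L) := by
      by_contra h
      exact hy' (indicator_of_notMem h _)
    exact ((hG.lm _).cube_subset (by simp) hy hy2).trans (hG.mono _ _ hj)
  have e1 : ∀ R ∈ F, ∀ y ∈ cube R, ps (fun j => (G j).indicator (cv k j B)) (R.1 + L) c₀.1 y =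
      ps (fun j => cv k j (Bl P b j)) (R.1 + L) c₀.1 y := fun R hR y hy =>
    Finset.sum_congr rfl fun j hj => by
      obtain ⟨hj1, hj2⟩ := Finset.mem_Icc.1 hj
      beta_reduce
      rw [indicator_of_mem (hG' R hR j hj1 hy), hP.cv_eq_Bl hk (H j ((hF.low R hR).trans hj1)
        (hj2.trans hc₀) y (hcW (hF.sub R hR hy)) (hG' R hR j hj1 hy))]
  have e2 : ∀ (R : Cb d) (y : E d), ps (fun j => cv k j (Bl P b j)) (R.1 + L) c₀.1 y =
      ps (fun j => cv k j (Bw P b (j - s₀) j)) (R.1 + L) c₀.1 y +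
        ps (fun j => cv k j (Bl P b (j - s₀))) (R.1 + L) c₀.1 y := fun R y => by
    unfold ps
    rw [← Finset.sum_add_distrib]
    refine Finset.sum_congr rfl fun j _ => ?_
    beta_reduce
    rw [← cv_add hk (hP.nice_Bw _ _) (hP.nice_Bl _)]
    congr 1
    funext x
    exact Bl_split P b (by simp) x
  have h1 : ∀ R : Cb d, ∃ σ : ℝ, |σ| ≤ 1 ∧ (R ∈ F →
      ((C₁ + 12 * C₂ + 23 * C₃ + 1) * D - C₁) * sz d R.1 ≤
        σ * ∫ x in cube R, ps (fun j => cv k j (Bl P b j)) (R.1 + L) c₀.1 x) := fun R => by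
    by_cases hR : R ∈ F
    · obtain ⟨y, hy, hy'⟩ := nonempty_of_measure_ne_zero (hF.pos R hR).ne'
      rw [e1 R hR y hy] at hy'
      obtain ⟨σ, h4, h5⟩ := lip_sign (ps_nice (fun j => cv_nice hk (hP.nice_Bl j) j) _ _) hy'
        fun x hx => lip_osc hk hlip hP (Nat.le_ceil _) hx hy c₀.1
      exact ⟨σ, h4, fun _ => h5⟩
    · exact ⟨0, by simp, fun h => absurd h hR⟩
  choose σ hσ h4' using h1
  have h4 := Finset.sum_le_sum h4'
  have h5 := h2 k hk P b hP s₀ L c₀ j₀ F σ (√D) hr1 hF.dj hF.low hF.sub hσ hv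
  have h6 := h3 k hk P b hP s₀ L c₀ j₀ F σ hF.dj hF.low hF.up hF.sub hσ
  have e3 : ∑ R ∈ F, σ R * (∫ x in cube R, ps (fun j => cv k j (Bl P b j)) (R.1 + L) c₀.1 x) =
      ∑ R ∈ F, σ R * (∫ x in cube R,
        ps (fun j => cv k j (Bw P b (j - s₀) j)) (R.1 + L) c₀.1 x) +
      ∑ R ∈ F, σ R * (∫ x in cube R,
        ps (fun j => cv k j (Bl P b (j - s₀))) (R.1 + L) c₀.1 x) := by
    rw [← Finset.sum_add_distrib]
    refine Finset.sum_congr rfl fun R _ => ?_
    rw [← mul_add, ← integral_add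
      (ps_nice (fun j => cv_nice hk (hP.nice_Bw _ _) j) _ _).integrable.integrableOn
      (ps_nice (fun j => cv_nice hk (hP.nice_Bl _) j) _ _).integrable.integrableOn]
    simp only [e2 R]
  rw [e3, ← Finset.mul_sum] at h4
  set v := ∑ R ∈ F, sz d R.1 with hvdef
  have hv0 : 0 < v := lt_trans (by positivity) hv
  have hL1 : (L : ℝ) + 1 ≤ 22 * D := by
    have := Nat.ceil_lt_add_one (show (0 : ℝ) ≤ 20 * D by linarith)
    linarith
  have hs1 : (s₀ : ℝ) + 1 ≤ 12 * √D := by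
    have := Nat.ceil_lt_add_one (show (0 : ℝ) ≤ 10 * √D by linarith)
    linarith
  have p1 : (9 / 10 : ℝ) ^ s₀ ≤ Real.exp (-√D) := run3_pow _ (Nat.le_ceil _)
  have hDv : v ≤ D * v := le_mul_of_one_le_left hv0.le hD
  have q1 : C₁ * v ≤ C₁ * (D * v) := mul_le_mul_of_nonneg_left hDv hC₁0
  have q2 : C₂ * (s₀ + 1) * √D * v ≤ 12 * C₂ * (D * v) := by
    calc _ ≤ C₂ * (12 * √D) * √D * v := by gcongr
      _ = 12 * C₂ * ((√D * √D) * v) := by ring
      _ = _ := by rw [hr2]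
  have q3 : C₃ * (9 / 10) ^ s₀ * sz d c₀.1 ≤ C₃ * (D * v) := by
    calc _ = C₃ * ((9 / 10) ^ s₀ * sz d c₀.1) := by ring
      _ ≤ C₃ * (Real.exp (-√D) * sz d c₀.1) := by gcongr
      _ ≤ C₃ * (D * v) := mul_le_mul_of_nonneg_left (hv.le.trans hDv) hC₃.le
  have q4 : C₃ * (L + 1) * v ≤ 22 * C₃ * (D * v) := by
    calc _ ≤ C₃ * (22 * D) * v := by gcongr
      _ = _ := by ring
  have q5 : 0 < D * v := by positivity
  nlinarith

theorem run5 (hd : 1 ≤ d) : ∃ C : ℝ, 0 < C ∧ ∀ (k : E d → ℝ) (D m : ℝ), IsKer k → 1 ≤ D →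
    LipK k (Real.exp D) → 1 ≤ m → AtB k m (C * (m * √D)) := by
  obtain ⟨C, hC, h⟩ := run5_step hd
  obtain ⟨C', hC', h'⟩ := run4 hd
  refine ⟨24 * (C + 12 ^ d * 21) + C', by positivity, ?_⟩
  intro k D m hk hD hlip hm P b hP G hG W j₀ H
  have hr1 : 1 ≤ √D := Real.one_le_sqrt.2 hD
  have hr2 : √D * √D = D := Real.mul_self_sqrt (by linarith)
  have hp : 0 ≤ m * √D := by positivity
  rcases le_total m √D with hmD | hmD
  · refine (h' k hk m hm P b hP G hG W j₀ H).mono (by linarith) (by positivity) ?_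
      fun x _ => le_rfl
    have h1 : m ^ 2 ≤ m * √D := by nlinarith
    have h2 : 0 ≤ 24 * (C + 12 ^ d * 21) * (m * √D) := by positivity
    nlinarith
  have hL0 : 1 ≤ ⌈20 * D⌉₊ := Nat.one_le_ceil_iff.2 (by linarith)
  have hL1 : (⌈20 * D⌉₊ : ℝ) ≤ 21 * D := by
    have := Nat.ceil_lt_add_one (show (0 : ℝ) ≤ 20 * D by linarith)
    linarith
  have h1 := jn_mom (C₀ := 12 ^ d) (m := m) hL0 (by positivity) hr1 (by positivity) hm
    (fun j h0 h1 x hx => by
      by_cases hx' : x ∈ G j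
      · rw [indicator_of_mem hx', hP.cv_eq_Bl hk (H j h0 h1 x hx hx')]
        have := hP.cv_Bl_le zero_le_one hk (le_refl j) x
        rwa [mul_one] at this
      · rw [indicator_of_notMem hx', abs_zero]
        positivity)
    (h k hk P b hP D hD hlip G hG W j₀ H)
    (Y := TG k G j₀ W.1 fun x => ∑ Q ∈ P, b Q x) fun x _ => ⟨j₀, le_rfl, le_rfl⟩
  refine h1.mono (by linarith) (by positivity) ?_ fun x _ => le_rfl
  have e1 : D * (1 + m / √D) = D + m * √D := by
    have : √D ≠ 0 := by positivity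
    field_simp
    linear_combination (-m) * hr2
  have e2 : D + m * √D ≤ 2 * (m * √D) := by nlinarith
  calc 12 * (C * D + 12 ^ d * (⌈20 * D⌉₊ : ℝ)) * (1 + m / √D)
      ≤ 12 * (C * D + 12 ^ d * (21 * D)) * (1 + m / √D) := by gcongr
    _ = 12 * (C + 12 ^ d * 21) * (D + m * √D) := by rw [← e1]; ring
    _ ≤ 12 * (C + 12 ^ d * 21) * (2 * (m * √D)) + C' * (m * √D) := by
        refine le_add_of_le_of_nonneg ?_ (by positivity)
        gcongr
    _ = _ := by ring

end Pool.Agent.MP_418f02_an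

end

section

/-! From moment bounds for atoms to the weighted comparison with the maximal function. -/

open MeasureTheory Set
open scoped ENNReal

namespace Pool.Agent.MP_418f02_an

variable {d : ℕ}

/-- moment bound of order `m` under a bound on the averages -/
def MomK (k : E d → ℝ) (m τ : ℝ) : Prop :=
  ∀ g : E d → ℝ, Nice g → ∀ G : ℤ → Set (E d), Stop G → ∀ (W : Cb d) (j₀ : ℤ) (μ : ℝ), 0 < μ →
    (∀ j, j₀ ≤ j → j ≤ W.1 → ∀ x ∈ cube W, x ∈ G j →
      av j (fun y => ENNReal.ofReal |g y| ^ (1 : ℝ)) x ≤ ENNReal.ofReal μ ^ (1 : ℝ)) →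
    Mom (TG k G j₀ W.1 g) W m (μ * τ)

theorem av_one {g : E d → ℝ} (hg : Nice g) {μ : ℝ} (hμ : 0 < μ) {j : ℤ} {x : E d}
    (h : av j (fun y => ENNReal.ofReal |g y| ^ (1 : ℝ)) x ≤ ENNReal.ofReal μ ^ (1 : ℝ)) :
    ∫ y in big (cb j x), |g y| ≤ μ * (3 ^ d * sz d j) := by
  have hz := sz_pos (d := d) j
  simp only [av, ENNReal.rpow_one] at h
  rw [ENNReal.div_le_iff (weak_vol_ne j) ENNReal.ofReal_ne_top, ← run2_abs hg,
    ← ENNReal.ofReal_mul hμ.le] at h
  exact (ENNReal.ofReal_le_ofReal_iff (by positivity)).1 h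

theorem single1 (hd : 1 ≤ d) : ∃ C : ℝ, 0 < C ∧ ∀ (k : E d → ℝ) (m β : ℝ), IsKer k → 1 ≤ m →
    0 ≤ β → AtB k m β → MomK k m (C * (m + β)) := by
  obtain ⟨C₁, hC₁, r1⟩ := run1 hd
  refine ⟨6 ^ d * (C₁ + 2), by positivity, ?_⟩
  intro k m β hk hm hβ r3 g hg G hG W j₀ μ hμ hav'
  have hav := fun j h1 h2 x h3 h4 => av_one hg hμ (hav' j h1 h2 x h3 h4)
  by_cases hx : j₀ ≤ W.1 ∧ ∃ x ∈ cube W, x ∈ G W.1
  swap
  · refine mom_zero (by linarith) fun x hxW => ?_
    unfold TG ps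
    refine Finset.sum_eq_zero fun j hj => ?_
    rw [Finset.mem_Icc] at hj
    exact indicator_of_notMem (fun h => hx ⟨hj.1.trans hj.2, x, hxW, hG.mono _ _ hj.2 h⟩) _
  obtain ⟨hj, x₀, hx₀, hx₀G⟩ := hx
  have hW := hav W.1 hj le_rfl x₀ hx₀ hx₀G
  rw [cb_eq_of_mem hx₀] at hW
  obtain ⟨P, hP, hPW, hPm, hPl⟩ := cz hg hj hμ hW
  have h6 : (1 : ℝ) ≤ 6 ^ d := one_le_pow₀ (by norm_num)
  set M : ℝ := 6 ^ d * μ with hMdef
  have hM : 0 < M := by positivity
  have hμM : μ ≤ M := le_mul_of_one_le_left hμ.le h6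
  have hA := single_atoms hg hP hM hPm
  set a : Cb d → ℝ := fun Q => (∫ y in cube Q, g y) / sz d Q.1 with hadef
  have ha : ∀ Q ∈ P, |a Q| ≤ M := fun Q hQ => single_mean (hPm Q hQ)
  set b : Cb d → E d → ℝ := fun Q => (cube Q).indicator fun x => (2 * M)⁻¹ * (g x - a Q)
    with hbdef
  set γ : E d → ℝ := fun x => ∑ R ∈ P, (cube R).indicator (fun _ => a R / M) x with hγdef
  have hγn : Nice γ := nice_sum fun R _ => single_const R _
  have hbn : Nice fun x => ∑ Q ∈ P, b Q x := nice_sum hA.nice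
  have hγ1 : ∀ x, |γ x| ≤ 1 := single_abs hP _ fun Q hQ => by
    rw [abs_div, abs_of_pos hM, div_le_one hM]; exact ha Q hQ
  have hcomp : ∀ j, j₀ ≤ j → j ≤ W.1 → ∀ x ∈ cube W, x ∈ G j → ∀ Q ∈ P,
      (cube Q ∩ big (cb j x)).Nonempty → Q.1 < j := by
    intro j hj₀ _ x hxW hxG Q hQ ⟨y, hyQ, hy⟩
    by_contra hlt
    have hle : j ≤ Q.1 := not_lt.1 hlt
    have h1 := hav Q.1 (hj₀.trans hle) (hPl Q hQ).1.le x hxW (hG.mono _ _ hle hxG)
    have h2 : cube Q ⊆ big (cb Q.1 x) :=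
      (lm_big (cb Q.1 x)).cube_subset le_rfl hyQ (big_mono hle x hy)
    have h3 : ∫ y in cube Q, |g y| ≤ ∫ y in big (cb Q.1 x), |g y| :=
      setIntegral_mono_set hg.abs.integrable.integrableOn
        (Filter.Eventually.of_forall fun x => abs_nonneg _) h2.eventuallyLE
    have h4 := (hPl Q hQ).2 (hj₀.trans hle)
    linarith
  have m1 := (r1 k γ hk hγn hγ1 G hG W j₀ m hm).const_mul (by linarith) (by positivity) hM.le
  have m3 := (r3 P b hA G hG W j₀ hcomp).const_mul (by linarith) hβ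
    (by positivity : 0 ≤ 2 * M)
  have m4 := m1.add m3 ((TG_nice hk hγn hG _ _).const_mul M).meas
    ((TG_nice hk hbn hG _ _).const_mul (2 * M)).meas hm (by positivity) (by positivity)
  refine m4.mono (by linarith) (by positivity) ?_ fun x hx => le_of_eq ?_
  · have h1 : 0 ≤ M * (C₁ * β) + M * (2 * m) := by positivity
    calc M * (C₁ * m) + 2 * M * β ≤ M * (C₁ * m) + 2 * M * β + (M * (C₁ * β) + M * (2 * m)) :=
          le_add_of_nonneg_right h1
      _ = _ := by rw [hMdef]; ring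
  · rw [← TG_const_mul, ← TG_const_mul, ← TG_add hk (hγn.const_mul M) (hbn.const_mul (2 * M))]
    congr 1
    refine TG_congr hk G j₀ hx fun y hy => ?_
    rw [hPW] at hy
    simp only [mem_iUnion] at hy
    obtain ⟨Q, hQ, hyQ⟩ := hy
    simp only [hγdef, hbdef]
    rw [single_sum hP (fun R _ => a R / M) hQ hyQ,
      single_sum hP (fun R x => (2 * M)⁻¹ * (g x - a R)) hQ hyQ]
    field_simp
    ring

theorem glue_lev1 {k g : E d → ℝ} (hk : IsKer k) (hg : Nice g) {m τ : ℝ} (hS : MomK k m τ)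
    (hτ : 0 ≤ τ) (a b : ℤ) {μ M : ℝ} {V : E d → ℝ≥0∞} {t : ℝ≥0∞} (hμ : 0 < μ) (hm : 1 ≤ m)
    (hV : Flat V a b M) (ht : t ≤ ENNReal.ofReal μ ^ (1 : ℝ)) :
    ∫⁻ x, ENNReal.ofReal
      |TG k (fun j => {x | mx j b (fun y => ENNReal.ofReal |g y| ^ (1 : ℝ)) x ≤
          ENNReal.ofReal μ ^ (1 : ℝ)}) a b g x -
        TG k (fun j => {x | mx j b (fun y => ENNReal.ofReal |g y| ^ (1 : ℝ)) x ≤ t}) a b g x| ^ m *
        V x ≤ ENNReal.ofReal ((μ * τ) ^ m * M) *
        ∫⁻ x in {x | t < mx a b (fun y => ENNReal.ofReal |g y| ^ (1 : ℝ)) x}, V x := by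
  set F : E d → ℝ≥0∞ := fun y => ENNReal.ofReal |g y| ^ (1 : ℝ) with hF
  set u : ℝ≥0∞ := ENNReal.ofReal μ ^ (1 : ℝ) with hu
  set B : ℝ := μ * τ with hB
  have hB0 : 0 ≤ B := by positivity
  set H : E d → ℝ≥0∞ := fun x => ENNReal.ofReal
    |TG k (fun j => {x | mx j b F x ≤ u}) a b g x -
      TG k (fun j => {x | mx j b F x ≤ t}) a b g x| ^ m * V x with hH
  have hU : MeasurableSet {x | t < mx a b F x} :=
    measurableSet_lt measurable_const (mx_meas a b F)
  have h1 : ∫⁻ x, H x = ∫⁻ x in {x | t < mx a b F x}, H x := by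
    rw [← lintegral_indicator hU]
    congr 1; funext x
    by_cases hx : x ∈ {x | t < mx a b F x}
    · rw [indicator_of_mem hx]
    · rw [indicator_of_notMem hx, hH]
      simp only [glue1_off k g a b F ht (not_lt.1 hx), abs_zero, ENNReal.ofReal_zero]
      rw [ENNReal.zero_rpow_of_pos (by linarith), zero_mul]
  rw [h1, glue1_union, lintegral_biUnion_finset (glue1_dj a b F t)
    (fun κ _ => (glue1_lm b F t κ).meas), lintegral_biUnion_finset (glue1_dj a b F t)
    (fun κ _ => (glue1_lm b F t κ).meas), Finset.mul_sum]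
  refine Finset.sum_le_sum fun κ hκ => ?_
  obtain ⟨hκa, hκb⟩ := Finset.mem_Icc.1 hκ
  rw [← lintegral_const_mul' _ _ ENNReal.ofReal_ne_top]
  refine (glue1_lm b F t κ).lintegral_le fun W hW hWS => ?_
  subst hW
  obtain ⟨β, hβ, hβV⟩ := hV W hκa hκb
  have hst := stop_mx b F u
  have hmom := hS g hg _ hst W a μ hμ
    (fun j _ hj x _ hx => (av_le_mx le_rfl (hj.trans hκb) F x).trans hx)
  have hme : Measurable fun x => ENNReal.ofReal
      |TG k (fun j => {x | mx j b F x ≤ u}) a W.1 g x| ^ m :=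
    ((TG_nice hk hg hst a W.1).meas.abs.ennreal_ofReal).pow_const m
  calc ∫⁻ x in cube W, H x
      ≤ ∫⁻ x in cube W, ENNReal.ofReal
          |TG k (fun j => {x | mx j b F x ≤ u}) a W.1 g x| ^ m * β := by
        refine setLIntegral_mono' (measurableSet_cube W) fun x hx => ?_
        rw [hH]
        simp only [glue1_on k g hκb F ht (hWS hx)]
        exact mul_le_mul_right (hβ x hx) _
    _ ≤ ENNReal.ofReal (B ^ m * sz d W.1) * β := by
        rw [lintegral_mul_const _ hme]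
        exact mul_le_mul_left hmom _
    _ = ENNReal.ofReal (B ^ m) * (β * ENNReal.ofReal (sz d W.1)) := by
        rw [ENNReal.ofReal_mul (by positivity)]; ring
    _ ≤ ENNReal.ofReal (B ^ m) * (ENNReal.ofReal M * ∫⁻ x in cube W, V x) :=
        mul_le_mul_right hβV _
    _ = ∫⁻ x in cube W, ENNReal.ofReal (B ^ m * M) * V x := by
        rw [lintegral_const_mul' _ _ ENNReal.ofReal_ne_top, ENNReal.ofReal_mul (by positivity),
          mul_assoc]

theorem glue1 {k g : E d → ℝ} (hk : IsKer k) (hg : Nice g) {q τ M : ℝ} (hS' : MomK k (2 * q) τ)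
    (hτ0 : 0 < τ) (a b : ℤ) {V : E d → ℝ≥0∞} (hq : 1 ≤ q) (hM : 1 ≤ M) (hV : Measurable V)
    (hF : Flat V a b (M ^ q)) :
    ∫⁻ x, ENNReal.ofReal |TT k a b g x| ^ q * V x ≤ ENNReal.ofReal ((88 * M * τ) ^ q) *
      ∫⁻ x, mx a b (fun y => ENNReal.ofReal |g y| ^ (1 : ℝ)) x ^ (q / 1) * V x := by
  have hq0 : 0 < q := by linarith
  have hM0 : 0 < M := by linarith
  set r : ℝ := 1 with hr
  have hr0 : 0 < r := one_pos
  set F : E d → ℝ≥0∞ := fun y => ENNReal.ofReal |g y| ^ r with hFdef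
  set I := ∫⁻ x, mx a b F x ^ (q / r) * V x with hI
  have hmx := glue_mx_meas a b F
  have hZ : ∀ n : ℤ, Measurable fun x =>
      ENNReal.ofReal |glueT k g a b r n x - glueT k g a b r (n - 1) x| ^ (2 * q) := fun n =>
    (ENNReal.measurable_ofReal.comp (continuous_abs.measurable.comp
      ((glueT_meas hk hg a b r n).sub (glueT_meas hk hg a b r (n - 1))))).pow_const _
  have hS : ∀ n : ℤ, MeasurableSet {x | ENNReal.ofReal ((2 : ℝ) ^ (n - 1)) ^ r < mx a b F x} :=
    fun n => measurableSet_lt measurable_const hmx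
  have lev : ∀ n : ℤ, ∫⁻ x, ENNReal.ofReal (((2 : ℝ) ^ n / ((2 : ℝ) ^ n * τ) ^ 2) ^ q) *
      ENNReal.ofReal |glueT k g a b r n x - glueT k g a b r (n - 1) x| ^ (2 * q) * V x ≤
      ENNReal.ofReal (M ^ q) * ∫⁻ x, (if (2 : ℝ) ^ (n - 1) < (mx a b F x).toReal ^ (1 / r) then
        ENNReal.ofReal (((2 : ℝ) ^ n) ^ q) else 0) * V x := by
    intro n
    have h := glue_lev1 hk hg hS' hτ0.le a b (μ := 2 ^ n)
      (t := ENNReal.ofReal ((2 : ℝ) ^ (n - 1)) ^ r) (by positivity) (by linarith) hF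
      (ENNReal.rpow_le_rpow (ENNReal.ofReal_le_ofReal
        (zpow_le_zpow_right₀ one_le_two (by omega))) hr0.le)
    have e : ∫⁻ x, (if (2 : ℝ) ^ (n - 1) < (mx a b F x).toReal ^ (1 / r) then
        ENNReal.ofReal (((2 : ℝ) ^ n) ^ q) else 0) * V x = ENNReal.ofReal (((2 : ℝ) ^ n) ^ q) *
        ∫⁻ x in {x | ENNReal.ofReal ((2 : ℝ) ^ (n - 1)) ^ r < mx a b F x}, V x := by
      rw [← lintegral_const_mul _ hV, ← lintegral_indicator (hS n)]
      refine lintegral_congr fun x => ?_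
      have hiff := glue_le_iff (glue_mx_ne_top hg hr0 a b x) hr0
        (s := (2 : ℝ) ^ (n - 1)) (by positivity)
      by_cases hx : (2 : ℝ) ^ (n - 1) < (mx a b F x).toReal ^ (1 / r)
      · rw [if_pos hx, Set.indicator_of_mem]
        exact not_le.1 fun h' => absurd (hiff.1 h') (not_le.2 hx)
      · rw [if_neg hx, zero_mul, Set.indicator_of_notMem]
        exact fun h' => absurd (hiff.2 (not_lt.1 hx)) (not_le.2 h')
    simp_rw [mul_assoc (ENNReal.ofReal (((2 : ℝ) ^ n / ((2 : ℝ) ^ n * τ) ^ 2) ^ q))]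
    rw [lintegral_const_mul' _ _ ENNReal.ofReal_ne_top, e]
    refine (mul_le_mul_right h _).trans (le_of_eq ?_)
    rw [← mul_assoc, ← mul_assoc (ENNReal.ofReal (M ^ q)), ← ENNReal.ofReal_mul (by positivity),
      ← ENNReal.ofReal_mul (by positivity)]
    congr 2
    rw [Real.rpow_mul (by positivity), Real.rpow_two, ← mul_assoc,
      ← Real.mul_rpow (by positivity) (by positivity), div_mul_cancel₀ _ (by positivity), mul_comm]
  have hif : ∀ n : ℤ, Measurable fun x => (if (2 : ℝ) ^ (n - 1) < (mx a b F x).toReal ^ (1 / r) then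
      ENNReal.ofReal (((2 : ℝ) ^ n) ^ q) else 0) * V x := fun n =>
    (Measurable.ite (measurableSet_lt measurable_const (hmx.ennreal_toReal.pow_const _))
      measurable_const measurable_const).mul hV
  have tail : ∑' n : ℤ, ∫⁻ x, (if (2 : ℝ) ^ (n - 1) < (mx a b F x).toReal ^ (1 / r) then
      ENNReal.ofReal (((2 : ℝ) ^ n) ^ q) else 0) * V x ≤ ENNReal.ofReal (2 * 2 ^ q) * I := by
    rw [← lintegral_tsum fun n => (hif n).aemeasurable, hI,
      ← lintegral_const_mul' _ _ ENNReal.ofReal_ne_top]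
    refine lintegral_mono fun x => ?_
    simp only
    rw [ENNReal.tsum_mul_right, ← mul_assoc, glue_pow_eq (glue_mx_ne_top hg hr0 a b x) hr0 hq0.le,
      ← ENNReal.ofReal_mul (by positivity)]
    exact mul_le_mul_left (glue_tail (by positivity) hq) _
  have hconst : (11 * τ) ^ q * (1 + M ^ q * (2 * 2 ^ q)) ≤ (88 * M * τ) ^ q := by
    have h1 : 1 ≤ (2 * M) ^ q := Real.one_le_rpow (by linarith) hq0.le
    have h2 : (2 * M) ^ q = 2 ^ q * M ^ q := Real.mul_rpow (by norm_num) hM0.le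
    have h3 : (4 : ℝ) ≤ 4 ^ q := Real.self_le_rpow_of_one_le (by norm_num) hq
    have h4 : 1 + M ^ q * (2 * 2 ^ q) ≤ (4 * (2 * M)) ^ q := by
      rw [Real.mul_rpow (by norm_num) (by positivity)]
      nlinarith
    calc (11 * τ) ^ q * (1 + M ^ q * (2 * 2 ^ q)) ≤ (11 * τ) ^ q * (4 * (2 * M)) ^ q := by gcongr
      _ = (11 * τ * (4 * (2 * M))) ^ q := (Real.mul_rpow (by positivity) (by positivity)).symm
      _ = _ := by congr 1; ring
  calc ∫⁻ x, ENNReal.ofReal |TT k a b g x| ^ q * V x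
      ≤ ∫⁻ x, ENNReal.ofReal ((11 * τ) ^ q) * (mx a b F x ^ (q / r) * V x +
          ∑' n : ℤ, ENNReal.ofReal (((2 : ℝ) ^ n / ((2 : ℝ) ^ n * τ) ^ 2) ^ q) *
          ENNReal.ofReal |glueT k g a b r n x - glueT k g a b r (n - 1) x| ^ (2 * q) * V x) := by
        refine lintegral_mono fun x => ?_
        simp only
        rw [ENNReal.tsum_mul_right, ← add_mul, ← mul_assoc]
        exact mul_le_mul_left (glue_point hk hg a b hr0 hq hτ0 x) _
    _ = ENNReal.ofReal ((11 * τ) ^ q) * (I +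
          ∑' n : ℤ, ∫⁻ x, ENNReal.ofReal (((2 : ℝ) ^ n / ((2 : ℝ) ^ n * τ) ^ 2) ^ q) *
          ENNReal.ofReal |glueT k g a b r n x - glueT k g a b r (n - 1) x| ^ (2 * q) * V x) := by
        rw [lintegral_const_mul' _ _ ENNReal.ofReal_ne_top,
          lintegral_add_left ((hmx.pow_const _).fun_mul hV),
          lintegral_tsum fun n => (((hZ n).const_mul _).fun_mul hV).aemeasurable]
    _ ≤ ENNReal.ofReal ((11 * τ) ^ q) * (I + ENNReal.ofReal (M ^ q) *
          (ENNReal.ofReal (2 * 2 ^ q) * I)) := by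
        refine mul_le_mul_right (add_le_add_right ?_ _) _
        refine (ENNReal.tsum_le_tsum lev).trans ?_
        rw [ENNReal.tsum_mul_left]
        exact mul_le_mul_right tail _
    _ = ENNReal.ofReal ((11 * τ) ^ q * (1 + M ^ q * (2 * 2 ^ q))) * I := by
        rw [ENNReal.ofReal_mul (p := (11 * τ) ^ q) (by positivity),
          ENNReal.ofReal_add zero_le_one (by positivity),
          ENNReal.ofReal_mul (p := M ^ q) (by positivity), ENNReal.ofReal_one]
        ring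
    _ ≤ _ := mul_le_mul_left (ENNReal.ofReal_le_ofReal hconst) _

end Pool.Agent.MP_418f02_an

end

section

/-! Weighted norm bounds for all exponents from moment bounds. -/

open MeasureTheory Set
open scoped ENNReal

namespace Pool.Agent.MP_418f02_an

variable {d : ℕ}

theorem mx_chain1 : ∃ C : ℝ, 0 < C ∧ ∀ (w : E d → ℝ) (A q : ℝ), A1 w A → 1 < q →
    ∀ g : E d → ℝ, Measurable g → ∀ a b : ℤ,
    ∫⁻ x, mx a b (fun y => ENNReal.ofReal |g y| ^ (1 : ℝ)) x ^ (q / 1) *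
        mx a b (fun y => ENNReal.ofReal (w y)) x ^ (-(q - 1)) ≤
      ENNReal.ofReal (C ^ q * (A * (q / (q - 1)))) *
        ∫⁻ x, ENNReal.ofReal |g x| ^ q * ENNReal.ofReal (w x) ^ (-(q - 1)) := by
  set T : ℝ := 2 ^ (d + 2) with hT
  set S : ℝ := 3 ^ d with hS
  have hT1 : 1 ≤ T := one_le_pow₀ (by norm_num)
  have hS1 : 1 ≤ S := one_le_pow₀ (by norm_num)
  refine ⟨4 * S * (2 * T), by positivity, fun w A q h hq g hg a b => ?_⟩
  have hA1 := h.one_le
  set B : ℝ := T * A with hB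
  have hB1 : 1 ≤ B := by nlinarith
  have hq0 : 0 < q := by linarith
  have hq1 : 0 < q - 1 := by linarith
  set η : ℝ := 1 / (B + 1) with hη
  have hη0 : 0 < η := by positivity
  have hη1 : η ≤ 1 / 2 := by
    rw [hη]; exact one_div_le_one_div_of_le (by norm_num) (by linarith)
  have hηB : η * (B + 1) = 1 := by rw [hη]; field_simp
  set u : ℝ := (1 + η * (q - 1)) / q with hu
  set v : ℝ := (q - 1) / q * (1 - η) with hv
  have huq : u * q = 1 + η * (q - 1) := by rw [hu]; field_simp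
  have hvq : v * q = (q - 1) * (1 - η) := by rw [hv]; field_simp
  have hs2 : u * q ≤ q := by rw [huq]; nlinarith
  have hu0 : 0 < u := by rw [hu]; positivity
  have hv0 : 0 < v := by
    rw [hv]; apply mul_pos (div_pos (by linarith) hq0); linarith
  have huv : (u + v)⁻¹ = 1 := by
    rw [show u + v = 1 by rw [hu, hv]; field_simp; ring, inv_one]
  have hκ : (q - 1) / q = v * (1 + 1 / (2 ^ (d + 2) * A)) := by
    rw [hv, ← hT, ← hB, hη]; field_simp; ring
  set κ : ℝ := (q - 1) / q with hκd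
  have hκq : κ * q = q - 1 := by rw [hκd]; field_simp
  set F : E d → ℝ≥0∞ :=
    fun y => (ENNReal.ofReal |g y| * ENNReal.ofReal (w y) ^ (-κ)) ^ u⁻¹ with hF
  have hFm : Measurable F :=
    ((hg.abs.ennreal_ofReal).mul (h.meas.ennreal_ofReal.pow_const _)).pow_const _
  have hs : 1 < u * q := by rw [huq]; nlinarith
  have hFs : ∀ y, F y ^ (u * q) = ENNReal.ofReal |g y| ^ q * ENNReal.ofReal (w y) ^ (-(q - 1)) := by
    intro y
    rw [hF]
    dsimp only
    rw [← ENNReal.rpow_mul, show u⁻¹ * (u * q) = q by field_simp,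
      ENNReal.mul_rpow_of_nonneg _ _ hq0.le, ← ENNReal.rpow_mul, neg_mul, hκq]
  have hK : (2 : ℝ≥0∞) ^ (v * q) * (3 ^ d) ^ (q - 1) =
      ENNReal.ofReal (2 ^ (v * q) * S ^ (q - 1)) := by
    have e2 : (2 : ℝ≥0∞) = ENNReal.ofReal 2 := by norm_num
    have e3 : (3 : ℝ≥0∞) ^ d = ENNReal.ofReal S := by
      rw [hS, ENNReal.ofReal_pow (by norm_num)]; norm_num
    rw [e2, e3, ENNReal.ofReal_rpow_of_pos (by norm_num), ENNReal.ofReal_rpow_of_pos (by linarith),
      ← ENNReal.ofReal_mul (by positivity)]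
  have hconst : 2 ^ (v * q) * S ^ (q - 1) * (3 ^ d * 2 ^ (u * q) * (u * q / (u * q - 1))) ≤
      (4 * S * (2 * T)) ^ q * (A * (q / (q - 1))) := by
    have h1 : (2 : ℝ) ^ (v * q) ≤ 2 ^ q :=
      Real.rpow_le_rpow_of_exponent_le (by norm_num) (by rw [hvq]; nlinarith)
    have h2 : S ^ (q - 1) * S = S ^ q := by
      rw [Real.rpow_sub_one (by linarith), div_mul_cancel₀ _ (by linarith)]
    have h3 : (2 : ℝ) ^ (u * q) ≤ 2 ^ q := Real.rpow_le_rpow_of_exponent_le (by norm_num) hs2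
    have h4 : u * q / (u * q - 1) ≤ 2 * T * (A * (q / (q - 1))) := by
      rw [div_le_iff₀ (by linarith), huq, add_sub_cancel_left,
        show 2 * T * (A * (q / (q - 1))) * (η * (q - 1)) = 2 * B * η * q by
          rw [hB]; field_simp]
      have h5 : 1 ≤ 2 * B * η := by nlinarith
      nlinarith
    have h5 : 2 * T ≤ (2 * T) ^ q := Real.self_le_rpow_of_one_le (by linarith) hq.le
    have h6 : (4 * S * (2 * T)) ^ q = 2 ^ q * 2 ^ q * S ^ q * (2 * T) ^ q := by
      rw [← Real.mul_rpow (by norm_num) (by norm_num), ← Real.mul_rpow (by norm_num) (by linarith),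
        ← Real.mul_rpow (by positivity) (by linarith)]
      norm_num
    have h7 : 0 ≤ u * q / (u * q - 1) := div_nonneg (by linarith) (by linarith)
    calc _ ≤ 2 ^ q * S ^ (q - 1) * (S * 2 ^ q * ((2 * T) ^ q * (A * (q / (q - 1))))) := by
          gcongr
          exact h4.trans (by gcongr)
      _ = 2 ^ q * 2 ^ q * (S ^ (q - 1) * S) * (2 * T) ^ q * (A * (q / (q - 1))) := by ring
      _ = _ := by rw [h6, h2]
  calc _ ≤ ∫⁻ x, ENNReal.ofReal (2 ^ (v * q) * S ^ (q - 1)) * mx a b F x ^ (u * q) := by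
        refine lintegral_mono fun x => ?_
        rw [← hK]
        have := wt2_point h hg hq hu0 hv0 rfl hκ hκq a b x
        rwa [huv] at this
    _ = ENNReal.ofReal (2 ^ (v * q) * S ^ (q - 1)) * ∫⁻ x, mx a b F x ^ (u * q) :=
        lintegral_const_mul' _ _ ENNReal.ofReal_ne_top
    _ ≤ ENNReal.ofReal (2 ^ (v * q) * S ^ (q - 1)) *
          (ENNReal.ofReal (3 ^ d * 2 ^ (u * q) * (u * q / (u * q - 1))) * ∫⁻ x, F x ^ (u * q)) :=
        mul_le_mul_right (mx_strong a b hFm hs) _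
    _ ≤ _ := by
        rw [← mul_assoc, ← ENNReal.ofReal_mul (by positivity)]
        simp only [hFs]
        exact mul_le_mul_left (ENNReal.ofReal_le_ofReal hconst) _

theorem wt_bound1 : ∃ C : ℝ, 0 < C ∧ ∀ (k g w : E d → ℝ) (A q τ : ℝ) (a b : ℤ),
    IsKer k → Nice g → A1 w A → 1 < q → 0 < τ → MomK k (2 * q) τ →
    ∫⁻ x, ENNReal.ofReal |TT k a b g x| ^ q * ENNReal.ofReal (w x) ^ (-(q - 1)) ≤
      ENNReal.ofReal ((C * τ * (A * (q / (q - 1)))) ^ q) *
        ∫⁻ x, ENNReal.ofReal |g x| ^ q * ENNReal.ofReal (w x) ^ (-(q - 1)) := by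
  obtain ⟨M, hM, h2⟩ := flat_mx (d := d)
  obtain ⟨C₂, hC₂, h3⟩ := mx_chain1 (d := d)
  refine ⟨88 * M * C₂, by positivity, fun k g w A q τ a b hk hg hw hq1 hτ hS => ?_⟩
  have h4 := h3 w A q hw hq1 g hg.meas a b
  have hA : 0 < A := zero_lt_one.trans_le hw.one_le
  have hV : Measurable fun x => mx a b (fun y => ENNReal.ofReal (w y)) x ^ (-(q - 1)) :=
    (mx_meas _ _ _).pow_const _
  have h5 := glue1 hk hg hS hτ a b hq1.le hM hV (h2 w A hw a b q hq1)
  set p := q / (q - 1) with hp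
  have hp1 : 1 ≤ p := by rw [hp, le_div_iff₀ (by linarith)]; linarith
  have h7 : A ^ (q - 1) * ((88 * M * τ) ^ q * (C₂ ^ q * (A * p))) ≤
      (88 * M * C₂ * τ * (A * p)) ^ q := by
    have e1 : A ^ (q - 1) * A = A ^ q := by
      rw [Real.rpow_sub_one hA.ne', div_mul_cancel₀ _ hA.ne']
    have e2 : p ≤ p ^ q := Real.self_le_rpow_of_one_le hp1 hq1.le
    calc _ = A ^ (q - 1) * A * (88 * M * τ) ^ q * C₂ ^ q * p := by ring
      _ ≤ A ^ q * (88 * M * τ) ^ q * C₂ ^ q * p ^ q := by rw [e1]; gcongr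
      _ = _ := by
          rw [← Real.mul_rpow hA.le (by positivity), ← Real.mul_rpow (by positivity) hC₂.le,
            ← Real.mul_rpow (by positivity) (by linarith)]
          congr 1
          ring
  calc _ ≤ ∫⁻ x, ENNReal.ofReal (A ^ (q - 1)) * (ENNReal.ofReal |TT k a b g x| ^ q *
        mx a b (fun y => ENNReal.ofReal (w y)) x ^ (-(q - 1))) := by
        refine lintegral_mono_ae ((w_le_mx hw a b hq1).mono fun x hx => ?_)
        rw [mul_left_comm]
        exact mul_le_mul_right hx _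
    _ = ENNReal.ofReal (A ^ (q - 1)) * ∫⁻ x, ENNReal.ofReal |TT k a b g x| ^ q *
        mx a b (fun y => ENNReal.ofReal (w y)) x ^ (-(q - 1)) :=
        lintegral_const_mul' _ _ ENNReal.ofReal_ne_top
    _ ≤ ENNReal.ofReal (A ^ (q - 1)) * (ENNReal.ofReal ((88 * M * τ) ^ q) *
        (ENNReal.ofReal (C₂ ^ q * (A * p)) *
          ∫⁻ x, ENNReal.ofReal |g x| ^ q * ENNReal.ofReal (w x) ^ (-(q - 1)))) :=
        mul_le_mul_right (h5.trans (mul_le_mul_right h4 _)) _
    _ ≤ _ := by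
        rw [← mul_assoc, ← mul_assoc, mul_assoc (ENNReal.ofReal (A ^ (q - 1))),
          ← ENNReal.ofReal_mul (by positivity), ← ENNReal.ofReal_mul (by positivity)]
        exact mul_le_mul_left (ENNReal.ofReal_le_ofReal h7) _

/-- the weighted norm -/
noncomputable def nrm (w : E d → ℝ) (p : ℝ) (u : E d → ℝ) : ℝ≥0∞ :=
  eLpNorm u (ENNReal.ofReal p) (volume.withDensity fun x => ENNReal.ofReal (w x))

theorem nrm_eq {w u : E d → ℝ} {p : ℝ} (hw : Measurable w) (hp : 0 < p) (hu : Measurable u) :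
    nrm w p u = (∫⁻ x, ENNReal.ofReal |u x| ^ p * ENNReal.ofReal (w x)) ^ (1 / p) := by
  rw [nrm, eLpNorm_eq_lintegral_rpow_enorm_toReal (by simpa using hp) ENNReal.ofReal_ne_top,
    ENNReal.toReal_ofReal hp.le,
    lintegral_withDensity_eq_lintegral_mul _ hw.ennreal_ofReal (hu.enorm.pow_const p)]
  simp only [Pi.mul_apply, Real.enorm_eq_ofReal_abs, mul_comm]

/-- the truncated operators have norm at most `B A` on the weighted space -/
def KB (k : E d → ℝ) (p B : ℝ) : Prop :=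
  ∀ (w f : E d → ℝ) (A : ℝ) (a b : ℤ), A1 w A → Nice f →
    nrm w p (TT k a b f) ≤ ENNReal.ofReal (B * A) * nrm w p f

theorem kb_of_atb (hd : 1 ≤ d) : ∃ C : ℝ, 0 < C ∧ ∀ (k : E d → ℝ) (p β : ℝ), IsKer k → 1 < p →
    0 ≤ β → AtB (rf k) (2 * (p / (p - 1))) β → KB k p (C * p * (p / (p - 1) + β)) := by
  obtain ⟨C₁, hC₁, h1⟩ := single1 hd
  obtain ⟨C₂, hC₂, h2⟩ := wt_bound1 (d := d)
  refine ⟨2 * C₂ * C₁, by positivity, fun k p β hk hp hβ hat w f A a b hw hf => ?_⟩
  have hA : 0 < A := zero_lt_one.trans_le hw.one_le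
  have hp1 : 0 < p - 1 := sub_pos.2 hp
  have hp0 : 0 < p := by linarith
  set q := p / (p - 1) with hq
  have hq1 : 1 < q := by rw [hq, lt_div_iff₀ hp1]; linarith
  have e : q / (q - 1) = p := by
    rw [hq, div_sub_one hp1.ne']
    field_simp
    ring
  have h3 := h1 _ (2 * q) β hk.rf (by linarith) hβ hat
  have h4 := dual_bound hk hw hp (B := C₂ * (C₁ * (2 * q + β)) * (A * p)) (by positivity) a b
    (fun g hg => by
      have := h2 _ g w A q _ a b hk.rf hg hw hq1 (by positivity) h3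
      rwa [e] at this) hf
  rw [nrm_eq hw.meas hp0 (TT_nice hk hf a b).meas, nrm_eq hw.meas hp0 hf.meas]
  refine (ENNReal.rpow_le_rpow h4 (by positivity)).trans ?_
  rw [ENNReal.mul_rpow_of_nonneg _ _ (by positivity), ENNReal.ofReal_rpow_of_nonneg
    (by positivity) (by positivity), one_div, Real.rpow_rpow_inv (by positivity) hp0.ne']
  refine mul_le_mul_left (ENNReal.ofReal_le_ofReal ?_) _
  calc _ ≤ C₂ * (C₁ * (2 * q + 2 * β)) * (A * p) := by gcongr; linarith
    _ = _ := by ring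

theorem kb_main (hd : 1 ≤ d) : ∃ C : ℝ, 0 < C ∧ ∀ (k : E d → ℝ) (p t : ℝ), IsKer k → 1 < p →
    1 ≤ t → (p / (p - 1) ≤ t ∨ LipK k (Real.exp (t ^ 2))) →
    KB k p (C * p * (p / (p - 1)) * t) := by
  obtain ⟨C₁, hC₁, h1⟩ := kb_of_atb hd
  obtain ⟨C₂, hC₂, h2⟩ := run4 hd
  obtain ⟨C₃, hC₃, h3⟩ := run5 hd
  refine ⟨C₁ * (1 + 4 * C₂ + 2 * C₃), by positivity, fun k p t hk hp ht h w f A a b hw hf => ?_⟩
  have hA : 0 < A := zero_lt_one.trans_le hw.one_le
  have hp1 : 0 < p - 1 := sub_pos.2 hp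
  set q := p / (p - 1) with hq
  have hq1 : 1 < q := by rw [hq, lt_div_iff₀ hp1]; linarith
  have hqt : 0 ≤ q * t := by positivity
  have hat : AtB (rf k) (2 * q) ((4 * C₂ + 2 * C₃) * (q * t)) := fun P c hP G hG W j₀ H => by
    rcases h with h | h
    · refine (h2 _ hk.rf (2 * q) (by linarith) P c hP G hG W j₀ H).mono (by linarith)
        (by positivity) ?_ fun x _ => le_rfl
      have h4 : C₂ * (q * q) ≤ C₂ * (q * t) := by gcongr
      nlinarith
    · refine (h3 _ (t ^ 2) (2 * q) hk.rf (one_le_pow₀ ht) h.rf (by linarith)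
        P c hP G hG W j₀ H).mono (by linarith) (by positivity) ?_ fun x _ => le_rfl
      rw [Real.sqrt_sq (by linarith)]
      nlinarith
  refine (h1 k p _ hk hp (by positivity) hat w f A a b hw hf).trans
    (mul_le_mul_left (ENNReal.ofReal_le_ofReal ?_) _)
  have h5 : q ≤ q * t := le_mul_of_one_le_right (by linarith) ht
  calc _ ≤ C₁ * p * (q * t + (4 * C₂ + 2 * C₃) * (q * t)) * A := by gcongr
    _ = _ := by ring

end Pool.Agent.MP_418f02_an

end
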