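import Pool.Agent.Mg.F418f02a.G7c0235

set_option linter.all false

section

/-! Local bounds for an oscillating kernel applied to a bounded mass. -/

open MeasureTheory Set Metric
open scoped ENNReal

namespace Pool.Agent.MP_418f02_an

variable {d : ℕ}

theorem BK.err (hd : 1 ≤ d) {K H : E d → ℝ} {a ρ δ δ' l Λ ϑ : ℝ} (h : BK K a ρ δ δ' l Λ ϑ)
    (hH : Nice H) {c : Cb d} (hρ : ρ ≤ 2 * d * 2 ^ c.1) {e : ℤ} {t : ℕ}
    (he : 2 ^ e ≤ 4 * δ' * (6 / 7) ^ t) :
    ∫ x in cube c, |(∫ y, K (x - y) * H y) - ce e (fun x => ∫ y, K (x - y) * H y) x| ≤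
      (2 * d) ^ d * vb d * (2 * d) ^ d * Λ * ϑ ^ t * (a * ∫ y, |H y|) * sz d c.1 := by
  obtain ⟨x₀, hx₀⟩ := cube_nonempty c
  refine (ce_loc hd (cv_conv h.nice hH) e (ω := a * Λ * ϑ ^ t * (2 * d * 2 ^ c.1) ^ d * ∫ y, |H y|)
    fun v hv => conv_mod h.nice hH fun y => ?_).trans_eq (by rw [mul_pow (2 * d : ℝ), sz]; ring)
  have hK' : Nice fun y => |K (y + v) - K y| := by simpa using ((h.nice.shift (-v)).sub h.nice).abs
  refine (setIntegral_mono_set (hK'.shift y).integrable.integrableOn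
    (Filter.Eventually.of_forall fun _ => abs_nonneg _) (cube_ball hd hx₀).eventuallyLE).trans ?_
  simp only [sub_eq_add_neg _ y]
  rw [ball_shift fun z => |K (z + v) - K z|]
  refine h.k1 t _ _ v hρ (hv.trans ?_)
  exact (mul_le_mul_of_nonneg_left he (by positivity)).trans_eq (by ring)

theorem BK.avg (hd : 1 ≤ d) {K H : E d → ℝ} {a ρ δ δ' l Λ ϑ : ℝ} (h : BK K a ρ δ δ' l Λ ϑ)
    (hH : Nice H) (hδ : 0 < δ) (hϑ : 6 / 7 ≤ ϑ) {e : ℤ} {t : ℕ} (h1 : δ * 4 ^ t ≤ l)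
    (he : 4 * δ * 2 ^ t ≤ 2 ^ e) (x : E d) :
    |ce e (fun x => ∫ y, K (x - y) * H y) x| ≤ (Λ + d) * ϑ ^ t * (a * ∫ y, |H y|) := by
  have hz := sz_pos (d := d) e
  have h2 := cube_two e
  have hμ : 0 ≤ a * ∫ y, |H y| :=
    mul_nonneg ((abs_nonneg _).trans (h.bdd 0)) (integral_nonneg fun _ => abs_nonneg _)
  have e1 : (7 / 6 : ℝ) ^ t * (6 / 7) ^ t = 1 := by rw [← mul_pow]; norm_num
  have p1 : (7 / 6 : ℝ) ^ t ≤ 2 ^ t * (6 / 7) ^ t := by
    rw [← mul_pow]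
    exact pow_le_pow_left₀ (by norm_num) (by norm_num) t
  have p2 : (2 : ℝ) ^ t ≤ 4 ^ t := pow_le_pow_left₀ (by norm_num) (by norm_num) t
  have p3 : (6 / 7 : ℝ) ^ t ≤ ϑ ^ t := pow_le_pow_left₀ (by norm_num) hϑ t
  have p4 : (0 : ℝ) < (6 / 7) ^ t := by positivity
  have h3 := cube_avg hd (cv_conv h.nice hH).meas (conv_bdd hH h.bdd)
    (β := Λ * ϑ ^ t * (a * ∫ y, |H y|)) (r := δ * (7 / 6) ^ t) (by positivity) (fun x =>
      (conv_ball h.nice hH (fun z => h.k2 t z _ (by rw [mul_assoc, e1, mul_one]) ?_) x).trans_eq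
        (by ring)) (cb e x)
  · rw [ce, abs_div, abs_of_pos hz, div_le_iff₀ hz]
    refine h3.trans (mul_le_mul_of_nonneg_right ?_ hz.le)
    have : 4 * d * (δ * (7 / 6) ^ t) / 2 ^ e ≤ d * ϑ ^ t := by
      rw [div_le_iff₀ h2]
      calc _ ≤ 4 * d * (δ * (2 ^ t * ϑ ^ t)) := by
            gcongr
            exact p1.trans (by gcongr)
        _ = d * ϑ ^ t * (4 * δ * 2 ^ t) := by ring
        _ ≤ _ := by have := p4.trans_le p3; gcongr
    simp only [cb]
    nlinarith [mul_le_mul_of_nonneg_right this hμ]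
  · calc _ ≤ δ * (4 ^ t * (6 / 7) ^ t) := by
          gcongr
          exact p1.trans (by gcongr)
      _ ≤ _ := by rw [← mul_assoc]; gcongr

theorem ls_loc (hd : 1 ≤ d) {Λ : ℝ} (hΛ : 0 ≤ Λ) : ∃ C : ℝ, 0 < C ∧
    ∀ (K H : E d → ℝ) (a D η l φ : ℝ) (t : ℕ) (c : Cb d) (q : ℤ) (S : Set (E d)),
    BK K a D η η l Λ (φ ^ 2) → Nice H → 0 < η → η ≤ D → 6 / 7 ≤ φ ^ 2 → 0 < φ → φ ≤ 1 →
    a * l ^ d ≤ 2 → 2 ^ c.1 = 8 * D * 2 ^ t → 2 ^ q * 2 ^ t = 2 * l → D * 4 ^ t ≤ l → LM q S →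
    (∀ x ∈ cube c, ∀ y ∈ S, ‖x - y‖ ≤ 8 * d * l) → (∀ y, y ∉ S → H y = 0) →
    (∀ Q : Cb d, Q.1 = q → ∫ x in cube Q, |H x| ≤ sz d q) → a * ∫ y, |H y| ≤ 2 * 12 ^ d →
    ∫ x in cube c, (∫ y, K (x - y) * H y) ^ 2 ≤ C * φ ^ t * (a * ∫ y, |H y|) * sz d c.1 := by
  have hv := vb_pos (d := d)
  have hd1 : (1 : ℝ) ≤ d := by exact_mod_cast hd
  set A : ℝ := Λ * ((1 + 2 ^ d) * (2 * d) ^ d + 1) with hA
  refine ⟨2 * 12 ^ d * (A + d) + (1 + Λ + d) * (1 + 2 * (12 * d) ^ d * vb d * (2 * 12 ^ d)) / 2,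
    by positivity, fun K H a D η l φ t c q S h hH hη hD hϑ hφ hφ1 hal hc hq hl hS hSR hs hm hU => ?_⟩
  obtain ⟨x₀, hx₀⟩ := cube_nonempty c
  have ha : 0 ≤ a := (abs_nonneg _).trans (h.bdd 0)
  have hz := sz_pos (d := d) c.1
  have hD0 := hη.trans_le hD
  have hl0 : 0 < l := lt_of_lt_of_le (by positivity) hl
  set u : ℝ := (7 / 6) ^ t with hu
  set w : ℝ := 2 ^ t with hw
  set p : ℝ := (6 / 7) ^ t with hp
  have hu1 : 1 ≤ u := one_le_pow₀ (by norm_num)
  have hw1 : 1 ≤ w := one_le_pow₀ (by norm_num)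
  have hp0 : 0 < p := by positivity
  have e1 : u * p = 1 := by rw [hu, hp, ← mul_pow]; norm_num
  have p1 : u ^ 2 ≤ w * p := by
    rw [hu, hw, hp, ← pow_mul, mul_comm t, pow_mul, ← mul_pow]
    exact pow_le_pow_left₀ (by norm_num) (by norm_num) t
  have p2 : p ≤ (φ ^ 2) ^ t := pow_le_pow_left₀ (by norm_num) hϑ t
  have p3 : (φ ^ 2) ^ t = (φ ^ t) ^ 2 := by rw [← pow_mul, mul_comm, pow_mul]
  have p4 : φ ^ t ≤ 1 := pow_le_one₀ hφ.le hφ1
  have p5 : 0 < φ ^ t := by positivity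
  have p6 : (φ ^ 2) ^ t ≤ φ ^ t := by rw [p3]; nlinarith
  have hp1 : p ≤ 1 := p2.trans (p6.trans p4)
  have hl' : D * w ^ 2 ≤ l := by rwa [hw, ← pow_mul, mul_comm t, pow_mul, show (2 : ℝ) ^ 2 = 4 by
    norm_num]
  have hl'' : D * w ≤ l := le_trans (by nlinarith [mul_pos hD0 (one_pos.trans_le hw1)]) hl'
  have hk1 : u ≤ ⌈u⌉₊ := Nat.le_ceil u
  have hk2 : ∀ i : ℕ, i < ⌈u⌉₊ → (i : ℝ) ≤ u := fun i hi => (Nat.lt_ceil.1 hi).le
  have hk3 : (⌈u⌉₊ : ℝ) ≤ 2 * u := by linarith [Nat.ceil_lt_add_one (zero_le_one.trans hu1)]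
  have hR : 0 < 12 * d * l := by positivity
  have e2 : η * u / (12 * d * l) * (12 * d * l) = η * u := div_mul_cancel₀ _ hR.ne'
  refine (ls_core hd h.nice hH (x₀ := x₀) (c := c) (R := 12 * d * l) (s := η * u / (12 * d * l))
    (k := ⌈u⌉₊) (κ₁ := Λ * (φ ^ 2) ^ t) (κ₂ := A * (φ ^ 2) ^ t) (κ₃ := d * (φ ^ 2) ^ t)
    (ε := (1 + Λ + d) * φ ^ t) hS (fun y hy => ?_) hs hm h.bdd hU
    (Nat.one_le_ceil_iff.2 (by linarith)) (by positivity) hR (by positivity) (by positivity)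
    (fun x i h1 h2 => ?_) (fun y hy y' hy' i hi => ?_) ?_ (by positivity) ?_).trans ?_
  · rw [mem_ball_iff_norm']
    nlinarith [hSR x₀ hx₀ y hy, mul_pos (one_pos.trans_le hd1) hl0]
  · have q1 : (1 : ℝ) ≤ i := by exact_mod_cast h1
    have q2 := hk2 i h2
    rw [mul_assoc (i : ℝ), e2, ← mul_assoc a]
    refine h.k2 t x _ ?_ ?_
    · calc η = 1 * η * (u * p) := by rw [e1]; ring
        _ ≤ i * η * (u * p) := by gcongr
        _ = _ := by ring
    · calc _ ≤ u * (D * u) := by gcongr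
        _ = D * u ^ 2 := by ring
        _ ≤ D * (w * p) := by gcongr
        _ ≤ _ := by rw [← mul_assoc]; gcongr
  · have q2 := hk2 i hi
    set σ := i * (η * u / (12 * d * l)) with hσ
    have hσ0 : 0 ≤ σ := by positivity
    have q3 : σ * (12 * d * l) ≤ η * (w * p) := by
      rw [hσ, mul_assoc, e2]
      calc _ ≤ u * (η * u) := by gcongr
        _ = η * u ^ 2 := by ring
        _ ≤ _ := by gcongr
    have q4 : σ ≤ p := by
      refine le_of_mul_le_mul_right (q3.trans ?_) hR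
      calc _ ≤ D * w * p := by rw [← mul_assoc]; gcongr
        _ ≤ 12 * d * l * p := mul_le_mul_of_nonneg_right (by nlinarith) hp0.le
        _ = _ := by ring
    refine (h.rt hd hη (by rw [hc]; nlinarith [mul_pos hD0 (one_pos.trans_le hw1)]) hσ0
      (q4.trans hp1) t fun x hx => ?_).trans ?_
    · rw [show x - y + σ • (x₀ - y') - (1 + σ) • (x - y) = σ • ((x₀ - x) + (y - y')) by module,
        norm_smul, Real.norm_of_nonneg hσ0]
      have q5 := norm_sub_le_of_cube hx₀ hx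
      have q6 := norm_sub_le_of_cube (c := cb q y') hy' (mem_cube_cb q y')
      have q7 : ‖x₀ - x + (y - y')‖ * w ≤ 12 * d * l := by
        simp only [cb] at q6
        calc _ ≤ (d * 2 ^ c.1 + d * 2 ^ q) * w := by
              gcongr
              exact (norm_add_le _ _).trans (add_le_add q5 q6)
          _ = d * (8 * (D * w ^ 2) + 2 ^ q * w) := by rw [hc]; ring
          _ ≤ d * (8 * l + 2 * l) := by rw [hq]; gcongr
          _ ≤ _ := by nlinarith
      refine le_of_mul_le_mul_right ?_ (one_pos.trans_le hw1)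
      calc _ = σ * (‖x₀ - x + (y - y')‖ * w) := by ring
        _ ≤ σ * (12 * d * l) := by gcongr
        _ ≤ _ := q3.trans_eq (by ring)
    · have := q4.trans p2
      calc _ ≤ a * (Λ * ((1 + 2 ^ d) * (2 * d) ^ d * (φ ^ 2) ^ t + (φ ^ 2) ^ t)) * sz d c.1 := by
            gcongr
        _ = _ := by rw [hA]; ring
  · rw [mul_assoc (⌈u⌉₊ : ℝ), e2, hc, div_le_iff₀ (by positivity)]
    calc _ ≤ 4 * d * (2 * u * (D * u)) := by gcongr
      _ = 8 * d * D * u ^ 2 := by ring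
      _ ≤ 8 * d * D * (w * (φ ^ 2) ^ t) := by
          gcongr
          exact p1.trans (by gcongr)
      _ = _ := by ring
  · have q1 : 1 / (⌈u⌉₊ : ℝ) ≤ (φ ^ 2) ^ t := by
      refine le_trans ?_ p2
      rw [div_le_iff₀ (by linarith)]
      nlinarith
    rw [mul_pow, ← p3]
    have q2 : 1 + Λ + d ≤ (1 + Λ + d) ^ 2 := by nlinarith
    calc _ ≤ (1 + Λ + d) * (φ ^ 2) ^ t := by linarith
      _ ≤ _ := by gcongr
  · have q1 : a * ((12 * d * l) ^ d * vb d) ≤ 2 * (12 * d) ^ d * vb d := by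
      calc _ = a * l ^ d * (12 * d) ^ d * vb d := by rw [mul_pow]; ring
        _ ≤ _ := by gcongr
    have hμ : 0 ≤ ∫ y, |H y| := integral_nonneg fun _ => abs_nonneg _
    calc _ ≤ a * (∫ y, |H y|) * sz d c.1 * (2 * 12 ^ d * (A * φ ^ t + d * φ ^ t) +
          (1 + Λ + d) * φ ^ t * (1 + 2 * (12 * d) ^ d * vb d * (2 * 12 ^ d)) / 2) := by gcongr
      _ = _ := by ring

end Pool.Agent.MP_418f02_an

end

section

/-! The martingale increments of the pieces of the operator. -/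

open MeasureTheory Set Metric
open scoped ENNReal

namespace Pool.Agent.MP_418f02_an

variable {d : ℕ}

/-- the kernel oscillates between `n` and `n + r` levels below its scale -/
def BL (k : E d → ℝ) (n r : ℕ) (Λ ϑ : ℝ) : Prop :=
  ∀ j : ℤ, BK (KK k (2 ^ (j - 2))) ((2 ^ (j - 2)) ^ d)⁻¹ (2 ^ (j - 2) / 2 ^ n) (2 ^ (j - 2) / 2 ^ n)
    (2 ^ (j - 2) / 2 ^ n / 2 ^ r) (2 ^ (j - 2)) Λ ϑ

/-- depth of the upper averaging level -/
def alv (n t : ℕ) : ℕ := if 2 * t + 2 ≤ n then n - t else 0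

variable {k : E d → ℝ} {P : Finset (Cb d)} {b : Cb d → E d → ℝ} {n r : ℕ} {Λ ϑ : ℝ}

theorem lev_eq (j e : ℤ) (n t : ℕ) (h : e + n = j + t) :
    (2 : ℝ) ^ e = 4 * (2 ^ (j - 2) / 2 ^ n) * 2 ^ t := by
  rw [show e = j + t - n by omega, zpow_sub₀ two_ne_zero, zpow_add₀ two_ne_zero, zpow_natCast,
    zpow_natCast, ← cv_four j]
  ring

theorem lev_le (j : ℤ) {n t : ℕ} (h : 2 * t ≤ n) :
    (2 : ℝ) ^ (j - 2) / 2 ^ n * 4 ^ t ≤ 2 ^ (j - 2) := by
  have h1 : (4 : ℝ) ^ t ≤ 2 ^ n := by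
    rw [show (4 : ℝ) = 2 ^ 2 by norm_num, ← pow_mul]
    exact pow_le_pow_right₀ one_le_two h
  rw [div_mul_eq_mul_div, div_le_iff₀ (by positivity)]
  exact mul_le_mul_of_nonneg_left h1 (cv_pos j).le

theorem sub_cb {c : Cb d} {j : ℤ} {z : E d} (hj : c.1 ≤ j) (hz : z ∈ cube c) :
    cube c ⊆ cube (cb j z) := (lm_cube (cb j z)).cube_subset hj hz (mem_cube_cb j z)

theorem pu_loc (hd : 1 ≤ d) (hΛ : 0 ≤ Λ) : ∃ C : ℝ, 0 < C ∧ ∀ (k : E d → ℝ) (n r : ℕ) (φ : ℝ),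
    IsKer k → BL k n r Λ (φ ^ 2) → 6 / 7 ≤ φ ^ 2 → 0 < φ → φ ≤ 1 →
    ∀ (P : Finset (Cb d)) (b : Cb d → E d → ℝ), Atoms P b 1 → ∀ (t : ℕ) (j : ℤ) (c : Cb d),
    c.1 = j - alv n (t + 1) → ∀ z ∈ cube c, ∫ x in cube c, pu k P b j t x ^ 2 ≤
      C * (r + 2) ^ 2 * φ ^ t * run2f P b (t + 1) j z * sz d c.1 := by
  have hv := vb_pos (d := d)
  obtain ⟨C₁, hC₁, h1⟩ := ls_loc hd (Λ := Λ + 16 * d ^ 2 * (vb d + 1)) (by positivity)
  obtain ⟨C₂, hC₂, h2⟩ := see_loc hd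
  refine ⟨2 * C₁ + C₂, by positivity, fun k n r φ hk h hϑ hφ hφ1 P b hP t j c hc z hz => ?_⟩
  have hμ := run2f_nonneg P b (t + 1) j z
  have hs := sz_pos (d := d) c.1
  unfold alv at hc
  split_ifs at hc with hn
  · set q := j - (t + 1 : ℕ) with hq
    have hl0 := cv_pos j
    have hsub := sub_cb (show c.1 ≤ j by omega) hz
    have hm := hl_mass hP (s := t + 1) (a := q) le_rfl (show q + 1 ≤ j by omega) z
    have hn' := hl_nice hP q (q + 1) j z
    rw [setIntegral_congr_fun (measurableSet_cube _) fun x hx =>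
      congrArg (· ^ 2) (pu_hl (P := P) (b := b) hk t (hsub hx))]
    refine ((h j).split hd (by positivity) hΛ hϑ hn'
      (B := C₁ * φ ^ t * (2 * run2f P b (t + 1) j z) * sz d c.1) fun F η p1 p2 hF => ?_).trans ?_
    · refine (h1 F _ _ _ η _ φ t c q (big (cb j z)) hF hn' p1 p2 hϑ hφ hφ1 (le_of_eq ?_) ?_ ?_
        (lev_le j (by omega)) ((lm_big _).mono (show q ≤ j by omega)) (fun x hx y hy => ?_)
        (fun y hy => indicator_of_notMem hy _) (fun Q hQ => ?_) ?_).trans ?_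
      · field_simp
      · rw [lev_eq j c.1 n (t + 1) (by omega)]
        ring
      · rw [lev_eq j q (t + 1) 0 (by omega)]
        field_simp
        ring
      · refine (norm_sub_le_of_big (hsub hx) hy).trans_eq ?_
        simp only [cb]
        rw [← cv_four j]
        ring
      · obtain ⟨T, hT, hTq, e⟩ := hl_one hP (show q ≤ j by omega) z
        have e2 : ∀ x ∈ cube Q, |hl P b q (q + 1) j z x| = |if Q ∈ T then b Q x else 0| :=
          fun x hx => by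
            rw [e, ← Finset.sum_ite_eq T Q fun _ => b Q x]
            refine congrArg _ (Finset.sum_congr rfl fun R hR => ?_)
            split_ifs with h
            · rw [h]
            · exact hP.supp R (hT hR) x fun hx' => h (by
                rw [← cb_eq_of_mem hx, ← cb_eq_of_mem hx', hQ, hTq R hR])
        rw [setIntegral_congr_fun (measurableSet_cube Q) e2]
        split_ifs with h
        · exact (setIntegral_le_integral (hP.nice Q (hT h)).abs.integrable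
            (Filter.Eventually.of_forall fun _ => abs_nonneg _)).trans
            ((hP.mass Q (hT h)).trans_eq (by rw [one_mul, hQ]))
        · simpa using (sz_pos q).le
      · linarith [run2f_le hP (t + 1) j z]
      · rw [mul_assoc 2]
        gcongr
    · have : 0 ≤ C₂ * (r + 2) ^ 2 * φ ^ t * run2f P b (t + 1) j z * sz d c.1 := by positivity
      linarith
  · have e : cb j z = c := by rw [← cb_eq_of_mem hz, hc]; simp
    have := h2 k hk P b hP t j z
    rw [e, show j = c.1 by omega] at this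
    rw [show j = c.1 by omega] at hμ ⊢
    refine this.trans ?_
    have p1 : (4 / 5 : ℝ) ^ t ≤ φ ^ t := pow_le_pow_left₀ (by norm_num) (by nlinarith) t
    have p2 : C₂ ≤ (2 * C₁ + C₂) * (r + 2) ^ 2 :=
      le_trans (by linarith) (le_mul_of_one_le_right (by positivity)
        (one_le_pow₀ (by linarith [Nat.cast_nonneg (α := ℝ) r])))
    gcongr

theorem pv_err (hd : 1 ≤ d) (hk : IsKer k) (h : BL k n r Λ ϑ) (hΛ : 0 ≤ Λ) (hϑ : 0 ≤ ϑ)
    (hP : Atoms P b 1) {t s : ℕ} (hs : t ≤ s) {j e : ℤ} {c : Cb d} (h1 : j - n ≤ c.1) (h2 : c.1 ≤ j)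
    (he : e ≤ j - (n + r + t : ℕ)) {z : E d} (hz : z ∈ cube c) :
    ∫ x in cube c, |pv k P b j t x - ce e (pv k P b j t) x| ≤
      (2 * d) ^ d * vb d * (2 * d) ^ d * Λ * ϑ ^ t * run2f P b s j z * sz d c.1 := by
  have hv := vb_pos (d := d)
  have hz0 := sz_pos (d := d) c.1
  have hl0 := cv_pos j
  have hd1 : (1 : ℝ) ≤ d := by exact_mod_cast hd
  have e1 : ∀ x ∈ cube c, pv k P b j t x = cv k j (hl P b (j - t) j j z) x := fun x hx =>
    cv_hl hk _ _ (sub_cb h2 hz hx)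
  rw [setIntegral_congr_fun (measurableSet_cube c) (g := fun x => |cv k j (hl P b (j - t) j j z) x -
    ce e (cv k j (hl P b (j - t) j j z)) x|) fun x hx => by
      simp only [ce_local (show e ≤ c.1 by omega) e1 hx, e1 x hx]]
  refine ((h j).err hd (hl_nice hP _ _ j z) (t := t) ?_ ?_).trans ?_
  · have p1 := zpow_le_zpow_right₀ (one_le_two (α := ℝ)) h1
    rw [lev_eq j (j - n) n 0 (by omega)] at p1
    nlinarith [cube_two c.1]
  · refine (zpow_le_zpow_right₀ (one_le_two (α := ℝ)) he).trans ?_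
    have p1 : (1 / 2 : ℝ) ^ t ≤ (6 / 7) ^ t := pow_le_pow_left₀ (by norm_num) (by norm_num) t
    refine le_trans (le_of_eq ?_) (mul_le_mul_of_nonneg_left p1 (by positivity))
    rw [lev_eq j _ (n + r + t) 0 (by omega), one_div, inv_pow]
    field_simp
    ring
  · have := hl_mass hP (s := s) (a := j - t) (j := j) (by omega) le_rfl z
    gcongr

theorem pv_avg (hd : 1 ≤ d) (hk : IsKer k) (h : BL k n r Λ ϑ) (hΛ : 0 ≤ Λ) (hϑ : 6 / 7 ≤ ϑ)
    (hP : Atoms P b 1) {t s : ℕ} (hs : t ≤ s) (hn : 2 * t ≤ n) {j e : ℤ} (h1 : j - n + t ≤ e)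
    (h2 : e ≤ j) (x : E d) :
    |ce e (pv k P b j t) x| ≤ (Λ + d) * ϑ ^ t * run2f P b s j x := by
  have hl0 := cv_pos j
  rw [ce_local (c := cb j x) (F := pv k P b j t) h2 (fun y hy => cv_hl hk _ _ hy) (mem_cube_cb j x)]
  refine ((h j).avg hd (hl_nice hP _ _ j x) (by positivity) hϑ (lev_le j hn) ?_ x).trans ?_
  · rw [← lev_eq j (j - n + t) n t (by omega)]
    exact zpow_le_zpow_right₀ one_le_two h1
  · have := hl_mass hP (s := s) (a := j - t) (j := j) (by omega) le_rfl x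
    have : 0 ≤ ϑ := by linarith
    gcongr

/-- the part of `pv` that lives between two levels -/
noncomputable def qc (k : E d → ℝ) (P : Finset (Cb d)) (b : Cb d → E d → ℝ) (n r : ℕ) (j : ℤ)
    (t : ℕ) (x : E d) : ℝ :=
  ce (j - (n + r + t : ℕ)) (pv k P b j t) x - ce (j - alv n t) (pv k P b j t) x

/-- the increments of `qc` -/
noncomputable def qD (k : E d → ℝ) (P : Finset (Cb d)) (b : Cb d → E d → ℝ) (n r : ℕ) (j : ℤ)
    (t : ℕ) (x : E d) : ℝ := qc k P b n r j (t + 1) x - qc k P b n r j t x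

theorem alv_le (n t : ℕ) : alv n t ≤ n := by
  unfold alv
  split_ifs <;> omega

theorem alv_succ (n t : ℕ) : alv n (t + 1) ≤ alv n t := by
  unfold alv
  split_ifs <;> omega

theorem qc_le (hk : IsKer k) (hP : Atoms P b 1) {t s : ℕ} (hs : t ≤ s) (j : ℤ) (x : E d) :
    |qc k P b n r j t x| ≤ 2 * run2f P b s j x := by
  have h : ∀ e ≤ j, |ce e (pv k P b j t) x| ≤ run2f P b s j x := fun e he => ce_bd fun y hy => by
    have hy' := sub_cb (c := cb e x) he (mem_cube_cb e x) hy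
    rw [pv, cv_hl hk _ _ hy']
    exact (conv_bdd (hl_nice hP _ _ j x) (KK_le hk (cv_pos j)) y).trans
      (hl_mass hP (by omega) le_rfl x)
  exact (abs_sub _ _).trans (by
    linarith [h (j - (n + r + t : ℕ)) (by omega), h (j - alv n t) (by omega)])

theorem qD_le (hk : IsKer k) (hP : Atoms P b 1) (t : ℕ) (j : ℤ) (x : E d) :
    |qD k P b n r j t x| ≤ 4 * 12 ^ d := by
  have h := fun t => qc_le (n := n) (r := r) hk hP (le_refl t) j x
  exact (abs_sub _ _).trans (by linarith [h t, h (t + 1), run2f_le hP t j x, run2f_le hP (t + 1) j x])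

theorem qD_lc (j : ℤ) (t : ℕ) : Lc (j - (n + r + (t + 1) : ℕ)) (qD k P b n r j t) := fun x y e => by
  have := alv_le n t
  have := alv_le n (t + 1)
  unfold qD qc
  rw [ce_congr _ e, ce_congr (l := j - (n + r + t : ℕ)) _ (ix_mono (by omega) e),
    ce_congr (l := j - alv n t) _ (ix_mono (by omega) e),
    ce_congr (l := j - alv n (t + 1)) _ (ix_mono (by omega) e)]

theorem qD_int (hk : IsKer k) (hP : Atoms P b 1) {j : ℤ} {t : ℕ} {c : Cb d}
    (hc : c.1 = j - alv n (t + 1)) : ∫ x in cube c, qD k P b n r j t x = 0 := by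
  have := alv_le n t
  have := alv_succ n t
  have i := fun s e => ce_on (pv_le hk hP j s) e c
  have hn : ∀ s, Nice (pv k P b j s) := fun s => cv_nice hk (hP.nice_Bw _ _) j
  unfold qD qc
  rw [integral_sub ((i _ _).fun_sub (i _ _)) ((i _ _).fun_sub (i _ _)), integral_sub (i _ _) (i _ _),
    integral_sub (i _ _) (i _ _), ce_int (hn _) (by omega), ce_int (hn _) (by omega),
    ce_int (hn _) (by omega), ce_int (hn _) (by omega), sub_self, sub_self, sub_self]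

theorem pv_succ (hk : IsKer k) (hP : Atoms P b 1) (j : ℤ) (t : ℕ) :
    pv k P b j (t + 1) = fun x => pv k P b j t x + pu k P b j t x := funext fun x => by
  unfold pu pv
  rw [cv_Bw hk hP j (by omega), cv_Bw hk hP j (by omega), cv_Bw hk hP j (by omega)]
  ring

theorem sq_five (a b c e f : ℝ) :
    (a - b + c - e - f) ^ 2 ≤ 5 * (a ^ 2 + b ^ 2 + c ^ 2 + e ^ 2 + f ^ 2) := by
  nlinarith [sq_nonneg (a + b), sq_nonneg (a - c), sq_nonneg (a + e), sq_nonneg (a + f),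
    sq_nonneg (b + c), sq_nonneg (b - e), sq_nonneg (b - f), sq_nonneg (c + e), sq_nonneg (c + f),
    sq_nonneg (e - f)]

theorem qD_var (hd : 1 ≤ d) (hΛ : 0 ≤ Λ) : ∃ C : ℝ, 0 < C ∧ ∀ (k : E d → ℝ) (n r : ℕ) (φ : ℝ),
    IsKer k → BL k n r Λ (φ ^ 2) → 6 / 7 ≤ φ ^ 2 → 0 < φ → φ ≤ 1 →
    ∀ (P : Finset (Cb d)) (b : Cb d → E d → ℝ), Atoms P b 1 → ∀ (t : ℕ) (j : ℤ) (c : Cb d),
    c.1 = j - alv n (t + 1) → ∀ z ∈ cube c, ∫ x in cube c, qD k P b n r j t x ^ 2 ≤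
      C * (r + 2) ^ 2 * φ ^ t * run2f P b (t + 1) j z * sz d c.1 := by
  have hv := vb_pos (d := d)
  obtain ⟨C₁, hC₁, h1⟩ := pu_loc hd hΛ
  set C₂ : ℝ := (2 * d) ^ d * vb d * (2 * d) ^ d * Λ with hC₂
  have hC₂0 : 0 ≤ C₂ := by positivity
  refine ⟨5 * (2 * C₁ + 4 * 12 ^ d * C₂ + 4 * (Λ + d) ^ 2 * 12 ^ d), by positivity,
    fun k n r φ hk h hϑ hφ hφ1 P b hP t j c hc z hz => ?_⟩
  have hμ := run2f_nonneg P b (t + 1) j z
  have hμ1 := run2f_le hP (t + 1) j z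
  have hs := sz_pos (d := d) c.1
  have a1 := alv_le n t
  have a2 := alv_succ n t
  have hv' : Nice (pv k P b j t) := cv_nice hk (hP.nice_Bw _ _) j
  have hu : Nice (pu k P b j t) := cv_nice hk (hP.nice_Bw _ _) j
  obtain ⟨M, hM⟩ := hu.bdd
  have p1 : (φ ^ 2) ^ t ≤ φ ^ t := pow_le_pow_left₀ (by positivity) (by nlinarith) t
  have p2 : φ ^ t ≤ 1 := pow_le_one₀ hφ.le hφ1
  set β := 2 * ((Λ + d) * (φ ^ 2) ^ t * run2f P b (t + 1) j z) with hβ
  set v := pv k P b j t with hvd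
  set u := pu k P b j t with hud
  have b5 : ∀ x ∈ cube c, |ce (j - alv n (t + 1)) v x - ce (j - alv n t) v x| ≤ β := fun x hx => by
    by_cases hn : 2 * t + 2 ≤ n
    · have e : alv n t = n - t := if_pos hn
      have q := fun e h1 h2 => pv_avg hd hk h hΛ hϑ hP (Nat.le_add_right t 1)
        (show 2 * t ≤ n by omega) (j := j) (e := e) h1 h2 x
      rw [run2f_congr P b (t + 1) (j := j) (sub_cb (show c.1 ≤ j by omega) hz hx)] at q
      exact (abs_sub _ _).trans (by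
        linarith [q (j - alv n (t + 1)) (by omega) (by omega), q (j - alv n t) (by omega) (by omega)])
    · have e : alv n t = 0 := if_neg hn
      rw [show alv n (t + 1) = alv n t by omega, sub_self, abs_zero]
      positivity
  have i1 := fun e => sq_on (ce_meas e u) (ce_le hM) c
  have i2 : ∀ e, IntegrableOn (fun x => 2 * 12 ^ d * |v x - ce e v x|) (cube c) := fun e =>
    ((hv'.integrable.integrableOn.sub (ce_on (pv_le hk hP j t) e c)).abs).const_mul (2 * 12 ^ d)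
  have i3 : IntegrableOn (fun _ : E d => β ^ 2) (cube c) := integrableOn_const (cube_fin c)
  have b3 : ∀ e x, (v x - ce e v x) ^ 2 ≤ 2 * 12 ^ d * |v x - ce e v x| := fun e x => by
    rw [← sq_abs, sq]
    exact mul_le_mul_of_nonneg_right ((abs_sub _ _).trans (by
      linarith [pv_le hk hP j t x, ce_le (l := e) (pv_le hk hP j t) x])) (abs_nonneg _)
  set e₁ := j - (n + r + (t + 1) : ℕ) with he₁
  set e₂ := j - alv n (t + 1) with he₂
  set e₃ := j - (n + r + t : ℕ) with he₃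
  have j1 := (i1 e₁).fun_add (i1 e₂)
  have j2 := (i2 e₃).fun_add (i2 e₁)
  have h2 := setIntegral_mono_on (sq_on (qD_lc j t).meas (qD_le (n := n) (r := r) hk hP t j) c)
    (((j1.fun_add j2).fun_add i3).const_mul 5) (measurableSet_cube c) fun x hx => by
      have q := sq_le_sq' (abs_le.1 (b5 x hx)).1 (abs_le.1 (b5 x hx)).2
      have q1 := b3 e₃ x
      have q2 := b3 e₁ x
      have q3 := sq_five (ce e₁ u x) (ce e₂ u x) (v x - ce e₃ v x) (v x - ce e₁ v x)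
        (ce e₂ v x - ce (j - alv n t) v x)
      simp only [qD, qc, pv_succ hk hP j t, ← hvd, ← hud, ce_add hv' hu, ← he₁, ← he₂, ← he₃]
      refine le_trans (le_of_eq (by ring)) (q3.trans (by linarith))
  rw [integral_const_mul, integral_add (j1.fun_add j2) i3, integral_add j1 j2,
    integral_add (i1 _) (i1 _), integral_add (i2 _) (i2 _), integral_const_mul, integral_const_mul,
    setIntegral_const, bdry_real, smul_eq_mul] at h2
  set Y := (r + 2) ^ 2 * φ ^ t * run2f P b (t + 1) j z * sz d c.1 with hY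
  have p3 : (1 : ℝ) ≤ (r + 2) ^ 2 := one_le_pow₀ (by linarith [Nat.cast_nonneg (α := ℝ) r])
  have p4 : (φ ^ 2) ^ t * run2f P b (t + 1) j z * sz d c.1 ≤ Y := by
    rw [hY]
    gcongr
    exact p1.trans (le_mul_of_one_le_left (by positivity) p3)
  have c1 : ∀ e ≤ c.1, ∫ x in cube c, ce e u x ^ 2 ≤ C₁ * Y := fun e he => (ce_sq hu he).trans
    ((h1 k n r φ hk h hϑ hφ hφ1 P b hP t j c hc z hz).trans_eq (by rw [hY]; ring))
  have c2 : ∀ e ≤ e₃, ∫ x in cube c, |v x - ce e v x| ≤ C₂ * Y := fun e he =>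
    (pv_err hd hk h hΛ (by positivity) hP (Nat.le_add_right t 1) (by omega) (by omega) he hz).trans
      (le_trans (le_of_eq (by rw [hC₂]; ring)) (mul_le_mul_of_nonneg_left p4 hC₂0))
  have c3 : sz d c.1 * β ^ 2 ≤ 4 * (Λ + d) ^ 2 * 12 ^ d * Y := by
    calc _ = 4 * (Λ + d) ^ 2 * ((φ ^ 2) ^ t * run2f P b (t + 1) j z) *
          ((φ ^ 2) ^ t * run2f P b (t + 1) j z * sz d c.1) := by rw [hβ]; ring
      _ ≤ 4 * (Λ + d) ^ 2 * (1 * 12 ^ d) * Y := by
          gcongr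
          exact p1.trans p2
      _ = _ := by ring
  have c4 := mul_le_mul_of_nonneg_left (add_le_add (c2 e₃ le_rfl) (c2 e₁ (by omega)))
    (show (0 : ℝ) ≤ 2 * 12 ^ d by positivity)
  calc _ ≤ 5 * (2 * C₁ + 4 * 12 ^ d * C₂ + 4 * (Λ + d) ^ 2 * 12 ^ d) * Y := by
        linarith [c1 e₁ (by omega), c1 e₂ (by omega)]
    _ = _ := by rw [hY]; ring

end Pool.Agent.MP_418f02_an

end
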