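import Pool.Agent.Mg.F418f02a.G77f574
import Pool.Agent.Mg.F418f02a.G1f92f1

set_option linter.all false

section

/-! Existence of the principal value for smooth functions with compact support. -/

open MeasureTheory Set Filter Topology
open scoped ENNReal

namespace Pool.Agent.MP_418f02_an

variable {d : ℕ}

theorem polar (hd : 1 ≤ d) (Ω : E d → ℝ) (g : ℝ → ℝ) :
    ∫ y : E d, Ω (‖y‖⁻¹ • y) * g ‖y‖ =
      (∫ u : Metric.sphere (0 : E d) 1, Ω u ∂(volume : Measure (E d)).toSphere) *
        ∫ r : Ioi (0 : ℝ), g r ∂Measure.volumeIoiPow (Module.finrank ℝ (E d) - 1) := by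
  have : Nonempty (Fin d) := ⟨⟨0, hd⟩⟩
  rw [← integral_prod_mul, ← (volume : Measure (E d)).measurePreserving_homeomorphUnitSphereProd.integral_comp
    (Homeomorph.measurableEmbedding _), ← restrict_compl_singleton (μ := volume) (0 : E d),
    ← integral_subtype_comap (measurableSet_singleton _).compl]
  simp

theorem radial_zero (hd : 1 ≤ d) {Ω : E d → ℝ} (h0 : ∫ y in ann d, Ω (‖y‖⁻¹ • y) = 0)
    (g : ℝ → ℝ) : ∫ y : E d, Ω (‖y‖⁻¹ • y) * g ‖y‖ = 0 := by
  have e : ∀ F : E d → ℝ, ∫ y in ann d, F (‖y‖⁻¹ • y) =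
      ∫ y : E d, F (‖y‖⁻¹ • y) * (Icc (1 : ℝ) 2).indicator 1 ‖y‖ := fun F => by
    rw [← integral_indicator ann_meas]
    refine integral_congr_ae (Eventually.of_forall fun y => ?_)
    by_cases h : y ∈ ann d
    · simp [h, show ‖y‖ ∈ Icc (1 : ℝ) 2 from h]
    · simp [h, show ‖y‖ ∉ Icc (1 : ℝ) 2 from h]
  have h1 := e fun _ => 1
  rw [polar hd (fun _ => 1), setIntegral_const, smul_eq_mul, mul_one] at h1
  rw [e, polar hd] at h0
  rw [polar hd, (mul_eq_zero.1 h0).resolve_right fun h => (ann_pos hd).ne' (by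
    rw [h1, h, mul_zero]), zero_mul]

theorem pv_exists (hd : 1 ≤ d) {Ω f : E d → ℝ} {M : ℝ} (hΩ : Measurable Ω) (hM : ∀ x, |Ω x| ≤ M)
    (h0 : ∫ y in ann d, Ω (‖y‖⁻¹ • y) = 0) (hf : ContDiff ℝ (⊤ : ℕ∞) f)
    (hs : HasCompactSupport f) (x : E d) : ∃ T, Tendsto (fun ε : ℝ => ∫ y in {y : E d | ε < ‖y‖},
      Ω (‖y‖⁻¹ • y) / ‖y‖ ^ d * f (x - y)) (𝓝[>] 0) (𝓝 T) := by
  obtain ⟨L, hL⟩ := hf.lipschitzWith_of_hasCompactSupport hs (by simp)
  obtain ⟨B, hB⟩ := hf.continuous.bounded_above_of_compact_support hs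
  obtain ⟨R, hR⟩ := hs.isCompact.isBounded.exists_norm_le
  have hM0 : 0 ≤ M := (abs_nonneg _).trans (hM 0)
  have hB0 : 0 ≤ B := (norm_nonneg _).trans (hB 0)
  set H : E d → ℝ := fun y => Ω (‖y‖⁻¹ • y) / ‖y‖ ^ d *
    (f (x - y) - if ‖y‖ ≤ 1 then f x else 0) with hH
  have hK : Measurable fun y : E d => Ω (‖y‖⁻¹ • y) / ‖y‖ ^ d :=
    (lim_meas hΩ).div (measurable_norm.pow_const d)
  have hm : Measurable H := hK.mul ((hf.continuous.measurable.comp (measurable_id.const_sub x)).sub
    (Measurable.ite (measurableSet_le measurable_norm measurable_const) measurable_const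
      measurable_const))
  have hi : Integrable H := by
    rw [← integrableOn_iff_integrable_of_support_subset (s := Metric.ball 0 (‖x‖ + |R| + 2))]
    · refine integrableOn_ball_of_norm_le_rpow (C := M * (L + B)) (α := d - 1) (by simpa using hd)
        (by simp) (Eventually.of_forall fun y => ?_) hm.aestronglyMeasurable
      have h1 : |f (x - y) - if ‖y‖ ≤ 1 then f x else 0| ≤ (L + B) * ‖y‖ := by
        split_ifs with h
        · have := hL.dist_le_mul (x - y) x
          rw [Real.dist_eq, dist_eq_norm, sub_sub_cancel_left, norm_neg] at this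
          nlinarith [norm_nonneg y]
        · have := hB (x - y)
          rw [Real.norm_eq_abs] at this
          rw [sub_zero]
          nlinarith [L.2, norm_nonneg y]
      rcases (norm_nonneg y).eq_or_lt with h | h
      · have h2 : H y = 0 := by
          replace h1 := h1.trans_eq (by rw [← h, mul_zero])
          simp only [hH, abs_nonpos_iff.1 h1, mul_zero]
        rw [h2, norm_zero]
        positivity
      · rw [Real.norm_eq_abs, hH, abs_mul, abs_div, abs_of_pos (pow_pos h d), neg_sub,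
          Real.rpow_sub h, Real.rpow_one, Real.rpow_natCast]
        calc _ ≤ M / ‖y‖ ^ d * ((L + B) * ‖y‖) := by gcongr; exact hM _
          _ = _ := by ring
    · intro y hy
      by_contra h
      rw [mem_ball_zero_iff, not_lt] at h
      have h1 : ¬ ‖y‖ ≤ 1 := by
        have := norm_nonneg x
        have := abs_nonneg R
        linarith
      have h2 : f (x - y) = 0 := image_eq_zero_of_notMem_tsupport fun h' => by
        have := hR _ h'
        have := norm_sub_norm_le y x
        rw [norm_sub_rev] at this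
        linarith [le_abs_self R]
      exact hy (by simp [hH, h1, h2])
  have hS : ∀ ε : ℝ, MeasurableSet {y : E d | ε < ‖y‖} := fun ε =>
    measurableSet_lt measurable_const measurable_norm
  refine ⟨∫ y, H y, Tendsto.congr' ?_ (tendsto_integral_filter_of_dominated_convergence
    (F := fun ε : ℝ => {y : E d | ε < ‖y‖}.indicator H) (fun y => ‖H y‖)
    (Eventually.of_forall fun ε => (hm.indicator (hS ε)).aestronglyMeasurable)
    (Eventually.of_forall fun ε => Eventually.of_forall fun y => norm_indicator_le_norm_self _ _)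
    hi.norm ?_)⟩
  · filter_upwards [Ioo_mem_nhdsGT one_pos] with ε hε
    set g : ℝ → ℝ := fun r => if ε < r ∧ r ≤ 1 then f x / r ^ d else 0 with hg
    have hn : Nice fun y : E d => Ω (‖y‖⁻¹ • y) * g ‖y‖ := by
      refine ⟨(lim_meas hΩ).mul (Measurable.comp (g := g) (Measurable.ite measurableSet_Ioc
        (measurable_const.div (measurable_id.pow_const d)) measurable_const) measurable_norm),
        ⟨M * (B / ε ^ d), fun y => ?_⟩, 1, fun y hy => by simp [hg, hy.not_ge]⟩
      have := hε.1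
      rw [abs_mul]
      refine mul_le_mul (hM _) ?_ (abs_nonneg _) hM0
      simp only [hg]
      split_ifs with h
      · rw [abs_div, abs_pow, abs_norm]
        gcongr
        · exact hB x
        · exact h.1.le
      · rw [abs_zero]
        positivity
    rw [← integral_indicator (hS ε), ← add_zero (integral _ _), ← radial_zero hd h0 g,
      ← integral_add (hi.indicator (hS ε)) hn.integrable]
    refine integral_congr_ae (Eventually.of_forall fun y => ?_)
    by_cases h : ε < ‖y‖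
    · simp only [hH, hg, indicator, mem_ofPred_eq, h, if_true, true_and]
      split_ifs <;> ring
    · simp [hg, indicator, h]
  · filter_upwards [compl_mem_ae_iff.2 (show volume ({0} : Set (E d)) = 0 by
      have : Nonempty (Fin d) := ⟨⟨0, hd⟩⟩
      exact measure_singleton _)] with y hy
    refine tendsto_const_nhds.congr' ?_
    filter_upwards [Ioo_mem_nhdsGT (norm_pos_iff.2 hy)] with ε hε
    exact (indicator_of_mem (show y ∈ {y : E d | ε < ‖y‖} from hε.2) H).symm

end Pool.Agent.MP_418f02_an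

end

section

/-! A bounded mean zero function on the sphere that is positive near all rational directions. -/

open MeasureTheory Set
open scoped ENNReal RealInnerProductSpace

namespace Pool.Agent.MP_418f02_an

variable {d : ℕ}

theorem arc_slab {i j : Fin d} (hij : i ≠ j) {a b : ℤ} (ha : a ≠ 0) {η : ℝ} (hη : 0 ≤ η) :
    volume (ann d ∩ {y | |a * (‖y‖⁻¹ • y) j - b * (‖y‖⁻¹ • y) i| ≤ η}) ≤
      ENNReal.ofReal (η * 4 ^ d) := by
  set v : E d := EuclideanSpace.single j (a : ℝ) - EuclideanSpace.single i (b : ℝ) with hv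
  have h1 : 1 ≤ ‖v‖ := by
    refine le_trans ?_ (PiLp.norm_apply_le v j)
    simp only [hv, PiLp.sub_apply, PiLp.single_apply, if_true, if_neg hij.symm, sub_zero,
      Real.norm_eq_abs]
    exact_mod_cast Int.one_le_abs ha
  have hu : ‖‖v‖⁻¹ • v‖ = 1 := norm_smul_inv_norm (norm_pos_iff.1 (by linarith))
  refine (measure_mono fun y hy => ?_).trans ((slab_le hu (ρ := 2 * η) (R := 2) (by positivity)
    (by norm_num)).trans (ENNReal.ofReal_le_ofReal (le_of_eq ?_)))
  · refine ⟨hy.1.2, ?_⟩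
    have h2 : |a * (‖y‖⁻¹ * y j) - b * (‖y‖⁻¹ * y i)| ≤ η := hy.2
    have h3 : 0 < ‖y‖ := one_pos.trans_le hy.1.1
    have h4 : ⟪y, v⟫ = ‖y‖ * (a * (‖y‖⁻¹ * y j) - b * (‖y‖⁻¹ * y i)) := by
      rw [hv, inner_sub_right, EuclideanSpace.inner_single_right,
        EuclideanSpace.inner_single_right]
      simp only [conj_trivial]
      field_simp
    rw [real_inner_smul_right, h4, abs_mul, abs_mul, abs_inv, abs_norm, abs_norm]
    calc _ ≤ 1 * (2 * η) := by
          gcongr
          · exact inv_le_one_of_one_le₀ h1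
          · exact hy.1.2
      _ = _ := one_mul _
  · obtain ⟨e, rfl⟩ := Nat.exists_eq_succ_of_ne_zero (Fin.pos i).ne'
    rw [Nat.succ_sub_one, pow_succ]
    norm_num
    ring

theorem arc_ex {i j : Fin d} (hij : i ≠ j) : ∃ ε : ℝ, 0 < ε ∧ ∃ Ω : E d → ℝ, Measurable Ω ∧
    (∀ x, |Ω x| ≤ 1) ∧ ∫ y in ann d, Ω (‖y‖⁻¹ • y) = 0 ∧ ∀ (N : ℕ) (a b : ℤ), a ≠ 0 →
      |a| ≤ 2 ^ (N + 2) → |b| ≤ 2 ^ (N + 2) → ∀ u : E d, |a * u j - b * u i| ≤ ε / 8 ^ N →
        1 / 2 ≤ Ω u := by
  have hV := ann_pos (d := d) (Fin.pos i)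
  set V := volume.real (ann d) with hVd
  set ε : ℝ := V / (1024 * 4 ^ d) with hε
  have hε0 : 0 < ε := by positivity
  set P : ℕ → Finset (ℤ × ℤ) := fun N => ((Finset.Icc (-2 ^ (N + 2)) (2 ^ (N + 2))) ×ˢ
    (Finset.Icc (-2 ^ (N + 2)) (2 ^ (N + 2)))).filter fun p => p.1 ≠ 0 with hP
  set G : Set (E d) := ⋃ N : ℕ, ⋃ p ∈ P N, {u | |p.1 * u j - p.2 * u i| ≤ ε / 8 ^ N} with hG
  have hGm : MeasurableSet G := MeasurableSet.iUnion fun N => Finset.measurableSet_biUnion _
    fun p _ => measurableSet_le (by fun_prop) measurable_const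
  have hn : Measurable fun y : E d => ‖y‖⁻¹ • y := measurable_norm.inv.smul measurable_id
  set m := volume.real (ann d ∩ (fun y : E d => ‖y‖⁻¹ • y) ⁻¹' G) with hm
  have hm2 : m ≤ V / 2 := by
    refine ENNReal.toReal_le_of_le_ofReal (by positivity) ?_
    rw [hG, preimage_iUnion, inter_iUnion]
    refine (measure_iUnion_le _).trans ?_
    calc _ ≤ ∑' N : ℕ, ENNReal.ofReal (V / 2 / 2 / 2 ^ N) := by
          refine ENNReal.tsum_le_tsum fun N => ?_
          rw [preimage_iUnion₂, inter_iUnion₂]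
          refine (measure_biUnion_finset_le _ _).trans ((Finset.sum_le_card_nsmul _ _ _
            fun p hp => arc_slab hij (Finset.mem_filter.1 hp).2 (by positivity)).trans ?_)
          have hc : ((P N).card : ℝ) ≤ 256 * 4 ^ N := by
            have h1 : (Finset.Icc (-2 ^ (N + 2) : ℤ) (2 ^ (N + 2))).card ≤ 16 * 2 ^ N := by
              rw [Int.card_Icc, Int.toNat_le]
              have : (1 : ℤ) ≤ 2 ^ N := one_le_pow₀ one_le_two
              push_cast
              rw [pow_add]
              linarith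
            have h2 := (Finset.card_filter_le _ fun p : ℤ × ℤ => p.1 ≠ 0).trans
              ((Finset.card_product _ _).trans_le (Nat.mul_le_mul h1 h1))
            calc _ ≤ ((16 * 2 ^ N * (16 * 2 ^ N) : ℕ) : ℝ) := by exact_mod_cast h2
              _ = _ := by
                  push_cast
                  rw [show (4 : ℝ) = 2 * 2 by norm_num, mul_pow]
                  ring
          rw [nsmul_eq_mul, ← ENNReal.ofReal_natCast, ← ENNReal.ofReal_mul (by positivity)]
          refine ENNReal.ofReal_le_ofReal ((mul_le_mul_of_nonneg_right hc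
            (by positivity)).trans_eq ?_)
          rw [hε, show (8 : ℝ) = 4 * 2 by norm_num, mul_pow]
          field_simp
          norm_num
      _ = _ := by
          rw [← ENNReal.ofReal_tsum_of_nonneg (fun _ => by positivity)
            (hasSum_geometric_two' _).summable, tsum_geometric_two']
  have h0 : 0 ≤ m / V := div_nonneg measureReal_nonneg hV.le
  have h1 : m / V ≤ 1 / 2 := by
    rw [div_le_iff₀ hV]
    linarith
  refine ⟨ε, hε0, fun u => G.indicator 1 u - m / V, (measurable_one.indicator hGm).sub_const _,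
    fun u => ?_, ?_, fun N a b ha h2 h3 u hu => ?_⟩
  · by_cases h : u ∈ G
    · simp only [indicator_of_mem h, Pi.one_apply, abs_le]
      constructor <;> linarith
    · simp only [indicator_of_notMem h, abs_le]
      constructor <;> linarith
  · have e : ∀ y : E d, G.indicator (1 : E d → ℝ) (‖y‖⁻¹ • y) =
        ((fun y : E d => ‖y‖⁻¹ • y) ⁻¹' G).indicator (fun _ => (1 : ℝ)) y := fun y => rfl
    simp only [e]
    have hi : ∀ c : ℝ, Integrable (fun _ : E d => c) (volume.restrict (ann d)) := fun c =>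
      integrableOn_const ann_fin
    rw [integral_sub ((hi _).indicator (hn hGm)) (hi _), setIntegral_indicator (hn hGm), setIntegral_const,
      setIntegral_const, smul_eq_mul, smul_eq_mul, ← hm, ← hVd]
    field_simp
    ring
  · have h : u ∈ G := mem_iUnion.2 ⟨N, mem_iUnion₂.2 ⟨(a, b), Finset.mem_filter.2
      ⟨Finset.mem_product.2 ⟨Finset.mem_Icc.2 (abs_le.1 h2), Finset.mem_Icc.2 (abs_le.1 h3)⟩, ha⟩,
      hu⟩⟩
    simp only [indicator_of_mem h, Pi.one_apply]
    linarith

end Pool.Agent.MP_418f02_an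

end

section

/-! Pairing of a weight with the image of a family of atoms. -/

open MeasureTheory Set
open scoped ENNReal

namespace Pool.Agent.MP_418f02_an

variable {d : ℕ} {w : E d → ℝ} {A : ℝ}

/-- the ancestor `s` levels up -/
noncomputable def anc (Q : Cb d) (s : ℕ) : Cb d := cb (Q.1 + s) (cube_nonempty Q).some

theorem anc_eq {Q : Cb d} (s : ℕ) {x : E d} (hx : x ∈ cube Q) : cb (Q.1 + s) x = anc Q s := by
  have e : ix (Q.1 + s) x = ix (Q.1 + s) (cube_nonempty Q).some :=
    ix_mono (by omega) (hx.trans (cube_nonempty Q).some_mem.symm)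
  simp only [anc, cb, e]

/-- the mean of the weight near a cube -/
noncomputable def al (w : E d → ℝ) (c : Cb d) : ℝ := (∫ y in big c, w y) / sz d c.1

theorem al_pos (h : A1 w A) (c : Cb d) : 0 < al w c := by
  refine div_pos ?_ (sz_pos _)
  rw [setIntegral_pos_iff_support_of_nonneg_ae (Filter.Eventually.of_forall fun x => (h.pos x).le)
    (rh_int h c Subset.rfl), show Function.support w ∩ big c = big c from
      inter_eq_right.2 fun x _ => (h.pos x).ne', volume_big]
  exact ENNReal.ofReal_pos.2 (mul_pos (by positivity) (sz_pos _))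

theorem fw_int (h : A1 w A) {f : E d → ℝ} (hf : Nice f) : Integrable fun x => f x * w x := by
  obtain ⟨M, hM⟩ := hf.bdd
  obtain ⟨R, hR⟩ := hf.supp
  have h1 : IntegrableOn w (Metric.closedBall 0 R) := wt1_intOn h.loc Metric.isBounded_closedBall
  refine (integrableOn_iff_integrable_of_support_subset (s := Metric.closedBall 0 R)
    fun x hx => ?_).1 (h1.bdd_mul (c := M) hf.meas.aestronglyMeasurable
      (Filter.Eventually.of_forall hM))
  by_contra hc
  exact hx (by simp [hR x (by simpa using hc)])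

theorem al_le (h : A1 w A) {f : E d → ℝ} (hf : Nice f) (Q : Cb d) (s : ℕ) :
    (∫ x in cube Q, |f x|) * al w (anc Q s) ≤ A * ∫ x in cube Q, |f x| * w x := by
  rw [← integral_mul_const, ← integral_const_mul]
  refine setIntegral_mono_on_ae (hf.abs.integrable.mul_const _).integrableOn
    ((fw_int h hf.abs).const_mul _).integrableOn (measurableSet_cube Q)
    ((h.le (Q.1 + s)).mono fun x hx hxQ => ?_)
  rw [anc_eq s hxQ] at hx
  rw [mul_left_comm]
  refine mul_le_mul_of_nonneg_left ((div_le_iff₀ (sz_pos _)).2 (hx.trans_eq ?_)) (abs_nonneg _)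
  simp only [anc, cb]
  ring

theorem al_sum (h : A1 w A) {f : E d → ℝ} (hf : Nice f) {P : Finset (Cb d)} (hP : Dj P)
    (s : ℕ) : ∑ Q ∈ P, (∫ x in cube Q, |f x|) * al w (anc Q s) ≤ A * ∫ x, |f x| * w x := by
  refine (Finset.sum_le_sum fun Q _ => al_le h hf Q s).trans ?_
  rw [← Finset.mul_sum, ← integral_biUnion_finset _ (fun Q _ => measurableSet_cube Q) hP
    fun Q _ => (fw_int h hf.abs).integrableOn]
  exact mul_le_mul_of_nonneg_left (setIntegral_le_integral (fw_int h hf.abs)
    (Filter.Eventually.of_forall fun x => mul_nonneg (abs_nonneg _) (h.pos x).le))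
    (zero_le_one.trans h.one_le)

theorem w_tail (h : A1 w A) (c : Cb d) {t T : ℝ} (ht : 0 < t) (hT : t * al w c / 2 ≤ T) :
    ∫ x in big c, {x | T < w x}.indicator w x ≤
      4 * 3 ^ d * t ^ (-(1 / (2 ^ (d + 2) * A))) * al w c * sz d c.1 := by
  have hA := h.one_le
  have hz := sz_pos (d := d) c.1
  have hα := al_pos h c
  set δ : ℝ := 1 / (2 ^ (d + 2) * A) with hδ
  have hδ0 : 0 < δ := by positivity
  have hδ1 : δ ≤ 1 := by
    rw [hδ, div_le_one (by positivity)]
    exact one_le_mul_of_one_le_of_one_le (one_le_pow₀ one_le_two) hA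
  have hT0 : 0 < T := lt_of_lt_of_le (by positivity) hT
  have hS : MeasurableSet {x | T < w x} := measurableSet_lt measurable_const h.meas
  obtain ⟨N, hN, hdj, hlev, hU⟩ := exists_nbrs c
  have h1 : ∫⁻ x in big c, ENNReal.ofReal (w x) ^ (1 + δ) ≤
      ENNReal.ofReal (3 ^ d * (2 * al w c ^ (1 + δ) * sz d c.1)) := by
    rw [hU, lintegral_biUnion_finset hdj fun c' _ => measurableSet_cube c']
    refine (Finset.sum_le_card_nsmul _ _ (ENNReal.ofReal (2 * al w c ^ (1 + δ) * sz d c.1))
      fun c' hc' => (rh h c').trans (ENNReal.ofReal_le_ofReal ?_)).trans (le_of_eq ?_)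
    · rw [hlev c' hc']
      have h2 : ∫ x in cube c', w x ≤ ∫ x in big c, w x := setIntegral_mono_set
        (rh_int h c Subset.rfl) (Filter.Eventually.of_forall fun x => (h.pos x).le)
        (show cube c' ⊆ big c from hU ▸ subset_biUnion_of_mem (u := cube) hc').eventuallyLE
      have h3 : 0 ≤ ∫ x in cube c', w x := integral_nonneg fun x => (h.pos x).le
      unfold al
      gcongr
    · rw [hN, nsmul_eq_mul, ENNReal.ofReal_mul (p := 3 ^ d) (by positivity),
        ENNReal.ofReal_pow (by norm_num)]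
      simp
  rw [← ENNReal.ofReal_le_ofReal_iff (by positivity), ofReal_integral_eq_lintegral_ofReal
    ((rh_int h c Subset.rfl).indicator hS) (Filter.Eventually.of_forall fun x =>
      indicator_nonneg (fun x _ => (h.pos x).le) x)]
  calc _ ≤ ∫⁻ x in big c, ENNReal.ofReal (T ^ (-δ)) * ENNReal.ofReal (w x) ^ (1 + δ) := by
        refine lintegral_mono fun x => ?_
        have hw := h.pos x
        by_cases hx : x ∈ {x | T < w x}
        · simp only [indicator_of_mem hx]
          rw [ENNReal.ofReal_rpow_of_pos hw, ← ENNReal.ofReal_mul (by positivity)]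
          refine ENNReal.ofReal_le_ofReal ?_
          rw [Real.rpow_add hw, Real.rpow_one, mul_left_comm, Real.rpow_neg hT0.le]
          refine le_mul_of_one_le_right hw.le ?_
          rw [le_inv_mul_iff₀ (by positivity), mul_one]
          exact Real.rpow_le_rpow hT0.le (le_of_lt hx) hδ0.le
        · simp [indicator_of_notMem hx]
    _ ≤ ENNReal.ofReal (T ^ (-δ)) * ENNReal.ofReal (3 ^ d * (2 * al w c ^ (1 + δ) * sz d c.1)) := by
        rw [lintegral_const_mul' _ _ ENNReal.ofReal_ne_top]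
        exact mul_le_mul_right h1 _
    _ ≤ _ := by
        rw [← ENNReal.ofReal_mul (by positivity)]
        refine ENNReal.ofReal_le_ofReal ?_
        have h2 : T ^ (-δ) * al w c ^ δ ≤ 2 * t ^ (-δ) := by
          have h3 : T ^ (-δ) ≤ (t * al w c / 2) ^ (-δ) :=
            Real.rpow_le_rpow_of_nonpos (by positivity) hT (by linarith)
          have h4 : (2 : ℝ) ^ δ ≤ 2 := Real.rpow_le_self_of_one_le one_le_two hδ1
          rw [Real.div_rpow (by positivity) zero_le_two, Real.mul_rpow ht.le hα.le,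
            Real.rpow_neg hα.le, Real.rpow_neg zero_le_two] at h3
          calc _ ≤ t ^ (-δ) * (al w c ^ δ)⁻¹ / (2 ^ δ)⁻¹ * al w c ^ δ := by gcongr
            _ = 2 ^ δ * t ^ (-δ) := by field_simp
            _ ≤ _ := by gcongr
        rw [Real.rpow_add hα, Real.rpow_one]
        calc _ = 2 * 3 ^ d * (T ^ (-δ) * al w c ^ δ) * al w c * sz d c.1 := by ring
          _ ≤ 2 * 3 ^ d * (2 * t ^ (-δ)) * al w c * sz d c.1 := by gcongr
          _ = _ := by ring

theorem min_sum {t v : ℝ} (ht : 0 < t) (hv : 0 < v) (a e : ℤ) :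
    ∑ m ∈ Finset.Icc a e, ((2 : ℝ) ^ m)⁻¹ * min v (t * 2 ^ m) ^ 2 ≤ 6 * t * v := by
  have h := l2_tel (fun m => v / (v + t * 2 ^ m)) (M := 1) (fun m => by positivity)
    (fun m => (div_le_one (by positivity)).2 (le_add_of_nonneg_right (by positivity))) a e
  refine le_trans (Finset.sum_le_sum fun m _ => ?_) ((Finset.mul_sum ..).ge.trans
    ((mul_le_mul_of_nonneg_left h (show 0 ≤ 6 * t * v by positivity)).trans_eq (mul_one _)))
  rw [zpow_add_one₀ two_ne_zero]
  have hu : (0 : ℝ) < 2 ^ m := by positivity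
  generalize (2 : ℝ) ^ m = u at *
  have e1 : 6 * t * v * (v / (v + t * u) - v / (v + t * (u * 2))) =
      u⁻¹ * (6 * (t * u) ^ 2 * v ^ 2 / ((v + t * u) * (v + t * u * 2))) := by
    field_simp
    ring
  rw [e1]
  refine mul_le_mul_of_nonneg_left ?_ (by positivity)
  have hx : 0 < t * u := by positivity
  generalize t * u = x at *
  rw [le_div_iff₀ (by positivity)]
  rcases le_total v x with h1 | h1
  · rw [min_eq_left h1]
    calc _ ≤ v ^ 2 * ((2 * x) * (3 * x)) := by gcongr <;> linarith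
      _ = _ := by ring
  · rw [min_eq_right h1]
    calc _ ≤ x ^ 2 * ((2 * v) * (3 * v)) := by gcongr <;> linarith
      _ = _ := by ring

theorem cv_atom {k : E d → ℝ} (hk : IsKer k) {P : Finset (Cb d)} {b : Cb d → E d → ℝ}
    (hP : Atoms P b 1) {Q : Cb d} (hQ : Q ∈ P) {j : ℤ} {x : E d}
    (hx : ∀ y ∈ cube Q, x ∉ big (cb j y)) : cv k j (b Q) x = 0 := by
  rw [cv_congr hk (g := fun _ => 0) fun y hy => hP.supp Q hQ y fun h =>
    hx y h (mem_big_symm.1 hy)]
  simp [cv]

theorem bad_one (hd : 1 ≤ d) : ∃ C : ℝ, 0 < C ∧ ∀ k : E d → ℝ, IsKer k → ∀ (w : E d → ℝ) (A : ℝ),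
    A1 w A → ∀ (P : Finset (Cb d)) (b : Cb d → E d → ℝ), Atoms P b 1 → ∀ (s : ℕ) (t V : ℝ),
    0 < t → ∑ Q ∈ P, sz d Q.1 * al w (anc Q s) ≤ V → ∀ σ : E d → ℝ, Nice σ → (∀ x, |σ x| ≤ 1) →
    ∑ Q ∈ P, ∫ x, σ x * w x * cv k (Q.1 + s) (b Q) x ≤
      C * (t ^ (-(1 / (2 ^ (d + 2) * A))) * V +
        (9 / 10) ^ s * √t * √(∫ x, |σ x| * w x) * √V) := by
  obtain ⟨C, hC, hs⟩ := seeger_pair hd
  refine ⟨4 * 12 ^ d + 3 * C, by positivity, fun k hk w A h P b hP s t V ht hV σ hσ hσ1 => ?_⟩
  set δ : ℝ := 1 / (2 ^ (d + 2) * A) with hδ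
  set g : Cb d → ℤ := fun Q => Int.log 2 (al w (anc Q s)) with hg
  have hg1 : ∀ Q, (2 : ℝ) ^ g Q ≤ al w (anc Q s) := fun Q => by
    exact_mod_cast Int.zpow_log_le_self (b := 2) one_lt_two (al_pos h _)
  have hg2 : ∀ Q, al w (anc Q s) ≤ 2 ^ g Q * 2 := fun Q => by
    rw [← zpow_add_one₀ two_ne_zero]
    exact_mod_cast (Int.lt_zpow_succ_log_self (b := 2) one_lt_two (al w (anc Q s))).le
  set lo : ℤ → E d → ℝ := fun m x => σ x * min (w x) (t * 2 ^ m) with hlo
  have hmin : ∀ (m : ℤ) x, 0 ≤ min (w x) (t * 2 ^ m) := fun m x =>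
    le_min (h.pos x).le (by positivity)
  have hlon : ∀ m, Nice (lo m) := fun m => by
    obtain ⟨R, hR⟩ := hσ.supp
    refine ⟨hσ.meas.mul (h.meas.min measurable_const), ⟨t * 2 ^ m, fun x => ?_⟩,
      R, fun x hx => by simp [hlo, hR x hx]⟩
    rw [abs_mul, abs_of_nonneg (hmin m x)]
    exact (mul_le_of_le_one_left (hmin m x) (hσ1 x)).trans (min_le_right _ _)
  have hV0 : 0 ≤ V := le_trans (Finset.sum_nonneg fun Q _ =>
    (mul_pos (sz_pos _) (al_pos h _)).le) hV
  have high : ∀ Q ∈ P, ∫ x, σ x * w x * cv k (Q.1 + s) (b Q) x ≤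
      4 * 12 ^ d * t ^ (-δ) * (sz d Q.1 * al w (anc Q s)) +
        ∫ x, lo (g Q) x * cv k (Q.1 + s) (b Q) x := fun Q hQ => by
    have hn := cv_nice hk (hP.nice Q hQ) (Q.1 + s)
    have hz := sz_pos (d := d) (Q.1 + s)
    have hz' := sz_pos (d := d) Q.1
    have i1 : Integrable fun x => σ x * w x * cv k (Q.1 + s) (b Q) x := by
      simpa only [mul_right_comm] using fw_int h (hσ.mul hn)
    have hS : MeasurableSet {x | t * 2 ^ g Q < w x} := measurableSet_lt measurable_const h.meas
    have i2 := (integrable_indicator_iff (measurableSet_big (anc Q s))).2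
      ((rh_int h (anc Q s) Subset.rfl).indicator hS)
    rw [← sub_le_iff_le_add, ← integral_sub i1 ((hlon _).mul hn).integrable]
    refine (integral_mono (i1.sub ((hlon _).mul hn).integrable)
      (i2.const_mul (4 ^ d / sz d (Q.1 + s) * sz d Q.1)) fun x => ?_).trans ?_
    · by_cases hx : x ∈ big (anc Q s)
      · have h1 : |cv k (Q.1 + s) (b Q) x| ≤ 4 ^ d / sz d (Q.1 + s) * sz d Q.1 :=
          (cv_le hk (hP.nice Q hQ) _ x).trans (mul_le_mul_of_nonneg_left
            ((setIntegral_le_integral (hP.nice Q hQ).abs.integrable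
              (Filter.Eventually.of_forall fun _ => abs_nonneg _)).trans
              ((hP.mass Q hQ).trans_eq (one_mul _))) (by positivity))
        simp only [indicator_of_mem hx, hlo, Pi.sub_apply]
        rw [← sub_mul, ← mul_sub, mul_comm (4 ^ d / _ * _)]
        refine (le_abs_self _).trans ?_
        rw [abs_mul, abs_mul]
        refine mul_le_mul ((mul_le_of_le_one_left (abs_nonneg _) (hσ1 x)).trans ?_) h1
          (abs_nonneg _) (indicator_nonneg (fun x _ => (h.pos x).le) x)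
        by_cases hx' : x ∈ {x | t * 2 ^ g Q < w x}
        · rw [indicator_of_mem hx', abs_of_nonneg (sub_nonneg.2 (min_le_left _ _))]
          exact sub_le_self _ (hmin _ x)
        · rw [indicator_of_notMem hx', min_eq_left (not_lt.1 hx'), sub_self, abs_zero]
      · simp only [indicator_of_notMem hx, Pi.sub_apply,
          cv_atom hk hP hQ fun y hy => (anc_eq s hy).symm ▸ hx, mul_zero, sub_zero, le_refl]
    · rw [integral_const_mul, integral_indicator (measurableSet_big _)]
      refine (mul_le_mul_of_nonneg_left (w_tail h (anc Q s) ht ?_) (by positivity)).trans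
        (le_of_eq ?_)
      · rw [div_le_iff₀ two_pos, mul_assoc]
        exact mul_le_mul_of_nonneg_left (hg2 Q) ht.le
      · rw [show (12 : ℝ) = 4 * 3 by norm_num, mul_pow, ← hδ]
        simp only [anc, cb]
        field_simp
  obtain ⟨a, ha⟩ := (P.image g).bddBelow
  obtain ⟨e, he⟩ := (P.image g).bddAbove
  have hmap : ∀ Q ∈ P, g Q ∈ Finset.Icc a e := fun Q hQ => Finset.mem_Icc.2
    ⟨ha (Finset.mem_coe.2 (Finset.mem_image_of_mem g hQ)),
      he (Finset.mem_coe.2 (Finset.mem_image_of_mem g hQ))⟩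
  set X := ∫ x, |σ x| * w x with hX
  have low : ∑ Q ∈ P, ∫ x, lo (g Q) x * cv k (Q.1 + s) (b Q) x ≤
      C * (9 / 10) ^ s * (√(6 * t * X) * √V) := by
    rw [← Finset.sum_fiberwise_of_maps_to hmap]
    have h1 : ∀ m ∈ Finset.Icc a e, ∑ Q ∈ P with g Q = m, ∫ x, lo (g Q) x *
        cv k (Q.1 + s) (b Q) x ≤ C * (9 / 10) ^ s * (√(((2 : ℝ) ^ m)⁻¹ * ∫ x, lo m x ^ 2) *
          √(∑ Q ∈ P with g Q = m, sz d Q.1 * al w (anc Q s))) := fun m _ => by
      rw [Finset.sum_congr rfl fun Q hQ => by rw [(Finset.mem_filter.1 hQ).2]]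
      refine (le_abs_self _).trans ((hs k hk _ b 1 zero_le_one
        (hP.subset (Finset.filter_subset _ _)) s _ (hlon m)).trans ?_)
      have h0 : 0 ≤ ∫ x, lo m x ^ 2 := integral_nonneg fun _ => sq_nonneg _
      rw [mul_one, mul_assoc, ← Real.sqrt_mul h0, ← Real.sqrt_mul (by positivity)]
      refine mul_le_mul_of_nonneg_left (Real.sqrt_le_sqrt ?_) (by positivity)
      rw [mul_comm _ (∫ x, lo m x ^ 2), mul_assoc, Finset.mul_sum _ _ ((2 : ℝ) ^ m)⁻¹]
      refine mul_le_mul_of_nonneg_left (Finset.sum_le_sum fun Q hQ => ?_) h0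
      rw [le_inv_mul_iff₀ (by positivity), mul_comm, ← (Finset.mem_filter.1 hQ).2]
      exact mul_le_mul_of_nonneg_left (hg1 Q) (sz_pos _).le
    refine (Finset.sum_le_sum h1).trans ?_
    rw [← Finset.mul_sum]
    refine mul_le_mul_of_nonneg_left ((Real.sum_sqrt_mul_sqrt_le _
      (fun m => mul_nonneg (by positivity) (integral_nonneg fun _ => sq_nonneg _))
      fun m => Finset.sum_nonneg fun Q _ => (mul_pos (sz_pos _) (al_pos h _)).le).trans ?_)
      (by positivity)
    rw [Finset.sum_fiberwise_of_maps_to hmap]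
    refine mul_le_mul (Real.sqrt_le_sqrt ?_) (Real.sqrt_le_sqrt hV) (Real.sqrt_nonneg _)
      (Real.sqrt_nonneg _)
    simp only [← integral_const_mul]
    rw [← integral_finsetSum _ fun m _ => (hlon m).sq.integrable.const_mul _, hX,
      ← integral_const_mul]
    refine integral_mono (integrable_finsetSum _ fun m _ => (hlon m).sq.integrable.const_mul _)
      ((fw_int h hσ.abs).const_mul _) fun x => ?_
    have h2 : σ x ^ 2 ≤ |σ x| := by
      rw [← sq_abs, sq]
      exact mul_le_of_le_one_left (abs_nonneg _) (hσ1 x)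
    have h3 := min_sum ht (h.pos x) a e
    have h4 := h.pos x
    calc _ = σ x ^ 2 * ∑ m ∈ Finset.Icc a e, ((2 : ℝ) ^ m)⁻¹ * min (w x) (t * 2 ^ m) ^ 2 := by
          simp only [hlo, Finset.mul_sum]
          exact Finset.sum_congr rfl fun m _ => by ring
      _ ≤ |σ x| * (6 * t * w x) := mul_le_mul h2 h3
          (Finset.sum_nonneg fun m _ => by positivity) (abs_nonneg _)
      _ = _ := by ring
  refine (Finset.sum_le_sum high).trans ?_
  rw [Finset.sum_add_distrib, ← Finset.mul_sum]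
  have p1 : √(6 * t * X) ≤ 3 * (√t * √X) := by
    rw [← Real.sqrt_mul ht.le, show (3 : ℝ) = √9 by
      rw [show (9 : ℝ) = 3 ^ 2 by norm_num, Real.sqrt_sq (by norm_num)], ← Real.sqrt_mul (by norm_num)]
    have : 0 ≤ X := integral_nonneg fun x => mul_nonneg (abs_nonneg _) (h.pos x).le
    exact Real.sqrt_le_sqrt (by nlinarith [mul_nonneg ht.le this])
  have p2 : 4 * 12 ^ d * t ^ (-δ) * ∑ Q ∈ P, sz d Q.1 * al w (anc Q s) ≤
      4 * 12 ^ d * t ^ (-δ) * V := by gcongr
  have p3 : C * (9 / 10) ^ s * (√(6 * t * X) * √V) ≤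
      C * (9 / 10) ^ s * (3 * (√t * √X) * √V) := by gcongr
  have p4 : 0 ≤ 4 * 12 ^ d * ((9 / 10) ^ s * √t * √X * √V) + 3 * C * (t ^ (-δ) * V) := by
    positivity
  nlinarith

end Pool.Agent.MP_418f02_an

end

section

/-! The weighted weak type bound, quadratic in the `A₁` constant. -/

open MeasureTheory Set
open scoped ENNReal

namespace Pool.Agent.MP_418f02_an

variable {d : ℕ}

/-- the measure with density `w` -/
noncomputable def wm (w : E d → ℝ) : Measure (E d) :=
  volume.withDensity fun x => ENNReal.ofReal (w x)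

theorem up_geo {q : ℝ} (h0 : 0 ≤ q) (h1 : q < 1) (S : ℕ) :
    ∑ s ∈ Finset.range S, q ^ s ≤ (1 - q)⁻¹ :=
  ((summable_geometric_of_lt_one h0 h1).sum_le_tsum _ fun _ _ => by positivity).trans_eq
    (tsum_geometric_of_lt_one h0 h1)

theorem up_shift (F : ℤ → ℝ) (a e l : ℤ) (S : ℕ) (hS : e < l + S) (h0 : ∀ j, j < l → F j = 0) :
    ∑ j ∈ Finset.Icc a e, F j =
      ∑ s ∈ Finset.range S, if l + s ∈ Finset.Icc a e then F (l + s) else 0 := by
  rw [← Finset.sum_filter, ← Finset.sum_filter_of_ne (p := fun j => l ≤ j)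
    fun j _ hj => not_lt.1 fun h => hj (h0 j h)]
  refine Finset.sum_nbij' (fun j => (j - l).toNat) (fun s => l + s) ?_ ?_ ?_ ?_ ?_ <;>
    simp only [Finset.mem_filter, Finset.mem_Icc, Finset.mem_range]
  · omega
  · omega
  · omega
  · omega
  · intro j hj
    congr 1
    omega

theorem bad_all (hd : 1 ≤ d) : ∃ C : ℝ, 0 < C ∧ ∀ k : E d → ℝ, IsKer k → ∀ (w : E d → ℝ) (A : ℝ),
    A1 w A → ∀ (P : Finset (Cb d)) (b : Cb d → E d → ℝ), Atoms P b 1 → ∀ V : ℝ,
    (∀ s, ∑ Q ∈ P, sz d Q.1 * al w (anc Q s) ≤ V) → ∀ (a e : ℤ) (l : ℝ), 0 < l →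
    wm w {x | x ∉ (⋃ Q ∈ P, big Q) ∧ l < |TT k a e (fun y => ∑ Q ∈ P, b Q y) x|} ≤
      ENNReal.ofReal (C * (A / l + 1 / l ^ 2) * V) := by
  obtain ⟨C, hC, h1⟩ := bad_one hd
  set c : ℝ := 1 + 10 * 2 ^ (d + 2) with hc
  refine ⟨2 * C * c + (19 * C) ^ 2, by positivity, fun k hk w A h P b hP V hV a e l hl => ?_⟩
  have hA := h.one_le
  set U := TT k a e fun y => ∑ Q ∈ P, b Q y with hU
  have hUn : Nice U := TT_nice hk (nice_sum hP.nice) a e
  set G := {x | x ∉ (⋃ Q ∈ P, big Q) ∧ l < |U x|} with hG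
  have hGm : MeasurableSet G := (Finset.measurableSet_biUnion _ fun Q _ =>
    measurableSet_big Q).compl.inter (measurableSet_lt measurable_const hUn.meas.abs)
  set σ : E d → ℝ := G.indicator fun x => U x / |U x| with hσ
  have hσG : ∀ x, |σ x| = G.indicator 1 x := fun x => by
    by_cases hx : x ∈ G
    · rw [hσ, indicator_of_mem hx, indicator_of_mem hx, abs_div, abs_abs,
        div_self (hl.trans hx.2).ne', Pi.one_apply]
    · rw [hσ, indicator_of_notMem hx, indicator_of_notMem hx, abs_zero]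
  have hσ1 : ∀ x, |σ x| ≤ 1 := fun x => (hσG x).trans_le (indicator_le_self' (by simp) x)
  have hσn : Nice σ := by
    obtain ⟨R, hR⟩ := hUn.supp
    exact ⟨(hUn.meas.div hUn.meas.abs).indicator hGm, ⟨1, hσ1⟩, R, fun x hx => by
      simp [hσ, hR x hx]⟩
  set X := ∫ x, |σ x| * w x with hX
  have hX0 : 0 ≤ X := integral_nonneg fun x => mul_nonneg (abs_nonneg _) (h.pos x).le
  have hV0 : 0 ≤ V := le_trans (Finset.sum_nonneg fun Q _ =>
    (mul_pos (sz_pos _) (al_pos h _)).le) (hV 0)
  have e1 : wm w G = ENNReal.ofReal X := by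
    rw [wm, withDensity_apply _ hGm, hX, ofReal_integral_eq_lintegral_ofReal (fw_int h hσn.abs)
      (Filter.Eventually.of_forall fun x => mul_nonneg (abs_nonneg _) (h.pos x).le),
      ← lintegral_indicator hGm]
    refine lintegral_congr fun x => ?_
    by_cases hx : x ∈ G <;> simp [hσG, hx]
  obtain ⟨S, hS⟩ : ∃ S : ℕ, ∀ Q ∈ P, e < Q.1 + S := by
    obtain ⟨l, hl⟩ := (P.image fun Q => Q.1).bddBelow
    refine ⟨(e + 1 - l).toNat, fun Q hQ => ?_⟩
    have := hl (Finset.mem_coe.2 (Finset.mem_image_of_mem (fun Q : Cb d => Q.1) hQ))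
    omega
  have hi : ∀ (s : ℕ), ∀ Q ∈ P.filter fun Q => Q.1 + (s : ℤ) ∈ Finset.Icc a e,
      Integrable fun x => σ x * w x * cv k (Q.1 + s) (b Q) x := fun s Q hQ => by
    simpa only [mul_right_comm] using fw_int h
      (hσn.mul (cv_nice hk (hP.nice Q (Finset.mem_filter.1 hQ).1) (Q.1 + s)))
  have h2 : l * X ≤ ∑ s ∈ Finset.range S, ∑ Q ∈ P with Q.1 + (s : ℤ) ∈ Finset.Icc a e,
      ∫ x, σ x * w x * cv k (Q.1 + s) (b Q) x := by
    rw [Finset.sum_congr rfl fun s _ => (integral_finsetSum _ (hi s)).symm,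
      ← integral_finsetSum _ fun s _ => integrable_finsetSum _ (hi s), hX, ← integral_const_mul]
    refine integral_mono ((fw_int h hσn.abs).const_mul _)
      (integrable_finsetSum _ fun s _ => integrable_finsetSum _ (hi s)) fun x => ?_
    simp only [← Finset.mul_sum]
    by_cases hx : x ∈ G
    swap
    · simp [hσ, hx]
    have e2 : U x = ∑ s ∈ Finset.range S, ∑ Q ∈ P with Q.1 + (s : ℤ) ∈ Finset.Icc a e,
        cv k (Q.1 + s) (b Q) x := by
      simp only [hU, TT, ps, cv_sum hk hP.nice, Finset.sum_filter]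
      rw [Finset.sum_comm, Finset.sum_comm (s := Finset.range S)]
      refine Finset.sum_congr rfl fun Q hQ => up_shift _ a e Q.1 S (hS Q hQ) fun j hj => ?_
      exact cv_atom hk hP hQ fun y hy hxy =>
        hx.1 (mem_iUnion₂.2 ⟨Q, hQ, big_subset_big hj.le hy hxy⟩)
    have h0 := hl.trans hx.2
    rw [← e2, hσG, hσ, indicator_of_mem hx, indicator_of_mem hx, Pi.one_apply, one_mul,
      mul_right_comm, div_mul_eq_mul_div, ← sq, ← sq_abs, sq, mul_div_cancel_right₀ _ h0.ne']
    exact mul_le_mul_of_nonneg_right hx.2.le (h.pos x).le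
  set δ : ℝ := 1 / (2 ^ (d + 2) * A) with hδ
  have hδ0 : 0 < δ := by positivity
  have h3 : ∀ s ∈ Finset.range S, ∑ Q ∈ P with Q.1 + (s : ℤ) ∈ Finset.Icc a e,
      ∫ x, σ x * w x * cv k (Q.1 + s) (b Q) x ≤
      C * V * (1 + δ / 10)⁻¹ ^ s + C * (√X * √V) * (18 / 19) ^ s := fun s _ => by
    refine (h1 k hk w A h _ b (hP.subset (Finset.filter_subset _ _)) s (Real.exp (s / 10)) V
      (Real.exp_pos _) ((Finset.sum_le_sum_of_subset_of_nonneg (Finset.filter_subset _ _)
        fun Q _ _ => (mul_pos (sz_pos _) (al_pos h _)).le).trans (hV s)) σ hσn hσ1).trans ?_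
    have p1 : Real.exp (s / 10) ^ (-δ) ≤ (1 + δ / 10)⁻¹ ^ s := by
      rw [← Real.exp_mul, show s / 10 * -δ = s * -(δ / 10) by ring, Real.exp_nat_mul, Real.exp_neg]
      exact pow_le_pow_left₀ (by positivity) (inv_anti₀ (by positivity)
        (by linarith [Real.add_one_le_exp (δ / 10)])) s
    have p2 : √(Real.exp (s / 10)) ≤ (20 / 19) ^ s := by
      rw [← Real.exp_half, show (s : ℝ) / 10 / 2 = s * (1 / 20) by ring, Real.exp_nat_mul]
      refine pow_le_pow_left₀ (by positivity) ?_ s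
      have := Real.add_one_le_exp (-(1 / 20))
      rw [Real.exp_neg, le_inv_comm₀ (by norm_num) (Real.exp_pos _)] at this
      exact this.trans (by norm_num)
    calc _ ≤ C * ((1 + δ / 10)⁻¹ ^ s * V + (9 / 10) ^ s * (20 / 19) ^ s * √X * √V) := by gcongr
      _ = _ := by
          rw [← mul_pow]
          norm_num
          ring
  have h4 := h2.trans (Finset.sum_le_sum h3)
  rw [Finset.sum_add_distrib, ← Finset.mul_sum, ← Finset.mul_sum] at h4
  have g1 := up_geo (q := (1 + δ / 10)⁻¹) (by positivity) (inv_lt_one_of_one_lt₀ (by linarith)) S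
  have g2 := up_geo (q := 18 / 19) (by norm_num) (by norm_num) S
  have g3 : (1 - (1 + δ / 10)⁻¹)⁻¹ ≤ c * A := by
    have : (1 - (1 + δ / 10)⁻¹)⁻¹ = 1 + 10 * 2 ^ (d + 2) * A := by
      rw [hδ]
      field_simp
      ring
    rw [this, hc]
    nlinarith
  have h5 : l * X ≤ C * V * (c * A) + C * (√X * √V) * 19 := by
    refine h4.trans (add_le_add (mul_le_mul_of_nonneg_left (g1.trans g3) (by positivity))
      (mul_le_mul_of_nonneg_left (g2.trans (by norm_num)) (by positivity)))
  have h6 : 2 * (l * √X) * (19 * C * √V) ≤ l ^ 2 * X + (19 * C) ^ 2 * V := by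
    have := two_mul_le_add_sq (l * √X) (19 * C * √V)
    rwa [mul_pow, mul_pow, Real.sq_sqrt hX0, Real.sq_sqrt hV0] at this
  rw [e1]
  refine ENNReal.ofReal_le_ofReal (le_of_mul_le_mul_left ?_ (show 0 < l ^ 2 by positivity))
  have h7 := mul_le_mul_of_nonneg_left h5 hl.le
  have h8 : 0 ≤ 2 * C * c * V + (19 * C) ^ 2 * (A * l * V) := by positivity
  calc _ ≤ 2 * C * c * (A * l * V) + (19 * C) ^ 2 * V := by nlinarith
    _ ≤ (2 * C * c + (19 * C) ^ 2) * (A * l + 1) * V := by nlinarith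
    _ = _ := by field_simp

theorem good_part (hd : 1 ≤ d) : ∃ C : ℝ, 0 < C ∧ ∀ k : E d → ℝ, IsKer k →
    ∀ (w : E d → ℝ) (A : ℝ), A1 w A → ∀ g : E d → ℝ, Nice g → ∀ M : ℝ, (∀ x, |g x| ≤ M) →
    ∀ (a e : ℤ) (l : ℝ), 0 < l → wm w {x | l < |TT k a e g x|} ≤
      ENNReal.ofReal (C * A ^ 2 * M / l ^ 2 * ∫ x, |g x| * w x) := by
  obtain ⟨C, hC, h1⟩ := kb_main hd
  refine ⟨(C * 8) ^ 2, by positivity, fun k hk w A h g hg M hM a e l hl => ?_⟩
  have hA := h.one_le
  have hM0 : 0 ≤ M := (abs_nonneg _).trans (hM 0)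
  have hT := TT_nice hk hg a e
  have h2 := h1 k 2 2 hk one_lt_two one_le_two (Or.inl (by norm_num)) w g A a e h hg
  rw [nrm_eq h.meas two_pos hT.meas, nrm_eq h.meas two_pos hg.meas] at h2
  have h3 := ENNReal.rpow_le_rpow h2 zero_le_two
  rw [ENNReal.mul_rpow_of_nonneg _ _ zero_le_two, ← ENNReal.rpow_mul, ← ENNReal.rpow_mul,
    one_div_mul_cancel two_ne_zero, ENNReal.rpow_one, ENNReal.rpow_one,
    ENNReal.ofReal_rpow_of_nonneg (by positivity) zero_le_two] at h3
  have hS : MeasurableSet {x | l < |TT k a e g x|} :=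
    measurableSet_lt measurable_const hT.meas.abs
  have h4 : ∫⁻ x, ENNReal.ofReal |g x| ^ (2 : ℝ) * ENNReal.ofReal (w x) ≤
      ENNReal.ofReal (M * ∫ x, |g x| * w x) := by
    rw [← integral_const_mul, ofReal_integral_eq_lintegral_ofReal ((fw_int h hg.abs).const_mul _)
      (Filter.Eventually.of_forall fun x => by have := h.pos x; positivity)]
    refine lintegral_mono fun x => ?_
    have := h.pos x
    simp only
    rw [ENNReal.ofReal_rpow_of_nonneg (abs_nonneg _) zero_le_two,
      ← ENNReal.ofReal_mul (by positivity), Real.rpow_two, sq, mul_assoc]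
    exact ENNReal.ofReal_le_ofReal (mul_le_mul_of_nonneg_right (hM x) (by positivity))
  calc _ ≤ ENNReal.ofReal (1 / l ^ 2) *
        ∫⁻ x, ENNReal.ofReal |TT k a e g x| ^ (2 : ℝ) * ENNReal.ofReal (w x) := by
        rw [wm, withDensity_apply _ hS, ← lintegral_const_mul' _ _ ENNReal.ofReal_ne_top,
          ← lintegral_indicator hS]
        refine lintegral_mono fun x => ?_
        by_cases hx : x ∈ {x | l < |TT k a e g x|}
        · simp only [indicator_of_mem hx]
          rw [← mul_assoc, ENNReal.ofReal_rpow_of_nonneg (abs_nonneg _) zero_le_two,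
            ← ENNReal.ofReal_mul (by positivity), Real.rpow_two]
          refine le_mul_of_one_le_left' (ENNReal.one_le_ofReal.2 ?_)
          rw [one_div, le_inv_mul_iff₀ (by positivity), mul_one]
          exact pow_le_pow_left₀ hl.le (le_of_lt hx) 2
        · simp [indicator_of_notMem hx]
    _ ≤ _ := by
        refine (mul_le_mul_right (h3.trans (mul_le_mul_right h4 _)) _).trans (le_of_eq ?_)
        rw [← ENNReal.ofReal_mul (by positivity), ← ENNReal.ofReal_mul (by positivity),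
          Real.rpow_two]
        congr 1
        norm_num
        ring

theorem weak_TT (hd : 1 ≤ d) : ∃ C : ℝ, 0 < C ∧ ∀ k : E d → ℝ, IsKer k →
    ∀ (w : E d → ℝ) (A : ℝ), A1 w A → ∀ f : E d → ℝ, Nice f → UniformContinuous f →
    ∀ (a e : ℤ) (l : ℝ), 0 < l → wm w {x | l < |TT k a e f x|} ≤
      ENNReal.ofReal (C * A ^ 2 / l * ∫ x, |f x| * w x) := by
  obtain ⟨C₁, hC₁, h1⟩ := good_part hd
  obtain ⟨C₂, hC₂, h2⟩ := bad_all hd
  refine ⟨C₁ * (16 * 6 ^ d) + 1 + C₂ * (4 * 6 ^ d + (4 * 6 ^ d) ^ 2), by positivity,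
    fun k hk w A h f hf hu a e l hl => ?_⟩
  have hA := h.one_le
  set μ : ℝ := l / A with hμ
  have hμ0 : 0 < μ := by positivity
  set F := ∫ x, |f x| * w x with hF
  have hF0 : 0 ≤ F := integral_nonneg fun x => mul_nonneg (abs_nonneg _) (h.pos x).le
  obtain ⟨R, hR⟩ := hf.supp
  obtain ⟨n, hn⟩ := pow_unbounded_of_one_lt (max R ((∫ x, |f x|) / μ)) (one_lt_two (α := ℝ))
  obtain ⟨δ, hδ, hc⟩ := Metric.uniformContinuous_iff.1 hu μ hμ0
  have hd0 : (1 : ℝ) ≤ d := by exact_mod_cast hd
  obtain ⟨i, hi⟩ := exists_pow_lt_of_lt_one (show 0 < δ / d by positivity)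
    (show (2 : ℝ)⁻¹ < 1 by norm_num)
  set W : Cb d := cb n 0 with hW
  have h3 : (1 : ℝ) ≤ 3 ^ d := one_le_pow₀ (by norm_num)
  have h6 : (1 : ℝ) ≤ 6 ^ d := one_le_pow₀ (by norm_num)
  obtain ⟨P, hP, hPW, hPm, hPl⟩ := cz hf (W := W) (j₀ := -i) (by simp [hW, cb]) hμ0 (by
    refine (setIntegral_le_integral hf.abs.integrable
      (Filter.Eventually.of_forall fun _ => abs_nonneg _)).trans ?_
    rw [← div_le_iff₀' hμ0]
    refine ((le_max_right _ _).trans hn.le).trans (le_trans ?_
      (le_mul_of_one_le_left (sz_pos _).le h3))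
    simp only [hW, cb, sz, zpow_natCast]
    exact le_self_pow₀ (one_le_pow₀ one_le_two) (by omega))
  set M : ℝ := 6 ^ d * μ with hM
  have hM0 : 0 < M := by positivity
  set H := P.filter fun Q => -(i : ℤ) ≤ Q.1 with hH
  have hHP : H ⊆ P := Finset.filter_subset _ _
  have hHd := hP.subset hHP
  have hAt := single_atoms hf hHd hM0 fun Q hQ => hPm Q (hHP hQ)
  set m : Cb d → ℝ := fun Q => (∫ y in cube Q, f y) / sz d Q.1 with hm
  set b : Cb d → E d → ℝ := fun Q => (cube Q).indicator fun x => (2 * M)⁻¹ * (f x - m Q) with hb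
  set B : E d → ℝ := fun x => ∑ Q ∈ H, b Q x with hB
  have hBn : Nice B := nice_sum hAt.nice
  set g : E d → ℝ := fun x => f x - 2 * M * B x with hg
  have hgn : Nice g := hf.sub (hBn.const_mul _)
  have hg1 : ∀ Q ∈ H, ∀ x ∈ cube Q, g x = m Q := fun Q hQ x hx => by
    simp only [hg, hB, hb]
    rw [single_sum hHd (fun R x => (2 * M)⁻¹ * (f x - m R)) hQ hx]
    field_simp
    ring
  have hg2 : ∀ x, (∀ Q ∈ H, x ∉ cube Q) → g x = f x := fun x hx => by
    simp only [hg, hB, hb]
    rw [Finset.sum_eq_zero fun Q hQ => indicator_of_notMem (hx Q hQ) _, mul_zero, sub_zero]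
  have hμM : μ ≤ M := le_mul_of_one_le_left hμ0.le h6
  have hgb : ∀ x, |g x| ≤ 2 * M := fun x => by
    by_cases hx : ∀ Q ∈ H, x ∉ cube Q
    · rw [hg2 x hx]
      by_cases hxW : x ∈ big W
      · rw [hPW] at hxW
        obtain ⟨Q, hQ, hxQ⟩ := mem_iUnion₂.1 hxW
        have hl : Q.1 < -i := not_le.1 fun h => hx Q (Finset.mem_filter.2 ⟨hQ, h⟩) hxQ
        have hz := sz_pos (d := d) Q.1
        have h4 : (|f x| - μ) * sz d Q.1 ≤ ∫ y in cube Q, |f y| := by
          rw [← bdry_real, mul_comm, ← smul_eq_mul, ← setIntegral_const]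
          refine setIntegral_mono_on (integrableOn_const (by rw [volume_cube]; simp))
            hf.abs.integrable.integrableOn (measurableSet_cube Q) fun y hy => ?_
          have h5 : dist x y < δ := by
            rw [dist_eq_norm]
            refine (norm_sub_le_of_cube hxQ hy).trans_lt ((lt_div_iff₀' (by linarith)).1
              (lt_of_le_of_lt ?_ hi))
            rw [inv_pow, ← zpow_natCast, ← zpow_neg]
            exact zpow_le_zpow_right₀ one_le_two hl.le
          have h7 := hc h5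
          rw [Real.dist_eq] at h7
          linarith [abs_sub_abs_le_abs_sub (f x) (f y)]
        linarith [le_of_mul_le_mul_right (h4.trans (hPm Q hQ)) hz]
      · rw [hR x (not_le.1 fun h => hxW (mem_big_of_norm (by
          rw [zero_sub, norm_neg, zpow_natCast]
          exact h.trans ((le_max_left _ _).trans hn.le)))), abs_zero]
        positivity
    · push Not at hx
      obtain ⟨Q, hQ, hxQ⟩ := hx
      rw [hg1 Q hQ x hxQ]
      linarith [single_mean (hPm Q (hHP hQ))]
  have hV : ∀ s, ∑ Q ∈ H, sz d Q.1 * al w (anc Q s) ≤ A * F / μ := fun s => by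
    rw [le_div_iff₀ hμ0, Finset.sum_mul]
    refine le_trans (Finset.sum_le_sum fun Q hQ => ?_) (al_sum h hf hHd s)
    have h4 := (hPl Q (hHP hQ)).2 (Finset.mem_filter.1 hQ).2
    have hz := sz_pos (d := d) Q.1
    rw [mul_right_comm]
    refine mul_le_mul_of_nonneg_right (le_trans ?_ h4.le) (al_pos h _).le
    nlinarith [mul_pos hμ0 hz]
  have ha0 : ∀ Q : Cb d, anc Q 0 = Q := fun Q => by
    rw [← anc_eq 0 (cube_nonempty Q).some_mem, Nat.cast_zero, add_zero,
      cb_eq_of_mem (cube_nonempty Q).some_mem]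
  have hgw : ∫ x, |g x| * w x ≤ 2 * A * F := by
    have i1 : ∀ Q ∈ H, Integrable ((cube Q).indicator fun x => |m Q| * w x) := fun Q _ =>
      (integrable_indicator_iff (measurableSet_cube Q)).2
        ((rh_int h Q (cube_subset_big Q)).const_mul _)
    calc _ ≤ ∫ x, (|f x| * w x + ∑ Q ∈ H, (cube Q).indicator (fun x => |m Q| * w x) x) := by
          refine integral_mono (fw_int h hgn.abs) ((fw_int h hf.abs).add
            (integrable_finsetSum _ i1)) fun x => ?_
          have hw := h.pos x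
          by_cases hx : ∀ Q ∈ H, x ∉ cube Q
          · simp only [hg2 x hx]
            exact le_add_of_nonneg_right (Finset.sum_nonneg fun Q _ =>
              indicator_nonneg (fun x _ => mul_nonneg (abs_nonneg _) (h.pos x).le) x)
          · push Not at hx
            obtain ⟨Q, hQ, hxQ⟩ := hx
            simp only [hg1 Q hQ x hxQ, single_sum hHd (fun R x => |m R| * w x) hQ hxQ]
            exact le_add_of_nonneg_left (by positivity)
      _ ≤ F + A * F := by
          rw [integral_add (fw_int h hf.abs) (integrable_finsetSum _ i1), integral_finsetSum _ i1]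
          refine add_le_add_right (le_trans (Finset.sum_le_sum fun Q _ => ?_)
            (al_sum h hf hHd 0)) _
          have hz := sz_pos (d := d) Q.1
          rw [integral_indicator (measurableSet_cube Q), integral_const_mul, ha0, hm, al, abs_div,
            abs_of_pos hz, div_mul_eq_mul_div, mul_div_assoc]
          refine mul_le_mul abs_integral_le_integral_abs (div_le_div_of_nonneg_right
            (setIntegral_mono_set (rh_int h Q Subset.rfl) (Filter.Eventually.of_forall
              fun x => (h.pos x).le) (cube_subset_big Q).eventuallyLE) hz.le)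
            (div_nonneg (integral_nonneg fun x => (h.pos x).le) hz.le)
            (integral_nonneg fun _ => abs_nonneg _)
      _ ≤ _ := by nlinarith
  have e1 : wm w (⋃ Q ∈ H, big Q) ≤ ENNReal.ofReal (A * F / μ) := by
    refine (measure_biUnion_finset_le _ _).trans ?_
    rw [wm, Finset.sum_congr rfl fun Q _ => (withDensity_apply _ (measurableSet_big Q)).trans
      (wt1_lint h Q), ← ENNReal.ofReal_sum_of_nonneg fun Q _ =>
        integral_nonneg fun x => (h.pos x).le]
    refine ENNReal.ofReal_le_ofReal (le_trans (le_of_eq ?_) (hV 0))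
    refine Finset.sum_congr rfl fun Q _ => ?_
    rw [ha0, al, mul_div_cancel₀ _ (sz_pos _).ne']
  have e2 := h1 k hk w A h g hgn _ hgb a e (l / 2) (by positivity)
  have e3 := h2 k hk w A h H b hAt _ hV a e (A / (4 * 6 ^ d)) (by positivity)
  have hsub : {x | l < |TT k a e f x|} ⊆ {x | l / 2 < |TT k a e g x|} ∪ (⋃ Q ∈ H, big Q) ∪
      {x | x ∉ (⋃ Q ∈ H, big Q) ∧ A / (4 * 6 ^ d) < |TT k a e B x|} := fun x hx => by
    by_contra hc
    simp only [mem_union, not_or, mem_ofPred_eq, not_and, not_lt] at hc hx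
    have e4 : TT k a e f x = TT k a e g x + 2 * M * TT k a e B x := by
      simp only [TT, ps, Finset.mul_sum, ← Finset.sum_add_distrib, ← cv_const_mul,
        ← cv_add hk hgn (hBn.const_mul _)]
      simp only [hg, sub_add_cancel]
    have h4 := abs_add_le (TT k a e g x) (2 * M * TT k a e B x)
    rw [← e4, abs_mul, abs_of_pos (by positivity : 0 < 2 * M)] at h4
    have h5 := mul_le_mul_of_nonneg_left (hc.2 hc.1.2) (by positivity : 0 ≤ 2 * M)
    have h7 : 2 * M * (A / (4 * 6 ^ d)) = l / 2 := by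
      rw [hM, hμ]
      field_simp
      ring
    linarith [hc.1.1]
  refine (measure_mono hsub).trans ((measure_union_le _ _).trans ((add_le_add
    ((measure_union_le _ _).trans (add_le_add e2 e1)) e3).trans ?_))
  have hgw0 : 0 ≤ ∫ x, |g x| * w x :=
    integral_nonneg fun x => mul_nonneg (abs_nonneg _) (h.pos x).le
  rw [← ENNReal.ofReal_add (by positivity) (by positivity),
    ← ENNReal.ofReal_add (by positivity) (by positivity)]
  refine ENNReal.ofReal_le_ofReal ?_
  have p1 : 1 / (A / (4 * 6 ^ d)) ^ 2 ≤ (4 * 6 ^ d) ^ 2 := by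
    rw [div_pow, one_div_div]
    exact div_le_self (by positivity) (one_le_pow₀ hA)
  calc _ ≤ C₁ * A ^ 2 * (2 * M) / (l / 2) ^ 2 * (2 * A * F) + A * F / μ +
        C₂ * (A / (A / (4 * 6 ^ d)) + (4 * 6 ^ d) ^ 2) * (A * F / μ) := by gcongr
    _ = _ := by
        rw [hM, hμ]
        field_simp
        ring

end Pool.Agent.MP_418f02_an

end

section

/-! A periodic `A₁` weight with logarithmic spikes at the lattice points. -/

open MeasureTheory Set
open scoped ENNReal

namespace Pool.Agent.MP_418f02_an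

variable {d : ℕ}

/-- points whose coordinates are within `η` of an integer -/
def nr (d : ℕ) (η : ℝ) : Set (E d) := {x | ∀ i, |x i - round (x i)| ≤ η}

/-- points whose coordinates are within `η` of one of `0, …, L - 1` -/
def nb (d L : ℕ) (η : ℝ) : Set (E d) :=
  {x | ∀ i, x i ∈ ⋃ m ∈ Finset.range L, Icc ((m : ℝ) - η) (m + η)}

/-- the weight -/
noncomputable def wl (d K : ℕ) (x : E d) : ℝ :=
  ∑ k ∈ Finset.range K, (nr d ((2 ^ k)⁻¹ / 2)).indicator (fun _ => ((2 : ℝ) ^ k) ^ d) x

theorem pi_meas {S : Fin d → Set ℝ} (h : ∀ i, MeasurableSet (S i)) :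
    MeasurableSet {x : E d | ∀ i, x i ∈ S i} := by
  rw [ofPred_forall]
  exact MeasurableSet.iInter fun i => (by fun_prop : Measurable fun x : E d => x i) (h i)

theorem pi_vol {S : Fin d → Set ℝ} (h : ∀ i, MeasurableSet (S i)) :
    volume {x : E d | ∀ i, x i ∈ S i} = ∏ i, volume (S i) := by
  rw [← volume_pi_pi, ← (PiLp.volume_preserving_ofLp (Fin d)).measure_preimage
    (MeasurableSet.univ_pi h).nullMeasurableSet]
  congr 1
  ext x
  simp

theorem rd_meas (η : ℝ) : MeasurableSet {t : ℝ | |t - round t| ≤ η} := by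
  simp only [round_eq]
  exact measurableSet_le (by fun_prop) measurable_const

theorem nr_meas (η : ℝ) : MeasurableSet (nr d η) := pi_meas fun _ => rd_meas η

theorem rd_vol (c : ℝ) {r : ℝ} (η : ℝ) (hr : 0 ≤ r) :
    volume (Icc (c - r) (c + r) ∩ {t : ℝ | |t - round t| ≤ η}) ≤
      ENNReal.ofReal ((2 * r + 2) * (2 * η)) := by
  calc _ ≤ volume (⋃ m ∈ Finset.Icc ⌈c - r - 1 / 2⌉ ⌊c + r + 1 / 2⌋, Icc ((m : ℝ) - η) (m + η)) := by
        refine measure_mono fun t ht => mem_iUnion₂.2 ⟨round t, ?_, ?_⟩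
        · have := abs_le.1 (abs_sub_round t)
          exact Finset.mem_Icc.2 ⟨Int.ceil_le.2 (by linarith [ht.1.1]),
            Int.le_floor.2 (by linarith [ht.1.2])⟩
        · have := abs_le.1 (show |t - round t| ≤ η from ht.2)
          constructor <;> linarith
    _ ≤ _ := by
        refine (measure_biUnion_finset_le _ _).trans ?_
        simp only [Real.volume_Icc, show ∀ m : ℝ, m + η - (m - η) = 2 * η from fun m => by ring,
          Finset.sum_const, nsmul_eq_mul]
        rw [ENNReal.ofReal_mul (p := 2 * r + 2) (by positivity), ← ENNReal.ofReal_natCast]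
        refine mul_le_mul_left (ENNReal.ofReal_le_ofReal ?_) _
        have h1 := Int.floor_le (c + r + 1 / 2)
        have h2 := Int.le_ceil (c - r - 1 / 2)
        rw [Int.card_Icc]
        rcases le_total 0 (⌊c + r + 1 / 2⌋ + 1 - ⌈c - r - 1 / 2⌉) with h | h
        · rw [← Int.cast_natCast, Int.toNat_of_nonneg h]
          push_cast
          linarith
        · rw [Int.toNat_of_nonpos h, Nat.cast_zero]
          positivity

theorem nr_ball (c : E d) {r η : ℝ} (hr : 0 ≤ r) (hη : 0 ≤ η) :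
    volume.real (Metric.ball c r ∩ nr d η) ≤ ((2 * r + 2) * (2 * η)) ^ d := by
  refine ENNReal.toReal_le_of_le_ofReal (by positivity) ?_
  calc _ ≤ volume {x : E d | ∀ i, x i ∈ Icc (c i - r) (c i + r) ∩ {t : ℝ | |t - round t| ≤ η}} := by
        refine measure_mono fun x hx i => ⟨?_, hx.2 i⟩
        have := abs_le.1 ((PiLp.norm_apply_le (x - c) i).trans (mem_ball_iff_norm.1 hx.1).le)
        rw [PiLp.sub_apply] at this
        constructor <;> linarith
    _ ≤ _ := by
        rw [pi_vol fun _ => measurableSet_Icc.inter (rd_meas η)]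
        refine (Finset.prod_le_prod' fun i _ => rd_vol (c i) η hr).trans_eq ?_
        rw [Finset.prod_const, Finset.card_univ, Fintype.card_fin,
          ENNReal.ofReal_pow (by positivity)]

theorem wl_term {K k : ℕ} (hk : k < K) {x : E d} (hx : x ∈ nr d ((2 ^ k)⁻¹ / 2)) :
    ((2 : ℝ) ^ k) ^ d ≤ wl d K x :=
  (indicator_of_mem hx fun _ => ((2 : ℝ) ^ k) ^ d).symm.trans_le
    (Finset.single_le_sum (f := fun k : ℕ => (nr d ((2 ^ k)⁻¹ / 2)).indicator
      (fun _ => ((2 : ℝ) ^ k) ^ d) x) (fun _ _ => indicator_nonneg (fun _ _ => by positivity) _)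
      (Finset.mem_range.2 hk))

theorem wl_one {K : ℕ} (hK : 0 < K) (x : E d) : 1 ≤ wl d K x := by
  simpa using wl_term hK (x := x) fun i => by simpa using abs_sub_round (x i)

theorem wl_ge {K : ℕ} {x : E d} {τ : ℝ} (hx : x ∈ nr d τ) :
    ∀ k, k < K → (2 ^ k)⁻¹ / 2 ≤ τ → ((4 * τ)⁻¹) ^ d ≤ wl d K x := by
  intro k
  induction k with
  | zero =>
    intro hK h
    norm_num at h
    exact (pow_le_one₀ (by positivity) (inv_le_one_of_one_le₀ (by linarith))).trans (wl_one hK x)
  | succ k ih =>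
    intro hK h
    rcases le_total ((2 ^ k)⁻¹ / 2) τ with h1 | h1
    · exact ih (by omega) h1
    · have h2 : (0 : ℝ) < (2 ^ k)⁻¹ := by positivity
      rw [pow_succ, mul_inv] at h
      refine le_trans ?_ (wl_term (by omega : k < K) fun i => (hx i).trans h1)
      refine pow_le_pow_left₀ (inv_nonneg.2 (by linarith)) ?_ _
      exact inv_le_of_inv_le₀ (by positivity) (by linarith)

theorem wl_eq {K : ℕ} (hd : 1 ≤ d) (hK : 0 < K) {x : E d} (hx : 1 / 4 < |x ⟨0, hd⟩ - round (x ⟨0, hd⟩)|) :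
    wl d K x ≤ 1 := by
  obtain ⟨K, rfl⟩ := Nat.exists_eq_succ_of_ne_zero hK.ne'
  rw [wl, Finset.sum_range_succ', Finset.sum_eq_zero, zero_add]
  · exact indicator_le' (fun _ _ => by simp) (fun _ _ => zero_le_one) x |>.trans_eq rfl
  · refine fun k _ => indicator_of_notMem (fun h => (h ⟨0, hd⟩).not_gt (lt_of_le_of_lt ?_ hx)) _
    have : ((2 : ℝ) ^ k)⁻¹ ≤ 1 := inv_le_one_of_one_le₀ (one_le_pow₀ one_le_two)
    rw [pow_succ, mul_inv]
    linarith

theorem wl_meas (K : ℕ) : Measurable (wl d K) :=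
  Finset.measurable_sum _ fun _ _ => measurable_const.indicator (nr_meas _)

theorem wl_loc (K : ℕ) : LocallyIntegrable (wl d K) volume :=
  locallyIntegrable_finsetSum _ fun _ _ => (locallyIntegrable_const _).indicator (nr_meas _)

theorem wl_int (K : ℕ) {S : Set (E d)} (hS : volume S ≠ ∞) : ∫ x in S, wl d K x =
    ∑ k ∈ Finset.range K, ((2 : ℝ) ^ k) ^ d * volume.real (S ∩ nr d ((2 ^ k)⁻¹ / 2)) := by
  unfold wl
  rw [integral_finsetSum _ fun _ _ => Integrable.indicator (integrableOn_const hS) (nr_meas _)]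
  refine Finset.sum_congr rfl fun k _ => ?_
  rw [setIntegral_indicator (nr_meas _), setIntegral_const, smul_eq_mul, mul_comm]

theorem wl_layer {K k : ℕ} (hk : k < K) (c : E d) {r : ℝ} (hr : 0 < r) {x : E d}
    (hx : x ∈ Metric.ball c r) : ((2 : ℝ) ^ k) ^ d *
      volume.real (Metric.ball c r ∩ nr d ((2 ^ k)⁻¹ / 2)) ≤ (4 ^ d + 64 ^ d /
        volume.real (Metric.ball (0 : E d) 1)) * wl d K x * volume.real (Metric.ball c r) := by
  set v := volume.real (Metric.ball (0 : E d) 1) with hv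
  have hv0 : 0 < v := ENNReal.toReal_pos (Metric.measure_ball_pos _ _ one_pos).ne'
    measure_ball_lt_top.ne
  have hB : volume.real (Metric.ball c r) = r ^ d * v := by
    rw [Measure.real, Measure.addHaar_ball_of_pos _ _ hr, ENNReal.toReal_mul,
      ENNReal.toReal_ofReal (by positivity), finrank_euclideanSpace_fin]
    rfl
  have h1 := wl_one (by omega : 0 < K) x
  set η : ℝ := (2 ^ k)⁻¹ with hη
  have hη0 : 0 < η := by positivity
  rcases (Metric.ball c r ∩ nr d (η / 2)).eq_empty_or_nonempty with h | ⟨z, hz, hz'⟩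
  · rw [h, measureReal_empty, mul_zero, hB]
    positivity
  have hτ : x ∈ nr d (η / 2 + 2 * r) := fun i => by
    have h2 := (PiLp.norm_apply_le (x - z) i).trans (norm_sub_le_norm_sub_add_norm_sub x c z)
    have h3 := mem_ball_iff_norm.1 hx
    have h4 := mem_ball_iff_norm'.1 hz
    rw [PiLp.sub_apply, Real.norm_eq_abs] at h2
    linarith [round_le (x i) (round (z i)), abs_sub_le (x i) (z i) (round (z i)), hz' i]
  have h2 := wl_ge hτ k hk (by linarith)
  rcases le_total (2 * r) (η / 2) with h | h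
  · have h3 : ((2 : ℝ) ^ k) ^ d ≤ 4 ^ d * wl d K x := by
      refine le_trans ?_ (mul_le_mul_of_nonneg_left h2 (by positivity))
      rw [← mul_pow]
      refine pow_le_pow_left₀ (by positivity) ?_ _
      rw [← div_eq_mul_inv, le_div_iff₀ (by positivity)]
      have : (2 : ℝ) ^ k * η = 1 := mul_inv_cancel₀ (by positivity)
      have : (0 : ℝ) < 2 ^ k := by positivity
      nlinarith
    refine mul_le_mul (h3.trans ?_) (measureReal_mono inter_subset_left measure_ball_lt_top.ne)
      measureReal_nonneg (by positivity)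
    gcongr
    exact le_add_of_nonneg_right (by positivity)
  · have h3 : (2 * r + 2) ^ d ≤ 64 ^ d * wl d K x * r ^ d := by
      rcases le_total r 1 with h4 | h4
      · refine le_trans ?_ (mul_le_mul_of_nonneg_right (mul_le_mul_of_nonneg_left h2
          (by positivity)) (by positivity))
        rw [← mul_pow, ← mul_pow]
        refine pow_le_pow_left₀ (by positivity) ?_ _
        rw [← div_eq_mul_inv, div_mul_eq_mul_div, le_div_iff₀ (by positivity)]
        nlinarith
      · calc _ ≤ (64 * r) ^ d * 1 := by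
              rw [mul_one]
              exact pow_le_pow_left₀ (by positivity) (by linarith) _
          _ ≤ (64 * r) ^ d * wl d K x := by gcongr
          _ = _ := by rw [mul_pow]; ring
    calc _ ≤ (2 ^ k) ^ d * ((2 * r + 2) * (2 * (η / 2))) ^ d := by
          gcongr
          exact nr_ball c hr.le (by positivity)
      _ = (2 * r + 2) ^ d := by
          rw [← mul_pow]
          congr 1
          rw [hη]
          field_simp
      _ ≤ 64 ^ d / v * wl d K x * (r ^ d * v) := h3.trans_eq (by field_simp)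
      _ ≤ _ := by
          rw [hB]
          gcongr
          exact le_add_of_nonneg_left (by positivity)

theorem wl_a1 : ∃ C : ℝ, 0 < C ∧ ∀ (K : ℕ) (c : E d) (r : ℝ), 0 < r → ∀ x ∈ Metric.ball c r,
    ⨍ y in Metric.ball c r, wl d K y ≤ C * K * wl d K x := by
  refine ⟨4 ^ d + 64 ^ d / volume.real (Metric.ball (0 : E d) 1), by positivity,
    fun K c r hr x hx => ?_⟩
  have hv : 0 < volume.real (Metric.ball c r) :=
    ENNReal.toReal_pos (Metric.measure_ball_pos _ _ hr).ne' measure_ball_lt_top.ne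
  rw [setAverage_eq, wl_int K measure_ball_lt_top.ne, smul_eq_mul, inv_mul_le_iff₀ hv]
  refine (Finset.sum_le_sum fun k hk => wl_layer (Finset.mem_range.1 hk) c hr hx).trans_eq ?_
  rw [Finset.sum_const, Finset.card_range, nsmul_eq_mul]
  ring

theorem nb_meas1 (L : ℕ) (η : ℝ) :
    MeasurableSet (⋃ m ∈ Finset.range L, Icc ((m : ℝ) - η) (m + η)) :=
  Finset.measurableSet_biUnion _ fun _ _ => measurableSet_Icc

theorem nb_meas (L : ℕ) (η : ℝ) : MeasurableSet (nb d L η) := pi_meas fun _ => nb_meas1 L η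

theorem nb_vol (L : ℕ) {η : ℝ} (h0 : 0 ≤ η) (h : η < 1 / 2) :
    volume (nb d L η) = ENNReal.ofReal ((L * (2 * η)) ^ d) := by
  rw [nb, pi_vol fun _ => nb_meas1 L η, measure_biUnion_finset _ fun _ _ => measurableSet_Icc]
  · simp only [Real.volume_Icc, show ∀ m : ℝ, m + η - (m - η) = 2 * η from fun m => by ring,
      Finset.sum_const, nsmul_eq_mul, Finset.card_range, Finset.prod_const, Finset.card_univ,
      Fintype.card_fin]
    rw [ENNReal.ofReal_pow (by positivity), ENNReal.ofReal_mul (p := L) (by positivity),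
      ENNReal.ofReal_natCast]
  · intro a _ b _ hab
    refine Set.disjoint_left.2 fun t h1 h2 => ?_
    rcases lt_or_gt_of_ne hab with h3 | h3
    · have : (a : ℝ) + 1 ≤ b := by exact_mod_cast h3
      linarith [h1.2, h2.1]
    · have : (b : ℝ) + 1 ≤ a := by exact_mod_cast h3
      linarith [h1.1, h2.2]

theorem wl_mass (L K N : ℕ) (hK : 0 < K) :
    ENNReal.ofReal (N * (L : ℝ) ^ d) ≤ wm (wl d (K + N)) (nb d L ((2 ^ K)⁻¹ / 2)) := by
  have hs : ∀ k, K ≤ k → ((2 : ℝ) ^ k)⁻¹ / 2 < 1 / 2 := fun k hk => by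
    have : ((2 : ℝ) ^ k)⁻¹ < 1 := inv_lt_one_of_one_lt₀ (one_lt_pow₀ one_lt_two (by omega))
    linarith
  have hf : volume (nb d L ((2 ^ K)⁻¹ / 2)) ≠ ∞ := by
    rw [nb_vol L (by positivity) (hs K le_rfl)]
    exact ENNReal.ofReal_ne_top
  have hi : IntegrableOn (wl d (K + N)) (nb d L ((2 ^ K)⁻¹ / 2)) :=
    integrable_finsetSum _ fun _ _ => (integrableOn_const hf).indicator (nr_meas _)
  rw [wm, withDensity_apply _ (nb_meas L _),
    ← ofReal_integral_eq_lintegral_ofReal hi (Filter.Eventually.of_forall fun x =>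
      zero_le_one.trans (wl_one (by omega) x)), wl_int _ hf, Finset.sum_range_add]
  refine ENNReal.ofReal_le_ofReal (le_add_of_nonneg_of_le (by positivity) ?_)
  have := Finset.card_nsmul_le_sum (Finset.range N) (fun k => ((2 : ℝ) ^ (K + k)) ^ d *
    volume.real (nb d L ((2 ^ K)⁻¹ / 2) ∩ nr d ((2 ^ (K + k))⁻¹ / 2))) ((L : ℝ) ^ d) fun k _ => ?_
  · rwa [Finset.card_range, nsmul_eq_mul] at this
  have h1 : ((2 : ℝ) ^ (K + k))⁻¹ ≤ (2 ^ K)⁻¹ :=
    inv_anti₀ (by positivity) (pow_le_pow_right₀ one_le_two (by omega))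
  calc _ = ((2 : ℝ) ^ (K + k)) ^ d * volume.real (nb d L ((2 ^ (K + k))⁻¹ / 2)) := by
        rw [Measure.real, nb_vol L (by positivity) (hs _ (by omega)),
          ENNReal.toReal_ofReal (by positivity), ← mul_pow]
        congr 1
        field_simp
    _ ≤ _ := by
        refine mul_le_mul_of_nonneg_left (measureReal_mono (fun x hx => ⟨fun i => ?_, fun i => ?_⟩)
          (measure_ne_top_of_subset inter_subset_left hf)) (by positivity)
        · obtain ⟨m, hm, h⟩ := mem_iUnion₂.1 (hx i)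
          exact mem_iUnion₂.2 ⟨m, hm, by linarith [h.1], by linarith [h.2]⟩
        · obtain ⟨m, -, h⟩ := mem_iUnion₂.1 (hx i)
          refine (round_le (x i) m).trans (abs_le.2 ?_)
          push_cast
          constructor <;> linarith [h.1, h.2]

end Pool.Agent.MP_418f02_an

end

section

/-! The weighted weak type norm is at least quadratic in the `A₁` constant. -/

open MeasureTheory Set Filter Topology
open scoped ENNReal

namespace Pool.Agent.MP_418f02_an

variable {d : ℕ}

/-- the centre of a lattice cell -/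
noncomputable def ctr (n : Fin d → ℕ) : E d := WithLp.toLp 2 fun i => (n i : ℝ) + 1 / 2

/-- a normalised bump at the centre of a cell -/
noncomputable def bp (n : Fin d → ℕ) {ρ : ℝ} (h : 0 < ρ) : E d → ℝ :=
  (⟨ρ / 2, ρ, half_pos h, half_lt_self h⟩ : ContDiffBump (ctr n)).normed volume

/-- the cells -/
def cells (d L : ℕ) : Finset (Fin d → ℕ) := Fintype.piFinset fun _ => Finset.range (2 * L)

/-- the test function -/
noncomputable def fl (d L : ℕ) {ρ : ℝ} (h : 0 < ρ) (x : E d) : ℝ := ∑ n ∈ cells d L, bp n h x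

theorem bp_near {n : Fin d → ℕ} {ρ : ℝ} {h : 0 < ρ} {z : E d} (hz : bp n h z ≠ 0) (i : Fin d) :
    |z i - (n i + 1 / 2)| < ρ := by
  have h1 : z ∈ Metric.ball (ctr n) ρ := by
    have : z ∈ Function.support (bp n h) := hz
    rwa [bp, ContDiffBump.support_normed_eq] at this
  exact (PiLp.norm_apply_le (z - ctr n) i).trans_lt (mem_ball_iff_norm.1 h1)

theorem fl_smooth (L : ℕ) {ρ : ℝ} (h : 0 < ρ) : ContDiff ℝ (⊤ : ℕ∞) (fl d L h) :=
  ContDiff.sum fun _ _ => ContDiffBump.contDiff_normed _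

theorem fl_cpt (L : ℕ) {ρ : ℝ} (h : 0 < ρ) : HasCompactSupport (fl d L h) := by
  have : fl d L h = ∑ n ∈ cells d L, bp n h := by
    ext x
    simp [fl]
  rw [this]
  exact HasCompactSupport.finset_sum fun _ _ => ContDiffBump.hasCompactSupport_normed _

theorem fl_nonneg (L : ℕ) {ρ : ℝ} (h : 0 < ρ) (x : E d) : 0 ≤ fl d L h x :=
  Finset.sum_nonneg fun _ _ => ContDiffBump.nonneg_normed _ _

theorem half_le (k : ℤ) : (1 : ℝ) / 2 ≤ |(k : ℝ) + 1 / 2| := by
  rcases le_or_gt 0 k with h | h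
  · have : (0 : ℝ) ≤ k := by exact_mod_cast h
    exact le_abs.2 (Or.inl (by linarith))
  · have : (k : ℝ) ≤ -1 := by exact_mod_cast Int.le_sub_one_of_lt h
    exact le_abs.2 (Or.inr (by linarith))

theorem fl_l1 (hd : 1 ≤ d) (L : ℕ) {K : ℕ} (hK : 0 < K) {ρ : ℝ} (h : 0 < ρ) (h8 : ρ ≤ 1 / 8) :
    eLpNorm (fl d L h) 1 (wm (wl d K)) ≤ ENNReal.ofReal ((2 * L : ℝ) ^ d) := by
  have hc := (fl_smooth (d := d) L h).continuous
  rw [eLpNorm_one_eq_lintegral_enorm, wm, lintegral_withDensity_eq_lintegral_mul _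
    (wl_meas K).ennreal_ofReal hc.measurable.enorm]
  calc _ ≤ ∫⁻ x, ENNReal.ofReal (fl d L h x) := by
        refine lintegral_mono fun x => ?_
        rw [Pi.mul_apply, Real.enorm_eq_ofReal (fl_nonneg L h x)]
        by_cases h0 : fl d L h x = 0
        · simp [h0]
        obtain ⟨n, -, hn⟩ := Finset.exists_ne_zero_of_sum_ne_zero h0
        refine mul_le_of_le_one_left' (ENNReal.ofReal_le_one.2 (wl_eq hd hK ?_))
        have h1 := bp_near hn ⟨0, hd⟩
        have h2 := half_le (n ⟨0, hd⟩ - round (x ⟨0, hd⟩))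
        have h3 := abs_sub_le ((n ⟨0, hd⟩ : ℝ) + 1 / 2) (x ⟨0, hd⟩) (round (x ⟨0, hd⟩))
        rw [abs_sub_comm] at h1
        push_cast at h2
        rw [show (n ⟨0, hd⟩ : ℝ) - round (x ⟨0, hd⟩) + 1 / 2 =
          n ⟨0, hd⟩ + 1 / 2 - round (x ⟨0, hd⟩) by ring] at h2
        linarith
    _ = _ := by
        rw [← ofReal_integral_eq_lintegral_ofReal (hc.integrable_of_hasCompactSupport (fl_cpt L h))
          (Eventually.of_forall (fl_nonneg L h))]
        unfold fl
        rw [integral_finsetSum (f := fun n => bp n h) _ fun n _ => ContDiffBump.integrable_normed _]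
        simp [bp, ContDiffBump.integral_normed, cells]

theorem geo_le (hd : 1 ≤ d) {a r : ℝ} (ha : 0 < a) (hr : 0 < r) (N : ℕ) :
    ∑ t ∈ Finset.range N, (if r ≤ a * 2 ^ t then ((a * 2 ^ t) ^ d)⁻¹ else 0) +
      (if r ≤ a * 2 ^ N then 2 * ((a * 2 ^ N) ^ d)⁻¹ else 0) ≤ 2 * (r ^ d)⁻¹ := by
  have e : ∀ N : ℕ, (if r ≤ a * 2 ^ N then 2 * ((a * 2 ^ N) ^ d)⁻¹ else 0) ≤ 2 * (r ^ d)⁻¹ :=
    fun N => by
      split_ifs with h
      · gcongr
      · positivity
  induction N with
  | zero => simpa using e 0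
  | succ N ih =>
    rw [Finset.sum_range_succ]
    have h2 : a * 2 ^ N ≤ a * 2 ^ (N + 1) := by gcongr <;> norm_num
    by_cases h : r ≤ a * 2 ^ N
    · rw [if_pos h] at ih
      rw [if_pos h, if_pos (h.trans h2)]
      have : 2 * ((a * 2 ^ (N + 1)) ^ d)⁻¹ ≤ ((a * 2 ^ N) ^ d)⁻¹ := by
        rw [pow_succ, ← mul_assoc, mul_pow, mul_inv, mul_comm, mul_assoc]
        refine mul_le_of_le_one_right (by positivity) ?_
        rw [inv_mul_le_iff₀ (by positivity), mul_one]
        exact le_self_pow₀ one_le_two (by omega)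
      linarith
    · rw [if_neg h, Finset.sum_eq_zero, zero_add, zero_add]
      · exact e _
      · refine fun t ht => if_neg fun h' => h (h'.trans ?_)
        gcongr
        · norm_num
        · exact (Finset.mem_range.1 ht).le

/-- the lower bound for the singular integral near the lattice points -/
theorem tf_ge {i j : Fin d} {ε ρ : ℝ} (h : 0 < ρ) (h8 : ρ ≤ 1 / 8) {Ω : E d → ℝ}
    (hΩ : Measurable Ω) (hM : ∀ x, |Ω x| ≤ 1) {N : ℕ} (hρ : 64 * 16 ^ N * ρ ≤ ε)
    (hP : ∀ a b : ℤ, a ≠ 0 → |a| ≤ 2 ^ (N + 2) → |b| ≤ 2 ^ (N + 2) → ∀ u : E d,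
      |a * u j - b * u i| ≤ ε / 8 ^ N → 1 / 2 ≤ Ω u) {x : E d} (hx : x ∈ nb d (2 ^ N) ρ)
    {δ : ℝ} (hδ : 0 < δ) (hδ' : δ < 1 / 4) : N / (4 * (d : ℝ) ^ d) ≤
      ∫ y in {y : E d | δ < ‖y‖}, Ω (‖y‖⁻¹ • y) / ‖y‖ ^ d * fl d (2 ^ N) h (x - y) := by
  have hd : 1 ≤ d := Fin.pos i
  have hd0 : (0 : ℝ) < d := Nat.cast_pos.2 hd
  choose m hm hxm using fun l => mem_iUnion₂.1 (hx l)
  set box : ℕ → Finset (Fin d → ℕ) := fun t =>
    Fintype.piFinset fun l => Finset.Ico (m l) (m l + 2 ^ t) with hbox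
  set c : (Fin d → ℕ) → ℝ := fun n =>
    (∑ t ∈ Finset.range N, if n ∈ box t then (((d : ℝ) * 2 ^ t) ^ d)⁻¹ else 0) / 4 with hc
  have loc : ∀ n ∈ cells d (2 ^ N), ∀ y, bp n h (x - y) ≠ 0 →
      1 / 4 ≤ ‖y‖ ∧ c n ≤ Ω (‖y‖⁻¹ • y) / ‖y‖ ^ d := by
    intro n hn y hy
    have h1 : ∀ l, |y l - ((m l : ℝ) - n l - 1 / 2)| ≤ 2 * ρ := fun l => by
      have h2 := abs_lt.1 (bp_near hy l)
      rw [PiLp.sub_apply] at h2
      rw [abs_le]
      constructor <;> linarith [(hxm l).1, (hxm l).2]
    have h2 : ∀ l, |2 * ((m l : ℤ) - n l) - 1| ≤ 2 ^ (N + 2) := fun l => by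
      have h3 := Finset.mem_range.1 (hm l)
      have h4 := Finset.mem_range.1 (Fintype.mem_piFinset.1 hn l)
      rw [pow_add, abs_le]
      zify at h3 h4
      constructor <;> omega
    have h3 : 1 / 4 ≤ ‖y‖ := by
      have h4 := half_le ((m i : ℤ) - n i - 1)
      have h5 := abs_sub_abs_le_abs_sub ((m i : ℝ) - n i - 1 / 2) (y i)
      rw [abs_sub_comm _ (y i)] at h5
      push_cast at h4
      rw [show (m i : ℝ) - n i - 1 + 1 / 2 = m i - n i - 1 / 2 by ring] at h4
      have h6 : |y i| ≤ ‖y‖ := PiLp.norm_apply_le y i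
      linarith [h1 i]
    have h4 : 0 < ‖y‖ := by linarith
    have h5 : 1 / 2 ≤ Ω (‖y‖⁻¹ • y) := by
      refine hP _ _ (by omega) (h2 i) (h2 j) _ ?_
      have h6 : ∀ l, |((2 * ((m l : ℤ) - n l) - 1 : ℤ) : ℝ)| ≤ 2 ^ (N + 2) := fun l => by
        exact_mod_cast h2 l
      set a : ℝ := ((2 * ((m i : ℤ) - n i) - 1 : ℤ) : ℝ) with ha
      set b : ℝ := ((2 * ((m j : ℤ) - n j) - 1 : ℤ) : ℝ) with hb
      have e : a * (‖y‖⁻¹ • y) j - b * (‖y‖⁻¹ • y) i = ‖y‖⁻¹ *
          (a * (y j - ((m j : ℝ) - n j - 1 / 2)) - b * (y i - ((m i : ℝ) - n i - 1 / 2))) := by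
        simp only [PiLp.smul_apply, smul_eq_mul, ha, hb]
        push_cast
        ring
      rw [e, abs_mul, abs_inv, abs_norm]
      calc _ ≤ 4 * (2 ^ (N + 2) * (2 * ρ) + 2 ^ (N + 2) * (2 * ρ)) := by
            refine mul_le_mul (inv_le_of_inv_le₀ (by norm_num) (by linarith))
              ((abs_sub _ _).trans ?_) (abs_nonneg _) (by norm_num)
            rw [abs_mul, abs_mul]
            gcongr
            exacts [h6 i, h1 j, h6 j, h1 i]
        _ ≤ _ := by
            rw [le_div_iff₀ (by positivity)]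
            refine le_of_eq_of_le ?_ hρ
            rw [show (16 : ℝ) = 2 * 8 by norm_num, mul_pow]
            ring
    refine ⟨h3, ?_⟩
    have h6 := geo_le hd hd0 h4 N
    have h7 : (0 : ℝ) ≤ if ‖y‖ ≤ d * 2 ^ N then 2 * (((d : ℝ) * 2 ^ N) ^ d)⁻¹ else 0 := by
      split_ifs <;> positivity
    have h9 : ∑ t ∈ Finset.range N, (if n ∈ box t then (((d : ℝ) * 2 ^ t) ^ d)⁻¹ else 0) ≤
        ∑ t ∈ Finset.range N, (if ‖y‖ ≤ d * 2 ^ t then (((d : ℝ) * 2 ^ t) ^ d)⁻¹ else 0) := by
      refine Finset.sum_le_sum fun t _ => ?_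
      by_cases ht : n ∈ box t
      · rw [if_pos ht, if_pos (cube_norm_le (by positivity) fun l => ?_)]
        have h10 := Finset.mem_Ico.1 (Fintype.mem_piFinset.1 ht l)
        have h11 : (m l : ℝ) ≤ n l := by exact_mod_cast h10.1
        have h12 : (n l : ℝ) + 1 ≤ m l + 2 ^ t := by exact_mod_cast h10.2
        have h13 := abs_le.1 (h1 l)
        rw [abs_le]
        constructor <;> linarith
      · rw [if_neg ht]
        split_ifs <;> positivity
    calc c n ≤ 1 / 2 * (‖y‖ ^ d)⁻¹ := by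
          rw [hc]
          linarith
      _ ≤ _ := by
          rw [div_eq_mul_inv (Ω _)]
          gcongr
  have hS : MeasurableSet {y : E d | δ < ‖y‖} := measurableSet_lt measurable_const measurable_norm
  have hb : ∀ n, Integrable fun y => bp n h (x - y) := fun n =>
    (ContDiffBump.integrable_normed _).comp_sub_left x
  have hf : Integrable fun y => fl d (2 ^ N) h (x - y) := integrable_finsetSum _ fun n _ => hb n
  calc _ = ∑ n ∈ cells d (2 ^ N), c n := by
        rw [hc, ← Finset.sum_div, Finset.sum_comm, Finset.sum_congr rfl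
          (g := fun _ => ((d : ℝ) ^ d)⁻¹) fun t ht => ?_]
        · rw [Finset.sum_const, Finset.card_range, nsmul_eq_mul]
          field_simp
        · rw [Finset.sum_ite_mem, Finset.inter_eq_right.2 (show box t ⊆ cells d (2 ^ N) from
            Fintype.piFinset_subset _ _ fun l k hk => ?_), Finset.sum_const, hbox,
            Fintype.card_piFinset]
          · simp only [Nat.card_Ico, add_tsub_cancel_left, Finset.prod_const, Finset.card_univ,
              Fintype.card_fin, nsmul_eq_mul, mul_pow]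
            push_cast
            field_simp
          · have h1 := Finset.mem_range.1 (hm l)
            have h2 := Nat.pow_le_pow_right two_pos (Finset.mem_range.1 ht).le
            have h3 := (Finset.mem_Ico.1 hk).2
            exact Finset.mem_range.2 (by omega)
    _ = ∫ y, ∑ n ∈ cells d (2 ^ N), c n * bp n h (x - y) := by
        rw [integral_finsetSum _ fun n _ => (hb n).const_mul _]
        refine Finset.sum_congr rfl fun n _ => ?_
        rw [integral_const_mul, integral_sub_left_eq_self (bp n h), bp,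
          ContDiffBump.integral_normed, mul_one]
    _ ≤ _ := by
        rw [← integral_indicator hS]
        refine integral_mono (integrable_finsetSum _ fun n _ => (hb n).const_mul _) ?_ fun y => ?_
        · rw [integrable_indicator_iff hS]
          refine (hf.integrableOn (s := {y : E d | δ < ‖y‖})).bdd_mul (c := (δ ^ d)⁻¹)
            ((lim_meas hΩ).div (measurable_norm.pow_const d)).aestronglyMeasurable
            ((ae_restrict_iff' hS).2 (Eventually.of_forall fun y hy => ?_))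
          rw [Real.norm_eq_abs, abs_div, abs_pow, abs_norm, ← one_div (δ ^ d)]
          gcongr
          · exact hM _
          · exact le_of_lt hy
        · by_cases hy : δ < ‖y‖
          · rw [indicator_of_mem (show y ∈ {y : E d | δ < ‖y‖} from hy), fl, Finset.mul_sum]
            refine Finset.sum_le_sum fun n hn => ?_
            by_cases h0 : bp n h (x - y) = 0
            · simp [h0]
            · exact mul_le_mul_of_nonneg_right (loc n hn y h0).2 (ContDiffBump.nonneg_normed _ _)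
          · rw [indicator_of_notMem (show y ∉ {y : E d | δ < ‖y‖} from hy)]
            refine (Finset.sum_eq_zero fun n hn => ?_).le
            by_cases h0 : bp n h (x - y) = 0
            · simp [h0]
            · exact absurd (hδ'.trans_le (loc n hn y h0).1) hy

theorem weak_low (hd : 2 ≤ d) : ∃ Ω : E d → ℝ, Measurable Ω ∧ (∀ x, |Ω x| ≤ 1) ∧
    ∫ y in ann d, Ω (‖y‖⁻¹ • y) = 0 ∧ ∃ c : ℝ, 0 < c ∧ ∃ A₀ : ℝ, ∀ A, A₀ ≤ A →
      ∃ w : E d → ℝ, LocallyIntegrable w volume ∧ (∀ x, 0 < w x) ∧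
        (∀ (z : E d) (r : ℝ), 0 < r → ∀ x ∈ Metric.ball z r,
          ⨍ y in Metric.ball z r, w y ≤ A * w x) ∧
        ∃ f : E d → ℝ, ContDiff ℝ (⊤ : ℕ∞) f ∧ HasCompactSupport f ∧ ∃ Tf : E d → ℝ,
          (∀ x, Tendsto (fun ε : ℝ => ∫ y in {y : E d | ε < ‖y‖},
            Ω (‖y‖⁻¹ • y) / ‖y‖ ^ d * f (x - y)) (𝓝[>] 0) (𝓝 (Tf x))) ∧ ∃ t : ℝ, 0 < t ∧
          ENNReal.ofReal (c * A ^ 2) * eLpNorm f 1 (wm w) <
            ENNReal.ofReal t * wm w {x | t < |Tf x|} := by
  have hd1 : 1 ≤ d := by omega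
  have hd0 : (0 : ℝ) < d := Nat.cast_pos.2 hd1
  obtain ⟨ε, hε, Ω, hΩ, hM, h0, hP⟩ := arc_ex (i := (⟨0, hd1⟩ : Fin d)) (j := ⟨1, hd⟩) (by simp)
  obtain ⟨C, hC, hw⟩ := wl_a1 (d := d)
  obtain ⟨k, hk⟩ := pow_unbounded_of_one_lt (max 4 (32 / ε)) (one_lt_two (α := ℝ))
  rw [max_lt_iff] at hk
  have hk0 : 0 < k := Nat.pos_of_ne_zero fun h => by
    rw [h] at hk
    norm_num at hk
  refine ⟨Ω, hΩ, hM, h0, 1 / (16 * d ^ d * 2 ^ d * (12 * C) ^ 2), by positivity,
    6 * C * (k + 1), fun A hA => ?_⟩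
  set N := ⌊A / (6 * C)⌋₊ with hN
  have h1 : (k : ℝ) + 1 ≤ A / (6 * C) := by
    rw [le_div_iff₀ (by positivity)]
    linarith
  have hk1 : (1 : ℝ) ≤ k := by exact_mod_cast hk0
  have h2 : (N : ℝ) ≤ A / (6 * C) := Nat.floor_le (by linarith)
  have h3 : A / (6 * C) < N + 1 := Nat.lt_floor_add_one _
  have h4 : A ≤ 12 * C * N := by
    have : (1 : ℝ) ≤ N := by linarith
    rw [div_lt_iff₀ (by positivity)] at h3
    nlinarith
  have hN0 : (0 : ℝ) < N := by linarith
  have hA0 : 0 ≤ A := le_trans (by positivity) hA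
  have hρ : (0 : ℝ) < (2 ^ (4 * N + k))⁻¹ / 2 := by positivity
  have h16 : (1 : ℝ) ≤ 16 ^ N := one_le_pow₀ (by norm_num)
  have e : (2 : ℝ) ^ (4 * N + k) = 16 ^ N * 2 ^ k := by
    rw [pow_add, pow_mul]
    norm_num
  have h8 : ((2 : ℝ) ^ (4 * N + k))⁻¹ / 2 ≤ 1 / 8 := by
    have : ((2 : ℝ) ^ (4 * N + k))⁻¹ ≤ 4⁻¹ := inv_anti₀ (by norm_num) (by rw [e]; nlinarith [hk.1])
    linarith
  have h9 : 64 * 16 ^ N * (((2 : ℝ) ^ (4 * N + k))⁻¹ / 2) ≤ ε := by
    have := hk.2
    rw [div_lt_iff₀ hε] at this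
    rw [e, show 64 * 16 ^ N * (((16 : ℝ) ^ N * 2 ^ k)⁻¹ / 2) = 32 / 2 ^ k by field_simp; norm_num,
      div_le_iff₀ (by positivity)]
    linarith
  choose Tf hT using pv_exists hd1 hΩ hM h0 (fl_smooth (2 ^ N) hρ) (fl_cpt (2 ^ N) hρ)
  have hK : 0 < 4 * N + k := by omega
  refine ⟨wl d (4 * N + k + N), wl_loc _, fun x => one_pos.trans_le (wl_one (by omega) x),
    fun z r hr x hx => (hw _ z r hr x hx).trans ?_, _, fl_smooth (2 ^ N) hρ, fl_cpt (2 ^ N) hρ,
    Tf, hT, N / (8 * d ^ d), by positivity, ?_⟩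
  · refine mul_le_mul_of_nonneg_right ?_ (zero_le_one.trans (wl_one (by omega) x))
    rw [le_div_iff₀ (by positivity)] at h2
    push_cast
    nlinarith
  calc _ ≤ ENNReal.ofReal (1 / (16 * d ^ d * 2 ^ d * (12 * C) ^ 2) * A ^ 2) *
        ENNReal.ofReal ((2 * (2 ^ N : ℕ) : ℝ) ^ d) :=
        mul_le_mul_right (fl_l1 hd1 _ (by omega) hρ h8) _
    _ < ENNReal.ofReal (N / (8 * d ^ d)) * ENNReal.ofReal (N * ((2 ^ N : ℕ) : ℝ) ^ d) := by
        rw [← ENNReal.ofReal_mul (by positivity), ← ENNReal.ofReal_mul (by positivity),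
          ENNReal.ofReal_lt_ofReal_iff (by positivity)]
        calc _ ≤ 1 / (16 * d ^ d * 2 ^ d * (12 * C) ^ 2) * (12 * C * N) ^ 2 *
              (2 * (2 ^ N : ℕ) : ℝ) ^ d := by gcongr
          _ = N / (8 * d ^ d) * (N * ((2 ^ N : ℕ) : ℝ) ^ d) / 2 := by
              rw [mul_pow 2]
              field_simp
              norm_num
          _ < _ := half_lt_self (by positivity)
    _ ≤ _ := by
        refine mul_le_mul_right ((wl_mass _ _ _ hK).trans (measure_mono fun x hx => ?_)) _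
        have h5 : N / (4 * (d : ℝ) ^ d) ≤ Tf x := ge_of_tendsto (hT x) (by
          filter_upwards [Ioo_mem_nhdsGT (show (0 : ℝ) < 1 / 4 by norm_num)] with δ hδ
          exact tf_ge hρ h8 hΩ hM h9 (hP N) hx hδ.1 hδ.2)
        refine lt_of_lt_of_le ?_ (h5.trans (le_abs_self _))
        gcongr
        norm_num

end Pool.Agent.MP_418f02_an

end
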