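import Pool.Agent.Mg.F418f02a.Ge9a0aa

set_option linter.all false

section

/-! A local `L²` bound for oscillating kernels applied to spread out masses. -/

open MeasureTheory Set Metric
open scoped ENNReal

namespace Pool.Agent.MP_418f02_an

variable {d : ℕ}

theorem abs_int_le {F G : E d → ℝ} {μ : Measure (E d)} (hG : Integrable G μ)
    (h : ∀ x, |F x| ≤ G x) : |∫ x, F x ∂μ| ≤ ∫ x, G x ∂μ :=
  norm_integral_le_of_norm_le (f := F) hG (Filter.Eventually.of_forall h)

theorem conv_bdd {K H : E d → ℝ} {a : ℝ} (hH : Nice H) (ha : ∀ y, |K y| ≤ a) (x : E d) :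
    |∫ y, K (x - y) * H y| ≤ a * ∫ y, |H y| := by
  rw [← integral_const_mul]
  refine abs_int_le (hH.abs.const_mul a).integrable fun y => ?_
  rw [abs_mul]
  exact mul_le_mul_of_nonneg_right (ha _) (abs_nonneg _)

theorem conv_set {K H g : E d → ℝ} (hK : Nice K) (hH : Nice H) (hg : Nice g) {S : Set (E d)}
    (hS : MeasurableSet S) : ∫ x in S, (∫ y, K (x - y) * H y) * g x =
      ∫ y, H y * ∫ x in S, K (x - y) * g x := by
  have e : ∀ F : E d → ℝ, ∫ x in S, F x * g x = ∫ x, F x * S.indicator g x := fun F => by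
    rw [← integral_indicator hS]
    congr 1
    funext x
    by_cases hx : x ∈ S <;> simp [hx]
  simp only [e]
  exact cv_swap hK hH (hg.indicator hS)

theorem conv_one {K H : E d → ℝ} (hK : Nice K) (hH : Nice H) {S : Set (E d)}
    (hS : MeasurableSet S) (hb : Bornology.IsBounded S) :
    ∫ x in S, ∫ y, K (x - y) * H y = ∫ y, H y * ∫ x in S, K (x - y) := by
  have h := conv_set hK hH (nice_indicator hS hb 1) hS
  have e : ∀ F : E d → ℝ, ∫ x in S, F x * S.indicator (fun _ => (1 : ℝ)) x = ∫ x in S, F x :=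
    fun F => setIntegral_congr_fun hS fun x hx => by simp [hx]
  simpa only [e] using h

theorem pair_le {H F : E d → ℝ} {β : ℝ} (hH : Nice H) (h : ∀ y, H y ≠ 0 → |F y| ≤ β) :
    |∫ y, H y * F y| ≤ β * ∫ y, |H y| := by
  rw [← integral_const_mul]
  refine abs_int_le (hH.abs.const_mul β).integrable fun y => ?_
  by_cases h0 : H y = 0
  · simp [h0]
  · rw [abs_mul, mul_comm]
    exact mul_le_mul_of_nonneg_right (h y h0) (abs_nonneg _)

theorem conv_ball {K H : E d → ℝ} {β r : ℝ} (hK : Nice K) (hH : Nice H)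
    (h : ∀ z, |∫ y in ball z r, K y| ≤ β) (x : E d) :
    |∫ z in ball x r, ∫ y, K (z - y) * H y| ≤ β * ∫ y, |H y| := by
  rw [conv_one hK hH measurableSet_ball isBounded_ball]
  exact pair_le hH fun y _ => by simpa only [sub_eq_add_neg, ball_shift] using h _

theorem lm_real {q : ℤ} {S : Set (E d)} (hS : LM q S) {F G : E d → ℝ} (hF : IntegrableOn F S)
    (hG : IntegrableOn G S) (hF0 : ∀ x, 0 ≤ F x) (hG0 : ∀ x, 0 ≤ G x)
    (h : ∀ Q : Cb d, Q.1 = q → cube Q ⊆ S → ∫ x in cube Q, F x ≤ ∫ x in cube Q, G x) :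
    ∫ x in S, F x ≤ ∫ x in S, G x := by
  rw [← ENNReal.ofReal_le_ofReal_iff (integral_nonneg hG0),
    ofReal_integral_eq_lintegral_ofReal hF (Filter.Eventually.of_forall hF0),
    ofReal_integral_eq_lintegral_ofReal hG (Filter.Eventually.of_forall hG0)]
  refine hS.lintegral_le fun Q hQ hs => ?_
  rw [← ofReal_integral_eq_lintegral_ofReal (hF.mono_set hs) (Filter.Eventually.of_forall hF0),
    ← ofReal_integral_eq_lintegral_ofReal (hG.mono_set hs) (Filter.Eventually.of_forall hG0)]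
  exact ENNReal.ofReal_le_ofReal (h Q hQ hs)

theorem avg_le {F : ℕ → ℝ} {k : ℕ} {M : ℝ} (hk : 1 ≤ k) (h : ∀ i, i < k → |F i| ≤ M) :
    |(∑ i ∈ Finset.range k, F i) / k| ≤ M := by
  have h0 : (0 : ℝ) < k := Nat.cast_pos.2 hk
  rw [abs_div, abs_of_pos h0, div_le_iff₀' h0]
  refine (Finset.abs_sum_le_sum_abs _ _).trans ((Finset.sum_le_card_nsmul _ _ _
    fun i hi => h i (Finset.mem_range.1 hi)).trans_eq ?_)
  rw [Finset.card_range, nsmul_eq_mul]

/-- averages of `Φ` along segments towards `x₀` are small in the mean -/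
theorem seg_l2 (hd : 1 ≤ d) {Φ : E d → ℝ} {M R s κ₁ κ₃ : ℝ} {k : ℕ} {c : Cb d} (x₀ : E d)
    (hm : Measurable Φ) (hM : ∀ x, |Φ x| ≤ M) (hk : 1 ≤ k) (hs : 0 < s) (hR : 0 < R)
    (hκ : 0 ≤ κ₁) (h1 : ∀ (x : E d) (i : ℕ), 1 ≤ i → i < k →
      |∫ y in ball x (i * s * R), Φ y| ≤ M * κ₁ * ((i * s * R) ^ d * vb d))
    (h3 : 4 * d * (k * s * R) / 2 ^ c.1 ≤ κ₃) : ∫ y in ball x₀ R, ∫ x in cube c,
      ((∑ i ∈ Finset.range k, Φ (x + (i * s) • (x₀ - y))) / k) ^ 2 ≤
      R ^ d * vb d * M ^ 2 * sz d c.1 * (1 / k + κ₁ + κ₃) := by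
  have hM0 : 0 ≤ M := (abs_nonneg _).trans (hM 0)
  have hz := sz_pos (d := d) c.1
  have h2 := cube_two c.1
  have hv := vb_pos (d := d)
  have hk0 : (0 : ℝ) < k := Nat.cast_pos.2 hk
  have hκ₃ : 0 ≤ κ₃ := le_trans (by positivity) h3
  have hf : volume (ball x₀ R) ≠ ∞ := measure_ball_lt_top.ne
  set N := R ^ d * vb d * M ^ 2 * sz d c.1 with hN
  have hN0 : 0 ≤ N := by positivity
  have hb : ∀ u v, |Φ u * Φ v| ≤ M ^ 2 := fun u v => by
    rw [abs_mul, sq]
    exact mul_le_mul (hM _) (hM _) (abs_nonneg _) hM0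
  set F : ℕ → ℕ → E d → E d → ℝ := fun i i' y x =>
    Φ (x + (i * s) • (x₀ - y)) * Φ (x + (i' * s) • (x₀ - y)) with hF
  have mF : ∀ i i', Measurable (Function.uncurry (F i i')) := fun i i' =>
    (hm.comp (by fun_prop)).mul (hm.comp (by fun_prop))
  have iF : ∀ i i', IntegrableOn (fun y => ∫ x in cube c, F i i' y x) (ball x₀ R) := fun i i' =>
    bdd_on (par_meas (mF i i') _) (fun y => par_le (cube_fin c) fun _ _ => hb _ _) hf
  have off : ∀ i i', i < i' → i' < k →
      ∫ y in ball x₀ R, ∫ x in cube c, F i i' y x ≤ N * (κ₁ + κ₃) := fun i i' hi hi' => by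
    obtain ⟨e, rfl⟩ := Nat.exists_eq_add_of_lt hi
    set G : E d → E d → ℝ := fun y x => Φ x * Φ (x + (((e + 1 : ℕ) : ℝ) * s) • (x₀ - y)) with hG
    have mG : Measurable (Function.uncurry G) :=
      (hm.comp (by fun_prop)).mul (hm.comp (by fun_prop))
    have iG := bdd_on (par_meas mG (cube c)) (fun y => par_le (cube_fin c) fun _ _ => hb _ _) hf
    have ht : (0 : ℝ) < ((e + 1 : ℕ) : ℝ) * s := by positivity
    have p1 : ∫ y in ball x₀ R, ∫ x in cube c, G y x ≤ N * κ₁ := by
      rw [bdd_swap mG (fun _ _ => hb _ _) hf (cube_fin c)]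
      refine (le_abs_self _).trans ((par_le (M := M * (M * κ₁ * (R ^ d * vb d))) (cube_fin c)
        fun x _ => ?_).trans_eq (by rw [bdry_real, hN]; ring))
      simp only [hG]
      rw [integral_const_mul, ball_aff Φ ht, abs_mul, abs_mul,
        abs_of_pos (by positivity : 0 < ((((e + 1 : ℕ) : ℝ) * s) ^ d)⁻¹)]
      refine mul_le_mul (hM _) ?_ (by positivity) hM0
      rw [inv_mul_le_iff₀ (by positivity)]
      refine (h1 x (e + 1) (by omega) (by omega)).trans_eq ?_
      rw [mul_pow]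
      ring
    have p2 : ∫ y in ball x₀ R, ((∫ x in cube c, F i (i + e + 1) y x) - ∫ x in cube c, G y x) ≤
        κ₃ * M ^ 2 * sz d c.1 * volume.real (ball x₀ R) := by
      refine (le_abs_self _).trans (par_le hf fun y hy => ?_)
      have e1 : ∀ x, F i (i + e + 1) y x = G y (x + (i * s) • (x₀ - y)) := fun x => by
        simp only [hF, hG]
        congr 2
        push_cast
        module
      simp only [e1]
      refine (cube_shift hd mG.of_uncurry_left (fun _ => hb _ _) c _).trans ?_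
      have p3 : ‖((i : ℝ) * s) • (x₀ - y)‖ ≤ k * s * R := by
        rw [norm_smul, Real.norm_of_nonneg (by positivity)]
        have : (i : ℝ) ≤ k := by exact_mod_cast (by omega : i ≤ k)
        have := (mem_ball_iff_norm'.1 hy).le
        gcongr
      refine mul_le_mul_of_nonneg_right (mul_le_mul_of_nonneg_right (le_trans ?_ h3)
        (by positivity)) hz.le
      gcongr
    rw [integral_sub (iF _ _) iG, ball_real _ hR] at p2
    have : κ₃ * M ^ 2 * sz d c.1 * (R ^ d * vb d) = N * κ₃ := by rw [hN]; ring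
    linarith
  have all : ∀ i ∈ Finset.range k, ∀ i' ∈ Finset.range k, ∫ y in ball x₀ R,
      ∫ x in cube c, F i i' y x ≤ (if i = i' then N else 0) + N * (κ₁ + κ₃) := by
    intro i hi i' hi'
    rcases lt_trichotomy i i' with h | rfl | h
    · rw [if_neg h.ne, zero_add]
      exact off i i' h (Finset.mem_range.1 hi')
    · rw [if_pos rfl]
      refine le_add_of_le_of_nonneg ((le_abs_self _).trans ((par_le hf fun y _ =>
        par_le (cube_fin c) fun _ _ => hb _ _).trans_eq ?_)) (by positivity)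
      rw [bdry_real, ball_real _ hR, hN]
      ring
    · rw [if_neg h.ne', zero_add]
      have e : F i i' = F i' i := funext₂ fun y x => mul_comm _ _
      rw [e]
      exact off i' i h (Finset.mem_range.1 hi)
  have e : ∀ y, ∫ x in cube c, ((∑ i ∈ Finset.range k, Φ (x + (i * s) • (x₀ - y))) / k) ^ 2 =
      (∑ i ∈ Finset.range k, ∑ i' ∈ Finset.range k, ∫ x in cube c, F i i' y x) / k ^ 2 :=
    fun y => by
      have i1 := fun i i' => bdd_on ((mF i i').of_uncurry_left (x := y)) (fun _ => hb _ _)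
        (cube_fin c)
      simp only [div_pow, sq (∑ i ∈ _, _), Finset.sum_mul_sum]
      rw [integral_div, integral_finsetSum _ fun i _ => integrable_finsetSum _ fun i' _ => i1 i i']
      congr 1
      exact Finset.sum_congr rfl fun i _ => integral_finsetSum _ fun i' _ => i1 i i'
  simp only [e]
  rw [integral_div, integral_finsetSum _ fun i _ => integrable_finsetSum _ fun i' _ => iF i i',
    div_le_iff₀ (by positivity)]
  refine (Finset.sum_le_sum fun i hi => (integral_finsetSum _ fun i' _ => iF i i').trans_le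
    (Finset.sum_le_sum (all i hi))).trans (le_of_eq ?_)
  rw [Finset.sum_congr rfl fun i hi => by
    rw [Finset.sum_add_distrib, Finset.sum_ite_eq, if_pos hi]]
  simp only [Finset.sum_const, Finset.card_range, nsmul_eq_mul]
  field_simp
  ring

theorem ls_core (hd : 1 ≤ d) {K H : E d → ℝ} (hK : Nice K) (hH : Nice H)
    {a U R s κ₁ κ₂ κ₃ ε : ℝ} {k : ℕ} {c : Cb d} {x₀ : E d} {q : ℤ} {S : Set (E d)} (hS : LM q S)
    (hSR : S ⊆ ball x₀ R) (hsupp : ∀ y, y ∉ S → H y = 0)
    (hmass : ∀ Q : Cb d, Q.1 = q → ∫ x in cube Q, |H x| ≤ sz d q) (ha : ∀ y, |K y| ≤ a)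
    (hU : a * ∫ y, |H y| ≤ U) (hk : 1 ≤ k) (hs : 0 < s) (hR : 0 < R) (hκ₁ : 0 ≤ κ₁)
    (hκ₂ : 0 ≤ κ₂) (h1 : ∀ (x : E d) (i : ℕ), 1 ≤ i → i < k →
      |∫ y in ball x (i * s * R), K y| ≤ a * κ₁ * ((i * s * R) ^ d * vb d))
    (h2 : ∀ y ∈ S, ∀ y', ix q y = ix q y' → ∀ i : ℕ, i < k →
      ∫ x in cube c, |K (x - y + (i * s) • (x₀ - y')) - K (x - y)| ≤ a * κ₂ * sz d c.1)
    (h3 : 4 * d * (k * s * R) / 2 ^ c.1 ≤ κ₃) (hε : 0 < ε) (h4 : 1 / k + κ₁ + κ₃ ≤ ε ^ 2) :
    ∫ x in cube c, (∫ y, K (x - y) * H y) ^ 2 ≤ a * (∫ y, |H y|) * sz d c.1 *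
      (U * (κ₂ + κ₃) + ε * (1 + a * (R ^ d * vb d) * U) / 2) := by
  have ha0 : 0 ≤ a := (abs_nonneg _).trans (ha 0)
  have hz := sz_pos (d := d) c.1
  have h5 := cube_two c.1
  have hv := vb_pos (d := d)
  have hκ₃ : 0 ≤ κ₃ := le_trans (by positivity) h3
  set μ := ∫ y, |H y| with hμ
  have hμ0 : 0 ≤ μ := integral_nonneg fun _ => abs_nonneg _
  have hU0 : 0 ≤ U := le_trans (by positivity) hU
  set Φ : E d → ℝ := fun x => ∫ y, K (x - y) * H y with hΦ
  have hn : Nice Φ := cv_conv hK hH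
  have hM : ∀ x, |Φ x| ≤ a * μ := conv_bdd hH ha
  have hb : ∀ u v, |K u * Φ v| ≤ a * U := fun u v => by
    rw [abs_mul]
    exact mul_le_mul (ha _) ((hM _).trans hU) (abs_nonneg _) ha0
  set A : E d → E d → ℝ := fun y x => (∑ i ∈ Finset.range k, Φ (x + (i * s) • (x₀ - y))) / k
    with hA
  have mA : Measurable (Function.uncurry A) :=
    (Finset.measurable_sum _ fun i _ => hn.meas.comp (by fun_prop)).div_const _
  have bA : ∀ y x, |A y x| ≤ a * μ := fun y x => avg_le hk fun i _ => hM _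
  have bA2 : ∀ y x, |A y x ^ 2| ≤ (a * μ) ^ 2 := fun y x => by
    rw [abs_pow]
    exact pow_le_pow_left₀ (abs_nonneg _) (bA y x) 2
  set J : E d → ℝ := fun y => ∫ x in cube c, A y x ^ 2 with hJ
  have mJ : Measurable J := par_meas (F := fun y x => A y x ^ 2) (mA.pow_const 2) _
  have bJ : ∀ y, |J y| ≤ _ := fun y => par_le (cube_fin c) fun x _ => bA2 y x
  have hJ0 : ∀ y, 0 ≤ J y := fun y => integral_nonneg fun _ => sq_nonneg _
  set I : E d → ℝ := fun y => ∫ x in cube c, K (x - y) * Φ x with hI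
  have mI : Measurable I := par_meas (F := fun y x => K (x - y) * Φ x)
    ((hK.meas.comp (by fun_prop)).mul (hn.meas.comp measurable_snd)) _
  have bI : ∀ y, |I y| ≤ _ := fun y => par_le (cube_fin c) fun x _ => hb _ _
  set e := a * ε * sz d c.1 / 2 + a * U * (κ₂ + κ₃) * sz d c.1 with he
  have he0 : 0 ≤ e := by positivity
  have step1 : ∀ y ∈ S, ∀ y', ix q y = ix q y' → |I y| ≤ e + a / (2 * ε) * J y' := by
    intro y hy y' hy'
    have mK : Measurable fun x => K (x - y) := hK.meas.comp (by fun_prop)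
    have i1 : ∀ w : E d, IntegrableOn (fun x => K (x - y) * Φ (x + w)) (cube c) := fun w =>
      bdd_on (mK.mul (hn.meas.comp (by fun_prop))) (fun _ => hb _ _) (cube_fin c)
    have p1 : ∀ i : ℕ, i < k → |I y - ∫ x in cube c, K (x - y) * Φ (x + (i * s) • (x₀ - y'))| ≤
        a * U * (κ₂ + κ₃) * sz d c.1 := fun i hi => by
      set w := ((i : ℝ) * s) • (x₀ - y') with hw
      have mK' : Measurable fun x => K (x - y + w) := hK.meas.comp (by fun_prop)
      have q1 := cube_shift hd (mK.fun_mul hn.meas) (fun _ => hb _ _) c w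
      have q2 : 4 * d * ‖w‖ / 2 ^ c.1 ≤ κ₃ := by
        refine le_trans ?_ h3
        rw [hw, norm_smul, Real.norm_of_nonneg (by positivity)]
        have : (i : ℝ) ≤ k := by exact_mod_cast hi.le
        have := (mem_ball_iff_norm'.1 (hSR (hS y y' hy' hy))).le
        gcongr
      have q3 : |(∫ x in cube c, K (x + w - y) * Φ (x + w)) -
          ∫ x in cube c, K (x - y) * Φ (x + w)| ≤ U * (a * κ₂ * sz d c.1) := by
        simp only [add_sub_right_comm _ w y]
        rw [← integral_sub (bdd_on (F := fun x => K (x - y + w) * Φ (x + w))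
          (mK'.mul (hn.meas.comp (by fun_prop))) (fun _ => hb _ _) (cube_fin c)) (i1 w)]
        refine le_trans ?_ (mul_le_mul_of_nonneg_left (h2 y hy y' hy' i hi) hU0)
        rw [← integral_const_mul]
        refine abs_int_le ((bdd_on (M := a + a) (mK'.fun_sub mK).abs (fun x =>
          (abs_abs _).trans_le ((abs_sub _ _).trans (add_le_add (ha _) (ha _))))
          (cube_fin c)).const_mul U) fun x => ?_
        rw [← sub_mul, abs_mul, mul_comm]
        exact mul_le_mul_of_nonneg_right ((hM _).trans hU) (abs_nonneg _)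
      have q4 : 4 * d * ‖w‖ / 2 ^ c.1 * (a * U) * sz d c.1 ≤ κ₃ * (a * U) * sz d c.1 := by gcongr
      rw [abs_sub_comm] at q1
      linarith [abs_sub_le (I y) (∫ x in cube c, K (x + w - y) * Φ (x + w))
        (∫ x in cube c, K (x - y) * Φ (x + w))]
    have p2 : I y - ∫ x in cube c, K (x - y) * A y' x = (∑ i ∈ Finset.range k,
        (I y - ∫ x in cube c, K (x - y) * Φ (x + (i * s) • (x₀ - y')))) / k := by
      have : (k : ℝ) ≠ 0 := Nat.cast_ne_zero.2 (by omega)
      simp only [hA, ← mul_div_assoc, Finset.mul_sum]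
      rw [integral_div, integral_finsetSum _ fun i _ => i1 _, Finset.sum_sub_distrib,
        Finset.sum_const, Finset.card_range, nsmul_eq_mul, sub_div, mul_div_cancel_left₀ _ this]
    have i2 : IntegrableOn (fun x => A y' x ^ 2) (cube c) :=
      bdd_on (mA.of_uncurry_left.pow_const 2) (bA2 y') (cube_fin c)
    have i3 : IntegrableOn (fun _ : E d => a * ε / 2) (cube c) := integrableOn_const (cube_fin c)
    have p3 : |∫ x in cube c, K (x - y) * A y' x| ≤
        ∫ x in cube c, (a * ε / 2 + a / (2 * ε) * A y' x ^ 2) := by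
      refine abs_int_le (i3.add (i2.const_mul _)) fun x => ?_
      rw [abs_mul, ← sq_abs (A y' x)]
      have q1 : |A y' x| ≤ ε / 2 + 1 / (2 * ε) * |A y' x| ^ 2 := by
        rw [← sub_nonneg, show ε / 2 + 1 / (2 * ε) * |A y' x| ^ 2 - |A y' x| =
          (ε - |A y' x|) ^ 2 / (2 * ε) by field_simp; ring]
        positivity
      exact (mul_le_mul (ha _) q1 (abs_nonneg _) ha0).trans_eq (by ring)
    rw [integral_add i3 (i2.const_mul _), integral_const_mul, setIntegral_const, bdry_real,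
      smul_eq_mul] at p3
    have p4 := avg_le hk p1
    rw [← p2] at p4
    have p5 := abs_sub_abs_le_abs_sub (I y) (∫ x in cube c, K (x - y) * A y' x)
    simp only [he, hJ]
    linarith
  have hf : volume (ball x₀ R) ≠ ∞ := measure_ball_lt_top.ne
  have hfS : volume S ≠ ∞ := measure_ne_top_of_subset hSR hf
  have iHI : Integrable fun y => |H y| * |I y| := hH.abs.integrable.mul_bdd
    mI.abs.aestronglyMeasurable (Filter.Eventually.of_forall fun y => (abs_abs _).trans_le (bI y))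
  have iH := hH.abs.integrable.const_mul e
  have iJ := fun {T : Set (E d)} (hT : volume T ≠ ∞) => (bdd_on mJ bJ hT).const_mul (a / (2 * ε))
  have step2 : ∫ y in S, |H y| * |I y| ≤ ∫ y in S, (e * |H y| + a / (2 * ε) * J y) := by
    refine lm_real hS iHI.integrableOn (iH.integrableOn.add (iJ hfS)) (fun _ => by positivity)
      (fun y => by have := hJ0 y; positivity) fun Q hQ hs => ?_
    have hq := sz_pos (d := d) q
    set T := ∫ y in cube Q, a / (2 * ε) * J y with hT
    have hT0 : 0 ≤ T := integral_nonneg fun y => by have := hJ0 y; positivity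
    have p1 : ∀ y ∈ cube Q, |H y| * |I y| ≤ (e + T / sz d q) * |H y| := fun y hy => by
      rw [mul_comm]
      refine mul_le_mul_of_nonneg_right ?_ (abs_nonneg _)
      rw [← sub_le_iff_le_add', le_div_iff₀' hq, ← hQ, ← bdry_real, ← smul_eq_mul,
        ← setIntegral_const]
      exact setIntegral_mono_on (integrableOn_const (cube_fin Q)) (iJ (cube_fin Q))
        (measurableSet_cube Q) fun y' hy' => sub_le_iff_le_add'.2
          (step1 y (hs hy) y' (hQ ▸ Eq.trans hy (Eq.symm hy')))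
    refine (setIntegral_mono_on iHI.integrableOn (hH.abs.integrable.const_mul _).integrableOn
      (measurableSet_cube Q) p1).trans ?_
    rw [integral_add iH.integrableOn (iJ (cube_fin Q)), integral_const_mul, integral_const_mul,
      add_mul, ← hT]
    refine add_le_add_right ((mul_le_mul_of_nonneg_left (hmass Q hQ) (by positivity)).trans_eq ?_) _
    field_simp
  have step3 : ∫ y in S, J y ≤ R ^ d * vb d * (a * μ) ^ 2 * sz d c.1 * ε ^ 2 :=
    (setIntegral_mono_set (bdd_on mJ bJ hf) (Filter.Eventually.of_forall hJ0)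
      hSR.eventuallyLE).trans ((seg_l2 hd x₀ hn.meas hM hk hs hR hκ₁ (fun x i p1 p2 =>
        (conv_ball hK hH (fun z => h1 z i p1 p2) x).trans_eq (by ring)) h3).trans
        (mul_le_mul_of_nonneg_left h4 (by positivity)))
  rw [integral_add iH.integrableOn (iJ hfS), integral_const_mul, integral_const_mul,
    setIntegral_eq_integral_of_forall_compl_eq_zero fun y hy => by simp [hsupp y hy],
    setIntegral_eq_integral_of_forall_compl_eq_zero (f := fun y => |H y|)
      fun y hy => by simp [hsupp y hy]] at step2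
  calc _ = ∫ y, H y * I y := by
        simp only [sq]
        exact conv_set hK hH hn (measurableSet_cube c)
    _ ≤ ∫ y, |H y| * |I y| := by
        simpa only [abs_mul] using (le_abs_self _).trans
          (abs_integral_le_integral_abs (f := fun y => H y * I y))
    _ ≤ e * μ + a / (2 * ε) * (R ^ d * vb d * (a * μ * U) * sz d c.1 * ε ^ 2) := by
        refine step2.trans (add_le_add_right (mul_le_mul_of_nonneg_left (step3.trans ?_)
          (by positivity)) _)
        rw [sq (a * μ)]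
        gcongr
    _ = _ := by
        rw [he]
        field_simp
        ring

end Pool.Agent.MP_418f02_an

end

section

/-! Dyadic averages and local bounds for the pieces of the operator. -/

open MeasureTheory Set Metric
open scoped ENNReal

namespace Pool.Agent.MP_418f02_an

variable {d : ℕ}

theorem ce_at {F : E d → ℝ} {Q : Cb d} {x : E d} (hx : x ∈ cube Q) :
    ce Q.1 F x = (∫ y in cube Q, F y) / sz d Q.1 := by
  rw [ce, cb_eq_of_mem hx]

theorem ce_on {F : E d → ℝ} {M : ℝ} (hM : ∀ x, |F x| ≤ M) (l : ℤ) (c : Cb d) :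
    IntegrableOn (ce l F) (cube c) := bdd_on (ce_meas l F) (ce_le hM) (cube_fin c)

theorem ce_int {F : E d → ℝ} (hF : Nice F) {l : ℤ} {c : Cb d} (hl : l ≤ c.1) :
    ∫ x in cube c, ce l F x = ∫ x in cube c, F x := by
  obtain ⟨M, hM⟩ := hF.bdd
  have i0 : ∀ Q : Cb d, IntegrableOn (fun _ : E d => M) (cube Q) := fun Q =>
    integrableOn_const (cube_fin Q)
  have i1 := fun Q : Cb d => hF.integrable.integrableOn (s := cube Q)
  have e : ∀ Q : Cb d, Q.1 = l → ∫ x in cube Q, (ce l F x + M) = ∫ x in cube Q, (F x + M) :=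
    fun Q hQ => by
      have hz := (sz_pos (d := d) Q.1).ne'
      rw [integral_add (ce_on hM l Q) (i0 Q), integral_add (i1 Q) (i0 Q), ← hQ,
        setIntegral_congr_fun (measurableSet_cube Q) fun x hx => ce_at hx, setIntegral_const,
        bdry_real, smul_eq_mul, mul_div_cancel₀ _ hz]
  have p1 : ∀ x, 0 ≤ ce l F x + M := fun x => by linarith [(abs_le.1 (ce_le (l := l) hM x)).1]
  have p2 : ∀ x, 0 ≤ F x + M := fun x => by linarith [(abs_le.1 (hM x)).1]
  have h := le_antisymm (lm_real ((lm_cube c).mono hl) ((ce_on hM l c).add (i0 c))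
    ((i1 c).add (i0 c)) p1 p2 fun Q hQ _ => (e Q hQ).le) (lm_real ((lm_cube c).mono hl)
    ((i1 c).add (i0 c)) ((ce_on hM l c).add (i0 c)) p2 p1 fun Q hQ _ => (e Q hQ).ge)
  rw [integral_add' (ce_on hM l c) (i0 c), integral_add' (i1 c) (i0 c)] at h
  exact add_right_cancel h

theorem sq_on {F : E d → ℝ} {M : ℝ} (hF : Measurable F) (hM : ∀ x, |F x| ≤ M) (c : Cb d) :
    IntegrableOn (fun x => F x ^ 2) (cube c) :=
  bdd_on (M := M ^ 2) (hF.pow_const 2) (fun x => by
    rw [abs_pow]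
    exact pow_le_pow_left₀ (abs_nonneg _) (hM x) 2) (cube_fin c)

theorem ce_sq {F : E d → ℝ} (hF : Nice F) {l : ℤ} {c : Cb d} (hl : l ≤ c.1) :
    ∫ x in cube c, ce l F x ^ 2 ≤ ∫ x in cube c, F x ^ 2 := by
  obtain ⟨M, hM⟩ := hF.bdd
  refine lm_real ((lm_cube c).mono hl) (sq_on (ce_meas l F) (ce_le hM) c)
    hF.sq.integrable.integrableOn (fun _ => sq_nonneg _) (fun _ => sq_nonneg _) fun Q hQ _ => ?_
  have hz := sz_pos (d := d) Q.1
  set m := (∫ y in cube Q, F y) / sz d Q.1 with hm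
  have i1 := (hF.integrable.integrableOn (s := cube Q)).const_mul (2 * m)
  have i2 : IntegrableOn (fun _ : E d => m ^ 2) (cube Q) := integrableOn_const (cube_fin Q)
  have h := setIntegral_mono (i1.sub i2) hF.sq.integrable.integrableOn fun x => by
    have := sq_nonneg (F x - m)
    simp only [Pi.sub_apply]
    linarith
  rw [integral_sub' i1 i2, integral_const_mul, setIntegral_const, bdry_real,
    show ∫ y in cube Q, F y = m * sz d Q.1 by rw [hm]; field_simp, smul_eq_mul] at h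
  rw [← hQ, setIntegral_congr_fun (g := fun _ => m ^ 2) (measurableSet_cube Q) fun x hx => by
    simp only [ce_at hx, hm], setIntegral_const, bdry_real, smul_eq_mul]
  linarith

theorem ce_add {F G : E d → ℝ} (hF : Nice F) (hG : Nice G) (l : ℤ) (x : E d) :
    ce l (fun y => F y + G y) x = ce l F x + ce l G x := by
  simp only [ce]
  rw [integral_add hF.integrable.integrableOn hG.integrable.integrableOn, add_div]

theorem ce_bd {F : E d → ℝ} {l : ℤ} {x : E d} {ω : ℝ} (h : ∀ y ∈ cube (cb l x), |F y| ≤ ω) :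
    |ce l F x| ≤ ω := by
  have hz := sz_pos (d := d) l
  rw [ce, abs_div, abs_of_pos hz, div_le_iff₀ hz]
  exact (par_le (cube_fin _) h).trans_eq (by rw [bdry_real]; rfl)

theorem ce_dif {F : E d → ℝ} {l : ℤ} {x : E d} (hF : IntegrableOn F (cube (cb l x))) :
    F x - ce l F x = ce l (fun y => F x - F y) x := by
  have hz := (sz_pos (d := d) l).ne'
  have i : IntegrableOn (fun _ : E d => F x) (cube (cb l x)) := integrableOn_const (cube_fin _)
  simp only [ce]
  rw [integral_sub i hF, setIntegral_const, bdry_real, smul_eq_mul]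
  simp only [cb]
  field_simp

theorem ce_loc (hd : 1 ≤ d) {F : E d → ℝ} (hF : Nice F) (l : ℤ) {c : Cb d} {ω : ℝ}
    (h : ∀ v : E d, ‖v‖ ≤ 2 * d * 2 ^ l → ∫ x in cube c, |F (x + v) - F x| ≤ ω) :
    ∫ x in cube c, |F x - ce l F x| ≤ (2 * d) ^ d * vb d * ω := by
  obtain ⟨M, hM⟩ := hF.bdd
  have hz := sz_pos (d := d) l
  have h2 := cube_two l
  have hd0 : (0 : ℝ) < d := Nat.cast_pos.2 hd
  have hb : ∀ u v, |(|F u - F v|)| ≤ M + M := fun u v =>
    (abs_abs _).trans_le ((abs_sub _ _).trans (add_le_add (hM _) (hM _)))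
  have hf : ∀ (z : E d) (r : ℝ), volume (ball z r) ≠ ∞ := fun _ _ => measure_ball_lt_top.ne
  have hm : Measurable (Function.uncurry fun x v : E d => |F (v + x) - F x|) :=
    ((hF.meas.comp (by fun_prop)).sub (hF.meas.comp measurable_fst)).abs
  have hpt : ∀ x, |F x - ce l F x| ≤
      (sz d l)⁻¹ * ∫ v in ball (0 : E d) (2 * d * 2 ^ l), |F (v + x) - F x| := fun x => by
    rw [ce_dif hF.integrable.integrableOn, ce, abs_div, abs_of_pos hz, div_eq_inv_mul,
      ball_shift fun y => |F y - F x|, zero_add]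
    refine mul_le_mul_of_nonneg_left (abs_integral_le_integral_abs.trans ?_) (by positivity)
    simp only [abs_sub_comm (F x)]
    exact setIntegral_mono_set (bdd_on (hF.meas.sub_const _).abs (fun _ => hb _ _) (hf _ _))
      (Filter.Eventually.of_forall fun _ => abs_nonneg _)
      (cube_ball hd (mem_cube_cb l x)).eventuallyLE
  refine (setIntegral_mono (hF.integrable.integrableOn.sub (ce_on hM l c)).abs
    ((bdd_on (par_meas hm _) (fun x => par_le (hf _ _) fun _ _ => hb _ _)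
      (cube_fin c)).const_mul _) hpt).trans ?_
  rw [integral_const_mul, bdd_swap hm (fun _ _ => hb _ _) (cube_fin c) (hf _ _),
    inv_mul_le_iff₀ hz]
  refine (le_abs_self _).trans ((par_le (M := ω) (hf _ _) fun v hv => ?_).trans_eq ?_)
  · rw [abs_of_nonneg (integral_nonneg fun _ => abs_nonneg _)]
    simpa only [add_comm v] using h v (mem_ball_zero_iff.1 hv).le
  · rw [ball_real _ (by positivity), mul_pow (2 * d : ℝ), sz]
    ring

theorem conv_mod {K H : E d → ℝ} {β : ℝ} (hK : Nice K) (hH : Nice H) {c : Cb d} {v : E d}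
    (h : ∀ y, ∫ x in cube c, |K (x - y + v) - K (x - y)| ≤ β) : ∫ x in cube c,
      |(∫ y, K (x + v - y) * H y) - ∫ y, K (x - y) * H y| ≤ β * ∫ y, |H y| := by
  have hK' : Nice fun y => |K (y + v) - K y| := by simpa using ((hK.shift (-v)).sub hK).abs
  have hb := (isBounded_big c).subset (cube_subset_big c)
  have h1 := pair_le (F := fun y => ∫ x in cube c, |K (x - y + v) - K (x - y)|) hH.abs
    fun y _ => (abs_of_nonneg (integral_nonneg fun _ => abs_nonneg _)).trans_le (h y)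
  rw [← conv_one hK' hH.abs (measurableSet_cube c) hb] at h1
  simp only [abs_abs] at h1
  refine le_trans (integral_mono_of_nonneg (Filter.Eventually.of_forall fun _ => abs_nonneg _)
    (cv_conv hK' hH.abs).integrable.integrableOn (Filter.Eventually.of_forall fun x => ?_))
    ((le_abs_self _).trans h1)
  simp only
  rw [← integral_sub (cv_int hK hH _) (cv_int hK hH _)]
  refine abs_integral_le_integral_abs.trans_eq ?_
  simp only [← sub_mul, abs_mul, add_sub_right_comm x v]

variable {k : E d → ℝ} {P : Finset (Cb d)} {b : Cb d → E d → ℝ}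

theorem sum_at (hP : Atoms P b 1) {Q : Cb d} (hQ : Q ∈ P) {x : E d} (hx : x ∈ cube Q)
    {T : Finset (Cb d)} (hT : T ⊆ P) : ∑ R ∈ T, b R x = if Q ∈ T then b Q x else 0 := by
  rw [← Finset.sum_ite_eq T Q fun _ => b Q x]
  refine Finset.sum_congr rfl fun R hR => ?_
  split_ifs with h
  · rw [h]
  · exact hP.supp R (hT hR) x fun hx' => Set.disjoint_left.1 (hP.dj hQ (hT hR) h) hx hx'

theorem Bw_mono (hP : Atoms P b 1) {a e a' e' : ℤ} (h1 : a' ≤ a) (h2 : e ≤ e') (x : E d) :
    |Bw P b a e x| ≤ |Bw P b a' e' x| := by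
  by_cases h : ∃ Q ∈ P, x ∈ cube Q
  · obtain ⟨Q, hQ, hx⟩ := h
    rw [Bw, Bw, sum_at hP hQ hx (Finset.filter_subset _ _),
      sum_at hP hQ hx (Finset.filter_subset _ _)]
    split_ifs with p1 p2
    · exact le_rfl
    · simp only [Finset.mem_filter] at p1 p2
      exact absurd ⟨hQ, by omega, by omega⟩ p2
    · simp
    · exact le_rfl
  · rw [Bw, Finset.sum_eq_zero fun Q hQ => hP.supp Q (Finset.mem_filter.1 hQ).1 x
      fun hx => h ⟨Q, (Finset.mem_filter.1 hQ).1, hx⟩, abs_zero]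
    exact abs_nonneg _

/-- the atoms with level in `[a, e)` near `z` at level `j` -/
noncomputable def hl (P : Finset (Cb d)) (b : Cb d → E d → ℝ) (a e j : ℤ) (z : E d) : E d → ℝ :=
  (big (cb j z)).indicator (Bw P b a e)

theorem hl_nice (hP : Atoms P b 1) (a e j : ℤ) (z : E d) : Nice (hl P b a e j z) :=
  (hP.nice_Bw a e).indicator (measurableSet_big _)

theorem cv_hl (hk : IsKer k) (a e : ℤ) {j : ℤ} {z x : E d} (hx : x ∈ cube (cb j z)) :
    cv k j (Bw P b a e) x = cv k j (hl P b a e j z) x :=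
  cv_congr hk fun _ hy => (indicator_of_mem (big_subset_big (c := cb j z) le_rfl hx hy) _).symm

theorem hl_mass (hP : Atoms P b 1) {a e j : ℤ} {s : ℕ} (h1 : j - s ≤ a) (h2 : e ≤ j) (z : E d) :
    (((2 : ℝ) ^ (j - 2)) ^ d)⁻¹ * ∫ y, |hl P b a e j z y| ≤ run2f P b s j z := by
  have hz := sz_pos (d := d) j
  rw [cv_size, run2f, ← integral_indicator (measurableSet_big _)]
  refine mul_le_mul_of_nonneg_left (integral_mono (hl_nice hP a e j z).abs.integrable
    ((hP.nice_Bw _ _).abs.indicator (measurableSet_big _)).integrable fun y => ?_) (by positivity)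
  by_cases hy : y ∈ big (cb j z)
  · simpa only [hl, indicator_of_mem hy] using Bw_mono hP h1 h2 y
  · simp [hl, hy]

theorem hl_one (hP : Atoms P b 1) {q j : ℤ} (hq : q ≤ j) (z : E d) : ∃ T ⊆ P, (∀ Q ∈ T, Q.1 = q) ∧
    hl P b q (q + 1) j z = fun y => ∑ Q ∈ T, b Q y := by
  classical
  refine ⟨P.filter fun Q => Q.1 = q ∧ cube Q ⊆ big (cb j z), Finset.filter_subset _ _,
    fun Q hQ => (Finset.mem_filter.1 hQ).2.1, funext fun y => ?_⟩
  by_cases hy : y ∈ big (cb j z)
  · rw [hl, indicator_of_mem hy]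
    refine (Finset.sum_subset (fun Q hQ => ?_) fun Q hQ hQ' => ?_).symm
    · simp only [Finset.mem_filter] at hQ ⊢
      exact ⟨hQ.1, by omega, by omega⟩
    · simp only [Finset.mem_filter] at hQ hQ'
      exact hP.supp Q hQ.1 y fun h => hQ' ⟨hQ.1, by omega,
        (lm_big (cb j z)).cube_subset (show Q.1 ≤ j by omega) h hy⟩
  · rw [hl, indicator_of_notMem hy]
    refine (Finset.sum_eq_zero fun Q hQ => ?_).symm
    rw [Finset.mem_filter] at hQ
    exact hP.supp Q hQ.1 y fun h => hy (hQ.2.2 h)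

theorem pu_hl (hk : IsKer k) (t : ℕ) {j : ℤ} {z x : E d} (hx : x ∈ cube (cb j z)) :
    pu k P b j t x = cv k j (hl P b (j - (t + 1 : ℕ)) (j - (t + 1 : ℕ) + 1) j z) x := by
  rw [pu, cv_hl hk _ _ hx]
  congr 2
  push_cast
  ring

theorem see_loc (hd : 1 ≤ d) : ∃ C : ℝ, 0 < C ∧ ∀ k : E d → ℝ, IsKer k →
    ∀ (P : Finset (Cb d)) (b : Cb d → E d → ℝ), Atoms P b 1 → ∀ (t : ℕ) (j : ℤ) (z : E d),
    ∫ x in cube (cb j z), pu k P b j t x ^ 2 ≤
      C * (4 / 5) ^ t * run2f P b (t + 1) j z * sz d j := by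
  obtain ⟨C, hC, h⟩ := see_key hd
  refine ⟨C, hC, fun k hk P b hP t j z => ?_⟩
  have hz := sz_pos (d := d) j
  obtain ⟨T, hT, hq, e⟩ := hl_one hP (show j - (t + 1 : ℕ) ≤ j by omega) z
  have hm := hl_mass hP (s := t + 1) le_rfl (show j - (t + 1 : ℕ) + 1 ≤ j by omega) z
  have hn := hl_nice hP (j - (t + 1 : ℕ)) (j - (t + 1 : ℕ) + 1) j z
  rw [setIntegral_congr_fun (measurableSet_cube _) fun x hx =>
    congrArg (· ^ 2) (pu_hl (P := P) (b := b) hk t hx)]
  refine (setIntegral_le_integral (cv_nice hk hn j).sq.integrable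
    (Filter.Eventually.of_forall fun _ => sq_nonneg _)).trans ?_
  simp only [sq]
  rw [cv_inner hk hn hn]
  refine (le_abs_self _).trans ((pair_le (β := C * (4 / 5) ^ t) hn fun x _ => ?_).trans ?_)
  · have h1 := h k hk T b 1 zero_le_one (hP.subset hT) (t + 1) j x
    have hp := (psi_nice hk (cv_pos j) le_rfl).shift x
    rw [Finset.filter_true_of_mem fun Q hQ => by rw [hq Q hQ]; omega,
      Finset.sum_congr rfl fun Q hQ => by rw [hq Q hQ, sub_add_cancel], mul_one] at h1
    simp only [e, Finset.sum_mul]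
    rw [integral_finsetSum _ fun Q hQ => ((hP.nice Q (hT hQ)).mul hp).integrable]
    exact (Finset.abs_sum_le_sum_abs _ _).trans (h1.trans (mul_le_mul_of_nonneg_left
      (pow_le_pow_of_le_one (by norm_num) (by norm_num) (Nat.le_succ t)) hC.le))
  · rw [mul_assoc _ (run2f _ _ _ _ _)]
    refine mul_le_mul_of_nonneg_left ?_ (by positivity)
    rw [cv_size, div_mul_eq_mul_div, div_le_iff₀ hz] at hm
    exact (le_mul_of_one_le_left (integral_nonneg fun _ => abs_nonneg _)
      (one_le_pow₀ (by norm_num))).trans hm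

theorem top_le (hd : 1 ≤ d) (hk : IsKer k) (hP : Atoms P b 1) (t : ℕ) (j : ℤ) (z : E d) :
    |ce j (pu k P b j t) z| ≤ 2 * d ^ 2 * (1 / 2) ^ t * run2f P b (t + 1) j z := by
  have hz := sz_pos (d := d) j
  set q := j - (t + 1 : ℕ) with hqd
  obtain ⟨T, hT, hq, e⟩ := hl_one hP (show q ≤ j by omega) z
  have hm := hl_mass hP (s := t + 1) (a := q) le_rfl (show q + 1 ≤ j by omega) z
  have hn := hl_nice hP q (q + 1) j z
  have hK := KK_nice hk (cv_pos j)
  have ha := KK_le hk (cv_pos j)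
  set a := (((2 : ℝ) ^ (j - 2)) ^ d)⁻¹ with had
  have ha0 : 0 ≤ a := by positivity
  set Ψ : E d → ℝ := fun y => ∫ x in cube (cb j z), KK k (2 ^ (j - 2)) (x - y) with hΨ
  have mΨ : Measurable Ψ := par_meas (F := fun y x => KK k (2 ^ (j - 2)) (x - y))
    (hK.meas.comp (by fun_prop)) _
  have bΨ : ∀ y, |Ψ y| ≤ _ := fun y => par_le (cube_fin _) fun _ _ => ha _
  have i1 : ∀ {g F : E d → ℝ} {M : ℝ}, Nice g → Measurable F → (∀ y, |F y| ≤ M) →
      Integrable fun y => g y * F y := fun hg hF hb => hg.integrable.mul_bdd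
    hF.aestronglyMeasurable (Filter.Eventually.of_forall hb)
  have h0 : ∫ y, hl P b q (q + 1) j z y * ce q Ψ y = 0 := by
    simp only [e, Finset.sum_mul]
    rw [integral_finsetSum _ fun Q hQ => i1 (hP.nice Q (hT hQ)) (ce_meas _ _) (ce_le bΨ)]
    refine Finset.sum_eq_zero fun Q hQ => ?_
    have : ∀ y, b Q y * ce q Ψ y = b Q y * ((∫ y in cube Q, Ψ y) / sz d Q.1) := fun y => by
      by_cases hy : y ∈ cube Q
      · rw [← ce_at hy, hq Q hQ]
      · simp [hP.supp Q (hT hQ) y hy]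
    simp only [this]
    rw [integral_mul_const, hP.zero Q (hT hQ), zero_mul]
  rw [ce, setIntegral_congr_fun (measurableSet_cube _) fun x hx => pu_hl hk t hx, abs_div,
    abs_of_pos hz, div_le_iff₀ hz]
  unfold cv
  rw [conv_one hK hn (measurableSet_cube _) ((isBounded_big _).subset (cube_subset_big _)),
    ← sub_zero (∫ y, _), ← h0, ← integral_sub (i1 hn mΨ bΨ) (i1 hn (ce_meas _ _) (ce_le bΨ))]
  simp only [← mul_sub]
  refine (pair_le (β := 2 * d ^ 2 * (1 / 2) ^ t * a * sz d j) hn fun y _ => ?_).trans ?_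
  · rw [ce_dif (bdd_on mΨ bΨ (cube_fin _))]
    refine ce_bd fun y' hy' => ?_
    have h1 := cube_shift hd (F := fun x => KK k (2 ^ (j - 2)) (x - y')) (hK.meas.comp
      (by fun_prop)) (fun _ => ha _) (cb j z) (y' - y)
    simp only [add_sub_assoc, sub_sub_cancel_left, ← sub_eq_add_neg] at h1
    refine h1.trans (mul_le_mul_of_nonneg_right (mul_le_mul_of_nonneg_right ?_ ha0) hz.le)
    have h2 := norm_sub_le_of_cube hy' (mem_cube_cb q y)
    have h3 : (2 : ℝ) ^ q = 2 ^ j * (1 / 2) ^ t / 2 := by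
      rw [hqd, zpow_sub₀ two_ne_zero, zpow_natCast, one_div, inv_pow]
      field_simp
      ring
    have h4 := cube_two j
    simp only [cb] at h2 ⊢
    rw [div_le_iff₀ h4]
    calc _ ≤ 4 * d * (d * (2 : ℝ) ^ q) := by gcongr
      _ = _ := by rw [h3]; ring
  · calc _ = 2 * d ^ 2 * (1 / 2) ^ t * (a * ∫ y, |hl P b q (q + 1) j z y|) * sz d j := by ring
      _ ≤ _ := by gcongr

end Pool.Agent.MP_418f02_an

end

section

/-! Splitting a kernel into pieces that oscillate at one scale. -/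

open MeasureTheory Set Metric
open scoped ENNReal

namespace Pool.Agent.MP_418f02_an

variable {d : ℕ}

theorem ball_cmp {F : E d → ℝ} {M r s : ℝ} (hF : Measurable F) (hM : ∀ x, |F x| ≤ M) {z w : E d}
    (hr : 0 < r) (hs : 0 < s) (h : ball w s ⊆ ball z r) :
    |(∫ y in ball z r, F y) - ∫ y in ball w s, F y| ≤ M * ((r ^ d - s ^ d) * vb d) := by
  have hf : volume (ball z r) ≠ ∞ := measure_ball_lt_top.ne
  rw [← setIntegral_sdiff measurableSet_ball (bdd_on hF hM hf) h]
  refine (par_le (measure_ne_top_of_subset sdiff_subset hf) fun x _ => hM x).trans_eq ?_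
  rw [measureReal_sdiff h measurableSet_ball hf, ball_real _ hr, ball_real _ hs, sub_mul]

theorem pow_gap {r u : ℝ} (hr : 0 < r) (h1 : u ≤ r) :
    r ^ d - (r - u) ^ d ≤ d * (u / r) * r ^ d := by
  have h3 := one_add_mul_le_pow (a := -(u / r)) (by have := (div_le_one hr).2 h1; linarith) d
  have h4 : (r - u) ^ d = (1 + -(u / r)) ^ d * r ^ d := by
    rw [← mul_pow]
    congr 1
    field_simp
    ring
  have := mul_le_mul_of_nonneg_right h3 (pow_pos hr d).le
  rw [h4]
  linarith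

theorem ball_move (hd : 1 ≤ d) {F : E d → ℝ} {M r : ℝ} (hF : Measurable F) (hM : ∀ x, |F x| ≤ M)
    (hr : 0 < r) (z w : E d) : |(∫ y in ball (z + w) r, F y) - ∫ y in ball z r, F y| ≤
      2 * d * (‖w‖ / r) * M * (r ^ d * vb d) := by
  have hM0 : 0 ≤ M := (abs_nonneg _).trans (hM 0)
  have hv := vb_pos (d := d)
  have hd1 : (1 : ℝ) ≤ d := by exact_mod_cast hd
  rcases le_or_gt r ‖w‖ with h | h
  · have a := fun z : E d => par_le (F := F) (T := ball z r) measure_ball_lt_top.ne fun x _ => hM x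
    simp only [ball_real _ hr] at a
    have : 1 ≤ d * (‖w‖ / r) := one_le_mul_of_one_le_of_one_le hd1 ((one_le_div hr).2 h)
    have p : 0 ≤ M * (r ^ d * vb d) := by positivity
    refine (abs_sub _ _).trans ((add_le_add (a _) (a _)).trans ?_)
    nlinarith
  · have a1 := ball_cmp hF hM (z := z + w) (w := z) hr (sub_pos.2 h) (ball_subset_ball' (by simp))
    have a2 := ball_cmp hF hM (z := z) (w := z) hr (sub_pos.2 h)
      (ball_subset_ball (by linarith [norm_nonneg w]))
    have a3 := mul_le_mul_of_nonneg_left (mul_le_mul_of_nonneg_right (pow_gap (d := d) hr h.le)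
      hv.le) hM0
    rw [abs_sub_comm] at a2
    linarith [abs_sub_le (∫ y in ball (z + w) r, F y) (∫ y in ball z (r - ‖w‖), F y)
      (∫ y in ball z r, F y)]

/-- the average over balls of radius `η` -/
noncomputable def sm (K : E d → ℝ) (η : ℝ) (z : E d) : ℝ :=
  (∫ u in ball (0 : E d) η, K (u + z)) / (η ^ d * vb d)

theorem sm_eq (K : E d → ℝ) (η : ℝ) (z : E d) :
    sm K η z = (∫ u in ball z η, K u) / (η ^ d * vb d) := by
  rw [sm, ball_shift, zero_add]

/-- an approximation of the kernel `K` at scale `η` -/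
structure Ap (K F : E d → ℝ) (a ρ η l Λ ϑ : ℝ) : Prop where
  nice : Nice F
  bdd : ∀ y, |F y| ≤ a
  k1 : ∀ (t : ℕ) (z : E d) (r : ℝ) (v : E d), ρ ≤ r → ‖v‖ ≤ 8 * d * η * (6 / 7) ^ t →
    ∫ y in ball z r, |F (y + v) - F y| ≤ a * Λ * ϑ ^ t * r ^ d
  k2 : ∀ (t : ℕ) (z : E d) (r : ℝ), η ≤ r * (6 / 7) ^ t → r ≤ l * (6 / 7) ^ t →
    |(∫ y in ball z r, F y) - ∫ y in ball z r, K y| ≤ a * Λ * ϑ ^ t * (r ^ d * vb d)
  k3 : ∀ (σ : ℝ) (z : E d), 0 ≤ σ → σ ≤ 1 → |F ((1 + σ) • z) - F z| ≤ a * Λ * σ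

theorem Ap.sub {K F G : E d → ℝ} {a ρ η l Λ ϑ : ℝ} (hF : Ap K F a ρ η l Λ ϑ)
    (hG : Ap K G a ρ η l Λ ϑ) : BK (fun y => F y - G y) (2 * a) ρ η η l Λ ϑ := by
  have e : ∀ a b c e : ℝ, |a - b - (c - e)| ≤ |a - c| + |b - e| := fun a b c e => by
    rw [show a - b - (c - e) = (a - c) - (b - e) by ring]
    exact abs_sub _ _
  refine ⟨hF.nice.sub hG.nice, fun y => (abs_sub _ _).trans (by linarith [hF.bdd y, hG.bdd y]),
    fun t z r v h1 h2 => ?_, fun t z r h1 h2 => ?_, fun σ z h1 h2 =>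
      (e _ _ _ _).trans (by linarith [hF.k3 σ z h1 h2, hG.k3 σ z h1 h2])⟩
  · have i : ∀ {F : E d → ℝ}, Nice F → IntegrableOn (fun y => |F (y + v) - F y|) (ball z r) :=
      fun h => by simpa using ((h.shift (-v)).sub h).abs.integrable.integrableOn
    have := setIntegral_mono (i (hF.nice.sub hG.nice)) ((i hF.nice).add (i hG.nice))
      fun y => e _ _ _ _
    rw [integral_add' (i hF.nice) (i hG.nice)] at this
    linarith [hF.k1 t z r v h1 h2, hG.k1 t z r v h1 h2]
  · rw [integral_sub hF.nice.integrable.integrableOn hG.nice.integrable.integrableOn]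
    have := e (∫ y in ball z r, F y) (∫ y in ball z r, G y) (∫ y in ball z r, K y)
      (∫ y in ball z r, K y)
    rw [sub_self, sub_zero] at this
    linarith [hF.k2 t z r h1 h2, hG.k2 t z r h1 h2]

theorem BK.ap {K : E d → ℝ} {a ρ δ δ' l Λ Λ' ϑ : ℝ} (h : BK K a ρ δ δ' l Λ ϑ) (hρ : 0 < ρ)
    (hδ : 0 < δ) (hδ' : 0 < δ') (hΛ : 0 ≤ Λ) (h' : Λ ≤ Λ') (hϑ : 0 ≤ ϑ) :
    Ap K (fun _ => 0) a ρ δ l Λ' ϑ ∧ Ap K K a ρ δ' l Λ' ϑ := by
  have ha : 0 ≤ a := (abs_nonneg _).trans (h.bdd 0)
  have hv := vb_pos (d := d)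
  have h0 := hΛ.trans h'
  have pos : ∀ {δ r : ℝ} {t : ℕ}, 0 < δ → δ ≤ r * (6 / 7) ^ t → 0 < r := fun h1 h2 =>
    (mul_pos_iff_of_pos_right (by positivity)).1 (h1.trans_le h2)
  refine ⟨⟨nice_zero, fun _ => by simpa using ha, fun t z r v h1 _ => ?_, fun t z r h1 h2 => ?_,
    fun σ z h1 _ => by simp; positivity⟩, ⟨h.nice, h.bdd, fun t z r v h1 h2 => ?_,
      fun t z r h1 _ => ?_, fun σ z h1 h2 => (h.k3 σ z h1 h2).trans (by gcongr)⟩⟩
  · have := hρ.trans_le h1
    simp
    positivity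
  · have := pos hδ h1
    rw [integral_zero, zero_sub, abs_neg]
    exact (h.k2 t z r h1 h2).trans (by gcongr)
  · have := hρ.trans_le h1
    exact (h.k1 t z r v h1 h2).trans (by gcongr)
  · have := pos hδ' h1
    rw [sub_self, abs_zero]
    positivity

theorem BK.ap_sm (hd : 1 ≤ d) {K : E d → ℝ} {a ρ δ δ' l Λ ϑ η η' : ℝ} (h : BK K a ρ δ δ' l Λ ϑ)
    (hρ : 0 < ρ) (hη : 0 < η) (h1 : η ≤ η') (h2 : η' ≤ 2 * η) (hΛ : 0 ≤ Λ) (hϑ : 6 / 7 ≤ ϑ) :
    Ap K (sm K η') a ρ η l (Λ + 16 * d ^ 2 * (vb d + 1)) ϑ := by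
  have ha : 0 ≤ a := (abs_nonneg _).trans (h.bdd 0)
  have hv := vb_pos (d := d)
  have hη' : 0 < η' := hη.trans_le h1
  have hV : 0 < η' ^ d * vb d := by positivity
  have hd1 : (1 : ℝ) ≤ d := by exact_mod_cast hd
  have hm := h.nice.meas
  have hf : ∀ (z : E d) (r : ℝ), volume (ball z r) ≠ ∞ := fun _ _ => measure_ball_lt_top.ne
  have m : Measurable (Function.uncurry fun z u : E d => K (u + z)) := hm.comp (by fun_prop)
  have hb : ∀ y, |sm K η' y| ≤ a := fun y => by
    rw [sm, abs_div, abs_of_pos hV, div_le_iff₀ hV, ← ball_real 0 hη']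
    exact par_le (hf _ _) fun _ _ => h.bdd _
  have hp : ∀ t : ℕ, (6 / 7 : ℝ) ^ t ≤ ϑ ^ t := fun t => pow_le_pow_left₀ (by norm_num) hϑ t
  have hϑ0 : 0 < ϑ := by linarith
  refine ⟨⟨(par_meas m _).div_const _, ⟨a, hb⟩, ?_⟩, hb, fun t z r v p1 p2 => ?_,
    fun t z r p1 _ => ?_, fun σ z p1 p2 => ?_⟩
  · obtain ⟨R, hR⟩ := h.nice.supp
    refine ⟨R + η', fun x hx => ?_⟩
    rw [sm, setIntegral_eq_zero_of_forall_eq_zero fun u hu => hR _ ?_, zero_div]
    have := norm_sub_le (u + x) u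
    rw [add_sub_cancel_left] at this
    linarith [mem_ball_zero_iff.1 hu]
  · have hr := hρ.trans_le p1
    refine (le_abs_self _).trans ((par_le (M := 16 * d ^ 2 * ϑ ^ t * a) (hf _ _) fun y _ => ?_).trans
      ?_)
    · rw [abs_abs, sm_eq, sm_eq, ← sub_div, abs_div, abs_of_pos hV, div_le_iff₀ hV]
      refine (ball_move hd hm h.bdd hη' y v).trans ?_
      have : ‖v‖ / η' ≤ 8 * d * ϑ ^ t := by
        rw [div_le_iff₀ hη']
        refine p2.trans ?_
        rw [mul_right_comm]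
        gcongr
      calc _ ≤ 2 * d * (8 * d * ϑ ^ t) * a * (η' ^ d * vb d) := by gcongr
        _ = _ := by ring
    · rw [ball_real _ hr]
      have : 0 ≤ a * (Λ + 16 * d ^ 2) * ϑ ^ t * r ^ d := by positivity
      linarith
  · have hr : 0 < r := (mul_pos_iff_of_pos_right (by positivity)).1 (hη.trans_le p1)
    have p3 : |∫ u in ball (0 : E d) η', ((∫ y in ball z r, K (u + y)) - ∫ y in ball z r, K y)| ≤
        4 * d * ϑ ^ t * a * (r ^ d * vb d) * volume.real (ball (0 : E d) η') := by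
      refine par_le (hf _ _) fun u hu => ?_
      simp only [add_comm u, ball_shift]
      refine (ball_move hd hm h.bdd hr z u).trans ?_
      have : ‖u‖ / r ≤ 2 * ϑ ^ t := by
        rw [div_le_iff₀ hr]
        nlinarith [mem_ball_zero_iff.1 hu, mul_le_mul_of_nonneg_left (hp t) hr.le]
      calc _ ≤ 2 * d * (2 * ϑ ^ t) * a * (r ^ d * vb d) := by gcongr
        _ = _ := by ring
    have m' : Measurable (Function.uncurry fun u y : E d => K (u + y)) := hm.comp (by fun_prop)
    have i : IntegrableOn (fun _ : E d => ∫ y in ball z r, K y) (ball 0 η') :=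
      integrableOn_const (hf _ _)
    rw [integral_sub (bdd_on (par_meas m' _) (fun u => par_le (hf _ _) fun _ _ => h.bdd _)
      (hf _ _)) i, setIntegral_const, ball_real _ hη', smul_eq_mul,
      bdd_swap m' (fun _ _ => h.bdd _) (hf _ _) (hf _ _)] at p3
    simp only [sm]
    rw [integral_div, div_sub' hV.ne', abs_div, abs_of_pos hV, div_le_iff₀ hV]
    refine p3.trans ?_
    have : 4 * (d : ℝ) ≤ Λ + 16 * d ^ 2 * (vb d + 1) := by nlinarith
    calc _ = a * (4 * d) * ϑ ^ t * (r ^ d * vb d) * (η' ^ d * vb d) := by ring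
      _ ≤ _ := by gcongr
  · have hs : 0 < 1 + σ := by linarith
    set s := η' / (1 + σ) with hsd
    have hs0 : 0 < s := by positivity
    have e : (1 + σ) * s = η' := by rw [hsd]; field_simp
    have e1 := ball_smul K hs.ne' z s
    rw [abs_of_pos hs, e, eq_inv_mul_iff_mul_eq₀ (by positivity)] at e1
    have q1 : |(∫ y in ball z s, K ((1 + σ) • y)) - ∫ y in ball z s, K y| ≤
        a * Λ * σ * (s ^ d * vb d) := by
      rw [← integral_sub (bdd_on (F := fun y => K ((1 + σ) • y)) (hm.comp (by fun_prop))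
        (fun _ => h.bdd _) (hf _ _)) h.nice.integrable.integrableOn, ← ball_real z hs0]
      exact par_le (hf _ _) fun y _ => h.k3 σ y p1 p2
    have q2 := ball_cmp hm h.bdd (z := z) (w := z) hη' hs0
      (ball_subset_ball (div_le_self hη'.le (by linarith)))
    have q3 := par_le (F := K) (hf z s) fun y _ => h.bdd y
    have q4 : η' ^ d - s ^ d ≤ d * σ * η' ^ d := by
      have := pow_gap (d := d) hη' (u := η' - s) (by linarith)
      rw [sub_sub_cancel] at this
      refine this.trans (mul_le_mul_of_nonneg_right (mul_le_mul_of_nonneg_left ?_ (by positivity))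
        (by positivity))
      rw [div_le_iff₀ hη']
      have : s ≤ η' := div_le_self hη'.le (by linarith)
      nlinarith [mul_le_mul_of_nonneg_left this p1]
    have q5 : (1 + σ) ^ d * s ^ d = η' ^ d := by rw [← mul_pow, e]
    have q6 : 1 ≤ (1 + σ) ^ d := one_le_pow₀ (by linarith)
    rw [ball_real _ hs0] at q3
    rw [sm_eq, sm_eq, ← sub_div, abs_div, abs_of_pos hV, div_le_iff₀ hV, ← e1]
    generalize (∫ y in ball z s, K ((1 + σ) • y)) = I at *
    generalize (∫ y in ball z s, K y) = J at *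
    generalize (∫ y in ball z η', K y) = L at *
    generalize (1 + σ) ^ d = c at *
    have q7 : |c * I - L| ≤ c * |I - J| + (c - 1) * |J| + |L - J| := by
      rw [show c * I - L = c * (I - J) + (c - 1) * J - (L - J) by ring]
      refine (abs_sub _ _).trans (add_le_add_left ((abs_add_le _ _).trans_eq ?_) _)
      rw [abs_mul, abs_mul, abs_of_nonneg (by linarith : 0 ≤ c), abs_of_nonneg (sub_nonneg.2 q6)]
    have q8 := mul_le_mul_of_nonneg_left q1 (by linarith : 0 ≤ c)
    have q9 := mul_le_mul_of_nonneg_left q3 (sub_nonneg.2 q6)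
    have q10 := mul_le_mul_of_nonneg_left (mul_le_mul_of_nonneg_right q4 hv.le) ha
    have q11 : 2 * (d : ℝ) ≤ 16 * d ^ 2 * (vb d + 1) := by nlinarith
    calc _ ≤ a * Λ * σ * (c * s ^ d * vb d) + a * ((c * s ^ d - s ^ d) * vb d) +
          a * ((η' ^ d - s ^ d) * vb d) := by linarith
      _ ≤ a * (Λ + 2 * d) * σ * (η' ^ d * vb d) := by
          rw [q5]
          linarith
      _ ≤ _ := by gcongr

theorem sq_step {F G : E d → ℝ} {c : Cb d} {i B : ℝ} (hi : 0 < i) (hF : Nice F) (hG : Nice G)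
    (h1 : ∫ x in cube c, F x ^ 2 ≤ i ^ 2 * B) (h2 : ∫ x in cube c, G x ^ 2 ≤ B) :
    ∫ x in cube c, (F x + G x) ^ 2 ≤ (i + 1) ^ 2 * B := by
  have i1 := (hF.sq.integrable.integrableOn (s := cube c)).const_mul ((i + 1) / i)
  have i2 := (hG.sq.integrable.integrableOn (s := cube c)).const_mul (i + 1)
  have h := setIntegral_mono (hF.add hG).sq.integrable.integrableOn (i1.add i2) fun x => by
    simp only [Pi.add_apply]
    rw [← sub_nonneg, show (i + 1) / i * F x ^ 2 + (i + 1) * G x ^ 2 - (F x + G x) ^ 2 =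
      (F x - i * G x) ^ 2 / i by field_simp; ring]
    positivity
  rw [integral_add' i1 i2, integral_const_mul, integral_const_mul] at h
  refine h.trans ((add_le_add (mul_le_mul_of_nonneg_left h1 (by positivity))
    (mul_le_mul_of_nonneg_left h2 (by positivity))).trans_eq ?_)
  field_simp

theorem BK.split (hd : 1 ≤ d) {K H : E d → ℝ} {a δ l Λ ϑ B : ℝ} {n : ℕ} {c : Cb d}
    (h : BK K a δ δ (δ / 2 ^ n) l Λ ϑ) (hδ : 0 < δ) (hΛ : 0 ≤ Λ) (hϑ : 6 / 7 ≤ ϑ) (hH : Nice H)
    (hB : ∀ (F : E d → ℝ) (η : ℝ), 0 < η → η ≤ δ →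
      BK F (2 * a) δ η η l (Λ + 16 * d ^ 2 * (vb d + 1)) ϑ →
      ∫ x in cube c, (∫ y, F (x - y) * H y) ^ 2 ≤ B) :
    ∫ x in cube c, (∫ y, K (x - y) * H y) ^ 2 ≤ (n + 2) ^ 2 * B := by
  have hv := vb_pos (d := d)
  obtain ⟨a0, a1⟩ := h.ap (Λ' := Λ + 16 * d ^ 2 * (vb d + 1)) hδ hδ (by positivity) hΛ
    (le_add_of_nonneg_right (by positivity)) (by linarith)
  have step : ∀ (F G : E d → ℝ) (η i : ℝ), 0 < η → η ≤ δ → 0 < i →
      Ap K F a δ η l (Λ + 16 * d ^ 2 * (vb d + 1)) ϑ →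
      Ap K G a δ η l (Λ + 16 * d ^ 2 * (vb d + 1)) ϑ →
      ∫ x in cube c, (∫ y, F (x - y) * H y) ^ 2 ≤ i ^ 2 * B →
      ∫ x in cube c, (∫ y, G (x - y) * H y) ^ 2 ≤ (i + 1) ^ 2 * B := by
    intro F G η i h1 h2 hi hF hG h3
    have := sq_step hi (cv_conv hF.nice hH) (cv_conv (hG.nice.sub hF.nice) hH) h3
      (hB _ η h1 h2 (hG.sub hF))
    refine le_of_eq_of_le (setIntegral_congr_fun (measurableSet_cube c) fun x _ => ?_) this
    simp only [sub_mul]
    rw [integral_sub (cv_int hG.nice hH x) (cv_int hF.nice hH x), add_sub_cancel]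
  have hle : ∀ i : ℕ, δ / 2 ^ i ≤ δ := fun i => div_le_self hδ.le (one_le_pow₀ one_le_two)
  have key : ∀ i : ℕ, ∫ x in cube c, (∫ y, sm K (δ / 2 ^ i) (x - y) * H y) ^ 2 ≤
      (i + 1) ^ 2 * B := by
    intro i
    induction i with
    | zero =>
      simpa using hB _ δ hδ le_rfl ((h.ap_sm hd hδ hδ le_rfl (by linarith) hΛ hϑ).sub a0)
    | succ i ih =>
      have p : 0 < δ / 2 ^ (i + 1) := by positivity
      have e : δ / 2 ^ i = 2 * (δ / 2 ^ (i + 1)) := by field_simp; ring
      push_cast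
      exact step _ _ _ _ p (hle _) (by positivity) (h.ap_sm hd hδ p (by linarith) e.le hΛ hϑ)
        (h.ap_sm hd hδ p le_rfl (by linarith) hΛ hϑ) ih
  have p : 0 < δ / 2 ^ n := by positivity
  have := step _ _ _ _ p (hle _) (by positivity) (h.ap_sm hd hδ p le_rfl (by linarith) hΛ hϑ) a1
    (key n)
  rwa [add_assoc, one_add_one_eq_two] at this

end Pool.Agent.MP_418f02_an

end
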