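import Pool.Agent.Mg.F418f02a.G1f92f1

set_option linter.all false

section

/-! John-Nirenberg inequalities with several delays. -/

open MeasureTheory Set
open scoped ENNReal

namespace Pool.Agent.MP_418f02_an

variable {d : ℕ}

/-- the number of levels at which a point meets one of the exceptional sets -/
noncomputable def cnt (V : ℤ → ℕ → Set (E d)) (T : ℕ) (a e : ℤ) : E d → ℝ :=
  ps (fun j => (⋃ t ∈ Finset.range T, V j t).indicator fun _ => (1 : ℝ)) a e

theorem cnt_nonneg (V : ℤ → ℕ → Set (E d)) (T : ℕ) (a e : ℤ) (x : E d) : 0 ≤ cnt V T a e x := by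
  unfold cnt ps
  exact Finset.sum_nonneg fun _ _ => indicator_nonneg (fun _ _ => zero_le_one) _

theorem cnt_meas {V : ℤ → ℕ → Set (E d)} (hV : ∀ j t, MeasurableSet (V j t)) (T : ℕ) (a e : ℤ) :
    Measurable (cnt V T a e) := by
  unfold cnt ps
  exact Finset.measurable_sum _ fun j _ => measurable_const.indicator
    (Finset.measurableSet_biUnion _ fun t _ => hV j t)

theorem cnt_point (V : ℤ → ℕ → Set (E d)) (T : ℕ) (n : ℕ → ℕ) {l : ℝ}
    (hl : 0 ≤ l) (a e : ℤ) (x : E d) :
    ENNReal.ofReal (Real.exp (l * cnt V T a e x)) ≤ 1 + ∑ j ∈ Finset.Icc a e,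
      ∑ t ∈ Finset.range T, (V j t).indicator (fun x => ENNReal.ofReal (Real.exp (l * n t)) *
        ENNReal.ofReal (Real.exp (l * cnt V T a (j - n t) x))) x := by
  classical
  by_cases h : ((Finset.Icc a e).filter fun j => x ∈ ⋃ t ∈ Finset.range T, V j t).Nonempty
  · obtain ⟨j, hj, hmax⟩ := Finset.exists_max_image _ id h
    rw [Finset.mem_filter] at hj
    obtain ⟨t, ht, hx⟩ := mem_iUnion₂.1 hj.2
    obtain ⟨hj1, hj2⟩ := Finset.mem_Icc.1 hj.1
    have h1 := jn_ps_split (fun j => (⋃ t ∈ Finset.range T, V j t).indicator fun _ => (1 : ℝ))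
      (a := a) (r := j - n t) (c := e) (L := n t) (by omega) (by omega) x zero_le_one
      fun i _ _ => by
        by_cases hi : x ∈ ⋃ t ∈ Finset.range T, V i t
        · simp only [indicator_of_mem hi, abs_one, le_refl]
        · simp only [indicator_of_notMem hi, abs_zero, zero_le_one]
    have h2 : ps (fun j => (⋃ t ∈ Finset.range T, V j t).indicator fun _ => (1 : ℝ))
        (j - n t + n t + 1) e x = 0 := Finset.sum_eq_zero fun i hi => by
      refine indicator_of_notMem (fun hx' => ?_) _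
      have h3 := Finset.mem_Icc.1 hi
      have := hmax i (Finset.mem_filter.2 ⟨Finset.mem_Icc.2 ⟨by omega, h3.2⟩, hx'⟩)
      simp only [id] at this
      omega
    rw [h2, abs_zero, add_zero, one_mul] at h1
    have h3 : cnt V T a e x ≤ n t + cnt V T a (j - n t) x := by
      have := cnt_nonneg V T a (j - n t) x
      unfold cnt at this ⊢
      rw [abs_of_nonneg this] at h1
      linarith [le_abs_self (ps (fun j => (⋃ t ∈ Finset.range T, V j t).indicator
        fun _ => (1 : ℝ)) a e x)]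
    refine le_add_left (le_trans ?_ (Finset.single_le_sum (f := fun j => ∑ t ∈ Finset.range T,
      (V j t).indicator (fun x => ENNReal.ofReal (Real.exp (l * n t)) *
        ENNReal.ofReal (Real.exp (l * cnt V T a (j - n t) x))) x) (fun _ _ => bot_le) hj.1))
    refine le_trans ?_ (Finset.single_le_sum (f := fun t =>
      (V j t).indicator (fun x => ENNReal.ofReal (Real.exp (l * n t)) *
        ENNReal.ofReal (Real.exp (l * cnt V T a (j - n t) x))) x) (fun _ _ => bot_le) ht)
    simp only [indicator_of_mem hx]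
    rw [← ENNReal.ofReal_mul (Real.exp_pos _).le, ← Real.exp_add, ← mul_add]
    exact ENNReal.ofReal_le_ofReal (Real.exp_le_exp.2 (mul_le_mul_of_nonneg_left h3 hl))
  · have h2 : cnt V T a e x = 0 := Finset.sum_eq_zero fun i hi =>
      indicator_of_notMem (fun hx' => h ⟨i, Finset.mem_filter.2 ⟨hi, hx'⟩⟩) _
    rw [h2]
    simp

theorem cnt_exp {V : ℤ → ℕ → Set (E d)} {T : ℕ} {n : ℕ → ℕ} (hn : ∀ t, 1 ≤ n t)
    (hV : ∀ j t, LM (j - n t) (V j t)) {l : ℝ} (hl : 0 ≤ l) {a : ℤ} {η : ℕ → ℝ}
    (hη : ∀ t, 0 ≤ η t) (hs : ∑ t ∈ Finset.range T, Real.exp (l * n t) * η t ≤ 1 / 2)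
    (h : ∀ (t : ℕ) (c : Cb d), ∑ j ∈ Finset.Icc a c.1, volume (V j t ∩ cube c) ≤
      ENNReal.ofReal (η t * sz d c.1)) (c : Cb d) :
    ∫⁻ x in cube c, ENNReal.ofReal (Real.exp (l * cnt V T a c.1 x)) ≤
      ENNReal.ofReal (2 * sz d c.1) := by
  have hm : ∀ e, Measurable fun x => ENNReal.ofReal (Real.exp (l * cnt V T a e x)) := fun e =>
    ((cnt_meas (fun j t => (hV j t).meas) T a e).const_mul l).exp.ennreal_ofReal
  have key : ∀ (N : ℕ) (c : Cb d), c.1 < a + N →
      ∫⁻ x in cube c, ENNReal.ofReal (Real.exp (l * cnt V T a c.1 x)) ≤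
        ENNReal.ofReal (2 * sz d c.1) := by
    intro N
    induction N with
    | zero =>
      intro c hc
      have hz := sz_pos (d := d) c.1
      have e : ∀ x, cnt V T a c.1 x = 0 := fun x => jn_ps_zero _ (by simpa using hc) x
      simp only [e, mul_zero, Real.exp_zero]
      rw [lint_const c zero_le_one]
      exact ENNReal.ofReal_le_ofReal (by linarith)
    | succ N ih =>
      intro c hc
      have hz := sz_pos (d := d) c.1
      have hone : ∀ j ∈ Finset.Icc a c.1, ∀ t ∈ Finset.range T, ∫⁻ x in cube c,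
          (V j t).indicator (fun x => ENNReal.ofReal (Real.exp (l * n t)) *
            ENNReal.ofReal (Real.exp (l * cnt V T a (j - n t) x))) x ≤
          ENNReal.ofReal (Real.exp (l * n t)) * (2 * volume (V j t ∩ cube c)) := fun j hj t _ => by
        have hj2 := (Finset.mem_Icc.1 hj).2
        have := hn t
        have hlm : LM (j - n t) (V j t ∩ cube c) := fun x y e hx =>
          ⟨hV j t x y e hx.1, (lm_cube c).mono (by omega) x y e hx.2⟩
        rw [lintegral_indicator (hV j t).meas, Measure.restrict_restrict (hV j t).meas,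
          lintegral_const_mul _ (hm _), ← setLIntegral_const]
        refine mul_le_mul_right (hlm.lintegral_le fun R hR _ => ?_) _
        have h1 := ih R (by push_cast at hc; omega)
        rw [hR] at h1
        rw [setLIntegral_const, volume_cube, hR]
        rwa [ENNReal.ofReal_mul zero_le_two, ENNReal.ofReal_ofNat] at h1
      have hme : ∀ j t, Measurable ((V j t).indicator fun x => ENNReal.ofReal (Real.exp (l * n t)) *
          ENNReal.ofReal (Real.exp (l * cnt V T a (j - n t) x))) := fun j t =>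
        ((hm _).const_mul _).indicator (hV j t).meas
      refine (lintegral_mono fun x => cnt_point V T n hl a c.1 x).trans ?_
      rw [lintegral_add_left measurable_const, lintegral_finsetSum _ fun j _ =>
        Finset.measurable_sum _ fun t _ => hme j t, setLIntegral_const, one_mul, volume_cube]
      simp only [lintegral_finsetSum _ fun t _ => hme _ t]
      refine (add_le_add_right (Finset.sum_le_sum fun j hj => Finset.sum_le_sum (hone j hj)) _).trans ?_
      rw [Finset.sum_comm]
      simp only [← Finset.mul_sum]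
      have h2 : ∑ t ∈ Finset.range T, ENNReal.ofReal (Real.exp (l * n t)) *
          (2 * ∑ j ∈ Finset.Icc a c.1, volume (V j t ∩ cube c)) ≤ ENNReal.ofReal
          (∑ t ∈ Finset.range T, Real.exp (l * n t) * η t * (2 * sz d c.1)) := by
        rw [ENNReal.ofReal_sum_of_nonneg fun t _ => by have := hη t; positivity]
        refine Finset.sum_le_sum fun t _ => (mul_le_mul_right (mul_le_mul_right (h t c) _) _).trans
          (le_of_eq ?_)
        rw [← ENNReal.ofReal_ofNat 2, ← ENNReal.ofReal_mul zero_le_two,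
          ← ENNReal.ofReal_mul (Real.exp_pos _).le]
        congr 1
        ring
      refine (add_le_add_right h2 _).trans ?_
      rw [← Finset.sum_mul, ← ENNReal.ofReal_add hz.le (mul_nonneg (Finset.sum_nonneg fun t _ =>
        mul_nonneg (Real.exp_pos _).le (hη t)) (by positivity))]
      refine ENNReal.ofReal_le_ofReal ?_
      nlinarith
  exact key (c.1 + 1 - a).toNat c (by omega)

theorem mom_of_exp {Y : E d → ℝ} {c : Cb d} {l m : ℝ} (hl : 0 < l) (hm : 1 ≤ m)
    (h0 : ∀ x, 0 ≤ Y x) (h : ∫⁻ x in cube c, ENNReal.ofReal (Real.exp (l * Y x)) ≤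
      ENNReal.ofReal (2 * sz d c.1)) : Mom Y c m (2 * (m / l)) := by
  have hm0 : 0 < m := by linarith
  have hz := sz_pos (d := d) c.1
  have hpt : ∀ x, ENNReal.ofReal |Y x| ^ m ≤
      ENNReal.ofReal ((m / l) ^ m) * ENNReal.ofReal (Real.exp (l * Y x)) := fun x => by
    rw [abs_of_nonneg (h0 x), ENNReal.ofReal_rpow_of_nonneg (h0 x) hm0.le,
      ← ENNReal.ofReal_mul (by positivity)]
    refine ENNReal.ofReal_le_ofReal ?_
    have h1 : Y x ≤ m / l * Real.exp (l * Y x / m) := by
      have := Real.add_one_le_exp (l * Y x / m)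
      calc Y x = m / l * (l * Y x / m) := by field_simp
        _ ≤ _ := mul_le_mul_of_nonneg_left (by linarith) (by positivity)
    refine (Real.rpow_le_rpow (h0 x) h1 hm0.le).trans (le_of_eq ?_)
    rw [Real.mul_rpow (by positivity) (Real.exp_pos _).le, ← Real.exp_mul,
      div_mul_cancel₀ _ hm0.ne']
  unfold Mom
  refine (lintegral_mono hpt).trans ?_
  rw [lintegral_const_mul' _ _ ENNReal.ofReal_ne_top]
  refine (mul_le_mul_right h _).trans ?_
  rw [← ENNReal.ofReal_mul (by positivity), Real.mul_rpow zero_le_two (by positivity)]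
  refine ENNReal.ofReal_le_ofReal ?_
  have h2 : (2 : ℝ) ≤ 2 ^ m := Real.self_le_rpow_of_one_le one_le_two hm
  calc _ = 2 * (m / l) ^ m * sz d c.1 := by ring
    _ ≤ _ := by gcongr

/-- delayed functions that live on one residue class of levels -/
theorem class_mom {φ : ℤ → E d → ℝ} {L : ℕ} (hL : 1 ≤ L) {r a : ℤ} {τ ε m : ℝ} (hτ : 0 ≤ τ)
    (hε : 0 < ε) (hm : 1 ≤ m) (hc : ∀ j x y, ix (j - L) x = ix (j - L) y → φ j x = φ j y)
    (hr : ∀ j x, φ j x ≠ 0 → (L : ℤ) ∣ j - r) (hb : ∀ j x, |φ j x| ≤ τ)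
    (h : ∀ G : ℤ → Set (E d), Stop G → ∀ c : Cb d, ∫⁻ x in cube c,
      ENNReal.ofReal |ps (fun j => (G j).indicator (φ j)) a c.1 x| ≤
        ENNReal.ofReal (ε * sz d c.1)) {G : ℤ → Set (E d)} (hG : Stop G) (W : Cb d) :
    Mom (ps (fun j => (G j).indicator (φ j)) a W.1) W m (24 * (3 * ε + τ * L) * m) := by
  set ψ : ℤ → E d → ℝ := fun j => (G j).indicator (φ j) with hψ
  have hψc : ∀ j x y, ix (j - L) x = ix (j - L) y → ψ j x = ψ j y := fun j x y e => by
    have e' : ix j x = ix j y := ix_mono (by omega) e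
    by_cases hx : x ∈ G j
    · simp only [hψ, indicator_of_mem hx, indicator_of_mem (hG.lm j x y e' hx), hc j x y e]
    · simp only [hψ, indicator_of_notMem hx,
        indicator_of_notMem fun hy => hx (hG.lm j y x e'.symm hy)]
  have hψr : ∀ j x, ψ j x ≠ 0 → (L : ℤ) ∣ j - r := fun j x hx => hr j x fun h0 => hx (by
    simp only [hψ, indicator_apply_eq_zero]
    exact fun _ => h0)
  have step : OneStep ψ a L (3 * ε) (Real.exp (-1)) W := by
    intro c _ _ F hF
    have hz := sz_pos (d := d) c.1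
    set G' : ℤ → Set (E d) := fun j => {x | ∀ R ∈ F, j ≤ R.1 → x ∉ cube R} ∩ G j with hG'
    have hst : Stop G' := ⟨fun j x y e hx => ⟨fun R hR hj hy => hx.1 R hR hj
      ((lm_cube R).mono hj y x e.symm hy), hG.lm j x y e hx.2⟩,
      fun i j hij x hx => ⟨fun R hR hj => hx.1 R hR (hij.trans hj), hG.mono i j hij hx.2⟩⟩
    have hU : (⋃ R ∈ F, cube R) ⊆ cube c := iUnion₂_subset fun R hR => hF.sub R hR
    have hUm : MeasurableSet (⋃ R ∈ F, cube R) :=
      Finset.measurableSet_biUnion F fun R _ => measurableSet_cube R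
    have h1 : ∀ x ∈ ⋃ R ∈ F, cube R,
        3 * ε ≤ |ps (fun j => (G' j).indicator (φ j)) a c.1 x| := by
      intro x hx
      obtain ⟨R, hR, hxR⟩ := mem_iUnion₂.mp hx
      obtain ⟨y, hy, hyA⟩ := nonempty_of_measure_ne_zero (hF.pos R hR).ne'
      obtain ⟨z, -, hz'⟩ := hF.ne R hR
      have hdv := hψr _ _ hz'
      have h2 : ps ψ (R.1 + L) c.1 y = ps (fun j => (G' j).indicator (φ j)) a c.1 x := by
        unfold ps
        rw [← Finset.sum_subset (Finset.Icc_subset_Icc_left (hF.low R hR)) fun j hj hj' => ?_]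
        · refine Finset.sum_congr rfl fun j hj => ?_
          have h3 := (Finset.mem_Icc.mp hj).1
          rw [hψc j y x (ix_mono (by omega) (Eq.trans hy (Eq.symm hxR))), hG', hψ]
          simp only [← indicator_indicator]
          refine (indicator_of_mem (s := {x | ∀ R ∈ F, j ≤ R.1 → x ∉ cube R}) ?_ _).symm
          intro R' hR' hj' hx'
          have hne : R ≠ R' := fun e => by
            rw [← e] at hj'
            omega
          exact Set.disjoint_left.1 (hF.dj hR hR' hne) hxR hx'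
        · have h3 := Finset.mem_Icc.1 hj
          rw [Finset.mem_Icc] at hj'
          by_cases hjR : j ≤ R.1
          · exact indicator_of_notMem (fun hx' => hx'.1 R hR hjR hxR) _
          · rw [indicator_apply_eq_zero]
            intro _
            by_contra h0
            have h4 := dvd_sub hdv (hr j x h0)
            have h5 := Int.le_of_dvd (by omega) h4
            omega
      rw [← h2]
      exact hyA.le
    have h6 : ENNReal.ofReal (3 * ε * ∑ R ∈ F, sz d R.1) ≤ ENNReal.ofReal (ε * sz d c.1) := by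
      rw [ENNReal.ofReal_mul (by positivity), hF.dj.sum_sz, ← setLIntegral_const]
      refine le_trans ?_ (h G' hst c)
      refine le_trans ?_ (lintegral_mono_set hU)
      exact setLIntegral_mono' hUm fun x hx => ENNReal.ofReal_le_ofReal (h1 x hx)
    rw [ENNReal.ofReal_le_ofReal_iff (by positivity)] at h6
    have h7 : (1 : ℝ) / 3 ≤ Real.exp (-1) := by
      rw [Real.exp_neg, one_div]
      exact inv_anti₀ (Real.exp_pos 1) (by linarith [Real.exp_one_lt_d9])
    have h8 : ∑ R ∈ F, sz d R.1 ≤ 1 / 3 * sz d c.1 :=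
      le_of_mul_le_mul_left (h6.trans_eq (by ring)) (show 0 < 3 * ε by positivity)
    exact h8.trans (mul_le_mul_of_nonneg_right h7 hz.le)
  have h1 := jn_mom (C₀ := τ) (m := m) hL (by positivity) le_rfl hτ hm (fun j _ _ x _ => by
    by_cases hx : x ∈ G j
    · simp only [hψ, indicator_of_mem hx, hb]
    · simp only [hψ, indicator_of_notMem hx, abs_zero, hτ]) step
    (Y := ps ψ a W.1) fun x _ => ⟨a, le_rfl, le_rfl⟩
  refine h1.mono (by linarith) (by positivity) ?_ fun x _ => le_rfl
  have : 0 ≤ 12 * (3 * ε + τ * L) := by positivity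
  nlinarith

end Pool.Agent.MP_418f02_an

end

section

/-! Dyadic averages of the pieces of a kernel with an integral modulus of continuity. -/

open MeasureTheory Set
open scoped ENNReal

namespace Pool.Agent.MP_418f02_an

variable {d : ℕ}

/-- average over the dyadic cube of level `l` -/
noncomputable def ce (l : ℤ) (F : E d → ℝ) (x : E d) : ℝ := (∫ y in cube (cb l x), F y) / sz d l

theorem ce_congr {l : ℤ} (F : E d → ℝ) {x y : E d} (e : ix l x = ix l y) :
    ce l F x = ce l F y := by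
  simp only [ce, cb, e]

theorem ce_meas (l : ℤ) (F : E d → ℝ) : Measurable (ce l F) :=
  measurable_of_ix fun _ _ e => ce_congr F e

theorem ce_le {l : ℤ} {F : E d → ℝ} {C : ℝ} (h : ∀ y, |F y| ≤ C) (x : E d) :
    |ce l F x| ≤ C := by
  have hz := sz_pos (d := d) l
  rw [ce, abs_div, abs_of_pos hz, div_le_iff₀ hz]
  have := norm_setIntegral_le_of_norm_le_const (μ := volume) (s := cube (cb l x)) (f := F) (C := C)
    (by rw [volume_cube]; simp) fun y _ => h y
  rwa [bdry_real] at this

theorem ce_local {l : ℤ} {F F' : E d → ℝ} {c : Cb d} (hl : l ≤ c.1) (h : ∀ y ∈ cube c, F y = F' y)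
    {x : E d} (hx : x ∈ cube c) : ce l F x = ce l F' x := by
  unfold ce
  rw [setIntegral_congr_fun (measurableSet_cube _) fun y hy =>
    h y ((lm_cube c).cube_subset (c := cb l x) hl (mem_cube_cb l x) hx hy)]

theorem ce_err {F : E d → ℝ} (hF : Nice F) (l : ℤ) {ω : ℝ≥0∞}
    (h : ∀ v : E d, ‖v‖ ≤ d * 2 ^ l → ∫⁻ x, ENNReal.ofReal |F (x + v) - F x| ≤ ω) :
    ∫⁻ x, ENNReal.ofReal |F x - ce l F x| ≤ 2 ^ d * ω := by
  have hz := sz_pos (d := d) l
  have h2 := cube_two l
  set B : Set (E d) := {v | ∀ i, v i ∈ Icc (-(2 : ℝ) ^ l) (2 ^ l)} with hB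
  have hBm : MeasurableSet B := by
    have : B = ⋂ i, {v : E d | v i ∈ Icc (-(2 : ℝ) ^ l) (2 ^ l)} := by
      ext v
      simp [hB]
    rw [this]
    exact MeasurableSet.iInter fun i => measurableSet_Icc.preimage (by fun_prop)
  have hBv : volume B = 2 ^ d * ENNReal.ofReal (sz d l) := by
    rw [hB, cube_vol_Icc, Finset.prod_const, Finset.card_univ, Fintype.card_fin, sz,
      ENNReal.ofReal_pow h2.le, ← mul_pow, sub_neg_eq_add, ← two_mul,
      ENNReal.ofReal_mul zero_le_two, ENNReal.ofReal_ofNat]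
  have hm : Measurable (Function.uncurry fun (x v : E d) => ENNReal.ofReal |F (x + v) - F x|) :=
    ((hF.meas.comp (measurable_fst.add measurable_snd)).sub
      (hF.meas.comp measurable_fst)).abs.ennreal_ofReal
  have hpt : ∀ x, ENNReal.ofReal |F x - ce l F x| ≤ (ENNReal.ofReal (sz d l))⁻¹ *
      ∫⁻ v in B, ENNReal.ofReal |F (x + v) - F x| := fun x => by
    have e1 : F x - ce l F x = (∫ y in cube (cb l x), (F x - F y)) / sz d l := by
      have hc : IntegrableOn (fun _ : E d => F x) (cube (cb l x)) :=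
        integrableOn_const (by rw [volume_cube]; simp)
      rw [integral_sub hc hF.integrable.integrableOn, setIntegral_const, bdry_real, ce, smul_eq_mul]
      simp only [cb]
      field_simp
    rw [e1, abs_div, abs_of_pos hz, ENNReal.ofReal_div_of_pos hz, ENNReal.div_eq_inv_mul]
    refine mul_le_mul_right ?_ _
    have e2 : ∫⁻ v in B, ENNReal.ofReal |F (x + v) - F x| =
        ∫⁻ y, B.indicator (fun v => ENNReal.ofReal |F (x + v) - F x|) (y - x) := by
      rw [lintegral_sub_right_eq_self, lintegral_indicator hBm]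
    rw [e2, ← Real.enorm_eq_ofReal_abs]
    refine (enorm_integral_le_lintegral_enorm _).trans ?_
    rw [← lintegral_indicator (measurableSet_cube _)]
    refine lintegral_mono fun y => ?_
    by_cases hy : y ∈ cube (cb l x)
    · have hyB : y - x ∈ B := fun i => by
        have a := cube_mem.1 hy i
        have b := cube_mem.1 (mem_cube_cb l x) i
        simp only [cb, mem_Ico, PiLp.sub_apply, mem_Icc] at a b ⊢
        constructor <;> nlinarith [a.1, a.2, b.1, b.2]
      rw [indicator_of_mem hy, indicator_of_mem hyB, add_sub_cancel, Real.enorm_eq_ofReal_abs,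
        abs_sub_comm]
    · rw [indicator_of_notMem hy]
      exact bot_le
  have hz' : ENNReal.ofReal (sz d l) ≠ 0 := by simpa using hz
  refine (lintegral_mono hpt).trans ?_
  rw [lintegral_const_mul' _ _ (ENNReal.inv_ne_top.2 hz'),
    lintegral_lintegral_swap hm.aemeasurable]
  refine (mul_le_mul_right (setLIntegral_mono' hBm (g := fun _ => ω) fun v hv =>
    h v (cube_norm_le h2.le fun i => abs_le.2 (hv i))) _).trans (le_of_eq ?_)
  rw [setLIntegral_const, hBv, mul_comm ω, mul_comm (2 ^ d), mul_assoc, ← mul_assoc,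
    ENNReal.inv_mul_cancel hz' ENNReal.ofReal_ne_top, one_mul]

theorem conv_l1 {K H : E d → ℝ} (hK : Nice K) (hH : Nice H) :
    ∫⁻ x, ENNReal.ofReal |∫ y, K (x - y) * H y| ≤
      ENNReal.ofReal ((∫ y, |K y|) * ∫ y, |H y|) := by
  have hm : Measurable (Function.uncurry fun (x y : E d) =>
      ENNReal.ofReal |K (x - y)| * ENNReal.ofReal |H y|) :=
    (hK.meas.comp (measurable_fst.sub measurable_snd)).abs.ennreal_ofReal.mul
      (hH.meas.comp measurable_snd).abs.ennreal_ofReal
  have e : ∀ g : E d → ℝ, Nice g → ENNReal.ofReal (∫ y, |g y|) = ∫⁻ y, ENNReal.ofReal |g y| :=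
    fun g hg => by simpa using run2_abs hg univ
  calc _ ≤ ∫⁻ x, ∫⁻ y, ENNReal.ofReal |K (x - y)| * ENNReal.ofReal |H y| := by
        refine lintegral_mono fun x => ?_
        simp only [← Real.enorm_eq_ofReal_abs, ← enorm_mul]
        exact enorm_integral_le_lintegral_enorm _
    _ = ∫⁻ y, (∫⁻ x, ENNReal.ofReal |K x|) * ENNReal.ofReal |H y| := by
        rw [lintegral_lintegral_swap hm.aemeasurable]
        refine lintegral_congr fun y => ?_
        rw [lintegral_mul_const' _ _ ENNReal.ofReal_ne_top,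
          lintegral_sub_right_eq_self (fun x => ENNReal.ofReal |K x|) y]
    _ = _ := by
        rw [lintegral_const_mul _ hH.meas.abs.ennreal_ofReal,
          ENNReal.ofReal_mul (integral_nonneg fun _ => abs_nonneg _), e K hK, e H hH]

/-- integral modulus of continuity of the averaged kernel -/
def ModK (k : E d → ℝ) (Λ : ℝ) (N : ℕ) : Prop :=
  ∀ (t : ℕ) (v : E d), ‖v‖ ≤ 4 * d * 2 ^ (-((N * t : ℕ) : ℤ)) →
    ∫ y, |KK k 1 (y + v) - KK k 1 y| ≤ Λ / 4 ^ t

theorem cv_err {k H : E d → ℝ} {Λ : ℝ} {N : ℕ} (hk : IsKer k) (h : ModK k Λ N) (hH : Nice H)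
    (t : ℕ) {j : ℤ} {c : Cb d} (hj : j ≤ c.1) :
    ∫⁻ x in cube c, ENNReal.ofReal |cv k j H x - ce (j - (N * t : ℕ)) (cv k j H) x| ≤
      ENNReal.ofReal (2 ^ d * (Λ / 4 ^ t) * ∫ y in big c, |H y|) := by
  set H' := (big c).indicator H with hH'
  have hn : Nice H' := hH.indicator (measurableSet_big c)
  have hl := cv_pos j
  have hK := KK_nice hk hl
  have e : ∀ y ∈ cube c, cv k j H y = cv k j H' y := fun y hy =>
    cv_congr hk fun z hz => (indicator_of_mem (big_subset_big hj hy hz) _).symm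
  have hΛ : 0 ≤ Λ / 4 ^ t := le_trans (integral_nonneg fun _ => abs_nonneg _)
    (h t 0 (by rw [norm_zero]; positivity))
  have e2 : ∫ y, |H' y| = ∫ y in big c, |H y| := by
    rw [← integral_indicator (measurableSet_big c)]
    congr 1
    funext y
    by_cases hy : y ∈ big c <;> simp [hH', hy]
  calc _ = ∫⁻ x in cube c, ENNReal.ofReal |cv k j H' x - ce (j - (N * t : ℕ)) (cv k j H') x| :=
        setLIntegral_congr_fun (measurableSet_cube c) fun x hx => by
          simp only [e x hx, ce_local (l := j - (N * t : ℕ)) (by omega) e hx]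
    _ ≤ 2 ^ d * ENNReal.ofReal (Λ / 4 ^ t * ∫ y in big c, |H y|) := by
        refine (setLIntegral_le_lintegral _ _).trans (ce_err (cv_nice hk hn j) _ fun v hv => ?_)
        have hK' : Nice fun y => KK k (2 ^ (j - 2)) (y + v) - KK k (2 ^ (j - 2)) y := by
          simpa using (hK.shift (-v)).sub hK
        have e3 : ∀ x, cv k j H' (x + v) - cv k j H' x = ∫ y,
            (KK k (2 ^ (j - 2)) (x - y + v) - KK k (2 ^ (j - 2)) (x - y)) * H' y := fun x => by
          unfold cv
          rw [← integral_sub (cv_int hK hn _) (cv_int hK hn _)]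
          congr 1
          funext y
          rw [sub_mul, add_sub_right_comm]
        simp only [e3]
        refine (conv_l1 hK' hn).trans (ENNReal.ofReal_le_ofReal ?_)
        rw [e2]
        refine mul_le_mul_of_nonneg_right ?_ (integral_nonneg fun _ => abs_nonneg _)
        set l : ℝ := 2 ^ (j - 2) with hld
        have e4 : ∀ z : E d, KK k l z = (l ^ d)⁻¹ * KK k 1 (l⁻¹ • z) := fun z => by
          rw [← KK_scale k hl 1, mul_one, smul_inv_smul₀ hl.ne']
        have e5 := ker_dil (fun y : E d => |KK k 1 (y + l⁻¹ • v) - KK k 1 y|) hl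
        refine le_trans (le_of_eq ?_) (e5.le.trans (h t _ ?_))
        · congr 1
          funext y
          rw [e4, e4, ← mul_sub, abs_mul, abs_of_pos (by positivity : 0 < (l ^ d)⁻¹), smul_add]
        · rw [norm_smul, norm_inv, Real.norm_of_nonneg hl.le, inv_mul_le_iff₀ hl]
          refine hv.trans (le_of_eq ?_)
          rw [hld, sub_eq_add_neg j, zpow_add₀ two_ne_zero, ← cv_four j]
          ring
    _ = _ := by
        rw [mul_assoc, ENNReal.ofReal_mul (p := 2 ^ d) (by positivity),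
          ENNReal.ofReal_pow zero_le_two, ENNReal.ofReal_ofNat]

end Pool.Agent.MP_418f02_an

end

section

/-! The delayed pieces of a sum of atoms and their size. -/

open MeasureTheory Set
open scoped ENNReal

namespace Pool.Agent.MP_418f02_an

variable {d : ℕ} {k : E d → ℝ} {P : Finset (Cb d)} {b : Cb d → E d → ℝ} {Λ : ℝ} {N : ℕ}

/-- the atoms at most `t` levels below the kernel -/
noncomputable def pv (k : E d → ℝ) (P : Finset (Cb d)) (b : Cb d → E d → ℝ) (j : ℤ) (t : ℕ) :
    E d → ℝ := cv k j (Bw P b (j - t) j)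

/-- the atoms exactly `t + 1` levels below the kernel -/
noncomputable def pu (k : E d → ℝ) (P : Finset (Cb d)) (b : Cb d → E d → ℝ) (j : ℤ) (t : ℕ) :
    E d → ℝ := cv k j (Bw P b (j - (t + 1 : ℕ)) (j - t))

/-- the delayed average of `pv` -/
noncomputable def pc (k : E d → ℝ) (P : Finset (Cb d)) (b : Cb d → E d → ℝ) (N : ℕ) (j : ℤ)
    (t : ℕ) : E d → ℝ := ce (j - (N * t : ℕ)) (pv k P b j t)

/-- the error of the delayed average -/
noncomputable def pe (k : E d → ℝ) (P : Finset (Cb d)) (b : Cb d → E d → ℝ) (N : ℕ) (j : ℤ)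
    (t : ℕ) (x : E d) : ℝ := pv k P b j t x - pc k P b N j t x

/-- the increments of the delayed averages -/
noncomputable def pD (k : E d → ℝ) (P : Finset (Cb d)) (b : Cb d → E d → ℝ) (N : ℕ) (j : ℤ)
    (t : ℕ) (x : E d) : ℝ := pc k P b N j (t + 1) x - pc k P b N j t x

theorem pv_le (hk : IsKer k) (hP : Atoms P b 1) (j : ℤ) (t : ℕ) (x : E d) :
    |pv k P b j t x| ≤ 12 ^ d :=
  (cv_le hk (hP.nice_Bw _ _) j x).trans (run2f_le hP t j x)

theorem pc_le (hk : IsKer k) (hP : Atoms P b 1) (j : ℤ) (t : ℕ) (x : E d) :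
    |pc k P b N j t x| ≤ 12 ^ d := ce_le (pv_le hk hP j t) x

theorem pe_le (hk : IsKer k) (hP : Atoms P b 1) (j : ℤ) (t : ℕ) (x : E d) :
    |pe k P b N j t x| ≤ 2 * 12 ^ d :=
  (abs_sub _ _).trans (by linarith [pv_le hk hP j t x, pc_le (N := N) hk hP j t x])

theorem pD_le (hk : IsKer k) (hP : Atoms P b 1) (j : ℤ) (t : ℕ) (x : E d) :
    |pD k P b N j t x| ≤ 2 * 12 ^ d :=
  (abs_sub _ _).trans (by linarith [pc_le (N := N) hk hP j (t + 1) x, pc_le (N := N) hk hP j t x])

theorem pe_meas (hk : IsKer k) (hP : Atoms P b 1) (j : ℤ) (t : ℕ) :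
    Measurable (pe k P b N j t) :=
  (cv_nice hk (hP.nice_Bw _ _) j).meas.sub (ce_meas _ _)

theorem pD_congr {j : ℤ} {t : ℕ} {x y : E d}
    (e : ix (j - (N * (t + 1) : ℕ)) x = ix (j - (N * (t + 1) : ℕ)) y) :
    pD k P b N j t x = pD k P b N j t y := by
  unfold pD pc
  rw [ce_congr _ e, ce_congr (l := j - (N * t : ℕ)) _ (ix_mono (by push_cast; nlinarith) e)]

theorem pD_meas (j : ℤ) (t : ℕ) : Measurable (pD k P b N j t) :=
  measurable_of_ix fun _ _ e => pD_congr e

theorem cv_Bw (hk : IsKer k) (hP : Atoms P b 1) (j : ℤ) {a e : ℤ} (h : a ≤ e) (x : E d) :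
    cv k j (Bw P b a e) x = cv k j (Bl P b e) x - cv k j (Bl P b a) x := by
  rw [show Bl P b e = fun y => Bw P b a e y + Bl P b a y from funext (Bl_split P b h),
    cv_add hk (hP.nice_Bw _ _) (hP.nice_Bl _), add_sub_cancel_right]

theorem pD_eq (hk : IsKer k) (hP : Atoms P b 1) (j : ℤ) (t : ℕ) (x : E d) :
    pD k P b N j t x = pu k P b j t x + pe k P b N j t x - pe k P b N j (t + 1) x := by
  unfold pD pe pu pv
  rw [cv_Bw hk hP j (by omega), cv_Bw hk hP j (by omega), cv_Bw hk hP j (by omega)]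
  ring

theorem pe_sum (hk : IsKer k) (h : ModK k Λ N) (hΛ : 0 ≤ Λ) (hP : Atoms P b 1) (t : ℕ) (a : ℤ)
    (c : Cb d) : ∑ j ∈ Finset.Icc a c.1, ∫⁻ x in cube c, ENNReal.ofReal |pe k P b N j t x| ≤
      ENNReal.ofReal (6 ^ d * Λ * (1 / 2) ^ t * sz d c.1) := by
  have hz := sz_pos (d := d) c.1
  refine (Finset.sum_le_sum fun j hj =>
    cv_err hk h (hP.nice_Bw (j - t) j) t (Finset.mem_Icc.1 hj).2).trans ?_
  rw [← ENNReal.ofReal_sum_of_nonneg fun j _ =>
    mul_nonneg (by positivity) (integral_nonneg fun _ => abs_nonneg _), ← Finset.mul_sum]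
  refine ENNReal.ofReal_le_ofReal ?_
  have h1 := (Finset.sum_le_sum fun j hj => run2_mass hP (j - t) (Finset.mem_Icc.1 hj).2).trans
    ((run2_count _ (Finset.Icc a c.1) t).trans
      (mul_le_mul_of_nonneg_left (run2_tot hP.dj c) (Nat.cast_nonneg (α := ℝ) t)))
  have h2 : (t : ℝ) ≤ 2 ^ t := by exact_mod_cast Nat.lt_two_pow_self.le
  calc _ ≤ 2 ^ d * (Λ / 4 ^ t) * (2 ^ t * (3 ^ d * sz d c.1)) := by
        refine mul_le_mul_of_nonneg_left (h1.trans ?_) (by positivity)
        gcongr
    _ = _ := by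
        rw [show (6 : ℝ) = 2 * 3 by norm_num, show (4 : ℝ) = 2 * 2 by norm_num, mul_pow, mul_pow,
          one_div, inv_pow]
        field_simp

theorem pu_sum (hd : 1 ≤ d) : ∃ C : ℝ, 0 < C ∧ ∀ k : E d → ℝ, IsKer k →
    ∀ (P : Finset (Cb d)) (b : Cb d → E d → ℝ), Atoms P b 1 → ∀ (t : ℕ) (a : ℤ) (c : Cb d),
    ∑ j ∈ Finset.Icc a c.1, ∫⁻ x in cube c, ENNReal.ofReal (pu k P b j t x ^ 2) ≤
      ENNReal.ofReal (C * (4 / 5) ^ t * sz d c.1) := by
  classical
  obtain ⟨C, hC, h⟩ := seeger hd
  refine ⟨C * 3 ^ d, by positivity, fun k hk P b hP t a c => ?_⟩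
  have hz := sz_pos (d := d) c.1
  set T := P.filter fun Q => Q.1 ≤ c.1 ∧ (cube Q ∩ big c).Nonempty with hT
  have hone : ∀ j ∈ Finset.Icc a c.1, ∫⁻ x in cube c, ENNReal.ofReal (pu k P b j t x ^ 2) ≤
      ENNReal.ofReal (C * (4 / 5) ^ t * ∑ Q ∈ T with Q.1 + (t + 1 : ℕ) = j, sz d Q.1) := by
    intro j hj
    have hj2 := (Finset.mem_Icc.1 hj).2
    have hP' : Atoms (T.filter fun Q => Q.1 + (t + 1 : ℕ) = j) b 1 :=
      hP.subset ((Finset.filter_subset _ _).trans (Finset.filter_subset _ _))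
    have e : ∀ x ∈ cube c, pu k P b j t x =
        ∑ Q ∈ T with Q.1 + (t + 1 : ℕ) = j, cv k (Q.1 + (t + 1 : ℕ)) (b Q) x := fun x hx => by
      rw [Finset.sum_congr rfl fun Q hQ => by rw [(Finset.mem_filter.1 hQ).2],
        ← cv_sum hk hP'.nice]
      refine cv_congr hk fun y hy => (Finset.sum_subset (fun Q hQ => ?_) fun Q hQ hQ' => ?_).symm
      · simp only [hT, Finset.mem_filter] at hQ ⊢
        exact ⟨hQ.1.1, by omega, by omega⟩
      · simp only [hT, Finset.mem_filter] at hQ hQ'
        refine hP.supp Q hQ.1 y fun hyQ => hQ' ⟨⟨hQ.1, by omega, y, hyQ,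
          big_subset_big hj2 hx hy⟩, by omega⟩
    have hn : Nice fun x => (∑ Q ∈ T with Q.1 + (t + 1 : ℕ) = j,
        cv k (Q.1 + (t + 1 : ℕ)) (b Q) x) ^ 2 :=
      (nice_sum fun Q hQ => cv_nice hk (hP'.nice Q hQ) _).sq
    rw [setLIntegral_congr_fun (measurableSet_cube c) fun x hx => by rw [e x hx]]
    refine (setLIntegral_le_lintegral _ _).trans ?_
    rw [← ofReal_integral_eq_lintegral_ofReal hn.integrable
      (Filter.Eventually.of_forall fun x => sq_nonneg _)]
    refine ENNReal.ofReal_le_ofReal ((h k hk _ b 1 zero_le_one hP' (t + 1)).trans ?_)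
    refine mul_le_mul_of_nonneg_right ?_ (Finset.sum_nonneg fun Q _ => (sz_pos _).le)
    rw [one_pow, mul_one]
    exact mul_le_mul_of_nonneg_left (pow_le_pow_of_le_one (by norm_num) (by norm_num)
      (Nat.le_succ t)) hC.le
  refine (Finset.sum_le_sum hone).trans ?_
  rw [← ENNReal.ofReal_sum_of_nonneg fun j _ =>
    mul_nonneg (by positivity) (Finset.sum_nonneg fun Q _ => (sz_pos _).le), ← Finset.mul_sum]
  refine ENNReal.ofReal_le_ofReal ?_
  have h1 := (Finset.sum_fiberwise_le_sum_of_sum_fiber_nonneg (s := T) (t := Finset.Icc a c.1)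
    (g := fun Q => Q.1 + (t + 1 : ℕ)) (f := fun Q => sz d Q.1)
    fun _ _ => Finset.sum_nonneg fun Q _ => (sz_pos _).le).trans (run2_tot hP.dj c)
  calc _ ≤ C * (4 / 5) ^ t * (3 ^ d * sz d c.1) := by gcongr
    _ = _ := by ring

theorem big_vol (hk : IsKer k) (hP : Atoms P b 1) {t : ℕ} {a : ℤ} {c : Cb d} {τ u e : ℝ}
    (hτ : 0 < τ) (hu0 : 0 ≤ u) (he0 : 0 ≤ e)
    (hu : ∑ j ∈ Finset.Icc a c.1, ∫⁻ x in cube c, ENNReal.ofReal (pu k P b j t x ^ 2) ≤
      ENNReal.ofReal u)
    (he : ∑ j ∈ Finset.Icc a c.1, ∫⁻ x in cube c, ENNReal.ofReal |pe k P b N j t x| ≤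
      ENNReal.ofReal e)
    (he' : ∑ j ∈ Finset.Icc a c.1, ∫⁻ x in cube c, ENNReal.ofReal |pe k P b N j (t + 1) x| ≤
      ENNReal.ofReal e) :
    ∑ j ∈ Finset.Icc a c.1, volume ({x | τ < |pD k P b N j t x|} ∩ cube c) ≤
      ENNReal.ofReal (4 / τ ^ 2 * u + 4 / τ * e) := by
  have hone : ∀ j, volume ({x | τ < |pD k P b N j t x|} ∩ cube c) ≤
      ENNReal.ofReal (4 / τ ^ 2) * (∫⁻ x in cube c, ENNReal.ofReal (pu k P b j t x ^ 2)) +
      ENNReal.ofReal (2 / τ) * ((∫⁻ x in cube c, ENNReal.ofReal |pe k P b N j t x|) +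
        ∫⁻ x in cube c, ENNReal.ofReal |pe k P b N j (t + 1) x|) := fun j => by
    have hV : MeasurableSet {x | τ < |pD k P b N j t x|} :=
      measurableSet_lt measurable_const (pD_meas j t).abs
    have m1 : Measurable fun x => ENNReal.ofReal (pu k P b j t x ^ 2) :=
      ((cv_nice hk (hP.nice_Bw _ _) j).meas.pow_const 2).ennreal_ofReal
    rw [← lintegral_add_left (pe_meas hk hP j t).abs.ennreal_ofReal,
      ← lintegral_const_mul' _ _ ENNReal.ofReal_ne_top,
      ← lintegral_const_mul' _ _ ENNReal.ofReal_ne_top, ← lintegral_add_left (m1.const_mul _),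
      ← Measure.restrict_apply hV, ← lintegral_indicator_one hV]
    refine lintegral_mono fun x => ?_
    by_cases hx : x ∈ {x | τ < |pD k P b N j t x|}
    · rw [indicator_of_mem hx, Pi.one_apply, ← ENNReal.ofReal_add (abs_nonneg _) (abs_nonneg _),
        ← ENNReal.ofReal_mul (by positivity), ← ENNReal.ofReal_mul (by positivity),
        ← ENNReal.ofReal_add (by positivity) (by positivity), ← ENNReal.ofReal_one]
      refine ENNReal.ofReal_le_ofReal ?_
      rw [mem_ofPred_eq, pD_eq hk hP] at hx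
      have h1 := (abs_sub _ _).trans (add_le_add_left (abs_add_le (pu k P b j t x)
        (pe k P b N j t x)) |pe k P b N j (t + 1) x|)
      rw [← sq_abs (pu k P b j t x)]
      generalize |pu k P b j t x| = p at *
      by_cases h2 : τ / 2 ≤ |pe k P b N j t x| + |pe k P b N j (t + 1) x|
      · refine le_add_of_nonneg_of_le (by positivity) ?_
        rw [div_mul_eq_mul_div, le_div_iff₀ hτ]
        linarith
      · refine le_add_of_le_of_nonneg ?_ (by positivity)
        rw [div_mul_eq_mul_div, le_div_iff₀ (by positivity)]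
        nlinarith
    · rw [indicator_of_notMem hx]
      exact bot_le
  refine (Finset.sum_le_sum fun j _ => hone j).trans ?_
  rw [Finset.sum_add_distrib, ← Finset.mul_sum, ← Finset.mul_sum, Finset.sum_add_distrib]
  refine (add_le_add (mul_le_mul_right hu _) (mul_le_mul_right (add_le_add he he') _)).trans
    (le_of_eq ?_)
  rw [← ENNReal.ofReal_add he0 he0, ← ENNReal.ofReal_mul (by positivity),
    ← ENNReal.ofReal_mul (by positivity), ← ENNReal.ofReal_add (by positivity) (by positivity)]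
  congr 1
  ring

/-- the small increments on one residue class of levels -/
noncomputable def pS (k : E d → ℝ) (P : Finset (Cb d)) (b : Cb d → E d → ℝ) (N t : ℕ) (τ : ℝ)
    (r j : ℤ) (x : E d) : ℝ :=
  if ((N * (t + 1) : ℕ) : ℤ) ∣ j - r ∧ |pD k P b N j t x| ≤ τ then pD k P b N j t x else 0

theorem small_l1 (hk : IsKer k) (hP : Atoms P b 1) {t : ℕ} {a : ℤ} {c : Cb d} {τ f e v : ℝ}
    (hf0 : 0 ≤ f) (he0 : 0 ≤ e) (hv0 : 0 ≤ v) {G : ℤ → Set (E d)} (hG : Stop G) (r : ℤ)
    (hf : ∀ P' ⊆ P, ∀ s, t ≤ s →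
      ∫⁻ x in cube c, ENNReal.ofReal |farT k G P' b s a c.1 x| ≤ ENNReal.ofReal f)
    (he : ∑ j ∈ Finset.Icc a c.1, ∫⁻ x in cube c, ENNReal.ofReal |pe k P b N j t x| ≤
      ENNReal.ofReal e)
    (he' : ∑ j ∈ Finset.Icc a c.1, ∫⁻ x in cube c, ENNReal.ofReal |pe k P b N j (t + 1) x| ≤
      ENNReal.ofReal e)
    (hv : ∑ j ∈ Finset.Icc a c.1, volume ({x | τ < |pD k P b N j t x|} ∩ cube c) ≤
      ENNReal.ofReal v) :
    ∫⁻ x in cube c, ENNReal.ofReal |ps (fun j => (G j).indicator (pS k P b N t τ r j)) a c.1 x| ≤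
      ENNReal.ofReal (2 * f + 2 * e + 2 * 12 ^ d * v) := by
  set L : ℤ := ((N * (t + 1) : ℕ) : ℤ) with hL
  set P' := P.filter fun Q => L ∣ Q.1 + (t + 1 : ℕ) - r with hP'd
  have hs : P' ⊆ P := Finset.filter_subset _ _
  have hP' := hP.subset hs
  set V : ℤ → Set (E d) := fun j => {x | τ < |pD k P b N j t x|} with hV
  have hVm : ∀ j, MeasurableSet (V j) := fun j =>
    measurableSet_lt measurable_const (pD_meas j t).abs
  have e1 : ∀ j x, cv k j (Bl P' b (j - t)) x - cv k j (Bl P' b (j - (t + 1 : ℕ))) x =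
      if L ∣ j - r then pu k P b j t x else 0 := fun j x => by
    rw [← cv_Bw hk hP' j (by omega)]
    split_ifs with h
    · unfold pu Bw
      rw [hP'd, Finset.filter_comm, Finset.filter_true_of_mem fun Q hQ => ?_]
      rw [Finset.mem_filter] at hQ
      rwa [show Q.1 + (t + 1 : ℕ) = j by omega]
    · unfold Bw
      rw [hP'd, Finset.filter_comm, Finset.filter_false_of_mem fun Q hQ => ?_]
      · simp [cv]
      · rw [Finset.mem_filter] at hQ
        rwa [show Q.1 + (t + 1 : ℕ) = j by omega]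
  have hpt : ∀ x, ENNReal.ofReal |ps (fun j => (G j).indicator (pS k P b N t τ r j)) a c.1 x| ≤
      ENNReal.ofReal |farT k G P' b t a c.1 x| + ENNReal.ofReal |farT k G P' b (t + 1) a c.1 x| +
      ∑ j ∈ Finset.Icc a c.1, (ENNReal.ofReal |pe k P b N j t x| +
        ENNReal.ofReal |pe k P b N j (t + 1) x| +
        (V j).indicator (fun _ => ENNReal.ofReal (2 * 12 ^ d)) x) := fun x => by
    have h1 : ∀ j, ENNReal.ofReal |(G j).indicator (pS k P b N t τ r j) x -
        ((G j).indicator (cv k j (Bl P' b (j - t))) x -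
          (G j).indicator (cv k j (Bl P' b (j - (t + 1 : ℕ)))) x)| ≤
        ENNReal.ofReal |pe k P b N j t x| + ENNReal.ofReal |pe k P b N j (t + 1) x| +
          (V j).indicator (fun _ => ENNReal.ofReal (2 * 12 ^ d)) x := fun j => by
      by_cases hx : x ∈ G j
      swap
      · simp [indicator_of_notMem hx]
      simp only [indicator_of_mem hx, e1, pS, ← hL]
      by_cases h : L ∣ j - r
      swap
      · simp [h]
      have h2 := pD_eq (N := N) hk hP j t x
      rw [if_pos h, ← ENNReal.ofReal_add (abs_nonneg _) (abs_nonneg _)]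
      have h3 := abs_sub (pe k P b N j t x) (pe k P b N j (t + 1) x)
      by_cases h' : |pD k P b N j t x| ≤ τ
      · rw [if_pos ⟨h, h'⟩, show pD k P b N j t x - pu k P b j t x =
          pe k P b N j t x - pe k P b N j (t + 1) x by linarith]
        exact le_add_right (ENNReal.ofReal_le_ofReal h3)
      · rw [if_neg fun hh => h' hh.2, indicator_of_mem (show x ∈ V j from not_le.1 h'),
          ← ENNReal.ofReal_add (by positivity) (by positivity), show 0 - pu k P b j t x =
          pe k P b N j t x - pe k P b N j (t + 1) x - pD k P b N j t x by linarith]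
        exact ENNReal.ofReal_le_ofReal ((abs_sub _ _).trans (add_le_add h3 (pD_le hk hP j t x)))
    refine le_trans ?_ (add_le_add_right (Finset.sum_le_sum fun j _ => h1 j) _)
    rw [← ENNReal.ofReal_sum_of_nonneg fun j _ => abs_nonneg _,
      ← ENNReal.ofReal_add (abs_nonneg _) (abs_nonneg _), ← ENNReal.ofReal_add (by positivity)
        (Finset.sum_nonneg fun j _ => abs_nonneg _)]
    refine ENNReal.ofReal_le_ofReal (le_trans ?_ (add_le_add (abs_sub _ _)
      (Finset.abs_sum_le_sum_abs _ _)))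
    refine le_trans (le_of_eq ?_) (abs_add_le _ _)
    simp only [farT, ps, Finset.sum_sub_distrib]
    rw [add_sub_cancel]
  have m1 : ∀ s, Measurable fun x => ENNReal.ofReal |farT k G P' b s a c.1 x| := fun s =>
    (farT_nice hk hG hP' s a c.1).meas.abs.ennreal_ofReal
  have m2 : ∀ j s, Measurable fun x => ENNReal.ofReal |pe k P b N j s x| := fun j s =>
    (pe_meas hk hP j s).abs.ennreal_ofReal
  refine (lintegral_mono hpt).trans ?_
  rw [lintegral_add_left ((m1 _).fun_add (m1 _)), lintegral_add_left (m1 _),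
    lintegral_finsetSum _ fun j _ => ((m2 j _).fun_add (m2 j _)).fun_add
      (measurable_const.indicator (hVm j))]
  rw [Finset.sum_congr rfl fun j _ => by
    rw [lintegral_add_left ((m2 j t).fun_add (m2 j (t + 1))), lintegral_add_left (m2 j t),
      lintegral_indicator_const (hVm j), Measure.restrict_apply (hVm j)],
    Finset.sum_add_distrib, Finset.sum_add_distrib, ← Finset.mul_sum]
  refine (add_le_add (add_le_add (hf P' hs t le_rfl) (hf P' hs (t + 1) (Nat.le_succ t)))
    (add_le_add (add_le_add he he') (mul_le_mul_right hv _))).trans (le_of_eq ?_)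
  rw [← ENNReal.ofReal_add hf0 hf0, ← ENNReal.ofReal_add he0 he0,
    ← ENNReal.ofReal_mul (by positivity), ← ENNReal.ofReal_add (by positivity) (by positivity),
    ← ENNReal.ofReal_add (by positivity) (by positivity)]
  congr 1
  ring

end Pool.Agent.MP_418f02_an

end

section

/-! Linear growth of the moments for kernels with an integral Hoelder modulus. -/

open MeasureTheory Set
open scoped ENNReal

namespace Pool.Agent.MP_418f02_an

variable {d : ℕ}

theorem mom_bdd {Y : E d → ℝ} {Q : Cb d} {m β : ℝ} (hm : 0 ≤ m) (hβ : 0 ≤ β)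
    (h : ∀ x, |Y x| ≤ β) : Mom Y Q m β := by
  unfold Mom
  rw [← lint_const Q (by positivity)]
  refine lintegral_mono fun x => ?_
  simp only
  rw [ENNReal.ofReal_rpow_of_nonneg (abs_nonneg _) hm]
  exact ENNReal.ofReal_le_ofReal (Real.rpow_le_rpow (abs_nonneg _) (h x) hm)

theorem r6_geo (T : ℕ) : ∑ t ∈ Finset.range T, (19 / 20 : ℝ) ^ t ≤ 20 := by
  have h : ∑ t ∈ Finset.range T, (19 / 20 : ℝ) ^ t = 20 - 20 * (19 / 20) ^ T := by
    induction T with
    | zero => simp
    | succ n ih => rw [Finset.sum_range_succ, ih]; ring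
  rw [h]
  have : (0 : ℝ) ≤ (19 / 20) ^ T := by positivity
  linarith

theorem r6_sq (T : ℕ) : ∑ t ∈ Finset.range T, ((t : ℝ) + 1) ^ 2 * (19 / 20) ^ t ≤ 15600 := by
  have h : ∑ t ∈ Finset.range T, ((t : ℝ) + 1) ^ 2 * (19 / 20) ^ t =
      15600 - (20 * (T : ℝ) ^ 2 + 800 * T + 15600) * (19 / 20) ^ T := by
    induction T with
    | zero => simp
    | succ n ih => rw [Finset.sum_range_succ, ih]; push_cast; ring
  rw [h]
  have : (0 : ℝ) ≤ (20 * (T : ℝ) ^ 2 + 800 * T + 15600) * (19 / 20) ^ T := by positivity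
  linarith

theorem r6_num {K C Λ z : ℝ} (hK : 1 ≤ K) (hC : 0 ≤ C) (hΛ : 0 ≤ Λ) (hz : 0 ≤ z) (t : ℕ) :
    4 / (K * (19 / 20) ^ t) ^ 2 * (C * (4 / 5) ^ t * z) +
      4 / (K * (19 / 20) ^ t) * (Λ * (1 / 2) ^ t * z) ≤ (4 * C + 4 * Λ) / K * (9 / 10) ^ t * z := by
  have h1 : (4 / 5 : ℝ) ^ t ≤ (9 / 10) ^ t * ((19 / 20) ^ t) ^ 2 := by
    rw [← pow_mul, mul_comm t, pow_mul, ← mul_pow]
    exact pow_le_pow_left₀ (by norm_num) (by norm_num) t
  have h2 : (1 / 2 : ℝ) ^ t ≤ (9 / 10) ^ t * (19 / 20) ^ t := by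
    rw [← mul_pow]
    exact pow_le_pow_left₀ (by norm_num) (by norm_num) t
  have hp : (0 : ℝ) < (19 / 20) ^ t := by positivity
  generalize (19 / 20 : ℝ) ^ t = p at *
  have hq : (0 : ℝ) < (9 / 10) ^ t := by positivity
  generalize (9 / 10 : ℝ) ^ t = q at *
  calc _ ≤ 4 / (K * p) ^ 2 * (C * (q * p ^ 2) * z) + 4 / (K * p) * (Λ * (q * p) * z) := by gcongr
    _ = 4 * C * q * z / K / K + 4 * Λ * q * z / K := by field_simp
    _ ≤ 4 * C * q * z / K + 4 * Λ * q * z / K :=
        add_le_add_left (div_le_self (by positivity) hK) _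
    _ = _ := by ring

theorem r6_class {k : E d → ℝ} {P : Finset (Cb d)} {b : Cb d → E d → ℝ} {N : ℕ} (hN : 1 ≤ N)
    (t : ℕ) (τ : ℝ) (j : ℤ) (x : E d) :
    ∑ r ∈ Finset.range (N * (t + 1)), pS k P b N t τ r j x =
      if |pD k P b N j t x| ≤ τ then pD k P b N j t x else 0 := by
  set L := N * (t + 1) with hL
  have hL0 : (0 : ℤ) < L := by
    have : 0 < L := Nat.mul_pos hN t.succ_pos
    omega
  have h1 := Int.emod_nonneg j hL0.ne'
  have h2 := Int.emod_lt_of_pos j hL0
  rw [Finset.sum_eq_single (j % L).toNat]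
  · rw [pS, ← hL, Int.toNat_of_nonneg h1]
    simp only [Int.dvd_self_sub_emod, true_and]
  · intro r hr hne
    refine if_neg fun h => hne ?_
    have h3 := Finset.mem_range.1 hr
    have h4 : j % L = r := by
      rw [← Int.emod_eq_of_lt (a := r) (b := L) (by omega) (by omega)]
      exact (Int.emod_emod_of_dvd _ dvd_rfl).symm.trans
        ((Int.emod_eq_emod_iff_emod_sub_eq_zero.2 (Int.emod_eq_zero_of_dvd h.1)) ▸
          Int.emod_emod_of_dvd _ dvd_rfl)
    omega
  · intro h
    exact absurd (Finset.mem_range.2 (by omega)) h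

theorem run6 (hd : 1 ≤ d) {Λ : ℝ} (hΛ : 0 ≤ Λ) {N : ℕ} (hN : 1 ≤ N) : ∃ C : ℝ, 0 < C ∧
    ∀ k : E d → ℝ, IsKer k → ModK k Λ N → ∀ m : ℝ, 1 ≤ m → AtB k m (C * m) := by
  obtain ⟨C₁, hC₁, h1⟩ := farT_l1 hd
  obtain ⟨C₂, hC₂, h2⟩ := pu_sum hd
  set Λ₁ : ℝ := 6 ^ d * Λ with hΛ₁
  have hΛ₁0 : 0 ≤ Λ₁ := by positivity
  set C₃ : ℝ := 4 * C₂ + 4 * Λ₁ with hC₃
  have hC₃0 : 0 < C₃ := by positivity
  set K : ℝ := 42 * C₃ + 1 with hK
  have hK1 : 1 ≤ K := by linarith
  set C₄ : ℝ := 2 * C₁ + 2 * Λ₁ + 2 * 12 ^ d * C₃ with hC₄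
  have hC₄0 : 0 < C₄ := by positivity
  have hN0 : (1 : ℝ) ≤ N := by exact_mod_cast hN
  set l : ℝ := Real.log (21 / 20) / N with hl
  have hl0 : 0 < l := div_pos (Real.log_pos (by norm_num)) (by linarith)
  refine ⟨24 * (3 * C₄ + K) * N ^ 2 * 15600 + (12 ^ d + 20 * K) * (2 / l) + 1, by positivity,
    fun k hk hmod m hm P b hP G hG W j₀ H => ?_⟩
  set τ : ℕ → ℝ := fun t => K * (19 / 20) ^ t with hτ
  have hτ0 : ∀ t, 0 < τ t := fun t => by positivity
  set V : ℤ → ℕ → Set (E d) := fun j t => {x | τ t < |pD k P b N j t x|} with hV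
  have he := fun t (c : Cb d) => pe_sum hk hmod hΛ hP t j₀ c
  have he' : ∀ t (c : Cb d), _ ≤ ENNReal.ofReal (Λ₁ * (1 / 2) ^ t * sz d c.1) := fun t c =>
    (he (t + 1) c).trans (ENNReal.ofReal_le_ofReal (mul_le_mul_of_nonneg_right
      (mul_le_mul_of_nonneg_left (pow_le_pow_of_le_one (by norm_num) (by norm_num)
        (Nat.le_succ t)) hΛ₁0) (sz_pos _).le))
  have hv : ∀ t (c : Cb d), ∑ j ∈ Finset.Icc j₀ c.1, volume (V j t ∩ cube c) ≤
      ENNReal.ofReal (C₃ / K * (9 / 10) ^ t * sz d c.1) := fun t c => by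
    have hz := sz_pos (d := d) c.1
    exact (big_vol hk hP (hτ0 t) (by positivity) (by positivity) (h2 k hk P b hP t j₀ c) (he t c)
      (he' t c)).trans (ENNReal.ofReal_le_ofReal (r6_num hK1 hC₂.le hΛ₁0 hz.le t))
  have hL : ∀ t, 1 ≤ N * (t + 1) := fun t => Nat.mul_pos hN t.succ_pos
  have small : ∀ (t : ℕ) (r : ℕ), Mom (ps (fun j => (G j).indicator (pS k P b N t (τ t) r j))
      j₀ W.1) W m (24 * (3 * (C₄ * (19 / 20) ^ t) + τ t * (N * (t + 1) : ℕ)) * m) := fun t r => by
    refine class_mom (r := r) (hL t) (hτ0 t).le (by positivity) hm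
      (fun j x y e => by simp only [pS, pD_congr e]) (fun j x hx => ?_) (fun j x => ?_)
      (fun G' hG' c => ?_) hG W
    · by_contra h
      exact hx (if_neg fun hh => h hh.1)
    · unfold pS
      split_ifs with h
      · exact h.2
      · simpa using (hτ0 t).le
    · have hz := sz_pos (d := d) c.1
      refine (small_l1 (f := C₁ * (9 / 10) ^ t * sz d c.1) hk hP (by positivity) (by positivity)
        (by positivity) hG' r (fun P' hP' s hs => ?_) (he t c) (he' t c) (hv t c)).trans
        (ENNReal.ofReal_le_ofReal ?_)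
      · have := h1 k hk P' b (hP.subset hP') G' hG' s c j₀
        simp only [Mom, ENNReal.rpow_one, Real.rpow_one] at this
        exact this.trans (ENNReal.ofReal_le_ofReal (mul_le_mul_of_nonneg_right
          (mul_le_mul_of_nonneg_left (pow_le_pow_of_le_one (by norm_num) (by norm_num) hs)
            hC₁.le) hz.le))
      · have p1 : (9 / 10 : ℝ) ^ t ≤ (19 / 20) ^ t := pow_le_pow_left₀ (by norm_num) (by norm_num) t
        have p2 : (1 / 2 : ℝ) ^ t ≤ (19 / 20) ^ t := pow_le_pow_left₀ (by norm_num) (by norm_num) t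
        have p3 : C₃ / K ≤ C₃ := div_le_self hC₃0.le hK1
        calc _ ≤ 2 * (C₁ * (19 / 20) ^ t * sz d c.1) + 2 * (Λ₁ * (19 / 20) ^ t * sz d c.1) +
              2 * 12 ^ d * (C₃ * (19 / 20) ^ t * sz d c.1) := by gcongr
          _ = _ := by rw [hC₄]; ring
  obtain ⟨S, hS⟩ : ∃ S : ℕ, ∀ Q ∈ P, W.1 - S ≤ Q.1 := by
    obtain ⟨l, hl⟩ := (P.image fun Q => Q.1).bddBelow
    refine ⟨(W.1 - l).toNat, fun Q hQ => ?_⟩
    have := hl (Finset.mem_coe.2 (Finset.mem_image_of_mem (fun Q : Cb d => Q.1) hQ))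
    omega
  set β : ℝ := (Finset.Icc j₀ W.1).card * (2 * 12 ^ d) + 1 with hβ
  have hβ1 : 1 ≤ β := le_add_of_nonneg_left (by positivity)
  obtain ⟨T, hTS, hT⟩ : ∃ T : ℕ, S ≤ T ∧ Λ₁ * (1 / 2) ^ T ≤ β⁻¹ ^ (2 * m) := by
    obtain ⟨n, hn⟩ := exists_pow_lt_of_lt_one (show 0 < β⁻¹ ^ (2 * m) / (Λ₁ + 1) by positivity)
      (show (1 / 2 : ℝ) < 1 by norm_num)
    refine ⟨S + n, Nat.le_add_right _ _, ?_⟩
    rw [lt_div_iff₀ (by positivity)] at hn
    have p1 : (1 / 2 : ℝ) ^ (S + n) ≤ (1 / 2) ^ n :=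
      pow_le_pow_of_le_one (by norm_num) (by norm_num) (Nat.le_add_left _ _)
    have p2 : (0 : ℝ) < (1 / 2) ^ n := by positivity
    nlinarith
  set Y₃ := ps (fun j x => |pe k P b N j T x|) j₀ W.1 with hY₃
  have hY₃m : Measurable Y₃ := by
    unfold Y₃ ps
    exact Finset.measurable_sum _ fun j _ => (pe_meas hk hP j T).abs
  have hY₃0 : ∀ x, 0 ≤ Y₃ x := fun x => Finset.sum_nonneg fun j _ => abs_nonneg _
  have m3 : Mom Y₃ W m 1 := by
    have a1 : Mom Y₃ W 1 (Λ₁ * (1 / 2) ^ T) := by
      simp only [Mom, ENNReal.rpow_one, Real.rpow_one, fun x => abs_of_nonneg (hY₃0 x)]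
      refine le_trans (le_of_eq ?_) (he T W)
      rw [← lintegral_finsetSum _ fun j _ => (pe_meas hk hP j T).abs.ennreal_ofReal]
      exact lintegral_congr fun x => ENNReal.ofReal_sum_of_nonneg fun j _ => abs_nonneg _
    have a2 : Mom Y₃ W (2 * m - 1) β := mom_bdd (by linarith) (by linarith) fun x => by
      rw [abs_of_nonneg (hY₃0 x)]
      refine le_add_of_le_of_nonneg ?_ zero_le_one
      rw [← nsmul_eq_mul]
      exact Finset.sum_le_card_nsmul _ _ _ fun j _ => pe_le hk hP j T x
    refine (mom_interp hY₃m hm (by positivity) hβ1 a1 a2).mono (by linarith) (by positivity) ?_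
      fun x _ => le_rfl
    refine (mul_le_mul_of_nonneg_right (Real.rpow_le_rpow (by positivity) hT (by positivity))
      (by linarith)).trans (le_of_eq ?_)
    rw [one_div, Real.rpow_rpow_inv (by positivity) (by positivity),
      inv_mul_cancel₀ (by positivity)]
  have hlm : ∀ j t, LM (j - (N * (t + 1) : ℕ)) (V j t) := fun j t x y e hx => by
    simp only [hV, mem_ofPred_eq] at hx ⊢
    rwa [← pD_congr e]
  have m2 := (mom_of_exp hl0 hm (cnt_nonneg V T j₀ W.1) (cnt_exp (n := fun t => N * (t + 1)) hL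
    hlm hl0.le (η := fun t => C₃ / K * (9 / 10) ^ t) (fun t => by positivity) ?_ hv W)).const_mul
    (by linarith) (by positivity) (c := 12 ^ d + 20 * K) (by positivity)
  swap
  · have e : ∀ t : ℕ, Real.exp (l * (N * (t + 1) : ℕ)) = (21 / 20) ^ (t + 1) := fun t => by
      rw [← Real.exp_log (show (0 : ℝ) < 21 / 20 by norm_num), ← Real.exp_nat_mul, hl]
      congr 1
      push_cast
      field_simp
    have p1 : C₃ / K ≤ 1 / 42 := by
      rw [div_le_div_iff₀ (by positivity) (by norm_num)]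
      linarith
    calc _ ≤ ∑ t ∈ Finset.range T, 1 / 40 * (19 / 20 : ℝ) ^ t := by
          refine Finset.sum_le_sum fun t _ => ?_
          have p2 : (21 / 20 : ℝ) ^ t * (9 / 10) ^ t ≤ (19 / 20) ^ t := by
            rw [← mul_pow]
            exact pow_le_pow_left₀ (by norm_num) (by norm_num) t
          calc _ = 21 / 20 * (C₃ / K) * ((21 / 20) ^ t * (9 / 10) ^ t) := by rw [e]; ring
            _ ≤ 21 / 20 * (1 / 42) * (19 / 20) ^ t := by gcongr
            _ = _ := by norm_num
      _ ≤ _ := by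
          rw [← Finset.mul_sum]
          linarith [r6_geo T]
  have hsm : ∀ (t r : ℕ), Measurable (ps (fun j => (G j).indicator (pS k P b N t (τ t) r j))
      j₀ W.1) := fun t r => by
    unfold ps
    exact Finset.measurable_sum _ fun j _ => (measurable_of_ix (k := j - (N * (t + 1) : ℕ))
      fun x y e => by simp only [pS, pD_congr e]).indicator (hG.lm j).meas
  have m1 := mom_sum (s := Finset.range T) (fun t _ => mom_sum (s := Finset.range (N * (t + 1)))
    (fun r _ => small t r) (fun r _ => hsm t r) hm fun r _ => by have := hτ0 t; positivity)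
    (fun t _ => Finset.measurable_sum _ fun r _ => hsm t r) hm
    fun t _ => Finset.sum_nonneg fun r _ => by have := hτ0 t; positivity
  have hY₁m := Finset.measurable_sum (Finset.range T) fun t _ =>
    Finset.measurable_sum (Finset.range (N * (t + 1))) fun r _ => hsm t r
  have m1' := m1.mono (B' := 24 * (3 * C₄ + K) * N ^ 2 * 15600 * m) (by linarith)
    (Finset.sum_nonneg fun t _ => Finset.sum_nonneg fun r _ => by have := hτ0 t; positivity)
    ?_ fun x _ => (abs_abs _).le
  swap
  · calc _ ≤ ∑ t ∈ Finset.range T, 24 * (3 * C₄ + K) * N ^ 2 * m *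
          (((t : ℝ) + 1) ^ 2 * (19 / 20) ^ t) := by
          refine Finset.sum_le_sum fun t _ => ?_
          have p1 : (1 : ℝ) ≤ (N * (t + 1) : ℕ) := by exact_mod_cast hL t
          rw [Finset.sum_const, Finset.card_range, nsmul_eq_mul]
          calc _ ≤ ((N * (t + 1) : ℕ) : ℝ) * (24 * (3 * (C₄ * (19 / 20) ^ t) * (N * (t + 1) : ℕ) +
                τ t * (N * (t + 1) : ℕ)) * m) := by
                have p2 := le_mul_of_one_le_right
                  (show 0 ≤ 3 * (C₄ * (19 / 20) ^ t) by positivity) p1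
                gcongr ?_ * (24 * (?_ + _) * m)
            _ = _ := by
                simp only [hτ]
                push_cast
                ring
      _ ≤ _ := by
          rw [← Finset.mul_sum]
          exact (mul_le_mul_of_nonneg_left (r6_sq T) (by positivity)).trans_eq (by ring)
  have hcm := (cnt_meas (fun j t => (hlm j t).meas) T j₀ W.1).const_mul (12 ^ d + 20 * K)
  refine ((m1'.add m2 hY₁m.abs hcm hm (by positivity) (by positivity)).add m3
    (hY₁m.abs.add hcm) hY₃m hm (by positivity) zero_le_one).mono (by linarith) (by positivity)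
    ?_ fun x hx => le_trans ?_ (le_abs_self _)
  · have : (12 ^ d + 20 * K) * (2 * (m / l)) = (12 ^ d + 20 * K) * (2 / l) * m := by ring
    linarith
  have hj : ∀ j ∈ Finset.Icc j₀ W.1, |(G j).indicator (cv k j fun x => ∑ Q ∈ P, b Q x) x -
      ∑ t ∈ Finset.range T, ∑ r ∈ Finset.range (N * (t + 1)),
        (G j).indicator (pS k P b N t (τ t) r j) x| ≤ (12 ^ d + 20 * K) *
      (⋃ t ∈ Finset.range T, V j t).indicator (fun _ => (1 : ℝ)) x + |pe k P b N j T x| := by
    intro j hj
    obtain ⟨hj1, hj2⟩ := Finset.mem_Icc.1 hj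
    by_cases hxG : x ∈ G j
    swap
    · simp only [indicator_of_notMem hxG, Finset.sum_const_zero, sub_zero, abs_zero]
      have := indicator_nonneg (s := ⋃ t ∈ Finset.range T, V j t)
        (f := fun _ => (1 : ℝ)) (fun _ _ => zero_le_one) x
      positivity
    have e0 : Bl P b (j - T) = fun _ => 0 := funext fun y => Finset.sum_eq_zero fun Q hQ => by
      rw [Finset.mem_filter] at hQ
      have := hS Q hQ.1
      omega
    have e1 : cv k j (fun x => ∑ Q ∈ P, b Q x) x = pc k P b N j T x + pe k P b N j T x := by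
      rw [hP.cv_eq_Bl hk (H j hj1 hj2 x hx hxG), pe, pv, cv_Bw hk hP j (by omega), e0]
      simp [cv]
    have e2 : pc k P b N j T x = ∑ t ∈ Finset.range T, pD k P b N j t x := by
      have : pv k P b j 0 = fun _ => 0 := funext fun y => by
        rw [pv, cv_Bw hk hP j (by omega)]
        simp
      unfold pD
      rw [Finset.sum_range_sub fun t => pc k P b N j t x]
      simp [pc, this, ce]
    simp only [indicator_of_mem hxG, r6_class hN, e1]
    rw [add_sub_right_comm]
    refine (abs_add_le _ _).trans (add_le_add_left ?_ _)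
    by_cases hU : x ∈ ⋃ t ∈ Finset.range T, V j t
    · rw [indicator_of_mem hU, mul_one]
      refine (abs_sub _ _).trans (add_le_add (pc_le hk hP j T x)
        ((Finset.abs_sum_le_sum_abs _ _).trans ((Finset.sum_le_sum (g := τ) fun t _ => ?_).trans ?_)))
      · split_ifs with h
        · exact h
        · simpa using (hτ0 t).le
      · simp only [hτ, ← Finset.mul_sum]
        nlinarith [r6_geo T]
    · rw [indicator_of_notMem hU, mul_zero, e2, Finset.sum_congr rfl fun t ht =>
        if_pos (not_lt.1 fun h => hU (mem_iUnion₂.2 ⟨t, ht, h⟩)), sub_self, abs_zero]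
  have h5 := (Finset.abs_sum_le_sum_abs _ _).trans (Finset.sum_le_sum hj)
  rw [Finset.sum_sub_distrib, Finset.sum_add_distrib, ← Finset.mul_sum, Finset.sum_comm] at h5
  simp only [Finset.sum_comm (s := Finset.Icc j₀ W.1)] at h5
  simp only [TG, ps, cnt, hY₃]
  linarith [abs_sub_abs_le_abs_sub (∑ j ∈ Finset.Icc j₀ W.1,
    (G j).indicator (cv k j fun x => ∑ Q ∈ P, b Q x) x) (∑ t ∈ Finset.range T,
      ∑ r ∈ Finset.range (N * (t + 1)), ∑ j ∈ Finset.Icc j₀ W.1,
        (G j).indicator (pS k P b N t (τ t) r j) x)]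

end Pool.Agent.MP_418f02_an

end

section

/-! Exponential inequalities with predictable compensators. -/

open MeasureTheory Set
open scoped ENNReal

namespace Pool.Agent.MP_418f02_an

variable {d : ℕ}

/-- `F` is constant on the cubes of level `l` -/
def Lc {β : Type} (l : ℤ) (F : E d → β) : Prop := ∀ x y, ix l x = ix l y → F x = F y

theorem Lc.mono {β : Type} {k l : ℤ} {F : E d → β} (h : Lc l F) (hkl : k ≤ l) : Lc k F :=
  fun x y e => h x y (ix_mono hkl e)

theorem Lc.meas {l : ℤ} {F : E d → ℝ} (h : Lc l F) : Measurable F := measurable_of_ix h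

theorem Lc.ind {l : ℤ} {F : E d → ℝ} {S : Set (E d)} (h : Lc l F) (hS : LM l S) :
    Lc l (S.indicator F) := fun x y e => by
  by_cases hx : x ∈ S
  · rw [indicator_of_mem hx, indicator_of_mem (hS x y e hx), h x y e]
  · rw [indicator_of_notMem hx, indicator_of_notMem fun hy => hx (hS y x e.symm hy)]

theorem lint_one (c : Cb d) : ∫⁻ _ in cube c, (1 : ℝ≥0∞) = ENNReal.ofReal (sz d c.1) := by
  rw [setLIntegral_const, one_mul, volume_cube]

theorem lc_mul {l : ℤ} {S : Set (E d)} (hS : LM l S) {F : E d → ℝ} {H H' : E d → ℝ≥0∞}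
    (hF : Lc l F) (h : ∀ R : Cb d, R.1 = l → cube R ⊆ S →
      ∫⁻ x in cube R, H x ≤ ∫⁻ x in cube R, H' x) :
    ∫⁻ x in S, ENNReal.ofReal (F x) * H x ≤ ∫⁻ x in S, ENNReal.ofReal (F x) * H' x := by
  refine hS.lintegral_le fun R hR hs => ?_
  obtain ⟨z, hz⟩ := cube_nonempty R
  have e : ∀ G : E d → ℝ≥0∞, ∫⁻ x in cube R, ENNReal.ofReal (F x) * G x =
      ENNReal.ofReal (F z) * ∫⁻ x in cube R, G x := fun G => by
    rw [← lintegral_const_mul' _ _ ENNReal.ofReal_ne_top]
    exact setLIntegral_congr_fun (measurableSet_cube R) fun x hx => by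
      simp only [hF x z (hR ▸ Eq.trans hx (Eq.symm hz))]
  rw [e, e]
  exact mul_le_mul_right (h R hR hs) _

theorem mart_exp {a b : ℤ → ℤ} {X γ : ℤ → E d → ℝ} (J : Finset ℤ) (hab : ∀ j, b j ≤ a j)
    (hX : ∀ j, Lc (b j) (X j)) (hγ : ∀ j, Lc (a j) (γ j))
    (hsep : ∀ i ∈ J, ∀ j ∈ J, i < j → a i ≤ b j)
    (h : ∀ j ∈ J, ∀ R : Cb d, R.1 = a j → ∀ z ∈ cube R, ∫⁻ x in cube R,
      ENNReal.ofReal (Real.exp (X j x)) ≤ ENNReal.ofReal (Real.exp (γ j z) * sz d R.1))
    (W : Cb d) (hW : ∀ j ∈ J, a j ≤ W.1) :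
    ∫⁻ x in cube W, ENNReal.ofReal (Real.exp (∑ j ∈ J, (X j x - γ j x))) ≤
      ENNReal.ofReal (sz d W.1) := by
  induction J using Finset.induction_on_max generalizing W with
  | empty => simp [volume_cube]
  | insert j J hj ih =>
    have hn : j ∉ J := fun h => lt_irrefl _ (hj j h)
    have hm := Finset.mem_insert_self j J
    have hW' := hW j hm
    simp only [Finset.sum_insert hn, Real.exp_add, ENNReal.ofReal_mul (Real.exp_pos _).le]
    calc _ ≤ ∫⁻ x in cube W, ENNReal.ofReal (Real.exp (X j x - γ j x)) * 1 := by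
          refine lc_mul ((lm_cube W).mono ((hab j).trans hW')) (fun x y e => by
            simp only [hX j x y e, (hγ j).mono (hab j) x y e]) fun R hR _ => ?_
          rw [lint_one]
          exact ih (fun i hi k hk => hsep i (Finset.mem_insert_of_mem hi) k
            (Finset.mem_insert_of_mem hk)) (fun i hi => h i (Finset.mem_insert_of_mem hi)) R
            fun i hi => hR ▸ hsep i (Finset.mem_insert_of_mem hi) j hm (hj i hi)
      _ = ∫⁻ x in cube W, ENNReal.ofReal (Real.exp (-γ j x)) *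
            ENNReal.ofReal (Real.exp (X j x)) := lintegral_congr fun x => by
          rw [mul_one, ← ENNReal.ofReal_mul (Real.exp_pos _).le, ← Real.exp_add]
          congr 2
          ring
      _ ≤ ∫⁻ x in cube W, ENNReal.ofReal (Real.exp (-γ j x)) *
            ENNReal.ofReal (Real.exp (γ j x)) := by
          refine lc_mul ((lm_cube W).mono hW') (fun x y e => by simp only [hγ j x y e])
            fun R hR _ => ?_
          obtain ⟨z, hz⟩ := cube_nonempty R
          refine (h j hm R hR z hz).trans (le_of_eq ?_)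
          rw [← lint_const R (Real.exp_pos _).le]
          exact setLIntegral_congr_fun (measurableSet_cube R) fun x hx => by
            simp only [hγ j x z (hR ▸ Eq.trans hx (Eq.symm hz))]
      _ = _ := by
          rw [← lint_one]
          exact lintegral_congr fun x => by
            rw [← ENNReal.ofReal_mul (Real.exp_pos _).le, ← Real.exp_add]
            simp

theorem mom_comp {S Γ : E d → ℝ} {W : Cb d} {m B : ℝ} (hm : 1 ≤ m) (hB : 0 ≤ B)
    (hS : Measurable S) (hΓ : Measurable Γ) (hG : Mom Γ W m B)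
    (h1 : ∫⁻ x in cube W, ENNReal.ofReal (Real.exp (S x - Γ x)) ≤ ENNReal.ofReal (sz d W.1))
    (h2 : ∫⁻ x in cube W, ENNReal.ofReal (Real.exp (-S x - Γ x)) ≤ ENNReal.ofReal (sz d W.1)) :
    Mom S W m (4 * m + B) := by
  have hz := sz_pos (d := d) W.1
  set Z : E d → ℝ := fun x => max (|S x| - Γ x) 0 with hZ
  have hpt : ∀ x, Real.exp (1 / 2 * Z x) ≤
      1 + 1 / 2 * Real.exp (S x - Γ x) + 1 / 2 * Real.exp (-S x - Γ x) := fun x => by
    have p1 := Real.exp_pos (S x - Γ x)
    have p2 := Real.exp_pos (-S x - Γ x)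
    have p3 : Real.exp (Z x) = Real.exp (1 / 2 * Z x) ^ 2 := by
      rw [← Real.exp_nat_mul]
      congr 1
      push_cast
      ring
    have p4 : Real.exp (Z x) ≤ 1 + Real.exp (S x - Γ x) + Real.exp (-S x - Γ x) := by
      simp only [hZ]
      rcases le_total (|S x| - Γ x) 0 with h | h
      · rw [max_eq_right h, Real.exp_zero]
        linarith
      · rw [max_eq_left h]
        rcases abs_cases (S x) with ⟨e, -⟩ | ⟨e, -⟩ <;> rw [e] <;> linarith
    nlinarith [sq_nonneg (Real.exp (1 / 2 * Z x) - 1)]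
  have m1 : Measurable fun x => ENNReal.ofReal (Real.exp (S x - Γ x)) :=
    (hS.sub hΓ).exp.ennreal_ofReal
  have h3 : Mom Z W m (2 * (m / (1 / 2))) := by
    refine mom_of_exp (by norm_num) hm (fun x => le_max_right _ _) ?_
    calc _ ≤ ∫⁻ x in cube W, (1 + ENNReal.ofReal (1 / 2) * ENNReal.ofReal (Real.exp (S x - Γ x)) +
          ENNReal.ofReal (1 / 2) * ENNReal.ofReal (Real.exp (-S x - Γ x))) := by
          refine lintegral_mono fun x => ?_
          rw [← ENNReal.ofReal_mul (by norm_num), ← ENNReal.ofReal_mul (by norm_num),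
            ← ENNReal.ofReal_one, ← ENNReal.ofReal_add zero_le_one (by positivity),
            ← ENNReal.ofReal_add (by positivity) (by positivity)]
          exact ENNReal.ofReal_le_ofReal (hpt x)
      _ ≤ ENNReal.ofReal (sz d W.1) + ENNReal.ofReal (1 / 2) * ENNReal.ofReal (sz d W.1) +
          ENNReal.ofReal (1 / 2) * ENNReal.ofReal (sz d W.1) := by
          rw [lintegral_add_left (measurable_const.fun_add (m1.const_mul _)),
            lintegral_add_left measurable_const, lint_one,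
            lintegral_const_mul' _ _ ENNReal.ofReal_ne_top,
            lintegral_const_mul' _ _ ENNReal.ofReal_ne_top]
          gcongr
      _ = _ := by
          rw [← ENNReal.ofReal_mul (by norm_num), ← ENNReal.ofReal_add hz.le (by positivity),
            ← ENNReal.ofReal_add (by positivity) (by positivity)]
          congr 1
          ring
  refine (h3.add hG ((hS.abs.sub hΓ).max measurable_const) hΓ hm (by positivity) hB).mono
    (by linarith) (by positivity) (le_of_eq (by ring)) fun x _ => le_trans ?_ (le_abs_self _)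
  linarith [le_max_left (|S x| - Γ x) 0]

theorem exp_le_sq {x : ℝ} (h : |x| ≤ 1) : Real.exp x ≤ 1 + x + x ^ 2 := by
  linarith [(abs_le.1 (Real.abs_exp_sub_one_sub_id_le h)).2]

theorem small_exp {D : E d → ℝ} {c : Cb d} {τ v σ : ℝ} (hτ : 0 < τ) (hσ : |σ| ≤ 1)
    (hm : Measurable D) (hD : IntegrableOn D (cube c))
    (hD2 : IntegrableOn (fun x => D x ^ 2) (cube c)) (h0 : ∫ x in cube c, D x = 0)
    (h2 : ∫ x in cube c, D x ^ 2 ≤ v * τ ^ 2 * sz d c.1) : ∫⁻ x in cube c,
      ENNReal.ofReal (Real.exp (σ * (if |D x| ≤ τ then D x else 0) / τ)) ≤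
      ENNReal.ofReal (Real.exp (2 * v) * sz d c.1) := by
  have hz := sz_pos (d := d) c.1
  have hpt : ∀ x, Real.exp (σ * (if |D x| ≤ τ then D x else 0) / τ) ≤
      1 + σ / τ * D x + 2 / τ ^ 2 * D x ^ 2 := fun x => by
    set u := D x / τ with hu
    have e : 1 + σ / τ * D x + 2 / τ ^ 2 * D x ^ 2 = 1 + σ * u + 2 * u ^ 2 := by
      rw [hu]
      field_simp
    have p1 : |σ * u| ≤ |u| := by
      rw [abs_mul]
      exact mul_le_of_le_one_left (abs_nonneg _) hσ
    have p2 : |u| = |D x| / τ := by rw [hu, abs_div, abs_of_pos hτ]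
    rw [e]
    split_ifs with h
    · rw [mul_div_assoc, ← hu]
      have := exp_le_sq (p1.trans (p2 ▸ (div_le_one hτ).2 h))
      nlinarith [sq_le_sq.2 p1, sq_nonneg u]
    · have p3 : 1 ≤ |u| := p2 ▸ (one_le_div hτ).2 (not_le.1 h).le
      rw [mul_zero, zero_div, Real.exp_zero]
      nlinarith [neg_abs_le (σ * u), sq_abs u]
  have hc : IntegrableOn (fun _ : E d => (1 : ℝ)) (cube c) :=
    integrableOn_const (by rw [volume_cube]; simp)
  have hi := (hc.add (hD.const_mul (σ / τ))).add (hD2.const_mul (2 / τ ^ 2))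
  have _ := hm
  refine (lintegral_mono fun x => ENNReal.ofReal_le_ofReal (hpt x)).trans ?_
  refine (ofReal_integral_eq_lintegral_ofReal hi (Filter.Eventually.of_forall fun x =>
    (Real.exp_pos _).le.trans (hpt x))).symm.trans_le (ENNReal.ofReal_le_ofReal ?_)
  rw [integral_add' (hc.add (hD.const_mul _)) (hD2.const_mul _),
    integral_add' hc (hD.const_mul _), integral_const_mul, integral_const_mul, h0,
    setIntegral_const, bdry_real]
  have p1 : 2 / τ ^ 2 * ∫ x in cube c, D x ^ 2 ≤ 2 * v * sz d c.1 :=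
    (mul_le_mul_of_nonneg_left h2 (by positivity)).trans_eq (by field_simp)
  have p2 := mul_le_mul_of_nonneg_right (Real.add_one_le_exp (2 * v)) hz.le
  simp only [smul_eq_mul]
  linarith

theorem tele_exp {ι : Type} [DecidableEq ι] (s : Finset ι) (a : ι → ℤ) {g : ι → ℝ}
    (hg : ∀ e, 0 ≤ g e) : Real.exp (-∑ e ∈ s, g e) +
      ∑ e ∈ s, g e * Real.exp (-∑ e' ∈ s with a e ≤ a e', g e') ≤ 1 := by
  induction s using Finset.induction_on_min_value a with
  | empty => simp
  | insert e s he hmin ih =>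
    rw [Finset.sum_insert he, Finset.sum_insert he, Finset.filter_true_of_mem fun e' h => by
      rcases Finset.mem_insert.1 h with rfl | h
      exacts [le_rfl, hmin e' h], Finset.sum_insert he]
    have h1 : ∑ e' ∈ s, g e' * Real.exp (-∑ e'' ∈ insert e s with a e' ≤ a e'', g e'') ≤
        ∑ e' ∈ s, g e' * Real.exp (-∑ e'' ∈ s with a e' ≤ a e'', g e'') :=
      Finset.sum_le_sum fun e' _ => mul_le_mul_of_nonneg_left (Real.exp_le_exp.2 (neg_le_neg
        (Finset.sum_le_sum_of_subset_of_nonneg (Finset.filter_subset_filter _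
          (Finset.subset_insert _ _)) fun _ _ _ => hg _))) (hg e')
    have h2 : Real.exp (-∑ e ∈ s, g e) = Real.exp (g e) * Real.exp (-(g e + ∑ e ∈ s, g e)) := by
      rw [← Real.exp_add]
      congr 1
      ring
    have h3 := mul_le_mul_of_nonneg_right (Real.add_one_le_exp (g e))
      (Real.exp_pos (-(g e + ∑ e ∈ s, g e))).le
    linarith

/-- the number of centres of events of upper level at most `h` that occur -/
noncomputable def nq {ι : Type} (s : Finset ι) (I : Finset ℤ) (ctr a : ι → ℤ)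
    (V : ι → Set (E d)) (h : ℤ) (x : E d) : ℝ :=
  ∑ i ∈ I, (⋃ e ∈ s.filter fun e => ctr e = i ∧ a e ≤ h, V e).indicator (fun _ => (1 : ℝ)) x

theorem nq_nonneg {ι : Type} (s : Finset ι) (I : Finset ℤ) (ctr a : ι → ℤ)
    (V : ι → Set (E d)) (h : ℤ) (x : E d) : 0 ≤ nq s I ctr a V h x :=
  Finset.sum_nonneg fun _ _ => indicator_nonneg (fun _ _ => zero_le_one) _

theorem nq_meas {ι : Type} (s : Finset ι) (I : Finset ℤ) (ctr a : ι → ℤ)
    {V : ι → Set (E d)} (hV : ∀ e, MeasurableSet (V e)) (h : ℤ) :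
    Measurable (nq s I ctr a V h) :=
  Finset.measurable_sum _ fun _ _ => measurable_const.indicator
    (Finset.measurableSet_biUnion _ fun e _ => hV e)

theorem nq_step {ι : Type} (s : Finset ι) (I : Finset ℤ) {ctr a b : ι → ℤ}
    (hc : ∀ e, b e ≤ ctr e ∧ ctr e ≤ a e) (V : ι → Set (E d)) (h : ℤ) (x : E d) :
    nq s I ctr a V h x = 0 ∨ ∃ e ∈ s, a e ≤ h ∧ x ∈ V e ∧
      nq s I ctr a V h x ≤ 4 * (a e - b e : ℤ) + nq s I ctr a V (b e) x := by
  classical
  by_cases hne : (s.filter fun e => a e ≤ h ∧ x ∈ V e).Nonempty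
  · obtain ⟨e, he, hmax⟩ := Finset.exists_max_image _ (fun e => 2 * a e - b e) hne
    rw [Finset.mem_filter] at he
    refine Or.inr ⟨e, he.1, he.2.1, he.2.2, ?_⟩
    have h1 := hc e
    calc _ ≤ ∑ i ∈ I, ((if i ∈ Finset.Ioc (3 * b e - 2 * a e) (2 * a e - b e) then (1 : ℝ) else 0) +
          (⋃ e' ∈ s.filter fun e' => ctr e' = i ∧ a e' ≤ b e, V e').indicator (fun _ => 1) x) := by
          refine Finset.sum_le_sum fun i _ => ?_
          have p1 : (0 : ℝ) ≤ if i ∈ Finset.Ioc (3 * b e - 2 * a e) (2 * a e - b e) then 1 else 0 := by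
            split_ifs <;> norm_num
          have p2 := indicator_nonneg (s := ⋃ e' ∈ s.filter fun e' => ctr e' = i ∧ a e' ≤ b e, V e')
            (f := fun _ => (1 : ℝ)) (fun _ _ => zero_le_one) x
          by_cases hx : x ∈ ⋃ e' ∈ s.filter fun e' => ctr e' = i ∧ a e' ≤ h, V e'
          · obtain ⟨e', he', hx'⟩ := mem_iUnion₂.1 hx
            rw [Finset.mem_filter] at he'
            rw [indicator_of_mem hx]
            by_cases hb : a e' ≤ b e
            · rw [indicator_of_mem (mem_iUnion₂.2 ⟨e', Finset.mem_filter.2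
                ⟨he'.1, he'.2.1, hb⟩, hx'⟩)]
              linarith
            · have p3 := hmax e' (Finset.mem_filter.2 ⟨he'.1, he'.2.2, hx'⟩)
              have p4 := hc e'
              have p5 := he'.2.1
              rw [if_pos (Finset.mem_Ioc.2 (by omega))]
              linarith
          · rw [indicator_of_notMem hx]
            linarith
      _ ≤ _ := by
          rw [Finset.sum_add_distrib, Finset.sum_ite_mem, Finset.sum_const, nsmul_eq_mul, mul_one]
          refine add_le_add_left ?_ _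
          have := Finset.card_le_card (Finset.inter_subset_right (s₁ := I)
            (s₂ := Finset.Ioc (3 * b e - 2 * a e) (2 * a e - b e)))
          rw [Int.card_Ioc] at this
          have p1 : ((I ∩ Finset.Ioc (3 * b e - 2 * a e) (2 * a e - b e)).card : ℤ) ≤
              4 * (a e - b e) := by omega
          exact_mod_cast p1
  · refine Or.inl (Finset.sum_eq_zero fun i _ => indicator_of_notMem (fun hx => ?_) _)
    obtain ⟨e, he, hx⟩ := mem_iUnion₂.1 hx
    rw [Finset.mem_filter] at he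
    exact hne ⟨e, Finset.mem_filter.2 ⟨he.1, he.2.2, hx⟩⟩

theorem nq_exp {ι : Type} (s : Finset ι) (I : Finset ℤ) {ctr a b : ι → ℤ}
    (hc : ∀ e, b e ≤ ctr e ∧ ctr e ≤ a e) (hab : ∀ e, b e < a e) {V : ι → Set (E d)}
    (hV : ∀ e, LM (b e) (V e)) {γ : ι → E d → ℝ} (hγ : ∀ e, Lc (a e) (γ e))
    (h0 : ∀ e x, 0 ≤ γ e x) {l : ℝ} (hl : 0 ≤ l)
    (h : ∀ e ∈ s, ∀ R : Cb d, R.1 = a e → ∀ z ∈ cube R,
      ENNReal.ofReal (Real.exp (l * (4 * (a e - b e : ℤ)))) * volume (V e ∩ cube R) ≤
        ENNReal.ofReal (γ e z * sz d R.1)) (c : Cb d) :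
    ∫⁻ x in cube c, ENNReal.ofReal (Real.exp (l * nq s I ctr a V c.1 x -
      ∑ e ∈ s with a e ≤ c.1, γ e x)) ≤ ENNReal.ofReal (sz d c.1) := by
  classical
  obtain ⟨lo, hlo⟩ := (s.image a).bddBelow
  replace hlo : ∀ e ∈ s, lo ≤ a e := fun e he =>
    hlo (Finset.mem_coe.2 (Finset.mem_image_of_mem a he))
  set Y : ℤ → E d → ℝ≥0∞ := fun h x => ENNReal.ofReal (Real.exp (l * nq s I ctr a V h x -
    ∑ e ∈ s with a e ≤ h, γ e x)) with hY
  have hYm : ∀ h, Measurable (Y h) := fun h => (((nq_meas s I ctr a (fun e => (hV e).meas)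
    h).const_mul l).sub (Finset.measurable_sum _ fun e _ => (hγ e).meas)).exp.ennreal_ofReal
  have key : ∀ (N : ℕ) (c : Cb d), c.1 < lo + N →
      ∫⁻ x in cube c, Y c.1 x ≤ ENNReal.ofReal (sz d c.1) := by
    intro N
    induction N with
    | zero =>
      intro c hc'
      rw [← lint_one]
      refine lintegral_mono fun x => ENNReal.ofReal_le_one.2 (Real.exp_le_one_iff.2 ?_)
      rcases nq_step s I hc V c.1 x with e | ⟨e, he, h1, -⟩
      · rw [e, mul_zero, zero_sub]
        exact neg_nonpos.2 (Finset.sum_nonneg fun e _ => h0 e x)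
      · have := hlo e he
        omega
    | succ N ih =>
      intro c hc'
      set s' := s.filter fun e => a e ≤ c.1 with hs'
      set S : ι → E d → ℝ := fun e x => Real.exp (-∑ e' ∈ s' with a e ≤ a e', γ e' x) with hS
      have hSc : ∀ e, Lc (a e) (S e) := fun e x y h => by
        simp only [hS]
        rw [Finset.sum_congr rfl fun e' he' => (hγ e').mono (Finset.mem_filter.1 he').2 x y h]
      set κ : ι → ℝ≥0∞ := fun e => ENNReal.ofReal (Real.exp (l * (4 * (a e - b e : ℤ)))) with hκ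
      have hpt : ∀ x, Y c.1 x ≤ ENNReal.ofReal (Real.exp (-∑ e ∈ s', γ e x)) + ∑ e ∈ s',
          (V e).indicator (fun x => ENNReal.ofReal (S e x) * (κ e * Y (b e) x)) x := fun x => by
        rcases nq_step s I hc V c.1 x with e | ⟨e, he, h1, h2, h3⟩
        · refine le_add_right (le_of_eq ?_)
          simp only [hY, e, mul_zero, zero_sub, hs']
        · refine le_add_left (le_trans ?_ (Finset.single_le_sum (f := fun e => (V e).indicator
            (fun x => ENNReal.ofReal (S e x) * (κ e * Y (b e) x)) x) (fun _ _ => bot_le)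
            (Finset.mem_filter.2 ⟨he, h1⟩)))
          simp only [indicator_of_mem h2, hY, hκ, hS]
          rw [← ENNReal.ofReal_mul (Real.exp_pos _).le, ← ENNReal.ofReal_mul (Real.exp_pos _).le,
            ← Real.exp_add, ← Real.exp_add]
          refine ENNReal.ofReal_le_ofReal (Real.exp_le_exp.2 ?_)
          have p1 := hab e
          have p2 : ∑ e' ∈ s' with a e ≤ a e', γ e' x + ∑ e' ∈ s with a e' ≤ b e, γ e' x ≤
              ∑ e' ∈ s', γ e' x := by
            rw [← Finset.sum_filter_add_sum_filter_not s' fun e' => a e ≤ a e']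
            refine add_le_add_right (Finset.sum_le_sum_of_subset_of_nonneg (fun e' he' => ?_)
              fun e' _ _ => h0 e' x) _
            simp only [hs', Finset.mem_filter] at he' ⊢
            exact ⟨⟨he'.1, by omega⟩, by omega⟩
          linarith [mul_le_mul_of_nonneg_left h3 hl]
      have hone : ∀ e ∈ s', ∫⁻ x in cube c, (V e).indicator
          (fun x => ENNReal.ofReal (S e x) * (κ e * Y (b e) x)) x ≤
          ∫⁻ x in cube c, ENNReal.ofReal (S e x) * ENNReal.ofReal (γ e x) := fun e he => by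
        rw [hs', Finset.mem_filter] at he
        have p1 := hab e
        have hlm : LM (b e) (V e ∩ cube c) := fun x y h hx =>
          ⟨hV e x y h hx.1, (lm_cube c).mono (by omega) x y h hx.2⟩
        calc _ = ∫⁻ x in V e ∩ cube c, ENNReal.ofReal (S e x) * (κ e * Y (b e) x) := by
              rw [lintegral_indicator (hV e).meas, Measure.restrict_restrict (hV e).meas]
          _ ≤ ∫⁻ x in V e ∩ cube c, ENNReal.ofReal (S e x) * (κ e * 1) := by
              refine lc_mul hlm ((hSc e).mono p1.le) fun R hR _ => ?_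
              rw [lintegral_const_mul' _ _ ENNReal.ofReal_ne_top,
                lintegral_const_mul' _ _ ENNReal.ofReal_ne_top, lint_one, ← hR]
              exact mul_le_mul_right (ih R (by push_cast at hc'; omega)) _
          _ = ∫⁻ x in cube c, ENNReal.ofReal (S e x) * (V e).indicator (fun _ => κ e) x := by
              rw [← Measure.restrict_restrict (hV e).meas, ← lintegral_indicator (hV e).meas]
              refine lintegral_congr fun x => ?_
              by_cases hx : x ∈ V e <;> simp [hx]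
          _ ≤ _ := by
              refine lc_mul ((lm_cube c).mono he.2) (hSc e) fun R hR _ => ?_
              obtain ⟨z, hz⟩ := cube_nonempty R
              rw [lintegral_indicator_const (hV e).meas, Measure.restrict_apply (hV e).meas]
              refine (h e he.1 R hR z hz).trans (le_of_eq ?_)
              rw [← lint_const R (h0 e z)]
              exact setLIntegral_congr_fun (measurableSet_cube R) fun x hx => by
                simp only [hγ e x z (hR ▸ Eq.trans hx (Eq.symm hz))]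
      have m1 : Measurable fun x => ENNReal.ofReal (Real.exp (-∑ e ∈ s', γ e x)) :=
        (Finset.measurable_sum _ fun e _ => (hγ e).meas).neg.exp.ennreal_ofReal
      refine (lintegral_mono hpt).trans ?_
      rw [lintegral_add_left m1, lintegral_finsetSum _ fun e _ =>
        ((hSc e).meas.ennreal_ofReal.fun_mul ((hYm _).const_mul _)).indicator (hV e).meas]
      refine (add_le_add_right (Finset.sum_le_sum hone) _).trans ?_
      rw [← lintegral_finsetSum _ fun e _ =>
        (hSc e).meas.ennreal_ofReal.fun_mul (hγ e).meas.ennreal_ofReal, ← lintegral_add_left m1,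
        ← lint_one]
      refine lintegral_mono fun x => ?_
      simp only [hS, ← ENNReal.ofReal_mul (Real.exp_pos _).le]
      rw [← ENNReal.ofReal_sum_of_nonneg fun e _ => mul_nonneg (Real.exp_pos _).le (h0 e x),
        ← ENNReal.ofReal_add (Real.exp_pos _).le (Finset.sum_nonneg fun e _ =>
          mul_nonneg (Real.exp_pos _).le (h0 e x)), ENNReal.ofReal_le_one]
      simpa only [mul_comm] using tele_exp s' a fun e => h0 e x
  exact key (c.1 + 1 - lo).toNat c (by omega)

end Pool.Agent.MP_418f02_an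

end

section

/-! Translations of cubes and balls, and kernels that oscillate at a given scale. -/

open MeasureTheory Set Metric
open scoped ENNReal

namespace Pool.Agent.MP_418f02_an

variable {d : ℕ}

/-- the volume of the unit ball -/
noncomputable def vb (d : ℕ) : ℝ := volume.real (ball (0 : E d) 1)

theorem vb_pos : 0 < vb d :=
  ENNReal.toReal_pos (measure_ball_pos _ _ one_pos).ne' measure_ball_lt_top.ne

theorem ball_real (z : E d) {r : ℝ} (hr : 0 < r) : volume.real (ball z r) = r ^ d * vb d := by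
  rw [Measure.real, Measure.addHaar_ball_of_pos _ _ hr, ENNReal.toReal_mul,
    ENNReal.toReal_ofReal (by positivity), finrank_euclideanSpace_fin]
  rfl

theorem cube_fin (c : Cb d) : volume (cube c) ≠ ∞ := by
  rw [volume_cube]
  simp

theorem bdd_on {F : E d → ℝ} {M : ℝ} {S : Set (E d)} (hF : Measurable F) (hM : ∀ x, |F x| ≤ M)
    (hS : volume S ≠ ∞) : IntegrableOn F S :=
  Measure.integrableOn_of_bounded hS hF.aestronglyMeasurable (Filter.Eventually.of_forall hM)

theorem par_meas {F : E d → E d → ℝ} (hF : Measurable (Function.uncurry F)) (T : Set (E d)) :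
    Measurable fun x => ∫ y in T, F x y :=
  (hF.stronglyMeasurable.integral_prod_right (ν := volume.restrict T)).measurable

theorem par_le {F : E d → ℝ} {M : ℝ} {T : Set (E d)} (hT : volume T ≠ ∞)
    (hM : ∀ x ∈ T, |F x| ≤ M) : |∫ y in T, F y| ≤ M * volume.real T :=
  norm_setIntegral_le_of_norm_le_const (f := F) hT.lt_top hM

theorem bdd_swap {F : E d → E d → ℝ} {M : ℝ} {S T : Set (E d)}
    (hF : Measurable (Function.uncurry F)) (hM : ∀ x y, |F x y| ≤ M) (hS : volume S ≠ ∞)
    (hT : volume T ≠ ∞) : ∫ x in S, ∫ y in T, F x y = ∫ y in T, ∫ x in S, F x y := by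
  have := isFiniteMeasure_restrict.2 hS
  have := isFiniteMeasure_restrict.2 hT
  exact integral_integral_swap ((integrable_const M).mono' hF.aestronglyMeasurable
    (Filter.Eventually.of_forall fun p => hM p.1 p.2))

theorem ball_smul (G : E d → ℝ) {t : ℝ} (ht : t ≠ 0) (z : E d) (r : ℝ) :
    ∫ y in ball z r, G (t • y) = (|t| ^ d)⁻¹ * ∫ y in ball (t • z) (|t| * r), G y := by
  rw [Measure.setIntegral_comp_smul volume G _ ht, _root_.smul_ball ht, finrank_euclideanSpace_fin,
    abs_inv, abs_pow, smul_eq_mul, Real.norm_eq_abs]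

theorem ball_shift (G : E d → ℝ) (w z : E d) (r : ℝ) :
    ∫ y in ball z r, G (y + w) = ∫ y in ball (z + w) r, G y := by
  rw [← integral_indicator measurableSet_ball, ← integral_indicator measurableSet_ball,
    ← integral_add_right_eq_self ((ball (z + w) r).indicator G) w]
  congr 1
  funext y
  simp only [indicator, mem_ball, dist_add_right]

theorem ball_aff (G : E d → ℝ) {t : ℝ} (ht : 0 < t) (x z : E d) (r : ℝ) :
    ∫ y in ball z r, G (x + t • (z - y)) = (t ^ d)⁻¹ * ∫ y in ball x (t * r), G y := by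
  have h := ball_smul (fun y => G (y + (x + t • z))) (neg_ne_zero.2 ht.ne') z r
  rw [ball_shift, abs_neg, abs_of_pos ht, show -t • z + (x + t • z) = x by module] at h
  rw [← h]
  congr 1
  funext y
  congr 1
  module

theorem cube_shift (hd : 1 ≤ d) {F : E d → ℝ} {M : ℝ} (hF : Measurable F) (hM : ∀ x, |F x| ≤ M)
    (c : Cb d) (w : E d) : |(∫ x in cube c, F (x + w)) - ∫ x in cube c, F x| ≤
      4 * d * ‖w‖ / 2 ^ c.1 * M * sz d c.1 := by
  have hz := sz_pos (d := d) c.1
  have h2 := cube_two c.1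
  have hM0 : 0 ≤ M := (abs_nonneg _).trans (hM 0)
  have hd1 : (1 : ℝ) ≤ d := by exact_mod_cast hd
  have hm := measurableSet_cube c
  rcases le_total (2 ^ c.1) (2 * ‖w‖) with h | h
  · have a1 := par_le (F := fun x => F (x + w)) (cube_fin c) fun x _ => hM _
    have a2 := par_le (F := F) (cube_fin c) fun x _ => hM _
    rw [bdry_real] at a1 a2
    have a3 : 2 ≤ 4 * d * ‖w‖ / 2 ^ c.1 := by
      rw [le_div_iff₀ h2]
      nlinarith [norm_nonneg w]
    refine (abs_sub _ _).trans ?_
    nlinarith [mul_nonneg hM0 hz.le]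
  set B : Set (E d) := {x | ∀ i, x i ∈ Ico ((c.2 i : ℝ) * 2 ^ c.1 + ‖w‖)
    ((c.2 i + 1) * 2 ^ c.1 - ‖w‖)} with hB
  have hBm : MeasurableSet B := by
    rw [hB, ofPred_forall]
    exact MeasurableSet.iInter fun i => (by fun_prop : Measurable fun x : E d => x i)
      measurableSet_Ico
  have hBv : volume B = ENNReal.ofReal ((2 ^ c.1 - 2 * ‖w‖) ^ d) := by
    rw [hB, cube_vol_Ico, Finset.prod_congr rfl (g := fun _ => ENNReal.ofReal (2 ^ c.1 - 2 * ‖w‖))
      fun i _ => by congr 1; ring, Finset.prod_const, Finset.card_univ, Fintype.card_fin,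
      ENNReal.ofReal_pow (by linarith)]
  have hBc : ∀ x ∈ B, x ∈ cube c ∧ x - w ∈ cube c := fun x hx => by
    refine ⟨cube_mem.2 fun i => ?_, cube_mem.2 fun i => ?_⟩
    · have := norm_nonneg w
      exact ⟨by linarith [(hx i).1], by linarith [(hx i).2]⟩
    · have := abs_le.1 (show |w i| ≤ ‖w‖ from PiLp.norm_apply_le w i)
      rw [PiLp.sub_apply]
      exact ⟨by linarith [(hx i).1], by linarith [(hx i).2]⟩
  have i1 : ∀ {S : Set (E d)} {G : E d → ℝ}, MeasurableSet S → volume S ≠ ∞ → Measurable G →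
      (∀ x, |G x| ≤ M) → Integrable (S.indicator G) := fun hS hS' hG hb =>
    (integrable_indicator_iff hS).2 (bdd_on hG hb hS')
  have hc : ∀ x : E d, |(fun _ : E d => M) x| ≤ M := fun _ => (abs_of_nonneg hM0).le
  have i2 := (i1 hm (cube_fin c) (hF.comp (measurable_add_const w)) fun x => hM _).comp_sub_right w
  have i3 := i1 hm (cube_fin c) measurable_const hc
  have i4 := i1 hBm (by rw [hBv]; simp) measurable_const hc
  rw [← integral_indicator hm, ← integral_indicator hm, ← integral_sub_right_eq_self _ w]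
  refine ((integral_sub i2 (i1 hm (cube_fin c) hF hM)) ▸ abs_integral_le_integral_abs).trans
    ((integral_mono (g := fun x => (cube c).indicator (fun _ => M) (x - w) +
      (cube c).indicator (fun _ => M) x - 2 * B.indicator (fun _ => M) x)
      (i2.sub (i1 hm (cube_fin c) hF hM)).abs
      (((i3.comp_sub_right w).add i3).sub (i4.const_mul 2)) fun x => ?_).trans ?_)
  · have := hM x
    by_cases hx : x ∈ B
    · simp [hx, hBc x hx]
      linarith
    · by_cases a : x ∈ cube c <;> by_cases b : x - w ∈ cube c <;> simp [hx, a, b, this]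
      linarith
  · rw [integral_sub ((i3.comp_sub_right w).fun_add i3) (i4.const_mul 2),
      integral_add (i3.comp_sub_right w) i3, integral_sub_right_eq_self _ w, integral_const_mul,
      integral_indicator hm, integral_indicator hBm, setIntegral_const, setIntegral_const,
      bdry_real, Measure.real, hBv, ENNReal.toReal_ofReal (pow_nonneg (by linarith) _)]
    have h3 := one_add_mul_le_pow (a := -(2 * ‖w‖ / 2 ^ c.1))
      (by have := (div_le_one h2).2 h; linarith) d
    have h4 : (2 ^ c.1 - 2 * ‖w‖) ^ d = (1 + -(2 * ‖w‖ / 2 ^ c.1)) ^ d * sz d c.1 := by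
      rw [sz, ← mul_pow]
      congr 1
      field_simp
      ring
    rw [h4]
    simp only [smul_eq_mul]
    have h5 := mul_le_mul_of_nonneg_right h3 (mul_nonneg hM0 hz.le)
    calc _ ≤ 2 * (M * sz d c.1) - 2 * ((1 + d * -(2 * ‖w‖ / 2 ^ c.1)) * (M * sz d c.1)) := by
          linarith
      _ = _ := by ring

theorem cube_avg (hd : 1 ≤ d) {F : E d → ℝ} {M β r : ℝ} (hF : Measurable F) (hM : ∀ x, |F x| ≤ M)
    (hr : 0 < r) (h : ∀ x, |∫ y in ball x r, F y| ≤ β * (r ^ d * vb d)) (c : Cb d) :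
    |∫ x in cube c, F x| ≤ (β + 4 * d * r / 2 ^ c.1 * M) * sz d c.1 := by
  have hV : 0 < r ^ d * vb d := mul_pos (by positivity) vb_pos
  have hM0 : 0 ≤ M := (abs_nonneg _).trans (hM 0)
  have hz := sz_pos (d := d) c.1
  have h2 := cube_two c.1
  have hm : Measurable (Function.uncurry fun u x : E d => F (x + u)) :=
    hF.comp (measurable_snd.add measurable_fst)
  have hb : volume (ball (0 : E d) r) ≠ ∞ := measure_ball_lt_top.ne
  have a1 : |∫ u in ball (0 : E d) r, ∫ x in cube c, F (x + u)| ≤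
      β * (r ^ d * vb d) * sz d c.1 := by
    rw [bdd_swap hm (fun _ _ => hM _) hb (cube_fin c), ← bdry_real]
    refine par_le (cube_fin c) fun x _ => ?_
    simpa only [add_comm x, ball_shift, zero_add] using h x
  have a2 : |∫ u in ball (0 : E d) r, ((∫ x in cube c, F (x + u)) - ∫ x in cube c, F x)| ≤
      4 * d * r / 2 ^ c.1 * M * sz d c.1 * volume.real (ball (0 : E d) r) :=
    par_le hb fun u hu => (cube_shift hd hF hM c u).trans (by
      have := (mem_ball_zero_iff.1 hu).le
      gcongr)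
  rw [integral_sub (bdd_on (par_meas hm _) (fun u => par_le (cube_fin c) fun _ _ => hM _) hb)
    (integrableOn_const hb), setIntegral_const, ball_real _ hr, smul_eq_mul] at a2
  refine le_of_mul_le_mul_left ?_ hV
  rw [← abs_of_pos hV, ← abs_mul, abs_of_pos hV]
  have := abs_sub_abs_le_abs_sub (r ^ d * vb d * ∫ x in cube c, F x)
    (∫ u in ball (0 : E d) r, ∫ x in cube c, F (x + u))
  rw [abs_sub_comm] at this
  linarith

theorem cube_ball (hd : 1 ≤ d) {c : Cb d} {z : E d} (hz : z ∈ cube c) :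
    cube c ⊆ ball z (2 * d * 2 ^ c.1) := fun x hx => by
  have := norm_sub_le_of_cube hx hz
  have h1 : (1 : ℝ) ≤ d := by exact_mod_cast hd
  have h2 := cube_two c.1
  rw [mem_ball_iff_norm]
  nlinarith

/-- a kernel of height `a` at scale `l` that is regular below scale `δ'` on balls of radius at
least `ρ` and has cancellation above scale `δ` -/
structure BK (K : E d → ℝ) (a ρ δ δ' l Λ ϑ : ℝ) : Prop where
  nice : Nice K
  bdd : ∀ y, |K y| ≤ a
  k1 : ∀ (t : ℕ) (z : E d) (r : ℝ) (v : E d), ρ ≤ r → ‖v‖ ≤ 8 * d * δ' * (6 / 7) ^ t →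
    ∫ y in ball z r, |K (y + v) - K y| ≤ a * Λ * ϑ ^ t * r ^ d
  k2 : ∀ (t : ℕ) (z : E d) (r : ℝ), δ ≤ r * (6 / 7) ^ t → r ≤ l * (6 / 7) ^ t →
    |∫ y in ball z r, K y| ≤ a * Λ * ϑ ^ t * (r ^ d * vb d)
  k3 : ∀ (σ : ℝ) (z : E d), 0 ≤ σ → σ ≤ 1 → |K ((1 + σ) • z) - K z| ≤ a * Λ * σ

theorem BK.scale {K K' : E d → ℝ} {a ρ δ δ' l Λ ϑ c t : ℝ} (h : BK K a ρ δ δ' l Λ ϑ)
    (hK : Nice K') (hc : 0 ≤ c) (ht : t ≠ 0) (e : ∀ y, K' y = c * K (t • y)) :
    BK K' (c * a) (ρ / |t|) (δ / |t|) (δ' / |t|) (l / |t|) Λ ϑ := by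
  have h0 : 0 < |t| := abs_pos.2 ht
  refine ⟨hK, fun y => ?_, fun n z r v hr hv => ?_, fun n z r h1 h2 => ?_, fun σ z h1 h2 => ?_⟩
  · rw [e, abs_mul, abs_of_nonneg hc]
    exact mul_le_mul_of_nonneg_left (h.bdd _) hc
  · simp only [e, ← mul_sub, abs_mul, abs_of_nonneg hc, smul_add]
    rw [integral_const_mul, ball_smul (fun y => |K (y + t • v) - K y|) ht]
    rw [div_le_iff₀' h0] at hr
    have := h.k1 n (t • z) _ (t • v) hr (by
      rw [norm_smul, Real.norm_eq_abs]
      exact (mul_le_mul_of_nonneg_left hv h0.le).trans_eq (by field_simp))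
    calc _ ≤ c * ((|t| ^ d)⁻¹ * (a * Λ * ϑ ^ n * (|t| * r) ^ d)) := by gcongr
      _ = _ := by rw [mul_pow]; field_simp
  · simp only [e]
    rw [integral_const_mul, ball_smul K ht, abs_mul, abs_mul, abs_of_nonneg hc,
      abs_of_pos (by positivity : 0 < (|t| ^ d)⁻¹)]
    rw [div_le_iff₀' h0] at h1
    have := h.k2 n (t • z) (|t| * r) (h1.trans_eq (by ring))
      ((mul_le_mul_of_nonneg_left h2 h0.le).trans_eq (by field_simp))
    calc _ ≤ c * ((|t| ^ d)⁻¹ * (a * Λ * ϑ ^ n * ((|t| * r) ^ d * vb d))) := by gcongr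
      _ = _ := by rw [mul_pow]; field_simp
  · rw [e, e, ← mul_sub, abs_mul, abs_of_nonneg hc, smul_comm t, mul_assoc, mul_assoc]
    exact mul_le_mul_of_nonneg_left ((h.k3 σ _ h1 h2).trans_eq (by ring)) hc

theorem BK.rt (hd : 1 ≤ d) {K : E d → ℝ} {a ρ₀ δ₀ δ l Λ ϑ σ : ℝ} (h : BK K a ρ₀ δ₀ δ l Λ ϑ)
    (hδ : 0 < δ) {c : Cb d} (hρ : ρ₀ ≤ 2 * d * 2 ^ c.1) (h0 : 0 ≤ σ) (h1 : σ ≤ 1) {y w : E d} (t : ℕ)
    (hh : ∀ x ∈ cube c, ‖x - y + w - (1 + σ) • (x - y)‖ ≤ δ * (6 / 7) ^ t) :
    ∫ x in cube c, |K (x - y + w) - K (x - y)| ≤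
      a * (Λ * ((1 + 2 ^ d) * (2 * d) ^ d * ϑ ^ t + σ)) * sz d c.1 := by
  obtain ⟨x₀, hx₀⟩ := cube_nonempty c
  have hd1 : (1 : ℝ) ≤ d := by exact_mod_cast hd
  set η := δ * (6 / 7) ^ t with hη
  have hη0 : 0 < η := by positivity
  set ρ : ℝ := 2 * d * 2 ^ c.1 with hρd
  set κ := a * Λ * ϑ ^ t * ρ ^ d with hκ
  have hV : 0 < η ^ d * vb d := mul_pos (by positivity) vb_pos
  have hm := h.nice.meas
  have hb : ∀ u v, |(|K u - K v|)| ≤ a + a := fun u v =>
    (abs_abs _).trans_le ((abs_sub _ _).trans (add_le_add (h.bdd _) (h.bdd _)))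
  have hf : ∀ (z : E d) (r : ℝ), volume (ball z r) ≠ ∞ := fun _ _ => measure_ball_lt_top.ne
  have hs : 0 < 1 + σ := by linarith
  set F₁ : E d → E d → ℝ := fun x u => |K (x + (w - y) + u) - K (x + (w - y))| with hF₁
  set F₂ : E d → E d → ℝ := fun x u =>
    |K ((1 + σ) • (x + -y) + u) - K ((1 + σ) • (x + -y))| with hF₂
  have m1 : Measurable (Function.uncurry F₁) :=
    ((hm.comp (by fun_prop)).sub (hm.comp (by fun_prop))).abs
  have m2 : Measurable (Function.uncurry F₂) :=
    ((hm.comp (by fun_prop)).sub (hm.comp (by fun_prop))).abs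
  have hu : ∀ u ∈ ball (0 : E d) (2 * η), ‖u‖ ≤ 8 * d * δ * (6 / 7) ^ t := fun u hu => by
    have := mem_ball_zero_iff.1 hu
    rw [mul_assoc, ← hη]
    nlinarith
  have mono : ∀ {F : E d → ℝ}, Measurable F → (∀ x, |F x| ≤ a + a) → (∀ x, 0 ≤ F x) →
      ∫ x in cube c, F x ≤ ∫ x in ball x₀ ρ, F x := fun hF hb h0 => setIntegral_mono_set
    (bdd_on hF hb (hf _ _)) (Filter.Eventually.of_forall h0) (cube_ball hd hx₀).eventuallyLE
  have a1 : ∀ u ∈ ball (0 : E d) η, |∫ x in cube c, F₁ x u| ≤ κ := fun u hu' => by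
    rw [abs_of_nonneg (integral_nonneg fun _ => abs_nonneg _)]
    refine (mono m1.of_uncurry_right (fun _ => hb _ _) fun _ => abs_nonneg _).trans ?_
    rw [ball_shift fun z => |K (z + u) - K z|]
    exact h.k1 t _ _ u hρ (hu u (ball_subset_ball (by linarith) hu'))
  have a2 : ∀ u ∈ ball (0 : E d) (2 * η), |∫ x in cube c, F₂ x u| ≤ κ := fun u hu' => by
    rw [abs_of_nonneg (integral_nonneg fun _ => abs_nonneg _)]
    refine (mono m2.of_uncurry_right (fun _ => hb _ _) fun _ => abs_nonneg _).trans ?_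
    rw [ball_shift fun z => |K ((1 + σ) • z + u) - K ((1 + σ) • z)|,
      ball_smul (fun z => |K (z + u) - K z|) hs.ne', abs_of_pos hs, inv_mul_le_iff₀ (by positivity)]
    refine (h.k1 t _ _ u (hρ.trans (le_mul_of_one_le_left (by positivity) (by linarith)))
      (hu u hu')).trans_eq ?_
    rw [hκ, mul_pow]
    ring
  have hpt : ∀ x ∈ cube c, η ^ d * vb d * |K (x - y + w) - K (x - y)| ≤
      η ^ d * vb d * (a * Λ * σ) + (∫ u in ball (0 : E d) η, F₁ x u) +
        ∫ u in ball (0 : E d) (2 * η), F₂ x u := fun x hx => by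
    set g := x - y + w - (1 + σ) • (x - y) with hg
    have i1 := bdd_on (m1.of_uncurry_left (x := x)) (fun _ => hb _ _) (hf 0 η)
    have i2 := bdd_on (F := fun u => F₂ x (u + g)) (m2.of_uncurry_left.comp
      (measurable_add_const g)) (fun _ => hb _ _) (hf 0 η)
    have p1 : ∫ u in ball (0 : E d) η, F₂ x (u + g) ≤ ∫ u in ball (0 : E d) (2 * η), F₂ x u := by
      rw [ball_shift (F₂ x), zero_add]
      refine setIntegral_mono_set (bdd_on m2.of_uncurry_left (fun _ => hb _ _) (hf _ _))
        (Filter.Eventually.of_forall fun _ => abs_nonneg _)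
        (ball_subset_ball' ?_).eventuallyLE
      rw [dist_zero_right]
      linarith [hh x hx]
    have p2 : η ^ d * vb d * |K (x - y + w) - K ((1 + σ) • (x - y))| ≤
        ∫ u in ball (0 : E d) η, (F₁ x u + F₂ x (u + g)) := by
      rw [← ball_real 0 hη0, ← smul_eq_mul, ← setIntegral_const]
      refine setIntegral_mono (integrableOn_const (hf _ _)) (i1.add i2) fun u => ?_
      simp only [hF₁, hF₂]
      rw [show (1 + σ) • (x + -y) + (u + g) = x + (w - y) + u by rw [hg]; module,
        show x + (w - y) = x - y + w by abel, ← sub_eq_add_neg x y, abs_sub_comm (K (_ + u))]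
      exact abs_sub_le _ _ _
    rw [integral_add i1 i2] at p2
    have p3 := mul_le_mul_of_nonneg_left ((abs_sub_le (K (x - y + w)) (K ((1 + σ) • (x - y)))
      (K (x - y))).trans (add_le_add_right (h.k3 σ (x - y) h0 h1) _)) hV.le
    linarith
  have i1 := bdd_on (par_meas m1 (ball 0 η)) (fun x => par_le (hf _ _) fun _ _ => hb _ _)
    (cube_fin c)
  have i2 := bdd_on (par_meas m2 (ball 0 (2 * η))) (fun x => par_le (hf _ _) fun _ _ => hb _ _)
    (cube_fin c)
  have i3 : IntegrableOn (fun _ : E d => η ^ d * vb d * (a * Λ * σ)) (cube c) :=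
    integrableOn_const (cube_fin c)
  have p4 := setIntegral_mono_on ((bdd_on (F := fun x => |K (x - y + w) - K (x - y)|)
    ((hm.comp (by fun_prop)).sub (hm.comp (by fun_prop))).abs (fun _ => hb _ _)
    (cube_fin c)).const_mul _) ((i3.add i1).add i2) (measurableSet_cube c) hpt
  simp only [Pi.add_apply] at p4
  rw [integral_const_mul, integral_add (i3.fun_add i1) i2, integral_add i3 i1,
    bdd_swap m1 (fun _ _ => hb _ _) (cube_fin c) (hf _ _),
    bdd_swap m2 (fun _ _ => hb _ _) (cube_fin c) (hf _ _), setIntegral_const, bdry_real] at p4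
  have p5 := (le_abs_self _).trans (par_le (hf _ _) a1)
  have p6 := (le_abs_self _).trans (par_le (hf _ _) a2)
  rw [ball_real _ hη0] at p5
  rw [ball_real _ (by positivity)] at p6
  refine le_of_mul_le_mul_left (p4.trans ((add_le_add (add_le_add_right p5 _) p6).trans_eq ?_)) hV
  rw [hκ, hρd, mul_pow (2 * d : ℝ), mul_pow 2 η, smul_eq_mul, sz]
  ring

end Pool.Agent.MP_418f02_an

end
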